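import Mathlib

/-!
# Closed oligomorphic permutation groups: the profinite residual

`Cl G f`: `f` is in the pointwise closure of the permutation group `G`.
`Res G`: intersection of all open normal subgroups of `G`.
Main result: if `G` is closed and oligomorphic, every `f` in the closure of `G` is `σ ∘ n` with
`σ ∈ G` and `n` in the closure of `Res G`.
-/

open Equiv

namespace Pool.Agent.Olig

theorem ia (g : Perm ℕ) (x : ℕ) : g⁻¹ (g x) = x := by simp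

theorem ai (g : Perm ℕ) (x : ℕ) : g (g⁻¹ x) = x := by simp

/-- `f` is in the pointwise closure of `G`. -/
def Cl (G : Subgroup (Perm ℕ)) (f : ℕ → ℕ) : Prop :=
  ∀ F : Finset ℕ, ∃ g ∈ G, ∀ x ∈ F, g x = f x

/-- `G` is closed in `Sym(ω)`. -/
def ClosedG (G : Subgroup (Perm ℕ)) : Prop := ∀ g : Perm ℕ, Cl G g → g ∈ G

/-- `G` is oligomorphic. -/
def Oligo (G : Subgroup (Perm ℕ)) : Prop :=
  ∀ k : ℕ, ∃ T : Finset (Fin k → ℕ), ∀ x : Fin k → ℕ, ∃ t ∈ T, ∃ g ∈ G, ∀ i, g (t i) = x i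

/-- `V` is an open subgroup of `G`. -/
structure OpenIn (G V : Subgroup (Perm ℕ)) : Prop where
  le : V ≤ G
  op : ∃ A : Finset ℕ, ∀ g ∈ G, (∀ x ∈ A, g x = x) → g ∈ V

/-- `V` is an open normal subgroup of `G`. -/
structure ON (G V : Subgroup (Perm ℕ)) : Prop extends OpenIn G V where
  nm : ∀ g ∈ G, ∀ v ∈ V, g * v * g⁻¹ ∈ V

/-- The intersection of all open normal subgroups of `G`. -/
def Res (G : Subgroup (Perm ℕ)) : Subgroup (Perm ℕ) := sInf {V | ON G V}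

theorem ON.self (G : Subgroup (Perm ℕ)) : ON G G :=
  ⟨⟨le_rfl, ∅, fun _ hg _ => hg⟩, fun _ hg _ hv => G.mul_mem (G.mul_mem hg hv) (G.inv_mem hg)⟩

theorem mem_Res {G : Subgroup (Perm ℕ)} {g : Perm ℕ} : g ∈ Res G ↔ ∀ V, ON G V → g ∈ V := by
  unfold Res
  rw [Subgroup.mem_sInf]
  rfl

theorem Res_le (G : Subgroup (Perm ℕ)) : Res G ≤ G := fun _ hg => mem_Res.1 hg G (ON.self G)

theorem OpenIn.inf {G V W : Subgroup (Perm ℕ)} (hV : OpenIn G V) (hW : OpenIn G W) :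
    OpenIn G (V ⊓ W) := by
  classical
  obtain ⟨A, hA⟩ := hV.op
  obtain ⟨B, hB⟩ := hW.op
  refine ⟨inf_le_left.trans hV.le, A ∪ B, fun g hg h => ⟨hA g hg fun x hx => ?_, hB g hg fun x hx => ?_⟩⟩
  · exact h x (Finset.mem_union_left _ hx)
  · exact h x (Finset.mem_union_right _ hx)

theorem ON.inf {G V W : Subgroup (Perm ℕ)} (hV : ON G V) (hW : ON G W) : ON G (V ⊓ W) :=
  ⟨hV.toOpenIn.inf hW.toOpenIn, fun g hg v hv => ⟨hV.nm g hg v hv.1, hW.nm g hg v hv.2⟩⟩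

theorem OpenIn.trans {G V W : Subgroup (Perm ℕ)} (hV : OpenIn G V) (hW : OpenIn V W) :
    OpenIn G W := by
  classical
  obtain ⟨A, hA⟩ := hV.op
  obtain ⟨B, hB⟩ := hW.op
  refine ⟨hW.le.trans hV.le, A ∪ B, fun g hg h => hB g (hA g hg fun x hx => ?_) fun x hx => ?_⟩
  · exact h x (Finset.mem_union_left _ hx)
  · exact h x (Finset.mem_union_right _ hx)

theorem Cl.mono {G H : Subgroup (Perm ℕ)} (h : G ≤ H) {f : ℕ → ℕ} (hf : Cl G f) : Cl H f := by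
  intro F
  obtain ⟨g, hg, h1⟩ := hf F
  exact ⟨g, h hg, h1⟩

theorem Cl.of_mem {G : Subgroup (Perm ℕ)} {g : Perm ℕ} (hg : g ∈ G) : Cl G g :=
  fun _ => ⟨g, hg, fun _ _ => rfl⟩

theorem Cl.comp {G : Subgroup (Perm ℕ)} {f h : ℕ → ℕ} (hf : Cl G f) (hh : Cl G h) :
    Cl G (f ∘ h) := by
  classical
  intro F
  obtain ⟨g', hg', h1⟩ := hh F
  obtain ⟨g, hg, h2⟩ := hf (F.image h)
  refine ⟨g * g', G.mul_mem hg hg', fun x hx => ?_⟩
  rw [Perm.mul_apply, h1 x hx, h2 _ (Finset.mem_image_of_mem _ hx)]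
  rfl

theorem Cl.injective {G : Subgroup (Perm ℕ)} {f : ℕ → ℕ} (hf : Cl G f) : Function.Injective f := by
  intro x y hxy
  obtain ⟨g, _, h⟩ := hf {x, y}
  have h1 := h x (by simp)
  have h2 := h y (by simp)
  exact g.injective (by rw [h1, h2, hxy])

/-- oligomorphic groups and tuples indexed by a finite type -/
theorem Oligo.fintype {G : Subgroup (Perm ℕ)} (hG : Oligo G) (ι : Type) [Fintype ι] :
    ∃ T : Finset (ι → ℕ), ∀ x : ι → ℕ, ∃ t ∈ T, ∃ g ∈ G, ∀ i, g (t i) = x i := by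
  classical
  obtain ⟨T, hT⟩ := hG (Fintype.card ι)
  let e := Fintype.equivFin ι
  refine ⟨T.image (fun t i => t (e i)), fun x => ?_⟩
  obtain ⟨t, ht, g, hg, h⟩ := hT (fun i => x (e.symm i))
  refine ⟨fun i => t (e i), Finset.mem_image_of_mem _ ht, g, hg, fun i => ?_⟩
  rw [h (e i)]
  simp

/-- an open subgroup of an oligomorphic group is oligomorphic -/
theorem OpenIn.oligo {G U : Subgroup (Perm ℕ)} (hU : OpenIn G U) (hG : Oligo G) : Oligo U := by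
  classical
  intro k
  obtain ⟨A, hA⟩ := hU.op
  obtain ⟨T, hT⟩ := hG.fintype ({x // x ∈ A} ⊕ Fin k)
  let P : ({x // x ∈ A} ⊕ Fin k → ℕ) → (Fin k → ℕ) → Prop := fun t x =>
    ∃ g ∈ G, (∀ a : {x // x ∈ A}, g (t (Sum.inl a)) = a.1) ∧ ∀ i, g (t (Sum.inr i)) = x i
  refine ⟨T.image (fun t => if h : ∃ x, P t x then h.choose else 0), fun x => ?_⟩
  obtain ⟨t, ht, g, hg, h⟩ := hT (Sum.elim (fun a => a.1) x)
  have hP : ∃ x, P t x := ⟨x, g, hg, fun a => h (Sum.inl a), fun i => h (Sum.inr i)⟩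
  refine ⟨_, Finset.mem_image_of_mem _ ht, ?_⟩
  rw [dif_pos hP]
  obtain ⟨g', hg', h1, h2⟩ := hP.choose_spec
  refine ⟨g * g'⁻¹, hA _ (G.mul_mem hg (G.inv_mem hg')) (fun a ha => ?_), fun i => ?_⟩
  · have e1 := h1 ⟨a, ha⟩
    have e2 := h (Sum.inl ⟨a, ha⟩)
    rw [Perm.mul_apply]
    have e3 : g'⁻¹ a = t (Sum.inl ⟨a, ha⟩) := by
      rw [Perm.inv_eq_iff_eq]; exact e1.symm
    rw [e3, e2]
    rfl
  · rw [Perm.mul_apply]
    have e3 : g'⁻¹ (hP.choose i) = t (Sum.inr i) := by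
      rw [Perm.inv_eq_iff_eq]; exact (h2 i).symm
    rw [e3]
    exact h (Sum.inr i)

theorem OpenIn.closedG {G U : Subgroup (Perm ℕ)} (hU : OpenIn G U) (hG : ClosedG G) :
    ClosedG U := by
  intro g hg
  have hgG := hG g (hg.mono hU.le)
  obtain ⟨A, hA⟩ := hU.op
  obtain ⟨u, hu, h⟩ := hg A
  have h1 : u⁻¹ * g ∈ U := hA _ (G.mul_mem (G.inv_mem (hU.le hu)) hgG) (fun x hx => by
    rw [Perm.mul_apply, Perm.inv_eq_iff_eq]; exact (h x hx).symm)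
  have := U.mul_mem hu h1
  rwa [mul_inv_cancel_left] at this

/-- minimality: for a finite set `F` some open normal `V` moves `F` no more than all others. -/
theorem exists_min {G : Subgroup (Perm ℕ)} (hG : Oligo G) (F : Finset ℕ) :
    ∃ V, ON G V ∧ ∀ v ∈ V, ∀ W, ON G W → ∃ w ∈ W, ∀ x ∈ F, w x = v x := by
  classical
  obtain ⟨T, hT⟩ := hG.fintype ({x // x ∈ F} × Bool)
  let pr : Perm ℕ → ({x // x ∈ F} × Bool → ℕ) := fun w i => if i.2 then w i.1.1 else i.1.1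
  let O : Subgroup (Perm ℕ) → Finset ({x // x ∈ F} × Bool → ℕ) := fun W =>
    T.filter (fun t => ∃ w ∈ W, ∃ g ∈ G, ∀ i, g (t i) = pr w i)
  obtain ⟨V, hV, hmin⟩ : ∃ V, ON G V ∧ ∀ W, ON G W → (O V).card ≤ (O W).card := by
    have hne : {V | ON G V}.Nonempty := ⟨G, ON.self G⟩
    refine ⟨Function.argminOn (fun V => (O V).card) {V | ON G V} hne,
      Function.argminOn_mem (fun V => (O V).card) _ hne, fun W hW => ?_⟩
    exact Function.argminOn_le (fun V => (O V).card) _ hW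
  refine ⟨V, hV, fun v hv W hW => ?_⟩
  have hVW := hV.inf hW
  have hsub : O (V ⊓ W) ⊆ O V := by
    intro t ht
    simp only [O, Finset.mem_filter] at ht ⊢
    obtain ⟨h1, w, hw, h2⟩ := ht
    exact ⟨h1, w, hw.1, h2⟩
  have heq : O (V ⊓ W) = O V := Finset.eq_of_subset_of_card_le hsub (hmin _ hVW)
  obtain ⟨t, ht, g, hg, h⟩ := hT (pr v)
  have htV : t ∈ O V := by
    simp only [O, Finset.mem_filter]
    exact ⟨ht, v, hv, g, hg, h⟩
  rw [← heq] at htV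
  simp only [O, Finset.mem_filter] at htV
  obtain ⟨_, w, hw, g', hg', h'⟩ := htV
  -- `k = g g'⁻¹`
  have hk : ∀ i, (g * g'⁻¹) (pr w i) = pr v i := by
    intro i
    rw [Perm.mul_apply, ← h' i, ia, h i]
  have hkG : g * g'⁻¹ ∈ G := G.mul_mem hg (G.inv_mem hg')
  refine ⟨(g * g'⁻¹) * w * (g * g'⁻¹)⁻¹, hW.nm _ hkG w hw.2, fun x hx => ?_⟩
  have h1 := hk (⟨x, hx⟩, false)
  have h2 := hk (⟨x, hx⟩, true)
  simp only [pr, if_true] at h2
  simp only [pr, Bool.false_eq_true, if_false] at h1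
  have h3 : (g * g'⁻¹)⁻¹ x = x := by rw [Perm.inv_eq_iff_eq]; exact h1.symm
  rw [Perm.mul_apply, h3, Perm.mul_apply, h2]

/-- `g` lies in the coset of `W` determined by `f`. -/
def Co (G : Subgroup (Perm ℕ)) (f : ℕ → ℕ) (W : Subgroup (Perm ℕ)) (g : Perm ℕ) : Prop :=
  g ∈ G ∧ ∀ F : Finset ℕ, ∃ w ∈ W, ∀ x ∈ F, g (w x) = f x

theorem Co.mono {G : Subgroup (Perm ℕ)} {f : ℕ → ℕ} {W W' : Subgroup (Perm ℕ)} (h : W ≤ W')
    {g : Perm ℕ} (hg : Co G f W g) : Co G f W' g :=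
  ⟨hg.1, fun F => let ⟨w, hw, h1⟩ := hg.2 F; ⟨w, h hw, h1⟩⟩

theorem Co.mul {G : Subgroup (Perm ℕ)} {f : ℕ → ℕ} {W : Subgroup (Perm ℕ)} (hWG : W ≤ G)
    {g w : Perm ℕ} (hg : Co G f W g) (hw : w ∈ W) : Co G f W (g * w) := by
  refine ⟨G.mul_mem hg.1 (hWG hw), fun F => ?_⟩
  obtain ⟨w', hw', h⟩ := hg.2 F
  refine ⟨w⁻¹ * w', W.mul_mem (W.inv_mem hw) hw', fun x hx => ?_⟩
  rw [Perm.mul_apply, Perm.mul_apply, ai]
  exact h x hx

theorem Co.div {G : Subgroup (Perm ℕ)} {f : ℕ → ℕ} {W : Subgroup (Perm ℕ)} (hW : OpenIn G W)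
    {g h : Perm ℕ} (hg : Co G f W g) (hh : Co G f W h) : g⁻¹ * h ∈ W := by
  obtain ⟨A, hA⟩ := hW.op
  obtain ⟨w, hw, h1⟩ := hg.2 A
  obtain ⟨w', hw', h2⟩ := hh.2 A
  have h3 : w⁻¹ * (g⁻¹ * h) * w' ∈ W := by
    refine hA _ (G.mul_mem (G.mul_mem (G.inv_mem (hW.le hw)) (G.mul_mem (G.inv_mem hg.1) hh.1))
      (hW.le hw')) (fun x hx => ?_)
    rw [Perm.mul_apply, Perm.mul_apply, Perm.mul_apply, h2 x hx, ← h1 x hx, ia,
      ia]
  have h4 := W.mul_mem (W.mul_mem hw h3) (W.inv_mem hw')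
  have h5 : w * (w⁻¹ * (g⁻¹ * h) * w') * w'⁻¹ = g⁻¹ * h := by group
  rwa [h5] at h4

theorem Co.exists {G : Subgroup (Perm ℕ)} {f : ℕ → ℕ} {W : Subgroup (Perm ℕ)} (hf : Cl G f)
    (hW : OpenIn G W) : ∃ g, Co G f W g := by
  classical
  obtain ⟨A, hA⟩ := hW.op
  obtain ⟨g, hg, h⟩ := hf A
  refine ⟨g, hg, fun F => ?_⟩
  obtain ⟨g', hg', h'⟩ := hf (F ∪ A)
  refine ⟨g⁻¹ * g', hA _ (G.mul_mem (G.inv_mem hg) hg') (fun x hx => ?_), fun x hx => ?_⟩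
  · rw [Perm.mul_apply, Perm.inv_eq_iff_eq, h' x (Finset.mem_union_right _ hx), h x hx]
  · rw [Perm.mul_apply, ai, h' x (Finset.mem_union_left _ hx)]

/-- the finite partial map `l` extends to elements of all cosets of `f` -/
def PP (G : Subgroup (Perm ℕ)) (f : ℕ → ℕ) (l : List (ℕ × ℕ)) : Prop :=
  ∀ W, ON G W → ∃ g, Co G f W g ∧ ∀ p ∈ l, g p.1 = p.2

theorem PP.forth {G : Subgroup (Perm ℕ)} {f : ℕ → ℕ} (hG : Oligo G) {l : List (ℕ × ℕ)}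
    (hP : PP G f l) (x : ℕ) : ∃ y, PP G f ((x, y) :: l) := by
  classical
  obtain ⟨V, hV, hmin⟩ := exists_min hG (insert x (l.map Prod.fst).toFinset)
  obtain ⟨g, hg, hgl⟩ := hP V hV
  refine ⟨g x, fun W hW => ?_⟩
  obtain ⟨h, hh, _⟩ := hP _ (hV.inf hW)
  have hv : h⁻¹ * g ∈ V := (hh.mono inf_le_left).div hV.toOpenIn hg
  obtain ⟨w, hw, hwv⟩ := hmin _ hv W hW
  have key : ∀ a ∈ insert x (l.map Prod.fst).toFinset, (h * w) a = g a := by
    intro a ha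
    rw [Perm.mul_apply, hwv a ha, Perm.mul_apply, ai]
  refine ⟨h * w, (hh.mono inf_le_right).mul hW.le hw, fun p hp => ?_⟩
  rcases List.mem_cons.1 hp with rfl | hp
  · exact key x (Finset.mem_insert_self _ _)
  · rw [key p.1 (Finset.mem_insert_of_mem (List.mem_toFinset.2 (List.mem_map_of_mem hp)))]
    exact hgl p hp

theorem PP.back {G : Subgroup (Perm ℕ)} {f : ℕ → ℕ} (hG : Oligo G) {l : List (ℕ × ℕ)}
    (hP : PP G f l) (y : ℕ) : ∃ x, PP G f ((x, y) :: l) := by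
  classical
  obtain ⟨V, hV, hmin⟩ := exists_min hG (insert y (l.map Prod.snd).toFinset)
  obtain ⟨g, hg, hgl⟩ := hP V hV
  refine ⟨g⁻¹ y, fun W hW => ?_⟩
  obtain ⟨h, hh, _⟩ := hP _ (hV.inf hW)
  have hv0 : g⁻¹ * h ∈ V := hg.div hV.toOpenIn (hh.mono inf_le_left)
  have hv : h * g⁻¹ ∈ V := by
    have := hV.nm g hg.1 _ hv0
    rwa [mul_inv_cancel_left] at this
  obtain ⟨w, hw, hwv⟩ := hmin _ hv W hW
  have key : ∀ a b, g a = b → b ∈ insert y (l.map Prod.snd).toFinset → (w⁻¹ * h) a = b := by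
    intro a b hab hb
    have h1 := hwv b hb
    rw [Perm.mul_apply] at h1
    rw [Perm.mul_apply, Perm.inv_eq_iff_eq, h1, ← hab, ia]
  have hco : Co G f W (w⁻¹ * h) := by
    have h1 : h⁻¹ * w⁻¹ * h ∈ W := by
      have := hW.nm h⁻¹ (G.inv_mem hh.1) w⁻¹ (W.inv_mem hw)
      rwa [inv_inv] at this
    have h2 := (hh.mono (inf_le_right : V ⊓ W ≤ W)).mul hW.le h1
    have h3 : h * (h⁻¹ * w⁻¹ * h) = w⁻¹ * h := by group
    rwa [h3] at h2
  refine ⟨w⁻¹ * h, hco, fun p hp => ?_⟩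
  rcases List.mem_cons.1 hp with rfl | hp
  · exact key _ _ (ai _ _) (Finset.mem_insert_self _ _)
  · exact key _ _ (hgl p hp)
      (Finset.mem_insert_of_mem (List.mem_toFinset.2 (List.mem_map_of_mem hp)))

/-- Back and forth: a permutation in all cosets of `f`, extending `l`. -/
theorem PP.exists_perm {G : Subgroup (Perm ℕ)} {f : ℕ → ℕ} (hc : ClosedG G) (hG : Oligo G)
    {l : List (ℕ × ℕ)} (hP : PP G f l) :
    ∃ σ ∈ G, (∀ W, ON G W → Co G f W σ) ∧ ∀ p ∈ l, σ p.1 = p.2 := by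
  classical
  have hstep : ∀ (n : ℕ) (l : {l : List (ℕ × ℕ) // PP G f l}),
      ∃ l' : {l : List (ℕ × ℕ) // PP G f l}, (∀ p ∈ l.1, p ∈ l'.1) ∧ (∃ y, (n, y) ∈ l'.1) ∧
        ∃ x, (x, n) ∈ l'.1 := by
    intro n l
    obtain ⟨y, hy⟩ := l.2.forth hG n
    obtain ⟨x, hx⟩ := hy.back hG n
    refine ⟨⟨_, hx⟩, fun p hp => ?_, ⟨y, ?_⟩, ⟨x, ?_⟩⟩
    · exact List.mem_cons_of_mem _ (List.mem_cons_of_mem _ hp)
    · exact List.mem_cons_of_mem _ List.mem_cons_self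
    · exact List.mem_cons_self
  choose st hst1 hst2 hst3 using hstep
  let L : ℕ → {l : List (ℕ × ℕ) // PP G f l} := fun n => Nat.rec ⟨l, hP⟩ (fun n l => st n l) n
  have hL0 : L 0 = ⟨l, hP⟩ := rfl
  have hLs : ∀ n, L (n + 1) = st n (L n) := fun n => rfl
  have hmono : ∀ n m, n ≤ m → ∀ p ∈ (L n).1, p ∈ (L m).1 := by
    intro n m hnm
    induction hnm with
    | refl => exact fun p hp => hp
    | step _ ih =>
      intro p hp
      rw [Nat.succ_eq_add_one, hLs]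
      exact hst1 _ _ p (ih p hp)
  let R : ℕ → ℕ → Prop := fun a b => ∃ n, (a, b) ∈ (L n).1
  have htot : ∀ a, ∃ b, R a b := fun a => by
    obtain ⟨b, hb⟩ := hst2 a (L a)
    exact ⟨b, a + 1, by rw [hLs]; exact hb⟩
  have hsur : ∀ b, ∃ a, R a b := fun b => by
    obtain ⟨a, ha⟩ := hst3 b (L b)
    exact ⟨a, b + 1, by rw [hLs]; exact ha⟩
  have hpair : ∀ a b a' b', R a b → R a' b' → ∃ g : Perm ℕ, g a = b ∧ g a' = b' := by
    rintro a b a' b' ⟨n, hn⟩ ⟨m, hm⟩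
    obtain ⟨g, _, hg⟩ := (L (max n m)).2 G (ON.self G)
    exact ⟨g, hg _ (hmono n _ (le_max_left _ _) _ hn), hg _ (hmono m _ (le_max_right _ _) _ hm)⟩
  have hfn : ∀ a b b', R a b → R a b' → b = b' := by
    intro a b b' h h'
    obtain ⟨g, h1, h2⟩ := hpair a b a b' h h'
    rw [← h1, ← h2]
  have hinj : ∀ a a' b, R a b → R a' b → a = a' := by
    intro a a' b h h'
    obtain ⟨g, h1, h2⟩ := hpair a b a' b h h'
    exact g.injective (h1.trans h2.symm)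
  choose fw hfw using htot
  choose bw hbw using hsur
  let σ : Perm ℕ := ⟨fw, bw, fun a => hinj _ _ (fw a) (hbw _) (hfw a),
    fun b => hfn (bw b) _ _ (hfw _) (hbw b)⟩
  have hσ : ∀ a, R a (σ a) := hfw
  -- approximation
  have happ : ∀ F : Finset ℕ, ∀ W, ON G W → ∃ g, Co G f W g ∧ ∀ x ∈ F, g x = σ x := by
    intro F W hW
    choose N hN using hσ
    obtain ⟨g, hg, h⟩ := (L (F.sup N)).2 W hW
    refine ⟨g, hg, fun x hx => ?_⟩
    exact h _ (hmono (N x) _ (Finset.le_sup hx) _ (hN x))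
  have hσG : σ ∈ G := by
    refine hc σ (fun F => ?_)
    obtain ⟨g, hg, h⟩ := happ F G (ON.self G)
    exact ⟨g, hg.1, h⟩
  refine ⟨σ, hσG, fun W hW => ?_, fun p hp => ?_⟩
  · obtain ⟨A, hA⟩ := hW.op
    obtain ⟨g, hg, h⟩ := happ A W hW
    have h1 : g⁻¹ * σ ∈ W := hA _ (G.mul_mem (G.inv_mem hg.1) hσG) (fun x hx => by
      rw [Perm.mul_apply, Perm.inv_eq_iff_eq]; exact (h x hx).symm)
    have := hg.mul hW.le h1
    rwa [mul_inv_cancel_left] at this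
  · refine hfn p.1 _ _ (hσ p.1) ⟨0, ?_⟩
    rw [hL0]
    exact hp

theorem mem_Res_of_co {G : Subgroup (Perm ℕ)} {n : Perm ℕ} (h : ∀ W, ON G W → Co G id W n) :
    n ∈ Res G := by
  rw [mem_Res]
  intro W hW
  have h1 : Co G id W 1 := ⟨G.one_mem, fun F => ⟨1, W.one_mem, fun x _ => rfl⟩⟩
  have := h1.div hW.toOpenIn (h W hW)
  simpa using this

/-- Every `f` in the closure of a closed oligomorphic group is `σ ∘ n` with `σ ∈ G`,
`n ∈ closure (Res G)`. -/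
theorem exists_decomp {G : Subgroup (Perm ℕ)} (hc : ClosedG G) (hG : Oligo G) {f : ℕ → ℕ}
    (hf : Cl G f) : ∃ σ ∈ G, Cl (Res G) (⇑σ⁻¹ ∘ f) := by
  classical
  have hP0 : PP G f [] := fun W hW => by
    obtain ⟨g, hg⟩ := Co.exists hf hW.toOpenIn
    exact ⟨g, hg, by simp⟩
  obtain ⟨σ, hσ, hco, _⟩ := hP0.exists_perm hc hG
  refine ⟨σ, hσ, fun F => ?_⟩
  have hP : PP G id (F.toList.map (fun x => (x, σ⁻¹ (f x)))) := by
    intro W hW
    obtain ⟨w, hw, h⟩ := (hco W hW).2 F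
    refine ⟨w, ⟨hW.le hw, fun F' => ⟨w⁻¹, W.inv_mem hw, fun x _ => ?_⟩⟩, fun p hp => ?_⟩
    · exact ai _ _
    · obtain ⟨x, hx, rfl⟩ := List.mem_map.1 hp
      have := h x (Finset.mem_toList.1 hx)
      simp only
      rw [← this, ia]
  obtain ⟨n, _, h1, h2⟩ := hP.exists_perm hc hG
  refine ⟨n, mem_Res_of_co h1, fun x hx => ?_⟩
  exact h2 (x, σ⁻¹ (f x)) (List.mem_map.2 ⟨x, Finset.mem_toList.2 hx, rfl⟩)

/-- monotonicity of the residual -/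
theorem Res_mono {G U : Subgroup (Perm ℕ)} (hU : U ≤ G) : Res U ≤ Res G := by
  intro g hg
  rw [mem_Res] at hg ⊢
  intro V hV
  have hVU : ON U (V ⊓ U) := by
    obtain ⟨A, hA⟩ := hV.op
    refine ⟨⟨inf_le_right, A, fun x hx h => ⟨hA x (hU hx) h, hx⟩⟩, fun x hx v hv => ?_⟩
    exact ⟨hV.nm x (hU hx) v hv.1, U.mul_mem (U.mul_mem hx hv.2) (U.inv_mem hx)⟩
  exact (hg _ hVU).1

/-- uniqueness in the decomposition -/
theorem mem_Res_of_comp {G U : Subgroup (Perm ℕ)} (hU : OpenIn G U) {k : Perm ℕ} (hk : k ∈ G)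
    {n₁ n₂ : ℕ → ℕ} (h1 : Cl (Res U) n₁) (h2 : Cl (Res U) n₂) (h : ⇑k ∘ n₁ = n₂) :
    k ∈ Res U := by
  have key : ∀ W : Subgroup (Perm ℕ), OpenIn G W → Res U ≤ W → k ∈ W := by
    intro W hW hRW
    obtain ⟨A, hA⟩ := hW.op
    obtain ⟨g₁, hg₁, e1⟩ := h1 A
    obtain ⟨g₂, hg₂, e2⟩ := h2 A
    have h3 : g₂⁻¹ * k * g₁ ∈ W := by
      refine hA _ (G.mul_mem (G.mul_mem (G.inv_mem (hW.le (hRW hg₂))) hk) (hW.le (hRW hg₁)))
        (fun x hx => ?_)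
      rw [Perm.mul_apply, Perm.mul_apply, Perm.inv_eq_iff_eq, e1 x hx, e2 x hx, ← h]
      rfl
    have h4 := W.mul_mem (W.mul_mem (hRW hg₂) h3) (W.inv_mem (hRW hg₁))
    have h5 : g₂ * (g₂⁻¹ * k * g₁) * g₁⁻¹ = k := by group
    rwa [h5] at h4
  rw [mem_Res]
  intro W hW
  exact key W (hU.trans hW.toOpenIn) (fun g hg => mem_Res.1 hg W hW)

/-- decomposition with respect to an open subgroup -/
theorem exists_decomp_open {G U : Subgroup (Perm ℕ)} (hc : ClosedG G) (hG : Oligo G)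
    (hU : OpenIn G U) {f : ℕ → ℕ} (hf : Cl G f) : ∃ σ ∈ G, Cl (Res U) (⇑σ⁻¹ ∘ f) := by
  obtain ⟨g, hg⟩ := Co.exists hf hU
  have hcl : Cl U (⇑g⁻¹ ∘ f) := by
    intro F
    obtain ⟨w, hw, h⟩ := hg.2 F
    refine ⟨w, hw, fun x hx => ?_⟩
    rw [Function.comp_apply, ← h x hx, ia]
  obtain ⟨σ, hσ, h⟩ := exists_decomp (hU.closedG hc) (hU.oligo hG) hcl
  refine ⟨g * σ, G.mul_mem hg.1 (hU.le hσ), ?_⟩
  have : ⇑(g * σ)⁻¹ ∘ f = ⇑σ⁻¹ ∘ (⇑g⁻¹ ∘ f) := by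
    rw [mul_inv_rev]
    rfl
  rw [this]
  exact h

end Pool.Agent.Olig
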