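import Pool.Agent.Olig.Basic

/-!
# Extending an abstract homomorphism to the closures
-/

open Equiv

namespace Pool.Agent.Olig

variable {G D : Subgroup (Perm ℕ)}

/-- `U` is open in `G` and `φ (Res U)` fixes `y`. -/
def Good (φ : G →* D) (y : ℕ) (U : Subgroup (Perm ℕ)) : Prop :=
  OpenIn G U ∧ ∀ g : G, (g : Perm ℕ) ∈ Res U → (φ g : Perm ℕ) y = y

/-- the homomorphism `φ` is controlled by the profinite residuals of open subgroups -/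
def Ctrl (φ : G →* D) : Prop := ∀ y : ℕ, ∃ U, Good φ y U

/-- the conjugate `g U g⁻¹` -/
def cj (g : Perm ℕ) (U : Subgroup (Perm ℕ)) : Subgroup (Perm ℕ) :=
  U.comap (MulAut.conj g⁻¹).toMonoidHom

theorem mem_cj {g x : Perm ℕ} {U : Subgroup (Perm ℕ)} : x ∈ cj g U ↔ g⁻¹ * x * g ∈ U := by
  unfold cj
  rw [Subgroup.mem_comap]
  simp [MulAut.conj_apply]

theorem OpenIn.cj {U : Subgroup (Perm ℕ)} (hU : OpenIn G U) {g : Perm ℕ} (hg : g ∈ G) :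
    OpenIn G (cj g U) := by
  classical
  obtain ⟨A, hA⟩ := hU.op
  refine ⟨fun x hx => ?_, A.image g, fun x hx h => ?_⟩
  · have h1 := hU.le (mem_cj.1 hx)
    have h2 := G.mul_mem (G.mul_mem hg h1) (G.inv_mem hg)
    have h3 : g * (g⁻¹ * x * g) * g⁻¹ = x := by group
    rwa [h3] at h2
  · rw [mem_cj]
    refine hA _ (G.mul_mem (G.mul_mem (G.inv_mem hg) hx) hg) (fun a ha => ?_)
    rw [Perm.mul_apply, Perm.mul_apply, h _ (Finset.mem_image_of_mem _ ha), ia]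

theorem ON.cj {U W : Subgroup (Perm ℕ)} (hW : ON U W) (g : Perm ℕ) : ON (cj g U) (cj g W) := by
  classical
  obtain ⟨A, hA⟩ := hW.op
  refine ⟨⟨fun x hx => mem_cj.2 (hW.le (mem_cj.1 hx)), A.image g, fun x hx h => ?_⟩,
    fun x hx w hw => ?_⟩
  · rw [mem_cj]
    refine hA _ (mem_cj.1 hx) (fun a ha => ?_)
    rw [Perm.mul_apply, Perm.mul_apply, h _ (Finset.mem_image_of_mem _ ha), ia]
  · rw [mem_cj] at *
    have := hW.nm _ hx _ hw
    have h3 : g⁻¹ * x * g * (g⁻¹ * w * g) * (g⁻¹ * x * g)⁻¹ = g⁻¹ * (x * w * x⁻¹) * g := by group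
    rwa [h3] at this

theorem Res_cj {U : Subgroup (Perm ℕ)} {g x : Perm ℕ} (hx : x ∈ Res (cj g U)) :
    g⁻¹ * x * g ∈ Res U := by
  rw [mem_Res] at *
  intro W hW
  exact mem_cj.1 (hx _ (hW.cj g))

theorem Cl_Res_cj {U : Subgroup (Perm ℕ)} {g : Perm ℕ} {n : ℕ → ℕ} (hn : Cl (Res (cj g U)) n) :
    Cl (Res U) (⇑g⁻¹ ∘ n ∘ ⇑g) := by
  classical
  intro F
  obtain ⟨x, hx, h⟩ := hn (F.image g)
  refine ⟨_, Res_cj hx, fun a ha => ?_⟩
  rw [Perm.mul_apply, Perm.mul_apply, h _ (Finset.mem_image_of_mem _ ha)]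
  rfl

theorem Good.mono {φ : G →* D} {y : ℕ} {U U' : Subgroup (Perm ℕ)} (h : Good φ y U)
    (hU' : OpenIn G U') (hle : U' ≤ U) : Good φ y U' :=
  ⟨hU', fun g hg => h.2 g (Res_mono hle hg)⟩

theorem Good.uniq {φ : G →* D} {y : ℕ} {U : Subgroup (Perm ℕ)} (h : Good φ y U) {f : ℕ → ℕ}
    {g g' : G} (h1 : Cl (Res U) (⇑(g : Perm ℕ)⁻¹ ∘ f)) (h2 : Cl (Res U) (⇑(g' : Perm ℕ)⁻¹ ∘ f)) :
    (φ g : Perm ℕ) y = (φ g' : Perm ℕ) y := by
  have hk : ((g'⁻¹ * g : G) : Perm ℕ) ∈ Res U := by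
    refine mem_Res_of_comp h.1 (g'⁻¹ * g : G).2 h1 h2 ?_
    funext x
    simp
  have h3 := h.2 _ hk
  rw [map_mul, map_inv] at h3
  have h4 : ((φ g')⁻¹ : D) * φ g = (((φ g')⁻¹ * φ g : D)) := rfl
  have h5 : (((φ g')⁻¹ * φ g : D) : Perm ℕ) y = (φ g' : Perm ℕ)⁻¹ ((φ g : Perm ℕ) y) := rfl
  rw [h5, Perm.inv_eq_iff_eq] at h3
  exact h3

/-- the extension -/
theorem exists_ext (hc : ClosedG G) (hG : Oligo G) (φ : G →* D) (hφ : Ctrl φ) :
    ∃ E : (ℕ → ℕ) → (ℕ → ℕ), (∀ f, Cl G f → Cl D (E f)) ∧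
      (∀ f f', Cl G f → Cl G f' → E (f ∘ f') = E f ∘ E f') ∧
      ∀ g : G, E (g : Perm ℕ) = (φ g : Perm ℕ) := by
  classical
  choose U hU using hφ
  have hdec : ∀ (V : Subgroup (Perm ℕ)), OpenIn G V → ∀ f, Cl G f →
      ∃ g : G, Cl (Res V) (⇑(g : Perm ℕ)⁻¹ ∘ f) := by
    intro V hV f hf
    obtain ⟨σ, hσ, h⟩ := exists_decomp_open hc hG hV hf
    exact ⟨⟨σ, hσ⟩, h⟩
  let E : (ℕ → ℕ) → (ℕ → ℕ) := fun f y =>
    if hf : Cl G f then (φ (hdec (U y) (hU y).1 f hf).choose : Perm ℕ) y else y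
  -- characterisation
  have hE : ∀ f, Cl G f → ∀ y V, Good φ y V → ∀ g : G, Cl (Res V) (⇑(g : Perm ℕ)⁻¹ ∘ f) →
      E f y = (φ g : Perm ℕ) y := by
    intro f hf y V hV g hg
    have h0 := (hdec (U y) (hU y).1 f hf).choose_spec
    have e0 : E f y = (φ (hdec (U y) (hU y).1 f hf).choose : Perm ℕ) y := dif_pos hf
    rw [e0]
    obtain ⟨g', hg'⟩ := hdec _ ((hU y).1.inf hV.1) f hf
    have h1 : Cl (Res (U y)) (⇑(g' : Perm ℕ)⁻¹ ∘ f) := hg'.mono (Res_mono inf_le_left)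
    have h2 : Cl (Res V) (⇑(g' : Perm ℕ)⁻¹ ∘ f) := hg'.mono (Res_mono inf_le_right)
    exact ((hU y).uniq h0 h1).trans (hV.uniq h2 hg)
  have hfin : ∀ F : Finset ℕ, ∃ V, OpenIn G V ∧ ∀ y ∈ F, Good φ y V := by
    intro F
    induction F using Finset.induction_on with
    | empty => exact ⟨G, (ON.self G).toOpenIn, by simp⟩
    | insert a s _ ih =>
      obtain ⟨V, hV, h⟩ := ih
      have hVa := hV.inf (hU a).1
      refine ⟨V ⊓ U a, hVa, fun y hy => ?_⟩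
      rcases Finset.mem_insert.1 hy with rfl | hy
      · exact (hU y).mono hVa inf_le_right
      · exact (h y hy).mono hVa inf_le_left
  refine ⟨E, fun f hf F => ?_, fun f f' hf hf' => ?_, fun g => ?_⟩
  · obtain ⟨V, hV, h⟩ := hfin F
    obtain ⟨g, hg⟩ := hdec V hV f hf
    exact ⟨φ g, (φ g).2, fun y hy => (hE f hf y V (h y hy) g hg).symm⟩
  · funext y
    obtain ⟨g2, hg2⟩ := hdec (U y) (hU y).1 f' hf'
    have e2 : E f' y = (φ g2 : Perm ℕ) y := hE f' hf' y _ (hU y) g2 hg2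
    have hgood : Good φ ((φ g2 : Perm ℕ) y) (cj g2 (U y)) := by
      refine ⟨(hU y).1.cj g2.2, fun x hx => ?_⟩
      have h1 := (hU y).2 (g2⁻¹ * x * g2) (Res_cj hx)
      rw [map_mul, map_mul, map_inv] at h1
      have h5 : (((φ g2)⁻¹ * φ x * φ g2 : D) : Perm ℕ) y =
        (φ g2 : Perm ℕ)⁻¹ ((φ x : Perm ℕ) ((φ g2 : Perm ℕ) y)) := rfl
      rw [h5, Perm.inv_eq_iff_eq] at h1
      exact h1
    obtain ⟨g1, hg1⟩ := hdec _ hgood.1 f hf
    have e1 : E f ((φ g2 : Perm ℕ) y) = (φ g1 : Perm ℕ) ((φ g2 : Perm ℕ) y) :=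
      hE f hf _ _ hgood g1 hg1
    have h3 : Cl (Res (U y)) (⇑((g1 * g2 : G) : Perm ℕ)⁻¹ ∘ (f ∘ f')) := by
      have h4 := (Cl_Res_cj hg1).comp hg2
      convert h4 using 1
      funext x
      simp
    rw [hE _ (hf.comp hf') y _ (hU y) (g1 * g2) h3, Function.comp_apply, e2, e1, map_mul]
    rfl
  · funext y
    refine hE _ (Cl.of_mem g.2) y _ (hU y) g ?_
    intro F
    exact ⟨1, (Res (U y)).one_mem, fun x _ => by simp⟩

end Pool.Agent.Olig
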