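import Pool.Agent.Olig.ResA

/-!
# Abstract isomorphisms which are continuous on the residual
-/

open Equiv Filter

namespace Pool.Agent.Olig

/-- `p : G → D` is an isomorphism with inverse `r` -/
structure GI (G D : Subgroup (Perm ℕ)) (p r : Perm ℕ → Perm ℕ) : Prop where
  cG : ClosedG G
  oG : Oligo G
  cD : ClosedG D
  oD : Oligo D
  pD : ∀ g ∈ G, p g ∈ D
  rG : ∀ d ∈ D, r d ∈ G
  pm : ∀ a ∈ G, ∀ b ∈ G, p (a * b) = p a * p b
  rp : ∀ g ∈ G, r (p g) = g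
  pr : ∀ d ∈ D, p (r d) = d

/-- `K` is a closed normal subgroup of `G` and oligomorphic -/
structure NS (G K : Subgroup (Perm ℕ)) : Prop where
  le : K ≤ G
  cl : ClosedG K
  nm : ∀ g ∈ G, ∀ k ∈ K, g * k * g⁻¹ ∈ K
  ol : Oligo K

namespace GI

variable {G D K : Subgroup (Perm ℕ)} {p r : Perm ℕ → Perm ℕ}

theorem p1 (h : GI G D p r) : p 1 = 1 := by
  have h1 := h.pm 1 G.one_mem 1 G.one_mem
  rw [mul_one] at h1
  exact mul_eq_left.1 h1.symm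

theorem pinv (h : GI G D p r) {a : Perm ℕ} (ha : a ∈ G) : p a⁻¹ = (p a)⁻¹ := by
  have h1 := h.pm a ha a⁻¹ (G.inv_mem ha)
  rw [mul_inv_cancel, h.p1] at h1
  exact (inv_eq_of_mul_eq_one_right h1.symm).symm

theorem rm (h : GI G D p r) {a b : Perm ℕ} (ha : a ∈ D) (hb : b ∈ D) : r (a * b) = r a * r b := by
  have h1 := h.pm _ (h.rG a ha) _ (h.rG b hb)
  rw [h.pr a ha, h.pr b hb] at h1
  rw [← h1, h.rp _ (G.mul_mem (h.rG a ha) (h.rG b hb))]

theorem symm (h : GI G D p r) : GI D G r p where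
  cG := h.cD
  oG := h.oD
  cD := h.cG
  oD := h.oG
  pD := h.rG
  rG := h.pD
  pm := fun _ ha _ hb => h.rm ha hb
  rp := h.pr
  pr := h.rp

/-- the image of the residual -/
def L (h : GI G D p r) (hK : NS G K) : Subgroup (Perm ℕ) where
  carrier := {d | d ∈ D ∧ r d ∈ K}
  one_mem' := ⟨D.one_mem, by rw [h.symm.p1]; exact K.one_mem⟩
  mul_mem' := fun {a b} ha hb => ⟨D.mul_mem ha.1 hb.1, by
    rw [h.rm ha.1 hb.1]; exact K.mul_mem ha.2 hb.2⟩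
  inv_mem' := fun {a} ha => ⟨D.inv_mem ha.1, by
    rw [h.symm.pinv ha.1]; exact K.inv_mem ha.2⟩

theorem L_le (h : GI G D p r) (hK : NS G K) : h.L hK ≤ D := fun _ hd => hd.1

theorem L_normal (h : GI G D p r) (hK : NS G K) {d l : Perm ℕ} (hd : d ∈ D) (hl : l ∈ h.L hK) :
    d * l * d⁻¹ ∈ h.L hK := by
  refine ⟨D.mul_mem (D.mul_mem hd hl.1) (D.inv_mem hd), ?_⟩
  rw [h.rm (D.mul_mem hd hl.1) (D.inv_mem hd), h.rm hd hl.1, h.symm.pinv hd]
  exact hK.nm _ (h.rG d hd) _ hl.2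

theorem p_mem_L (h : GI G D p r) (hK : NS G K) {k : Perm ℕ} (hk : k ∈ K) : p k ∈ h.L hK :=
  ⟨h.pD k (hK.le hk), by rw [h.rp k (hK.le hk)]; exact hk⟩

/-- continuity on the residual -/
def Cont (_ : GI G D p r) (_ : NS G K) : Prop :=
  ∀ y, ∃ F : Finset ℕ, ∀ k ∈ K, (∀ x ∈ F, k x = x) → p k y = y

/-- the points fixed by the image of a stabiliser in the residual are finite in number -/
theorem finite_fix (h : GI G D p r) (hK : NS G K) (hL : Oligo (h.L hK)) (F : Finset ℕ) :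
    {z | ∀ k ∈ K, (∀ x ∈ F, k x = x) → p k z = z}.Finite := by
  classical
  set Fix : Set ℕ := {z | ∀ k ∈ K, (∀ x ∈ F, k x = x) → p k z = z} with hFix
  obtain ⟨T, hT⟩ := hL 1
  obtain ⟨T2, hT2⟩ := hK.ol.fintype ({x // x ∈ F} ⊕ {x // x ∈ F})
  refine Set.Finite.subset (s := ⋃ t ∈ T, {z | z ∈ Fix ∧ ∃ l ∈ h.L hK, l (t 0) = z}) ?_ ?_
  swap
  · intro z hz
    obtain ⟨t, ht, l, hl, e⟩ := hT fun _ => z
    exact Set.mem_iUnion₂.2 ⟨t, ht, hz, l, hl, e 0⟩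
  refine Set.Finite.biUnion T.finite_toSet (fun t _ => ?_)
  rcases Set.eq_empty_or_nonempty {z | z ∈ Fix ∧ ∃ l ∈ h.L hK, l (t 0) = z} with he | ⟨b, hb, lb, hlb, eb⟩
  · rw [he]; exact Set.finite_empty
  -- elements moving the base point `b`
  have hex : ∀ z : {z | z ∈ Fix ∧ ∃ l ∈ h.L hK, l (t 0) = z}, ∃ k ∈ K, p k b = z.1 := by
    rintro ⟨z, hz, l, hl, e⟩
    have hmem : l * lb⁻¹ ∈ h.L hK := (h.L hK).mul_mem hl ((h.L hK).inv_mem hlb)
    refine ⟨r (l * lb⁻¹), hmem.2, ?_⟩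
    rw [h.pr _ hmem.1, ← eb, Perm.mul_apply, ia]
    exact e
  choose k hk hkz using hex
  have hex2 : ∀ z : {z | z ∈ Fix ∧ ∃ l ∈ h.L hK, l (t 0) = z}, ∃ τ : {τ // τ ∈ T2}, ∃ g ∈ K,
      (∀ x : {x // x ∈ F}, g (τ.1 (Sum.inl x)) = x.1) ∧
        ∀ x : {x // x ∈ F}, g (τ.1 (Sum.inr x)) = (k z)⁻¹ x.1 := by
    intro z
    obtain ⟨τ, hτ, g, hg, e⟩ := hT2 (Sum.elim (fun x => x.1) fun x => (k z)⁻¹ x.1)
    exact ⟨⟨τ, hτ⟩, g, hg, fun x => e (Sum.inl x), fun x => e (Sum.inr x)⟩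
  choose τ g hg hg1 hg2 using hex2
  have : Finite {z | z ∈ Fix ∧ ∃ l ∈ h.L hK, l (t 0) = z} := by
    refine Finite.of_injective τ (fun z z' hzz => Subtype.ext ?_)
    have hκ : g z' * (g z)⁻¹ ∈ K := K.mul_mem (hg z') (K.inv_mem (hg z))
    have hκ1 : ∀ x ∈ F, (g z' * (g z)⁻¹) x = x := by
      intro x hx
      have e1 := hg1 z ⟨x, hx⟩
      have e2 := hg1 z' ⟨x, hx⟩
      rw [← hzz] at e2
      simp only at e1 e2
      rw [Perm.mul_apply]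
      conv_lhs => rw [← e1, ia, e2]
    have hκ2 : ∀ x ∈ F, (k z' * (g z' * (g z)⁻¹) * (k z)⁻¹) x = x := by
      intro x hx
      have e1 := hg2 z ⟨x, hx⟩
      have e2 := hg2 z' ⟨x, hx⟩
      rw [← hzz] at e2
      simp only at e1 e2
      rw [Perm.mul_apply, Perm.mul_apply, Perm.mul_apply, ← e1, ia, e2, ai]
    have hmem : k z' * (g z' * (g z)⁻¹) * (k z)⁻¹ ∈ K :=
      K.mul_mem (K.mul_mem (hk z') hκ) (K.inv_mem (hk z))
    have h1 := z.2.1 _ hmem hκ2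
    have h2 := hb _ hκ hκ1
    rw [h.pm _ (G.mul_mem (hK.le (hk z')) (hK.le hκ)) _ (G.inv_mem (hK.le (hk z))),
      h.pm _ (hK.le (hk z')) _ (hK.le hκ), h.pinv (hK.le (hk z)), Perm.mul_apply,
      Perm.mul_apply] at h1
    rw [← hkz z, ia, h2, hkz z'] at h1
    rw [← hkz z]
    exact h1.symm
  exact Set.toFinite _

theorem finP (h : GI G D p r) (hK : NS G K) (hL : Oligo (h.L hK)) (hc : h.Cont hK) (y : ℕ) :
    ∃ (F Z : Finset ℕ), ∀ g ∈ stb G F, p g y ∈ Z := by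
  obtain ⟨F, hF⟩ := hc y
  refine ⟨F, (h.finite_fix hK hL F).toFinset, fun g hg => ?_⟩
  rw [Set.Finite.mem_toFinset]
  intro k hk hkF
  have h1 : g⁻¹ * k * g ∈ K := by
    have := hK.nm _ (G.inv_mem hg.1) _ hk
    rwa [inv_inv] at this
  have h2 := hF _ h1 (fun x hx => by
    rw [Perm.mul_apply, Perm.mul_apply, hg.2 x hx, hkF x hx, Perm.inv_eq_iff_eq, hg.2 x hx])
  have h3 : k * g = g * (g⁻¹ * k * g) := by group
  rw [← Perm.mul_apply, ← h.pm _ (hK.le hk) _ hg.1, h3, h.pm _ hg.1 _ (hK.le h1),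
    Perm.mul_apply, h2]

/-- the centraliser of the image of the residual -/
def C (h : GI G D p r) (hK : NS G K) : Subgroup (Perm ℕ) where
  carrier := {c | c ∈ D ∧ ∀ l ∈ h.L hK, ∀ y, c (l y) = l (c y)}
  one_mem' := ⟨D.one_mem, fun _ _ _ => rfl⟩
  mul_mem' := fun {a b} ha hb => ⟨D.mul_mem ha.1 hb.1, fun l hl y => by
    rw [Perm.mul_apply, Perm.mul_apply, hb.2 l hl, ha.2 l hl]⟩
  inv_mem' := fun {a} ha => ⟨D.inv_mem ha.1, fun l hl y => by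
    rw [Perm.inv_eq_iff_eq, ha.2 l hl, ai]⟩

theorem C_normal (h : GI G D p r) (hK : NS G K) {d c : Perm ℕ} (hd : d ∈ D) (hc : c ∈ h.C hK) :
    d * c * d⁻¹ ∈ h.C hK := by
  refine ⟨D.mul_mem (D.mul_mem hd hc.1) (D.inv_mem hd), fun l hl y => ?_⟩
  have h1 : d⁻¹ * l * d ∈ h.L hK := by
    have := h.L_normal hK (D.inv_mem hd) hl
    rwa [inv_inv] at this
  have h2 := hc.2 _ h1 (d⁻¹ y)
  rw [Perm.mul_apply, Perm.mul_apply, Perm.mul_apply, Perm.mul_apply, ai] at h2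
  rw [Perm.mul_apply, Perm.mul_apply, Perm.mul_apply, Perm.mul_apply, h2, ai]

theorem finite_C (h : GI G D p r) (hK : NS G K) (hL : Oligo (h.L hK)) : ((h.C hK : Subgroup (Perm ℕ)) : Set (Perm ℕ)).Finite := by
  classical
  obtain ⟨T, hT⟩ := hL 1
  obtain ⟨T2, hT2⟩ := hL 2
  have hex : ∀ (c : h.C hK) (t : {t // t ∈ T}), ∃ τ : {τ // τ ∈ T2}, ∃ g ∈ h.L hK,
      g (τ.1 0) = t.1 0 ∧ g (τ.1 1) = c.1 (t.1 0) := by
    intro c t
    obtain ⟨τ, hτ, g, hg, e⟩ := hT2 ![t.1 0, c.1 (t.1 0)]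
    exact ⟨⟨τ, hτ⟩, g, hg, e 0, e 1⟩
  choose τ g hg h0 h1 using hex
  have : Finite (h.C hK) := by
    refine Finite.of_injective τ (fun c c' hcc => Subtype.ext (Equiv.ext fun x => ?_))
    obtain ⟨t, ht, l, hl, e⟩ := hT fun _ => x
    have e := e 0
    rw [← e, c.2.2 l hl, c'.2.2 l hl]
    congr 1
    have hmem : g c' ⟨t, ht⟩ * (g c ⟨t, ht⟩)⁻¹ ∈ h.L hK := (h.L hK).mul_mem (hg _ _) ((h.L hK).inv_mem (hg _ _))
    have k1 : (g c' ⟨t, ht⟩ * (g c ⟨t, ht⟩)⁻¹) (t 0) = t 0 := by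
      have a1 := h0 c ⟨t, ht⟩
      have a2 := h0 c' ⟨t, ht⟩
      rw [← hcc] at a2
      simp only at a1 a2
      rw [Perm.mul_apply]
      conv_lhs => rw [← a1, ia, a2]
    have k2 : (g c' ⟨t, ht⟩ * (g c ⟨t, ht⟩)⁻¹) (c.1 (t 0)) = c'.1 (t 0) := by
      have a1 := h1 c ⟨t, ht⟩
      have a2 := h1 c' ⟨t, ht⟩
      rw [← hcc] at a2
      simp only at a1 a2
      rw [Perm.mul_apply, ← a1, ia, a2]
    rw [← k2, ← c.2.2 _ hmem, k1]
  exact Set.toFinite _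

/-- continuity modulo the centraliser -/
theorem contC (h : GI G D p r) (hK : NS G K) (hL : Oligo (h.L hK)) (hc : h.Cont hK) (Y : Finset ℕ) :
    ∃ F : Finset ℕ, ∀ g ∈ stb G F, ∃ c ∈ h.C hK, ∀ y ∈ Y, p g y = c y := by
  classical
  by_contra hcon
  push Not at hcon
  choose g hg hne using fun n : ℕ => hcon (Finset.range n)
  have hev : ∀ F : Finset ℕ, ∀ᶠ i in (UU : Filter ℕ), g i ∈ stb G F := by
    intro F
    filter_upwards [UU_ge (F.sup id + 1)] with i hi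
    refine ⟨(hg i).1, fun x hx => (hg i).2 x (Finset.mem_range.2 ?_)⟩
    exact lt_of_lt_of_le (Nat.lt_succ_of_le (Finset.le_sup (f := id) hx)) hi
  have hlim : ∀ y, ∃ z, ∀ᶠ i in (UU : Filter ℕ), p (g i) y = z := by
    intro y
    obtain ⟨F, Z, hZ⟩ := h.finP hK hL hc y
    refine UU_const (Z := Z) ?_
    filter_upwards [hev F] with i hi
    exact hZ _ hi
  have hlim' : ∀ y, ∃ z, ∀ᶠ i in (UU : Filter ℕ), (p (g i))⁻¹ y = z := by
    intro y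
    obtain ⟨F, Z, hZ⟩ := h.finP hK hL hc y
    refine UU_const (Z := Z) ?_
    filter_upwards [hev F] with i hi
    rw [← h.pinv (hg i).1]
    exact hZ _ ((stb G F).inv_mem hi)
  choose t ht using hlim
  choose t' ht' using hlim'
  have htt : ∀ y, t (t' y) = y := by
    intro y
    obtain ⟨i, h1, h2⟩ := ((ht' y).and (ht (t' y))).exists
    rw [← h2, ← h1, ai]
  have htt' : ∀ y, t' (t y) = y := by
    intro y
    obtain ⟨i, h1, h2⟩ := ((ht y).and (ht' (t y))).exists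
    rw [← h2, ← h1, ia]
  let τ : Perm ℕ := ⟨t, t', htt', htt⟩
  have hτ : ∀ y, τ y = t y := fun _ => rfl
  have hτD : τ ∈ D := by
    refine h.cD τ (fun F => ?_)
    obtain ⟨i, hi⟩ := ((Filter.eventually_all_finset F).2 fun y _ => ht y).exists
    exact ⟨p (g i), h.pD _ (hg i).1, hi⟩
  have hτC : τ ∈ h.C hK := by
    refine ⟨hτD, fun l hl y => ?_⟩
    obtain ⟨F', hF'⟩ := hc (t y)
    have hk := hl.2
    obtain ⟨i, ⟨h1, h2⟩, h3⟩ := (((ht y).and (ht (l y))).and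
      (hev (F' ∪ F'.image ⇑(r l)))).exists
    have hkl : p (r l) = l := h.pr l hl.1
    have hkG := hK.le hk
    have hmem : (r l)⁻¹ * (g i * r l * (g i)⁻¹) ∈ K :=
      K.mul_mem (K.inv_mem hk) (hK.nm _ (hg i).1 _ hk)
    have h4 := hF' _ hmem (fun x hx => by
      have h5 : (g i)⁻¹ x = x := by
        rw [Perm.inv_eq_iff_eq]
        exact (h3.2 x (Finset.mem_union_left _ hx)).symm
      rw [Perm.mul_apply, Perm.mul_apply, Perm.mul_apply, h5,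
        h3.2 _ (Finset.mem_union_right _ (Finset.mem_image_of_mem _ hx)), ia])
    have h6 : g i * r l = r l * ((r l)⁻¹ * (g i * r l * (g i)⁻¹)) * g i := by group
    rw [hτ, hτ, ← h2]
    conv_lhs => rw [← hkl]
    rw [← Perm.mul_apply, ← h.pm _ (hg i).1 _ hkG, h6,
      h.pm _ (G.mul_mem hkG (hK.le hmem)) _ (hg i).1, h.pm _ hkG _ (hK.le hmem),
      Perm.mul_apply, Perm.mul_apply, h1, h4, hkl]
  obtain ⟨i, hi⟩ := ((Filter.eventually_all_finset Y).2 fun y _ => ht y).exists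
  obtain ⟨y, hy, hy2⟩ := hne i τ hτC
  exact hy2 (hi y hy)

end GI

end Pool.Agent.Olig
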