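import Pool.Agent.Olig.OpenMap

/-!
# Control of the inverse isomorphism
-/

open Equiv Filter

namespace Pool.Agent.Olig

namespace GI

variable {G D K : Subgroup (Perm ℕ)} {p r : Perm ℕ → Perm ℕ}

theorem p_inj (h : GI G D p r) {a b : Perm ℕ} (ha : a ∈ G) (hb : b ∈ G) (e : p a = p b) :
    a = b := by
  rw [← h.rp a ha, ← h.rp b hb, e]

/-- the preimage of the centraliser is finite -/
theorem finite_T (h : GI G D p r) (hK : NS G K) (hL : Oligo (h.L hK)) : {g | g ∈ G ∧ p g ∈ h.C hK}.Finite := by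
  refine Set.Finite.of_finite_image ((h.finite_C hK hL).subset ?_) (f := p) ?_
  · rintro _ ⟨g, hg, rfl⟩
    exact hg.2
  · intro a ha b hb e
    exact h.p_inj ha.1 hb.1 e

/-- the inverse is continuous on the image of the residual -/
theorem contR (h : GI G D p r) (hK : NS G K) (hL : Oligo (h.L hK)) (hc : h.Cont hK) (F' : Finset ℕ) :
    ∃ Y : Finset ℕ, ∀ k ∈ K, p k ∈ stb D Y → k ∈ stb G F' := by
  classical
  have h1 : ∀ t : Perm ℕ, ∃ F : Finset ℕ, ∃ y : ℕ, t ∈ G →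
      (t ≠ 1 → ∃ x ∈ F, t x ≠ x) ∧
      (t ∉ K → ∀ k ∈ K, ∃ x ∈ F, k x ≠ t x) ∧
      (t ∈ K → t ≠ 1 → p t y ≠ y ∧
        ∀ v ∈ K, (∀ x ∈ F, v x = x) → p v (p t y) = p t y) := by
    intro t
    by_cases ht1 : t = 1
    · exact ⟨∅, 0, fun _ => ⟨fun h => absurd ht1 h, fun h => absurd (ht1 ▸ K.one_mem) h,
        fun _ h => absurd ht1 h⟩⟩
    obtain ⟨x0, hx0⟩ : ∃ x, t x ≠ x := by
      by_contra hcon
      push Not at hcon
      exact ht1 (Equiv.ext hcon)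
    by_cases htR : t ∈ K
    · obtain ⟨y, hy⟩ : ∃ y, p t y ≠ y := by
        by_contra hcon
        push Not at hcon
        refine ht1 (h.p_inj (hK.le htR) G.one_mem ?_)
        rw [h.p1]
        exact Equiv.ext hcon
      obtain ⟨F, hF⟩ := hc (p t y)
      refine ⟨insert x0 F, y, fun _ => ⟨fun _ => ⟨x0, Finset.mem_insert_self _ _, hx0⟩,
        fun h => absurd htR h, fun _ _ => ⟨hy, fun v hv hvF => ?_⟩⟩⟩
      exact hF v hv fun x hx => hvF x (Finset.mem_insert_of_mem hx)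
    · have h2 : ¬ Cl K ⇑t := fun hcl => htR (hK.cl t hcl)
      simp only [Cl, not_forall, not_exists, not_and] at h2
      obtain ⟨F, hF⟩ := h2
      refine ⟨insert x0 F, 0, fun _ => ⟨fun _ => ⟨x0, Finset.mem_insert_self _ _, hx0⟩,
        fun _ k hk => ?_, fun h => absurd h htR⟩⟩
      obtain ⟨x, hxF, hne⟩ := hF k hk
      exact ⟨x, Finset.mem_insert_of_mem hxF, hne⟩
  choose FF yy hFy using h1
  let T : Finset (Perm ℕ) := (h.finite_T hK hL).toFinset
  have hT : ∀ t, t ∈ T ↔ t ∈ G ∧ p t ∈ h.C hK := fun t => Set.Finite.mem_toFinset _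
  let F2 : Finset ℕ := F' ∪ T.biUnion fun t => FF t ∪ (FF t).image t
  have hF2 : ∀ t ∈ T, ∀ x ∈ FF t, x ∈ F2 ∧ t x ∈ F2 := fun t ht x hx =>
    ⟨Finset.mem_union_right _ (Finset.mem_biUnion.2 ⟨t, ht, Finset.mem_union_left _ hx⟩),
      Finset.mem_union_right _ (Finset.mem_biUnion.2 ⟨t, ht,
        Finset.mem_union_right _ (Finset.mem_image_of_mem _ hx)⟩)⟩
  obtain ⟨Y, hY⟩ := h.open_map hK hL hc F2 (fun g hg hgC => by
    by_contra hg1
    obtain ⟨x, hx, hne⟩ := (hFy g hg.1).1 hg1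
    exact hne (hg.2 x (hF2 g ((hT g).2 ⟨hg.1, hgC⟩) x hx).1))
  refine ⟨Y ∪ T.image yy, fun k hk hkY => ?_⟩
  have hkG := hK.le hk
  obtain ⟨v, hv, hvC⟩ := hY (p k) ⟨hkY.1, fun y hy => hkY.2 y (Finset.mem_union_left _ hy)⟩
  have htG : v⁻¹ * k ∈ G := G.mul_mem (G.inv_mem hv.1) hkG
  have htT : v⁻¹ * k ∈ T := by
    rw [hT]
    refine ⟨htG, ?_⟩
    rw [h.pm _ (G.inv_mem hv.1) _ hkG, h.pinv hv.1]
    exact hvC
  have hkv : k = v * (v⁻¹ * k) := by group
  set t := v⁻¹ * k with htdef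
  have htR : t ∈ K := by
    by_contra htR
    obtain ⟨x, hx, hne⟩ := (hFy t htG).2.1 htR k hk
    apply hne
    rw [hkv, Perm.mul_apply]
    exact hv.2 _ (hF2 t htT x hx).2
  have hvR : v ∈ K := by
    have h3 : v = k * t⁻¹ := by
      rw [htdef]
      group
    rw [h3]
    exact K.mul_mem hk (K.inv_mem htR)
  have ht1 : t = 1 := by
    by_contra ht1
    obtain ⟨hne, hfix⟩ := (hFy t htG).2.2 htR ht1
    have h4 := hfix v hvR fun x hx => hv.2 x (hF2 t htT x hx).1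
    rw [← Perm.mul_apply, ← h.pm _ hv.1 _ htG, ← hkv] at h4
    have h5 : p k (yy t) = yy t := hkY.2 _ (Finset.mem_union_right _ (Finset.mem_image_of_mem _ htT))
    rw [h5] at h4
    exact hne h4.symm
  rw [hkv, ht1, mul_one]
  exact ⟨hv.1, fun x hx => hv.2 x (Finset.mem_union_left _ hx)⟩

/-- the image of the residual is closed -/
theorem closed_L (h : GI G D p r) (hK : NS G K) (hL : Oligo (h.L hK)) (hc : h.Cont hK) : ClosedG (h.L hK) := by
  classical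
  intro d hd
  have hdD : d ∈ D := h.cD d (hd.mono (h.L_le hK))
  choose E hE using fun m : ℕ => h.contR hK hL hc (Finset.range m)
  let W : ℕ → Finset ℕ := fun n => Finset.range n ∪
    (Finset.range (n + 1)).biUnion fun m => E m ∪ (E m).image ⇑d⁻¹
  choose l hl hlW using fun n : ℕ => hd (W n)
  have hlE : ∀ m n, m ≤ n → ∀ y ∈ E m, l n y = d y ∧ l n (d⁻¹ y) = y := by
    intro m n hmn y hy
    have hm : m ∈ Finset.range (n + 1) := Finset.mem_range.2 (Nat.lt_succ_of_le hmn)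
    refine ⟨hlW n y (Finset.mem_union_right _ (Finset.mem_biUnion.2 ⟨m, hm,
      Finset.mem_union_left _ hy⟩)), ?_⟩
    rw [hlW n (d⁻¹ y) (Finset.mem_union_right _ (Finset.mem_biUnion.2 ⟨m, hm,
      Finset.mem_union_right _ (Finset.mem_image_of_mem _ hy)⟩)), ai]
  let k : ℕ → Perm ℕ := fun n => r (l n)
  have hkR : ∀ n, k n ∈ K := fun n => (hl n).2
  have hkG : ∀ n, k n ∈ G := fun n => hK.le (hkR n)
  have hpk : ∀ n, p (k n) = l n := fun n => h.pr _ (hl n).1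
  have hk1 : ∀ m n n', m ≤ n → m ≤ n' → (k n)⁻¹ * k n' ∈ stb G (Finset.range m) := by
    intro m n n' hn hn'
    refine hE m _ (K.mul_mem (K.inv_mem (hkR n)) (hkR n')) ?_
    rw [h.pm _ (G.inv_mem (hkG n)) _ (hkG n'), h.pinv (hkG n), hpk, hpk]
    refine ⟨D.mul_mem (D.inv_mem (hl n).1) (hl n').1, fun y hy => ?_⟩
    rw [Perm.mul_apply, (hlE m n' hn' y hy).1, Perm.inv_eq_iff_eq, (hlE m n hn y hy).1]
  have hk2 : ∀ m n n', m ≤ n → m ≤ n' → k n * (k n')⁻¹ ∈ stb G (Finset.range m) := by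
    intro m n n' hn hn'
    refine hE m _ (K.mul_mem (hkR n) (K.inv_mem (hkR n'))) ?_
    rw [h.pm _ (hkG n) _ (G.inv_mem (hkG n')), h.pinv (hkG n'), hpk, hpk]
    refine ⟨D.mul_mem (hl n).1 (D.inv_mem (hl n').1), fun y hy => ?_⟩
    have h1 : (l n')⁻¹ y = d⁻¹ y := by
      rw [Perm.inv_eq_iff_eq]
      exact (hlE m n' hn' y hy).2.symm
    rw [Perm.mul_apply, h1, (hlE m n hn y hy).2]
  have hs1 : ∀ x n, x + 1 ≤ n → k n x = k (x + 1) x := by
    intro x n hn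
    have h1 := (hk1 (x + 1) (x + 1) n le_rfl hn).2 x (Finset.mem_range.2 (Nat.lt_succ_self x))
    rw [Perm.mul_apply, Perm.inv_eq_iff_eq] at h1
    exact h1
  have hs2 : ∀ x n, x + 1 ≤ n → (k n)⁻¹ x = (k (x + 1))⁻¹ x := by
    intro x n hn
    have h1 := (hk2 (x + 1) (x + 1) n le_rfl hn).2 x (Finset.mem_range.2 (Nat.lt_succ_self x))
    rw [Perm.mul_apply] at h1
    symm
    rw [Perm.inv_eq_iff_eq]
    exact h1.symm
  let κ : Perm ℕ := ⟨fun x => k (x + 1) x, fun x => (k (x + 1))⁻¹ x, fun x => by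
      simp only
      rw [← hs1 x (max (x + 1) (k (x + 1) x + 1)) (le_max_left _ _), ← hs2 (k _ x) (max (x + 1) (k (x + 1) x + 1)) ?_, ia]
      rw [hs1 x (max (x + 1) (k (x + 1) x + 1)) (le_max_left _ _)]
      exact le_max_right _ _, fun x => by
      simp only
      rw [← hs2 x (max (x + 1) ((k (x + 1))⁻¹ x + 1)) (le_max_left _ _), ← hs1 ((k _)⁻¹ x) (max (x + 1) ((k (x + 1))⁻¹ x + 1)) ?_, ai]
      rw [hs2 x (max (x + 1) ((k (x + 1))⁻¹ x + 1)) (le_max_left _ _)]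
      exact le_max_right _ _⟩
  have hκ : ∀ x n, x + 1 ≤ n → k n x = κ x := hs1
  have hκR : κ ∈ K := by
    refine hK.cl κ (fun F => ⟨k (F.sup id + 1), hkR _, fun x hx => ?_⟩)
    exact hκ x _ (Nat.succ_le_succ (Finset.le_sup (f := id) hx))
  have hκd : p κ = d := by
    refine Equiv.ext fun y => ?_
    obtain ⟨F, hF⟩ := hc y
    let n := max (y + 1) (F.sup id + 1)
    have h1 := hF (κ⁻¹ * k n) (K.mul_mem (K.inv_mem hκR) (hkR n)) (fun x hx => by
      rw [Perm.mul_apply, Perm.inv_eq_iff_eq]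
      exact hκ x n ((Nat.succ_le_succ (Finset.le_sup (f := id) hx)).trans (le_max_right _ _)))
    rw [h.pm _ (G.inv_mem (hK.le hκR)) _ (hkG n), h.pinv (hK.le hκR), Perm.mul_apply,
      Perm.inv_eq_iff_eq, hpk] at h1
    rw [← h1]
    exact hlW n y (Finset.mem_union_left _ (Finset.mem_range.2
      (Nat.lt_of_lt_of_le (Nat.lt_succ_self y) (le_max_left _ _))))
  refine ⟨hdD, ?_⟩
  rw [← hκd, h.rp κ (hK.le hκR)]
  exact hκR

/-- the inverse is controlled -/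
theorem ctrl_inv (h : GI G D p r) (hK : NS G K) (hL : Oligo (h.L hK)) (hc : h.Cont hK) (x : ℕ) :
    ∃ Y : Finset ℕ, ∀ d ∈ Res (stb D Y), r d x = x := by
  obtain ⟨Y, hY⟩ := h.contR hK hL hc {x}
  refine ⟨Y, fun d hd => ?_⟩
  have hdY := Res_le _ hd
  have hdR : d ∈ Res D := Res_mono (stb_open D Y).le hd
  have hdL : d ∈ h.L hK := h.closed_L hK hL hc d
    (Res_le_cl (h.L_le hK) hL (fun _ hd _ hl => h.L_normal hK hd hl) hdR)
  refine (hY _ hdL.2 ?_).2 x (Finset.mem_singleton_self x)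
  rw [h.pr d hdL.1]
  exact hdY

/-- the isomorphism is controlled -/
theorem ctrl (h : GI G D p r) (hK : NS G K) (hc : h.Cont hK) (y : ℕ) :
    ∃ F : Finset ℕ, ∀ g ∈ Res (stb G F), p g y = y := by
  obtain ⟨F, hF⟩ := hc y
  exact ⟨F, fun g hg => hF g (hK.cl g (Res_le_cl hK.le hK.ol hK.nm
    (Res_mono (stb_open G F).le hg))) (Res_le _ hg).2⟩

end GI

end Pool.Agent.Olig
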