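import Pool.Agent.Olig.NecB

/-!
# Oligomorphic groups satisfy no law
-/

open Equiv Filter

namespace Pool.Agent.Olig

variable {ι : Type}

/-- the value of a letter -/
def lt (f : ι → Perm ℕ) (s : ι × Bool) : Perm ℕ := cond s.2 (f s.1) (f s.1)⁻¹

/-- the last point of the path -/
def hd (f : ι → Perm ℕ) (x : ℕ) : List (ι × Bool) → ℕ
  | [] => x
  | s :: L => lt f s (hd f x L)

/-- the points of the path except the last one -/
def tl (f : ι → Perm ℕ) (x : ℕ) : List (ι × Bool) → Finset ℕ
  | [] => ∅
  | _ :: L => insert (hd f x L) (tl f x L)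

/-- each point of the path has an infinite orbit over the previous ones -/
def IndL (G : Subgroup (Perm ℕ)) (f : ι → Perm ℕ) (x : ℕ) : List (ι × Bool) → Prop
  | [] => ¬ {z | ∃ v ∈ stb G ∅, v x = z}.Finite
  | s :: L => ¬ {z | ∃ v ∈ stb G (tl f x (s :: L)), v (hd f x (s :: L)) = z}.Finite ∧ IndL G f x L

theorem IndL.head {G : Subgroup (Perm ℕ)} {f : ι → Perm ℕ} {x : ℕ} {L : List (ι × Bool)}
    (h : IndL G f x L) : ¬ {z | ∃ v ∈ stb G (tl f x L), v (hd f x L) = z}.Finite := by
  cases L with
  | nil => exact h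
  | cons s L => exact h.1

/-- the points at which the generator of the letter `s` is already used, in the direction of `s` -/
def dm [DecidableEq ι] (f : ι → Perm ℕ) (x : ℕ) (s : ι × Bool) : List (ι × Bool) → Finset ℕ
  | [] => ∅
  | t :: L => (if t = s then {hd f x L} else if t = (s.1, !s.2) then {hd f x (t :: L)} else ∅) ∪
      dm f x s L

theorem dm_sub [DecidableEq ι] (f : ι → Perm ℕ) (x : ℕ) (s : ι × Bool) (L : List (ι × Bool)) :
    dm f x s L ⊆ insert (hd f x L) (tl f x L) := by
  induction L with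
  | nil => exact Finset.empty_subset _
  | cons t L ih =>
    intro z hz
    rw [dm, Finset.mem_union] at hz
    rcases hz with hz | hz
    · split_ifs at hz with h1 h2
      · rw [Finset.mem_singleton] at hz
        rw [hz]
        exact Finset.mem_insert_of_mem (Finset.mem_insert_self _ _)
      · rw [Finset.mem_singleton] at hz
        rw [hz]
        exact Finset.mem_insert_self _ _
      · exact absurd hz (Finset.notMem_empty _)
    · exact Finset.mem_insert_of_mem (ih hz)

theorem dm_sub_tl [DecidableEq ι] (f : ι → Perm ℕ) (x : ℕ) (s : ι × Bool) (L : List (ι × Bool))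
    (hL : FreeGroup.IsReduced (s :: L)) : dm f x s L ⊆ tl f x L := by
  cases L with
  | nil => exact Finset.empty_subset _
  | cons t L =>
    rw [FreeGroup.isReduced_cons_cons] at hL
    intro z hz
    rw [dm, Finset.mem_union] at hz
    rcases hz with hz | hz
    · split_ifs at hz with h1 h2
      · rw [Finset.mem_singleton] at hz
        rw [hz]
        exact Finset.mem_insert_self _ _
      · have h3 := hL.1 (by rw [h2])
        rw [h2] at h3
        simp at h3
      · exact absurd hz (Finset.notMem_empty _)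
    · exact dm_sub f x s L hz

/-- the new assignment -/
def upd [DecidableEq ι] (f : ι → Perm ℕ) (s : ι × Bool) (h : Perm ℕ) : ι → Perm ℕ :=
  Function.update f s.1 (cond s.2 (h * f s.1) (f s.1 * h⁻¹))

theorem lt_upd_self [DecidableEq ι] (f : ι → Perm ℕ) (s : ι × Bool) (h : Perm ℕ) :
    lt (upd f s h) s = h * lt f s := by
  obtain ⟨i, b⟩ := s
  cases b <;> simp [lt, upd]

theorem lt_upd_inv [DecidableEq ι] (f : ι → Perm ℕ) (s : ι × Bool) (h : Perm ℕ) :
    lt (upd f s h) (s.1, !s.2) = lt f (s.1, !s.2) * h⁻¹ := by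
  obtain ⟨i, b⟩ := s
  cases b <;> simp [lt, upd]

theorem lt_upd_ne [DecidableEq ι] (f : ι → Perm ℕ) (s t : ι × Bool) (h : Perm ℕ) (h1 : t ≠ s)
    (h2 : t ≠ (s.1, !s.2)) : lt (upd f s h) t = lt f t := by
  obtain ⟨i, b⟩ := s
  obtain ⟨j, c⟩ := t
  have hij : j ≠ i := by
    rintro rfl
    cases b <;> cases c <;> simp_all
  simp [lt, upd, Function.update_of_ne hij]

/-- the path does not change -/
theorem path_upd [DecidableEq ι] (f : ι → Perm ℕ) (x : ℕ) (s : ι × Bool) (h : Perm ℕ)
    (L : List (ι × Bool)) (hh : ∀ z ∈ dm f x s L, h (lt f s z) = lt f s z) :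
    hd (upd f s h) x L = hd f x L ∧ tl (upd f s h) x L = tl f x L := by
  induction L with
  | nil => exact ⟨rfl, rfl⟩
  | cons t L ih =>
    obtain ⟨ih1, ih2⟩ := ih (fun z hz => hh z (by
      rw [dm]
      exact Finset.mem_union_right _ hz))
    refine ⟨?_, ?_⟩
    · rw [hd, hd, ih1]
      by_cases h1 : t = s
      · subst h1
        rw [lt_upd_self, Perm.mul_apply]
        refine hh _ ?_
        rw [dm, if_pos rfl]
        exact Finset.mem_union_left _ (Finset.mem_singleton_self _)
      · by_cases h2 : t = (s.1, !s.2)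
        · have h3 := hh (hd f x (t :: L)) (by
            rw [dm, if_neg h1, if_pos h2]
            exact Finset.mem_union_left _ (Finset.mem_singleton_self _))
          have h4 : lt f s (hd f x (t :: L)) = hd f x L := by
            rw [hd, h2]
            obtain ⟨i, b⟩ := s
            cases b <;> simp [lt]
          rw [h4] at h3
          subst h2
          rw [lt_upd_inv, Perm.mul_apply]
          congr 1
          rw [Perm.inv_eq_iff_eq]
          exact h3.symm
        · rw [lt_upd_ne f s t h h1 h2]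
    · rw [tl, tl, ih1, ih2]

theorem Ind_congr {G : Subgroup (Perm ℕ)} [DecidableEq ι] (f : ι → Perm ℕ) (x : ℕ)
    (s : ι × Bool) (h : Perm ℕ) (L : List (ι × Bool))
    (hh : ∀ z ∈ dm f x s L, h (lt f s z) = lt f s z) (hI : IndL G f x L) :
    IndL G (upd f s h) x L := by
  induction L with
  | nil => exact hI
  | cons t L ih =>
    obtain ⟨e1, e2⟩ := path_upd f x s h (t :: L) hh
    refine ⟨?_, ih (fun z hz => hh z (by rw [dm]; exact Finset.mem_union_right _ hz)) hI.2⟩
    rw [e1, e2]
    exact hI.1

theorem exists_path {G : Subgroup (Perm ℕ)} (hG : Oligo G) {x : ℕ}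
    (hx : ¬ {z | ∃ v ∈ stb G ∅, v x = z}.Finite) (L : List (ι × Bool))
    (hL : FreeGroup.IsReduced L) : ∃ f : ι → Perm ℕ, (∀ i, f i ∈ G) ∧ IndL G f x L := by
  classical
  induction L with
  | nil => exact ⟨fun _ => 1, fun _ => G.one_mem, hx⟩
  | cons s L ih =>
    have hL' : FreeGroup.IsReduced L := by
      cases L with
      | nil => exact FreeGroup.IsReduced.nil
      | cons t L => exact (FreeGroup.isReduced_cons_cons.1 hL).2
    obtain ⟨f, hf, hI⟩ := ih hL'
    have hlt : lt f s ∈ G := by
      obtain ⟨i, b⟩ := s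
      cases b
      · exact G.inv_mem (hf i)
      · exact hf i
    have hsub := dm_sub_tl f x s L hL
    -- the new point
    obtain ⟨h, hhG, hhfix, hnew⟩ : ∃ h ∈ G, (∀ z ∈ dm f x s L, h (lt f s z) = lt f s z) ∧
        ¬ {z | ∃ v ∈ stb G (insert (hd f x L) (tl f x L)), v (h (lt f s (hd f x L))) = z}.Finite := by
      by_contra hcon
      push Not at hcon
      refine hI.head ?_
      refine Set.Finite.subset ((finite_acl hG (insert (hd f x L) (tl f x L))).preimage
        (f := fun z => lt f s z) (lt f s).injective.injOn) ?_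
      rintro z ⟨v, hv, rfl⟩
      rw [Set.mem_preimage, Set.mem_ofPred_eq]
      have h1 := hcon (lt f s * v * (lt f s)⁻¹) (G.mul_mem (G.mul_mem hlt hv.1) (G.inv_mem hlt))
        (fun z hz => by
          rw [Perm.mul_apply, Perm.mul_apply, ia, hv.2 z (hsub hz)])
      have h2 : (lt f s * v * (lt f s)⁻¹) (lt f s (hd f x L)) = lt f s (v (hd f x L)) := by
        rw [Perm.mul_apply, Perm.mul_apply, ia]
      rw [h2] at h1
      exact h1
    obtain ⟨e1, e2⟩ := path_upd f x s h L hhfix
    refine ⟨upd f s h, fun i => ?_, ?_, Ind_congr f x s h L hhfix hI⟩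
    · by_cases hi : i = s.1
      · subst hi
        rw [upd, Function.update_self]
        obtain ⟨i, b⟩ := s
        cases b
        · exact G.mul_mem (hf i) (G.inv_mem hhG)
        · exact G.mul_mem hhG (hf i)
      · rw [upd, Function.update_of_ne hi]
        exact hf i
    · rw [hd, tl, e1, e2, lt_upd_self, Perm.mul_apply]
      exact hnew

theorem lift_hd (f : ι → Perm ℕ) (x : ℕ) (L : List (ι × Bool)) :
    FreeGroup.lift f (FreeGroup.mk L) x = hd f x L := by
  rw [FreeGroup.lift_mk]
  induction L with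
  | nil => rfl
  | cons s L ih =>
    rw [List.map_cons, List.prod_cons, Perm.mul_apply, ih]
    rfl

theorem mem_tl (f : ι → Perm ℕ) (x : ℕ) (L : List (ι × Bool)) (hL : L ≠ []) : x ∈ tl f x L := by
  induction L with
  | nil => exact absurd rfl hL
  | cons s L ih =>
    rw [tl]
    cases L with
    | nil => exact Finset.mem_insert_self _ _
    | cons t L => exact Finset.mem_insert_of_mem (ih (by simp))

/-- an oligomorphic group satisfies no law -/
theorem no_law {G : Subgroup (Perm ℕ)} (hG : Oligo G) {w : FreeGroup ι} (hw : w ≠ 1) :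
    ∃ f : ι → Perm ℕ, (∀ i, f i ∈ G) ∧ FreeGroup.lift f w ≠ 1 := by
  classical
  obtain ⟨x, hx⟩ : ∃ x, ¬ {z | ∃ v ∈ stb G ∅, v x = z}.Finite := by
    by_contra hcon
    push Not at hcon
    refine Set.infinite_univ ((finite_acl hG ∅).subset fun x _ => ?_)
    exact hcon x
  obtain ⟨f, hf, hI⟩ := exists_path hG hx w.toWord FreeGroup.isReduced_toWord
  refine ⟨f, hf, fun h1 => ?_⟩
  have h2 := lift_hd f x w.toWord
  rw [FreeGroup.mk_toWord, h1] at h2
  have hne : w.toWord ≠ [] := fun h => hw (FreeGroup.toWord_eq_nil_iff.1 h)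
  refine hI.head ?_
  have h3 : hd f x w.toWord = x := h2.symm
  rw [h3]
  refine (Set.finite_singleton x).subset ?_
  rintro z ⟨v, hv, rfl⟩
  exact hv.2 x (mem_tl f x _ hne)

end Pool.Agent.Olig
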