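import Pool.Agent.Olig.GJ
import Pool.Agent.Olig.Law

/-!
# Actions of quotients
-/

open Equiv Filter

namespace Pool.Agent.Olig

/-- Every action of `Γ` on a countable set which is trivial on `K` and has finitely many orbits on
`n`-tuples for every `n` is an action on a finite set. -/
def Tame (Γ K : Subgroup (Perm ℕ)) : Prop :=
  ∀ (X : Type) [Countable X] [MulAction Γ X], (∀ g : Γ, (g : Perm ℕ) ∈ K → ∀ x : X, g • x = x) →
    (∀ n : ℕ, Finite (MulAction.orbitRel.Quotient Γ (Fin n → X))) → Finite X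

/-- The quotient of `Γ` by `K` satisfies a nontrivial law. -/
def Law (Γ K : Subgroup (Perm ℕ)) : Prop :=
  ∃ w : FreeGroup ℕ, w ≠ 1 ∧ ∀ f : ℕ → Γ, ((FreeGroup.lift f w : Γ) : Perm ℕ) ∈ K

theorem oligo_of_finite {A X : Type} [Group A] [MulAction A X]
    (h : ∀ n : ℕ, Finite (MulAction.orbitRel.Quotient A (Fin n → X))) (k : ℕ) :
    ∃ T : Set (Fin k → X), T.Finite ∧ ∀ x : Fin k → X, ∃ t ∈ T, ∃ g : A, ∀ i, g • t i = x i := by
  classical
  have := h k
  refine ⟨Set.range (fun q : MulAction.orbitRel.Quotient A (Fin k → X) => Quotient.out q),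
    Set.finite_range _, fun x => ?_⟩
  let q : MulAction.orbitRel.Quotient A (Fin k → X) := Quotient.mk _ x
  refine ⟨Quotient.out q, ⟨q, rfl⟩, ?_⟩
  have h1 : (MulAction.orbitRel A (Fin k → X)).r x (Quotient.out q) :=
    Quotient.exact (Quotient.out_eq q).symm
  obtain ⟨g, hg⟩ := h1
  exact ⟨g, fun i => congrFun hg i⟩

theorem tame_of_law {Γ K : Subgroup (Perm ℕ)} (h : Law Γ K) : Tame Γ K := by
  classical
  intro X _ _ htriv hfin
  by_contra hinf
  rw [not_finite_iff_infinite] at hinf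
  obtain ⟨w, hw, hwK⟩ := h
  obtain ⟨hden⟩ := nonempty_denumerable X
  let e : X ≃ ℕ := Denumerable.eqv X
  let θ : Γ →* Perm ℕ := (e.permCongrHom.toMonoidHom).comp (MulAction.toPermHom Γ X)
  have hθ : ∀ (g : Γ) (x : X), θ g (e x) = e (g • x) := by
    intro g x
    change (e.permCongr (MulAction.toPerm g)) (e x) = _
    rw [Equiv.permCongr_apply, e.symm_apply_apply]
    rfl
  have hO : Oligo θ.range := by
    intro k
    obtain ⟨T, hT, h1⟩ := oligo_of_finite hfin k
    refine ⟨hT.toFinset.image (fun t i => e (t i)), fun x => ?_⟩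
    obtain ⟨t, ht, g, hg⟩ := h1 fun i => e.symm (x i)
    refine ⟨_, Finset.mem_image_of_mem _ ((Set.Finite.mem_toFinset _).2 ht), θ g, ⟨g, rfl⟩,
      fun i => ?_⟩
    rw [hθ, hg, e.apply_symm_apply]
  obtain ⟨f, hf, hne⟩ := no_law hO hw
  choose g hg using hf
  have h1 : FreeGroup.lift f = θ.comp (FreeGroup.lift g) := by
    refine FreeGroup.ext_hom _ _ fun i => ?_
    rw [MonoidHom.comp_apply, FreeGroup.lift_apply_of, FreeGroup.lift_apply_of, hg]
  apply hne
  rw [h1, MonoidHom.comp_apply]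
  refine Equiv.ext fun n => ?_
  have h2 := hθ (FreeGroup.lift g w) (e.symm n)
  rw [htriv _ (hwK g), e.apply_symm_apply] at h2
  rw [h2]
  rfl

/-- the action on tuples modulo a normalised subgroup -/
@[reducible] def qact {Γ N : Subgroup (Perm ℕ)} (ψ : Γ →* Perm ℕ)
    (hn : ∀ g : Γ, ∀ m ∈ N, ψ g * m * (ψ g)⁻¹ ∈ N) (n : ℕ) :
    MulAction Γ (MulAction.orbitRel.Quotient N (Fin n → ℕ)) where
  smul g := Quotient.map (fun x i => ψ g (x i)) (by
    rintro x y ⟨m, rfl⟩
    refine ⟨⟨ψ g * m * (ψ g)⁻¹, hn g m m.2⟩, ?_⟩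
    funext i
    change (ψ g * m * (ψ g)⁻¹) (ψ g (y i)) = ψ g ((m : Perm ℕ) (y i))
    rw [Perm.mul_apply, Perm.mul_apply, ia])
  one_smul := by
    intro q
    induction q using Quotient.inductionOn with
    | h x =>
      change Quotient.mk _ _ = _
      congr 1
      funext i
      rw [map_one]
      rfl
  mul_smul := by
    intro a b q
    induction q using Quotient.inductionOn with
    | h x =>
      change Quotient.mk _ _ = Quotient.mk _ _
      congr 1
      funext i
      rw [map_mul]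
      rfl

theorem oligo_of_tame {Γ K N : Subgroup (Perm ℕ)} (ht : Tame Γ K) (ψ : Γ →* Perm ℕ)
    (hn : ∀ g : Γ, ∀ m ∈ N, ψ g * m * (ψ g)⁻¹ ∈ N) (hK : ∀ g : Γ, (g : Perm ℕ) ∈ K → ψ g ∈ N)
    (hO : Oligo ψ.range) : Oligo N := by
  classical
  intro n
  let act := qact ψ hn n
  have hmk : ∀ (g : Γ) (x : Fin n → ℕ),
      g • (Quotient.mk _ x : MulAction.orbitRel.Quotient N (Fin n → ℕ)) =
        Quotient.mk _ (fun i => ψ g (x i)) := fun _ _ => rfl
  have h1 : Finite (MulAction.orbitRel.Quotient N (Fin n → ℕ)) := by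
    refine ht _ (fun g hg q => ?_) (fun m => ?_)
    · induction q using Quotient.inductionOn with
      | h x =>
        rw [hmk]
        refine Quotient.sound ⟨⟨ψ g, hK g hg⟩, ?_⟩
        funext i
        rfl
    · obtain ⟨T, hT⟩ := hO.fintype (Fin m × Fin n)
      let X := MulAction.orbitRel.Quotient N (Fin n → ℕ)
      refine Finite.of_surjective (α := {t // t ∈ T})
        (fun t => (Quotient.mk _ (fun i => (Quotient.mk _ (fun j => t.1 (i, j)) : X)) :
          MulAction.orbitRel.Quotient Γ (Fin m → X))) ?_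
      intro q
      induction q using Quotient.inductionOn with
      | h x =>
        choose y hy using fun i => Quotient.exists_rep (x i)
        obtain ⟨t, ht, g, ⟨γ, hγ⟩, h2⟩ := hT fun p => y p.1 p.2
        refine ⟨⟨t, ht⟩, Quotient.sound ⟨γ⁻¹, ?_⟩⟩
        change γ⁻¹ • x = _
        rw [inv_smul_eq_iff]
        funext i
        rw [← hy i]
        change _ = γ • (Quotient.mk _ (fun j => t (i, j)) : X)
        rw [hmk]
        congr 1
        funext j
        rw [hγ]
        exact (h2 (i, j)).symm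
  refine ⟨(Set.finite_range (fun q : MulAction.orbitRel.Quotient N (Fin n → ℕ) =>
    Quotient.out q)).toFinset, fun x => ?_⟩
  let q : MulAction.orbitRel.Quotient N (Fin n → ℕ) := Quotient.mk _ x
  refine ⟨Quotient.out q, (Set.Finite.mem_toFinset _).2 ⟨q, rfl⟩, ?_⟩
  have h1 : (MulAction.orbitRel N (Fin n → ℕ)).r x (Quotient.out q) :=
    Quotient.exact (Quotient.out_eq q).symm
  obtain ⟨g, hg⟩ := h1
  exact ⟨g, g.2, fun i => congrFun hg i⟩

end Pool.Agent.Olig
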