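import Pool.Agent.Olig.Uniq

/-!
# An iterated ultrapower along the integers

`Ix = ℤ → ℕ`. `Ev P n a w`: iterated quantifier over the coordinates `a, ..., a + n - 1`.
`DD` is the filter of the sets which are large for all large windows; it decides every predicate
which depends on finitely many coordinates.
-/

open Equiv Filter

namespace Pool.Agent.Olig

/-- index points of the iterated ultrapower -/
abbrev Ix : Type := ℤ → ℕ

/-- iterated quantifier over the coordinates `a, ..., a + n - 1`, the first one outermost -/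
def Ev (P : Ix → Prop) : ℕ → ℤ → Ix → Prop
  | 0, _, w => P w
  | n + 1, a, w => ∀ᶠ k in (UU : Filter ℕ), Ev P n (a + 1) (Function.update w a k)

theorem Ev_zero {P : Ix → Prop} {a : ℤ} {w : Ix} : Ev P 0 a w ↔ P w := Iff.rfl

theorem Ev_succ {P : Ix → Prop} {n : ℕ} {a : ℤ} {w : Ix} :
    Ev P (n + 1) a w ↔ ∀ᶠ k in (UU : Filter ℕ), Ev P n (a + 1) (Function.update w a k) := Iff.rfl

theorem Ev.mono {P Q : Ix → Prop} (h : ∀ w, P w → Q w) {n : ℕ} {a : ℤ} {w : Ix}
    (hp : Ev P n a w) : Ev Q n a w := by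
  induction n generalizing a w with
  | zero => exact h w hp
  | succ n ih =>
    rw [Ev_succ] at hp ⊢
    exact hp.mono fun k hk => ih hk

theorem Ev.and {P Q : Ix → Prop} {n : ℕ} {a : ℤ} {w : Ix}
    (hp : Ev P n a w) (hq : Ev Q n a w) : Ev (fun w => P w ∧ Q w) n a w := by
  induction n generalizing a w with
  | zero => exact ⟨hp, hq⟩
  | succ n ih =>
    rw [Ev_succ] at hp hq ⊢
    filter_upwards [hp, hq] with k h1 h2
    exact ih h1 h2

theorem Ev_not {P : Ix → Prop} {n : ℕ} {a : ℤ} {w : Ix} :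
    Ev (fun w => ¬ P w) n a w ↔ ¬ Ev P n a w := by
  induction n generalizing a w with
  | zero => exact Iff.rfl
  | succ n ih =>
    rw [Ev_succ, Ev_succ, ← Ultrafilter.eventually_not]
    exact Filter.eventually_congr (Eventually.of_forall fun k => ih)

theorem Ev_true {n : ℕ} {a : ℤ} {w : Ix} : Ev (fun _ => True) n a w := by
  induction n generalizing a w with
  | zero => trivial
  | succ n ih =>
    rw [Ev_succ]
    exact Eventually.of_forall fun k => ih

theorem Ev_false {n : ℕ} {a : ℤ} {w : Ix} : ¬ Ev (fun _ => False) n a w := by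
  have h : Ev (fun _ => ¬ False) n a w := Ev.mono (fun _ _ h => h) (Ev_true (n := n) (a := a) (w := w))
  exact Ev_not.1 h

/-- `f` does not depend on the coordinate `b` -/
def Ind {β : Type} (b : ℤ) (f : Ix → β) : Prop := ∀ (w : Ix) (k : ℕ), f (Function.update w b k) = f w

theorem Ev_update {P : Ix → Prop} {b : ℤ} (hP : Ind b P) {n : ℕ} {a : ℤ} {w : Ix} {k : ℕ} :
    Ev P n a (Function.update w b k) ↔ Ev P n a w := by
  induction n generalizing a w with
  | zero =>
    rw [Ev_zero, Ev_zero, hP w k]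
  | succ n ih =>
    rw [Ev_succ, Ev_succ]
    refine Filter.eventually_congr (Eventually.of_forall fun k' => ?_)
    by_cases h : b = a
    · subst h
      rw [Function.update_idem]
    · rw [Function.update_comm h, ih]

theorem Ev_right {P : Ix → Prop} {n : ℕ} {a : ℤ} {w : Ix} (hP : Ind (a + n) P) :
    Ev P (n + 1) a w ↔ Ev P n a w := by
  induction n generalizing a w with
  | zero =>
    rw [Ev_succ, Ev_zero]
    simp only [Nat.cast_zero, add_zero] at hP
    have : ∀ k, Ev P 0 (a + 1) (Function.update w a k) ↔ P w := by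
      intro k
      rw [Ev_zero, hP w k]
    rw [Filter.eventually_congr (Eventually.of_forall this)]
    exact Filter.eventually_const
  | succ n ih =>
    rw [Ev_succ, Ev_succ]
    refine Filter.eventually_congr (Eventually.of_forall fun k => ih ?_)
    have : a + 1 + (n : ℤ) = a + ((n + 1 : ℕ) : ℤ) := by push_cast; ring
    rwa [this]

theorem Ev_left {P : Ix → Prop} {n : ℕ} {a : ℤ} {w : Ix} (hP : Ind a P) :
    Ev P (n + 1) a w ↔ Ev P n (a + 1) w := by
  rw [Ev_succ, Filter.eventually_congr (Eventually.of_forall fun k => Ev_update hP)]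
  exact Filter.eventually_const

theorem Ev_last {P : Ix → Prop} {b : ℤ} (hP : ∀ w, ∀ᶠ k in (UU : Filter ℕ), P (Function.update w b k))
    {n : ℕ} {a : ℤ} {w : Ix} (hab : a + n = b) : Ev P (n + 1) a w := by
  induction n generalizing a w with
  | zero =>
    simp only [Nat.cast_zero, add_zero] at hab
    subst hab
    rw [Ev_succ]
    exact hP w
  | succ n ih =>
    rw [Ev_succ]
    refine Eventually.of_forall fun k => ih ?_
    rw [← hab]
    push_cast
    ring

/-- the shift of the index points -/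
def sh (w : Ix) : Ix := fun j => w (j + 1)

theorem sh_update (w : Ix) (a : ℤ) (k : ℕ) :
    sh (Function.update w a k) = Function.update (sh w) (a - 1) k := by
  funext j
  unfold sh
  by_cases h : j = a - 1
  · subst h
    rw [Function.update_self]
    have : a - 1 + 1 = a := by ring
    rw [this, Function.update_self]
  · rw [Function.update_of_ne h, Function.update_of_ne]
    intro h'
    apply h
    rw [← h']
    ring

theorem Ev_sh {P : Ix → Prop} {n : ℕ} {a : ℤ} {w : Ix} :
    Ev (fun w => P (sh w)) n a w ↔ Ev P n (a - 1) (sh w) := by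
  induction n generalizing a w with
  | zero => exact Iff.rfl
  | succ n ih =>
    rw [Ev_succ, Ev_succ]
    refine Filter.eventually_congr (Eventually.of_forall fun k => ?_)
    rw [ih, sh_update]
    have : a + 1 - 1 = a - 1 + 1 := by ring
    rw [this]

/-- `f` depends only on the coordinates in `[-N, N)` -/
def Dp {β : Type} (f : Ix → β) (N : ℕ) : Prop := ∀ b : ℤ, (b < -(N : ℤ) ∨ (N : ℤ) ≤ b) → Ind b f

theorem Dp.mono {β : Type} {f : Ix → β} {N M : ℕ} (h : Dp f N) (hNM : N ≤ M) : Dp f M := by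
  intro b hb
  refine h b ?_
  have : (N : ℤ) ≤ M := by exact_mod_cast hNM
  rcases hb with hb | hb
  · left
    linarith
  · right
    linarith

theorem Dp.comp1 {β γ : Type} {f : Ix → β} {N : ℕ} (h : Dp f N) (F : β → γ) :
    Dp (fun w => F (f w)) N := by
  intro b hb w k
  change F (f (Function.update w b k)) = F (f w)
  rw [h b hb w k]

theorem Dp.comp2 {β γ δ : Type} {f : Ix → β} {g : Ix → γ} {N : ℕ} (h : Dp f N) (h' : Dp g N)
    (F : β → γ → δ) : Dp (fun w => F (f w) (g w)) N := by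
  intro b hb w k
  change F (f (Function.update w b k)) (g (Function.update w b k)) = F (f w) (g w)
  rw [h b hb w k, h' b hb w k]

theorem Dp.const {β : Type} (c : β) (N : ℕ) : Dp (fun _ : Ix => c) N := fun _ _ _ _ => rfl

theorem Dp.coord {j : ℤ} {N : ℕ} (h1 : -(N : ℤ) ≤ j) (h2 : j < N) : Dp (fun w : Ix => w j) N := by
  intro b hb w k
  refine Function.update_of_ne ?_ _ _
  rintro rfl
  rcases hb with hb | hb <;> linarith

theorem Dp.sh {β : Type} {f : Ix → β} {N : ℕ} (h : Dp f N) : Dp (fun w => f (sh w)) (N + 1) := by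
  intro b hb w k
  change f (Pool.Agent.Olig.sh (Function.update w b k)) = f (Pool.Agent.Olig.sh w)
  rw [sh_update]
  refine h (b - 1) ?_ _ _
  push_cast at hb
  rcases hb with hb | hb
  · left
    linarith
  · right
    linarith

theorem Wd_eq {P : Ix → Prop} {N : ℕ} (hP : Dp P N) {n : ℕ} (hn : N ≤ n) {w : Ix} :
    Ev P (2 * n) (-(n : ℤ)) w ↔ Ev P (2 * N) (-(N : ℤ)) w := by
  induction hn with
  | refl => exact Iff.rfl
  | step hn ih =>
    rename_i m
    have hnm : (N : ℤ) ≤ m := by exact_mod_cast hn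
    have e1 : 2 * (m.succ) = (2 * m + 1) + 1 := by rw [Nat.succ_eq_add_one]; ring
    have e2 : (-((m.succ : ℕ) : ℤ)) + 1 = -(m : ℤ) := by push_cast; ring
    rw [e1, Ev_left (hP _ (Or.inl (by push_cast; linarith))), e2,
      Ev_right (hP _ (Or.inr (by push_cast; linarith))), ih]

/-- the filter of the large sets of index points -/
def DD : Filter Ix where
  sets := {P | ∃ N : ℕ, ∀ n : ℕ, N ≤ n → Ev (fun w => w ∈ P) (2 * n) (-(n : ℤ)) 0}
  univ_sets := ⟨0, fun n _ => Ev.mono (fun _ _ => Set.mem_univ _) Ev_true⟩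
  sets_of_superset := by
    rintro P Q ⟨N, hN⟩ hPQ
    exact ⟨N, fun n hn => (hN n hn).mono fun w hw => hPQ hw⟩
  inter_sets := by
    rintro P Q ⟨N, hN⟩ ⟨M, hM⟩
    exact ⟨max N M, fun n hn => (hN n ((le_max_left _ _).trans hn)).and
      (hM n ((le_max_right _ _).trans hn))⟩

theorem DD_iff {P : Ix → Prop} :
    (∀ᶠ w in DD, P w) ↔ ∃ N : ℕ, ∀ n : ℕ, N ≤ n → Ev P (2 * n) (-(n : ℤ)) 0 := Iff.rfl

theorem DD_dp {P : Ix → Prop} {N : ℕ} (hP : Dp P N) :
    (∀ᶠ w in DD, P w) ↔ Ev P (2 * N) (-(N : ℤ)) 0 := by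
  rw [DD_iff]
  constructor
  · rintro ⟨M, hM⟩
    exact (Wd_eq hP (le_max_left N M)).1 (hM _ (le_max_right _ _))
  · intro h
    exact ⟨N, fun n hn => (Wd_eq hP hn).2 h⟩

instance DD_neBot : NeBot DD := by
  rw [← Filter.eventually_false_iff_eq_bot.not.trans (Iff.rfl : ¬ DD = ⊥ ↔ DD ≠ ⊥) |>.trans
    Filter.neBot_iff.symm]
  intro h
  obtain ⟨N, hN⟩ := DD_iff.1 h
  exact Ev_false (hN N le_rfl)

theorem DD_em {P : Ix → Prop} {N : ℕ} (hP : Dp P N) (h : ¬ ∀ᶠ w in DD, P w) :
    ∀ᶠ w in DD, ¬ P w := by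
  rw [DD_dp hP] at h
  rw [DD_dp (hP.comp1 fun p => ¬ p)]
  exact Ev_not.2 h

theorem DD_last {P : Ix → Prop} {b : ℕ} (hP : Dp P (b + 1))
    (h : ∀ w, ∀ᶠ k in (UU : Filter ℕ), P (Function.update w (b : ℤ) k)) : ∀ᶠ w in DD, P w := by
  rw [DD_dp hP]
  have e1 : 2 * (b + 1) = (2 * b + 1) + 1 := by ring
  rw [e1]
  refine Ev_last h ?_
  push_cast
  ring

theorem DD_sh {P : Ix → Prop} {N : ℕ} (hP : Dp P N) :
    (∀ᶠ w in DD, P (sh w)) ↔ ∀ᶠ w in DD, P w := by
  rw [DD_dp hP.sh, DD_dp hP, Ev_sh]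
  have e1 : 2 * (N + 1) = (2 * N + 1) + 1 := by ring
  have e2 : (-((N + 1 : ℕ) : ℤ)) - 1 + 1 = -(N : ℤ) - 1 := by push_cast; ring
  have e3 : -(N : ℤ) - 1 + 1 = -(N : ℤ) := by ring
  rw [e1, Ev_left (hP _ (Or.inl (by push_cast; linarith))), e2,
    Ev_left (hP _ (Or.inl (by linarith))), e3]
  exact Iff.rfl

/-- finite choice -/
theorem DD_fin {α : Type} (T : Finset α) {P : α → Ix → Prop} {N : ℕ} (hP : ∀ t, Dp (P t) N)
    (h : ∀ᶠ w in DD, ∃ t ∈ T, P t w) : ∃ t ∈ T, ∀ᶠ w in DD, P t w := by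
  by_contra hcon
  have h1 : ∀ t ∈ T, ∀ᶠ w in DD, ¬ P t w := fun t ht => DD_em (hP t) (by
    intro h2
    exact hcon ⟨t, ht, h2⟩)
  have h2 := (Filter.eventually_all_finset T).2 h1
  obtain ⟨w, ⟨t, ht, hw⟩, hw2⟩ := (h.and h2).exists
  exact hw2 t ht hw

end Pool.Agent.Olig
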