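import Pool.Agent.Olig.IterA

/-!
# The model of the functions with finite support and its permutations
-/

open Equiv Filter

namespace Pool.Agent.Olig

/-- functions with finite support -/
abbrev FSF : Type := {f : Ix → ℕ // ∃ N, Dp f N}

instance fsSetoid : Setoid FSF where
  r f g := ∀ᶠ w in DD, f.1 w = g.1 w
  iseqv :=
    { refl := fun _ => Eventually.of_forall fun _ => rfl
      symm := fun h => h.mono fun _ h => h.symm
      trans := fun h h' => (h.and h').mono fun _ h => h.1.trans h.2 }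

/-- the iterated ultrapower of `ω` -/
abbrev Am : Type := Quotient fsSetoid

theorem Am_eq {f g : FSF} : (⟦f⟧ : Am) = ⟦g⟧ ↔ ∀ᶠ w in DD, f.1 w = g.1 w :=
  ⟨fun h => Quotient.exact h, fun h => Quotient.sound h⟩

/-- the constants -/
def cs (n : ℕ) : Am := ⟦⟨fun _ => n, 0, Dp.const n 0⟩⟧

theorem cs_inj {n m : ℕ} (h : cs n = cs m) : n = m := by
  obtain ⟨w, hw⟩ := (Am_eq.1 h).exists
  exact hw

/-- constructor of permutations of the model -/
noncomputable def mkP (F : FSF → FSF) (h1 : ∀ f g : FSF, (⟦F f⟧ : Am) = ⟦F g⟧ ↔ (⟦f⟧ : Am) = ⟦g⟧)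
    (h2 : ∀ g : FSF, ∃ f : FSF, (⟦F f⟧ : Am) = ⟦g⟧) : Perm Am :=
  Equiv.ofBijective (Quotient.lift (fun f : FSF => (⟦F f⟧ : Am))
    (fun f g h => (h1 f g).2 (Quotient.sound h))) (by
      constructor
      · intro x y
        induction x using Quotient.inductionOn with
        | h f =>
          induction y using Quotient.inductionOn with
          | h g =>
            intro h
            exact (h1 f g).1 h
      · intro y
        induction y using Quotient.inductionOn with
        | h g =>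
          obtain ⟨f, hf⟩ := h2 g
          exact ⟨⟦f⟧, hf⟩)

theorem mkP_mk {F : FSF → FSF} {h1 : ∀ f g : FSF, (⟦F f⟧ : Am) = ⟦F g⟧ ↔ (⟦f⟧ : Am) = ⟦g⟧}
    {h2 : ∀ g : FSF, ∃ f : FSF, (⟦F f⟧ : Am) = ⟦g⟧} (f : FSF) : mkP F h1 h2 ⟦f⟧ = ⟦F f⟧ := rfl

/-- functions with finite support with values in the permutations -/
abbrev FSP : Type := {γ : Ix → Perm ℕ // ∃ N, Dp γ N}

/-- action on functions -/
def av (γ : FSP) (f : FSF) : FSF := ⟨fun w => γ.1 w (f.1 w), by
  obtain ⟨N, hN⟩ := γ.2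
  obtain ⟨M, hM⟩ := f.2
  exact ⟨max N M, (hN.mono (le_max_left _ _)).comp2 (hM.mono (le_max_right _ _)) fun g n => g n⟩⟩

/-- the inverse -/
def iv (γ : FSP) : FSP := ⟨fun w => (γ.1 w)⁻¹, by
  obtain ⟨N, hN⟩ := γ.2
  exact ⟨N, hN.comp1 fun g => g⁻¹⟩⟩

/-- the action of a function with values in the permutations -/
noncomputable def ac (γ : FSP) : Perm Am := mkP (av γ) (by
    intro f g
    rw [Am_eq, Am_eq]
    refine Filter.eventually_congr (Eventually.of_forall fun w => ?_)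
    exact (γ.1 w).injective.eq_iff) (by
    intro g
    refine ⟨av (iv γ) g, Am_eq.2 (Eventually.of_forall fun w => ?_)⟩
    change γ.1 w ((γ.1 w)⁻¹ (g.1 w)) = g.1 w
    exact ai _ _)

theorem ac_mk (γ : FSP) (f : FSF) : ac γ ⟦f⟧ = ⟦av γ f⟧ := rfl

/-- shift of functions -/
def sf (f : FSF) : FSF := ⟨fun w => f.1 (sh w), by
  obtain ⟨N, hN⟩ := f.2
  exact ⟨N + 1, hN.sh⟩⟩

/-- inverse shift of the index points -/
def ush (w : Ix) : Ix := fun j => w (j - 1)

theorem ush_sh (w : Ix) : ush (sh w) = w := by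
  funext j
  change w (j - 1 + 1) = w j
  rw [sub_add_cancel]

theorem sh_ush (w : Ix) : sh (ush w) = w := by
  funext j
  change w (j + 1 - 1) = w j
  rw [add_sub_cancel_right]

theorem ush_update (w : Ix) (a : ℤ) (k : ℕ) :
    ush (Function.update w a k) = Function.update (ush w) (a + 1) k := by
  funext j
  unfold ush
  by_cases h : j = a + 1
  · subst h
    rw [Function.update_self]
    have : a + 1 - 1 = a := by ring
    rw [this, Function.update_self]
  · rw [Function.update_of_ne h, Function.update_of_ne]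
    intro h'
    apply h
    rw [← h']
    ring

theorem Dp.ush {β : Type} {f : Ix → β} {N : ℕ} (h : Dp f N) : Dp (fun w => f (ush w)) (N + 1) := by
  intro b hb w k
  change f (Pool.Agent.Olig.ush (Function.update w b k)) = f (Pool.Agent.Olig.ush w)
  rw [ush_update]
  refine h (b + 1) ?_ _ _
  push_cast at hb
  rcases hb with hb | hb
  · left
    linarith
  · right
    linarith

theorem sf_iff (f g : FSF) : (⟦sf f⟧ : Am) = ⟦sf g⟧ ↔ (⟦f⟧ : Am) = ⟦g⟧ := by
  rw [Am_eq, Am_eq]
  obtain ⟨N, hN⟩ := f.2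
  obtain ⟨M, hM⟩ := g.2
  exact DD_sh ((hN.mono (le_max_left _ _)).comp2 (hM.mono (le_max_right _ _)) fun a b => a = b)

/-- the shift of the model -/
noncomputable def sg : Perm Am := mkP sf sf_iff (by
    intro g
    obtain ⟨N, hN⟩ := g.2
    refine ⟨⟨fun w => g.1 (ush w), N + 1, hN.ush⟩, Am_eq.2 (Eventually.of_forall fun w => ?_)⟩
    change g.1 (ush (sh w)) = g.1 w
    rw [ush_sh])

theorem sg_mk (f : FSF) : sg ⟦f⟧ = ⟦sf f⟧ := rfl

theorem sg_cs (n : ℕ) : sg (cs n) = cs n := rfl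

/-- the coordinate `0` put into a sequence of permutations -/
def c0 (u : ℕ → Perm ℕ) : FSP := ⟨fun w => u (w 0), 1,
  (Dp.coord (j := 0) (N := 1) (by norm_num) (by norm_num)).comp1 u⟩

/-- finite products of the sequence `u` at the coordinates `0, m, 2m, ...` -/
def pw (u : ℕ → Perm ℕ) (m : ℕ) : ℕ → Ix → Perm ℕ
  | 0, _ => 1
  | n + 1, w => pw u m n w * u (w ((n * m : ℕ) : ℤ))

theorem pw_succ (u : ℕ → Perm ℕ) (m n : ℕ) (w : Ix) :
    pw u m (n + 1) w = pw u m n w * u (w ((n * m : ℕ) : ℤ)) := rfl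

theorem pw_dp (u : ℕ → Perm ℕ) {m : ℕ} (hm : 1 ≤ m) (n : ℕ) : Dp (pw u m n) (n * m) := by
  induction n with
  | zero => exact Dp.const _ _
  | succ n ih =>
    have h1 : n * m ≤ (n + 1) * m := Nat.mul_le_mul_right _ (Nat.le_succ _)
    have h2 : n * m < (n + 1) * m := Nat.mul_lt_mul_of_pos_right (Nat.lt_succ_self _) hm
    refine (ih.mono h1).comp2 ((Dp.coord (j := ((n * m : ℕ) : ℤ)) (N := (n + 1) * m) ?_ ?_).comp1 u)
      fun a b => a * b
    · have : (0 : ℤ) ≤ ((n * m : ℕ) : ℤ) := Int.natCast_nonneg _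
      have h3 : (0 : ℤ) ≤ (((n + 1) * m : ℕ) : ℤ) := Int.natCast_nonneg _
      linarith
    · exact_mod_cast h2

theorem pw_left (u : ℕ → Perm ℕ) (m n : ℕ) (w : Ix) :
    pw u m (n + 1) w = u (w 0) * pw u m n (fun j => w (j + m)) := by
  induction n with
  | zero =>
    rw [pw_succ]
    simp [pw]
  | succ n ih =>
    rw [pw_succ, ih, pw_succ, mul_assoc]
    congr 3
    push_cast
    congr 1
    ring

/-- a null sequence acts trivially far out -/
theorem null_triv {u : ℕ → Perm ℕ} (hu : ∀ x, ∀ᶠ k in (UU : Filter ℕ), u k x = x) {f : Ix → ℕ} {N b : ℕ}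
    (hf : Dp f N) (hb : N ≤ b) : ∀ᶠ w in DD, u (w (b : ℤ)) (f w) = f w := by
  refine DD_last (b := b) ?_ (fun w => ?_)
  · have h1 : Dp (fun w : Ix => u (w (b : ℤ))) (b + 1) := by
      refine (Dp.coord (j := (b : ℤ)) (N := b + 1) ?_ ?_).comp1 u
      · push_cast
        have : (0 : ℤ) ≤ b := Int.natCast_nonneg _
        linarith
      · push_cast
        linarith
    exact (h1.comp2 (hf.mono (hb.trans (Nat.le_succ _))) fun a n => a n).comp2
      (hf.mono (hb.trans (Nat.le_succ _))) fun a n => a = n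
  · filter_upwards [hu (f w)] with k hk
    rw [Function.update_self, hf (b : ℤ) (Or.inr (by exact_mod_cast hb)) w k]
    exact hk

theorem pw_stab {u : ℕ → Perm ℕ} (hu : ∀ x, ∀ᶠ k in (UU : Filter ℕ), u k x = x) {m : ℕ}
    {f : Ix → ℕ} {n : ℕ} (hf : Dp f (n * m)) {n' : ℕ} (hn : n ≤ n') :
    ∀ᶠ w in DD, pw u m n' w (f w) = pw u m n w (f w) := by
  induction hn with
  | refl => exact Eventually.of_forall fun _ => rfl
  | step hn ih =>
    rename_i k
    filter_upwards [ih, null_triv hu hf (Nat.mul_le_mul_right m hn)] with w h1 h2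
    rw [Nat.succ_eq_add_one, pw_succ, Perm.mul_apply, h2, h1]

/-- the infinite product on functions -/
noncomputable def pf (u : ℕ → Perm ℕ) {m : ℕ} (hm : 1 ≤ m) (f : FSF) : FSF :=
  av ⟨pw u m f.2.choose, _, pw_dp u hm _⟩ f

theorem le_mul_of {n m N : ℕ} (hm : 1 ≤ m) (h : N ≤ n) : N ≤ n * m :=
  h.trans (Nat.le_mul_of_pos_right n hm)

theorem pf_eq {u : ℕ → Perm ℕ} (hu : ∀ x, ∀ᶠ k in (UU : Filter ℕ), u k x = x) {m : ℕ} (hm : 1 ≤ m)
    (f : FSF) {n : ℕ} (hf : Dp f.1 (n * m)) :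
    (⟦pf u hm f⟧ : Am) = ⟦av ⟨pw u m n, _, pw_dp u hm n⟩ f⟧ := by
  rw [Am_eq]
  have h0 : Dp f.1 (f.2.choose * m) := f.2.choose_spec.mono (le_mul_of hm le_rfl)
  filter_upwards [pw_stab hu h0 (le_max_left f.2.choose n), pw_stab hu hf (le_max_right f.2.choose n)]
    with w h1 h2
  exact h1.symm.trans h2

theorem exists_common (f g : FSF) : ∃ N, Dp f.1 N ∧ Dp g.1 N := by
  obtain ⟨N, hN⟩ := f.2
  obtain ⟨M, hM⟩ := g.2
  exact ⟨max N M, hN.mono (le_max_left _ _), hM.mono (le_max_right _ _)⟩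

/-- the infinite product as a permutation of the model -/
noncomputable def pp (u : ℕ → Perm ℕ) (hu : ∀ x, ∀ᶠ k in (UU : Filter ℕ), u k x = x) {m : ℕ}
    (hm : 1 ≤ m) : Perm Am := mkP (pf u hm) (by
    intro f g
    obtain ⟨N, hN, hM⟩ := exists_common f g
    rw [pf_eq hu hm f (hN.mono (le_mul_of hm le_rfl)), pf_eq hu hm g (hM.mono (le_mul_of hm le_rfl)),
      Am_eq, Am_eq]
    refine Filter.eventually_congr (Eventually.of_forall fun w => ?_)
    exact (pw u m N w).injective.eq_iff) (by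
    intro g
    obtain ⟨N, hN⟩ := g.2
    let f : FSF := ⟨fun w => (pw u m N w)⁻¹ (g.1 w), N * m,
      ((pw_dp u hm N).comp1 fun a => a⁻¹).comp2 (hN.mono (le_mul_of hm le_rfl)) fun a n => a n⟩
    refine ⟨f, ?_⟩
    have hf : Dp f.1 (N * m) :=
      ((pw_dp u hm N).comp1 fun a => a⁻¹).comp2 (hN.mono (le_mul_of hm le_rfl)) fun a n => a n
    rw [pf_eq hu hm f hf, Am_eq]
    refine Eventually.of_forall fun w => ?_
    change pw u m N w ((pw u m N w)⁻¹ (g.1 w)) = g.1 w
    exact ai _ _)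

theorem pp_mk {u : ℕ → Perm ℕ} (hu : ∀ x, ∀ᶠ k in (UU : Filter ℕ), u k x = x) {m : ℕ} (hm : 1 ≤ m)
    (f : FSF) {n : ℕ} (hf : Dp f.1 (n * m)) :
    pp u hu hm ⟦f⟧ = ⟦av ⟨pw u m n, _, pw_dp u hm n⟩ f⟧ := pf_eq hu hm f hf

theorem pp_cs {u : ℕ → Perm ℕ} (hu : ∀ x, ∀ᶠ k in (UU : Filter ℕ), u k x = x) {m : ℕ} (hm : 1 ≤ m)
    (n : ℕ) : pp u hu hm (cs n) = cs n := by
  unfold cs
  rw [pp_mk hu hm _ (n := 0) (Dp.const n _)]
  rfl

/-- iterated shift of functions -/
theorem sg_pow_mk (f : FSF) (m : ℕ) : ∃ h, (sg ^ m) ⟦f⟧ =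
    (⟦⟨fun w => f.1 (fun j => w (j + m)), h⟩⟧ : Am) := by
  induction m with
  | zero =>
    refine ⟨?_, ?_⟩
    · obtain ⟨N, hN⟩ := f.2
      refine ⟨N, ?_⟩
      have : (fun w : Ix => f.1 (fun j => w (j + (0 : ℕ)))) = f.1 := by
        funext w
        refine congrArg f.1 (funext fun j => ?_)
        simp
      rw [this]
      exact hN
    · rw [pow_zero, Perm.one_apply, Am_eq]
      refine Eventually.of_forall fun w => ?_
      change f.1 w = f.1 (fun j => w (j + (0 : ℕ)))
      refine congrArg f.1 (funext fun j => ?_)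
      simp
  | succ m ih =>
    obtain ⟨h, e⟩ := ih
    have e3 : (sf ⟨fun w => f.1 (fun j => w (j + m)), h⟩).1 =
        fun w : Ix => f.1 (fun j => w (j + ((m + 1 : ℕ) : ℤ))) := by
      funext w
      change f.1 (fun j => w (j + m + 1)) = _
      refine congrArg f.1 (funext fun j => congrArg w ?_)
      push_cast
      ring
    refine ⟨by rw [← e3]; exact (sf _).2, ?_⟩
    rw [pow_succ', Perm.mul_apply, e, sg_mk, Am_eq]
    refine Eventually.of_forall fun w => ?_
    exact congrFun e3 w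

theorem sg_pow_cs (m n : ℕ) : (sg ^ m) (cs n) = cs n := by
  obtain ⟨h, e⟩ := sg_pow_mk ⟨fun _ => n, 0, Dp.const n 0⟩ m
  exact e

/-- the commutator identity -/
theorem comm_id {u : ℕ → Perm ℕ} (hu : ∀ x, ∀ᶠ k in (UU : Filter ℕ), u k x = x) {m : ℕ} (hm : 1 ≤ m) :
    ac (c0 u) = pp u hu hm * sg ^ m * (pp u hu hm)⁻¹ * (sg ^ m)⁻¹ := by
  rw [eq_mul_inv_iff_mul_eq, eq_mul_inv_iff_mul_eq]
  refine Equiv.ext fun x => ?_
  induction x using Quotient.inductionOn with
  | h f =>
    obtain ⟨N, hN⟩ := f.2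
    have hf : Dp f.1 (N * m) := hN.mono (le_mul_of hm le_rfl)
    rw [Perm.mul_apply, Perm.mul_apply, Perm.mul_apply, pp_mk hu hm f hf]
    obtain ⟨h1, e1⟩ := sg_pow_mk (av ⟨pw u m N, _, pw_dp u hm N⟩ f) m
    obtain ⟨h2, e2⟩ := sg_pow_mk f m
    rw [e1, e2, ac_mk, pp_mk hu hm (n := N + 1)]
    · rw [Am_eq]
      refine Eventually.of_forall fun w => ?_
      change u (w 0) (pw u m N (fun j => w (j + m)) (f.1 (fun j => w (j + m)))) =
        pw u m (N + 1) w (f.1 (fun j => w (j + m)))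
      rw [pw_left, Perm.mul_apply]
    · intro b hb w k
      change f.1 (fun j => Function.update w b k (j + m)) = f.1 (fun j => w (j + m))
      have e3 : (fun j : ℤ => Function.update w b k (j + m)) =
          Function.update (fun j : ℤ => w (j + m)) (b - m) k := by
        funext j
        by_cases h : j = b - m
        · subst h
          rw [Function.update_self]
          have : b - (m : ℤ) + m = b := by ring
          rw [this, Function.update_self]
        · rw [Function.update_of_ne h, Function.update_of_ne]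
          intro h'
          apply h
          rw [← h']
          ring
      rw [e3]
      refine hf (b - m) ?_ _ _
      push_cast at hb ⊢
      have hm0 : (0 : ℤ) ≤ m := Int.natCast_nonneg _
      rcases hb with hb | hb
      · left
        nlinarith
      · right
        nlinarith

end Pool.Agent.Olig
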