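import Pool.Agent.Olig.IterB

/-!
# A countable elementary submodel of the iterated ultrapower
-/

open Equiv Filter

namespace Pool.Agent.Olig

theorem ac_cs (γ : FSP) (n : ℕ) : ac γ (cs n) = ⟦av γ ⟨fun _ => n, 0, Dp.const n 0⟩⟧ := rfl

/-- product of functions with values in the permutations -/
def mv (γ δ : FSP) : FSP := ⟨fun w => γ.1 w * δ.1 w, by
  obtain ⟨N, hN⟩ := γ.2
  obtain ⟨M, hM⟩ := δ.2
  exact ⟨max N M, (hN.mono (le_max_left _ _)).comp2 (hM.mono (le_max_right _ _)) fun a b => a * b⟩⟩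

/-- constant functions -/
def kv (g : Perm ℕ) : FSP := ⟨fun _ => g, 0, Dp.const g 0⟩

theorem ac_mv (γ δ : FSP) (x : Am) : ac (mv γ δ) x = ac γ (ac δ x) := by
  induction x using Quotient.inductionOn with
  | h f => rfl

theorem ac_kv (g : Perm ℕ) (n : ℕ) : ac (kv g) (cs n) = cs (g n) := rfl

theorem exists_ac {G : Subgroup (Perm ℕ)} (hG : Oligo G) (F : Finset Am) :
    ∃ γ : FSP, (∀ w, γ.1 w ∈ G) ∧ ∃ t : Am → ℕ, ∀ x ∈ F, x = ac γ (cs (t x)) := by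
  classical
  obtain ⟨T, hT⟩ := hG.fintype {x // x ∈ F}
  choose tt htt gg hgg h using hT
  let r : Am → FSF := fun x => x.out
  have hr : ∀ x, (⟦r x⟧ : Am) = x := fun x => Quotient.out_eq x
  choose N hN using fun x : Am => (r x).2
  let rr : Ix → ({x // x ∈ F} → ℕ) := fun w x => (r x.1).1 w
  have hrr : Dp rr (F.sup N) := by
    intro b hb w k
    funext x
    exact ((hN x.1).mono (Finset.le_sup x.2)) b hb w k
  obtain ⟨t₀, _, ht₀⟩ := DD_fin T (P := fun t w => tt (rr w) = t) (N := F.sup N)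
    (fun t => hrr.comp1 fun z => tt z = t)
    (Eventually.of_forall fun w => ⟨tt (rr w), htt _, rfl⟩)
  refine ⟨⟨fun w => gg (rr w), F.sup N, hrr.comp1 gg⟩, fun w => hgg _,
    fun x => if hx : x ∈ F then t₀ ⟨x, hx⟩ else 0, fun x hx => ?_⟩
  simp only [dif_pos hx]
  rw [ac_cs]
  conv_lhs => rw [← hr x]
  rw [Am_eq]
  filter_upwards [ht₀] with w hw
  have := h (rr w) ⟨x, hx⟩
  rw [hw] at this
  exact this.symm

theorem cmp_rep {G : Subgroup (Perm ℕ)} {γ γ' : FSP} (hγ : ∀ w, γ.1 w ∈ G) (hγ' : ∀ w, γ'.1 w ∈ G)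
    {ι : Type} (F : Finset ι) (a b : ι → ℕ) (h : ∀ i ∈ F, ac γ (cs (a i)) = ac γ' (cs (b i))) :
    ∃ δ ∈ G, ∀ i ∈ F, a i = δ (b i) := by
  classical
  have h3 : ∀ i ∈ F, ∀ᶠ w in DD, γ.1 w (a i) = γ'.1 w (b i) := by
    intro i hi
    have h4 := h i hi
    rw [ac_cs, ac_cs, Am_eq] at h4
    exact h4
  obtain ⟨w, hw⟩ := ((Filter.eventually_all_finset F).2 h3).exists
  refine ⟨(γ.1 w)⁻¹ * γ'.1 w, G.mul_mem (G.inv_mem (hγ w)) (hγ' w), fun i hi => ?_⟩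
  rw [Perm.mul_apply, ← hw i hi, ia]

/-- elementary permutations of the model -/
def Elem (G : Subgroup (Perm ℕ)) (π : Perm Am) : Prop :=
  ∀ F : Finset Am, ∃ γ γ' : FSP, (∀ w, γ.1 w ∈ G) ∧ (∀ w, γ'.1 w ∈ G) ∧ ∃ t : Am → ℕ,
    ∀ x ∈ F, x = ac γ (cs (t x)) ∧ π x = ac γ' (cs (t x))

/-- the group of the elementary permutations -/
def ElemG {G : Subgroup (Perm ℕ)} (hG : Oligo G) : Subgroup (Perm Am) where
  carrier := {π | Elem G π}
  one_mem' := by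
    intro F
    obtain ⟨γ, hγ, t, ht⟩ := exists_ac hG F
    exact ⟨γ, γ, hγ, hγ, t, fun x hx => ⟨ht x hx, ht x hx⟩⟩
  mul_mem' := by
    classical
    intro π π' h h' F
    obtain ⟨γ, γ', hγ, hγ', t, ht⟩ := h' F
    obtain ⟨δ, δ', hδ, hδ', u, hu⟩ := h (F.image π')
    obtain ⟨ε, hε, he⟩ := cmp_rep hδ hγ' F (fun x => u (π' x)) t (by
      intro x hx
      rw [← (ht x hx).2]
      exact ((hu _ (Finset.mem_image_of_mem _ hx)).1).symm)
    refine ⟨γ, mv δ' (kv ε), hγ, fun w => G.mul_mem (hδ' w) hε, t, fun x hx => ⟨(ht x hx).1, ?_⟩⟩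
    rw [Perm.mul_apply, (hu _ (Finset.mem_image_of_mem _ hx)).2, ac_mv, ac_kv]
    have h3 : u (π' x) = ε (t x) := he x hx
    rw [h3]
  inv_mem' := by
    classical
    intro π h F
    obtain ⟨γ, γ', hγ, hγ', t, ht⟩ := h (F.image ⇑π⁻¹)
    refine ⟨γ', γ, hγ', hγ, fun x => t (π⁻¹ x), fun x hx => ?_⟩
    obtain ⟨h1, h2⟩ := ht _ (Finset.mem_image_of_mem _ hx)
    refine ⟨?_, h1⟩
    rw [← h2]
    simp

theorem mem_ElemG {G : Subgroup (Perm ℕ)} (hG : Oligo G) {π : Perm Am} :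
    π ∈ ElemG hG ↔ Elem G π := Iff.rfl

theorem elem_ac {G : Subgroup (Perm ℕ)} (hG : Oligo G) {γ₀ : FSP} (h0 : ∀ w, γ₀.1 w ∈ G) :
    Elem G (ac γ₀) := by
  intro F
  obtain ⟨γ, hγ, t, ht⟩ := exists_ac hG F
  refine ⟨γ, mv γ₀ γ, hγ, fun w => G.mul_mem (h0 w) (hγ w), t, fun x hx => ⟨ht x hx, ?_⟩⟩
  rw [ac_mv, ← ht x hx]

theorem elem_sg {G : Subgroup (Perm ℕ)} (hG : Oligo G) : Elem G sg := by
  intro F
  obtain ⟨γ, hγ, t, ht⟩ := exists_ac hG F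
  have h1 : ∃ N, Dp (fun w => γ.1 (sh w)) N := by
    obtain ⟨N, hN⟩ := γ.2
    exact ⟨N + 1, hN.sh⟩
  refine ⟨γ, ⟨fun w => γ.1 (sh w), h1⟩, hγ, fun w => hγ _, t, fun x hx => ⟨ht x hx, ?_⟩⟩
  conv_lhs => rw [ht x hx]
  rfl

theorem pw_mem {G : Subgroup (Perm ℕ)} {u : ℕ → Perm ℕ} (hu : ∀ k, u k ∈ G) (m n : ℕ) (w : Ix) :
    pw u m n w ∈ G := by
  induction n with
  | zero => exact G.one_mem
  | succ n ih =>
    rw [pw_succ]
    exact G.mul_mem ih (hu _)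

theorem elem_pp {G : Subgroup (Perm ℕ)} (hG : Oligo G) {u : ℕ → Perm ℕ}
    (hu : ∀ x, ∀ᶠ k in (UU : Filter ℕ), u k x = x) (huG : ∀ k, u k ∈ G) {m : ℕ} (hm : 1 ≤ m) :
    Elem G (pp u hu hm) := by
  intro F
  obtain ⟨γ, hγ, t, ht⟩ := exists_ac hG F
  obtain ⟨N, hN⟩ := γ.2
  refine ⟨γ, mv ⟨pw u m N, _, pw_dp u hm N⟩ γ, hγ, fun w => G.mul_mem (pw_mem huG m N w) (hγ w), t,
    fun x hx => ⟨ht x hx, ?_⟩⟩
  conv_lhs => rw [ht x hx]
  rw [ac_cs, pp_mk hu hm _ (n := N), ac_mv, ac_cs]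
  · rfl
  · exact (hN.mono (le_mul_of hm le_rfl)).comp1 fun g => g (t x)

/-- closing under countably many operations -/
theorem exists_closed_set {A : Type} (B0 : Set A) (hB0 : B0.Countable) (Θ : Finset A → Set A)
    (hΘ : ∀ F, (Θ F).Countable) :
    ∃ C : Set A, C.Countable ∧ B0 ⊆ C ∧ ∀ F : Finset A, (F : Set A) ⊆ C → Θ F ⊆ C := by
  classical
  let K : Set A → Set A := fun S => S ∪ ⋃ F ∈ {F : Finset A | (F : Set A) ⊆ S}, Θ F
  have hKc : ∀ S : Set A, S.Countable → (K S).Countable := by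
    intro S hS
    have hFc : {F : Finset A | (F : Set A) ⊆ S}.Countable := by
      have : Countable S := hS.to_subtype
      have : {F : Finset A | (F : Set A) ⊆ S} ⊆
          Set.range (fun F : Finset S => F.map ⟨Subtype.val, Subtype.val_injective⟩) := by
        intro F hF
        refine ⟨F.subtype (· ∈ S), ?_⟩
        ext x
        simp only [Finset.mem_map, Finset.mem_subtype, Function.Embedding.coeFn_mk]
        constructor
        · rintro ⟨y, hy, rfl⟩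
          exact hy
        · intro hx
          exact ⟨⟨x, hF hx⟩, hx, rfl⟩
      exact (Set.countable_range _).mono this
    exact hS.union (hFc.biUnion fun F _ => hΘ F)
  let S : ℕ → Set A := fun n => Nat.rec B0 (fun _ S => K S) n
  have hS0 : S 0 = B0 := rfl
  have hSs : ∀ n, S (n + 1) = K (S n) := fun n => rfl
  have hSc : ∀ n, (S n).Countable := by
    intro n
    induction n with
    | zero => exact hB0
    | succ n ih => rw [hSs]; exact hKc _ ih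
  have hmono : Monotone S := monotone_nat_of_le_succ fun n x hx => by
    rw [hSs]
    exact Or.inl hx
  refine ⟨⋃ n, S n, Set.countable_iUnion hSc, fun x hx => Set.mem_iUnion.2 ⟨0, hx⟩,
    fun F hF x hx => ?_⟩
  have hN : ∀ y ∈ F, ∃ n, y ∈ S n := fun y hy => Set.mem_iUnion.1 (hF hy)
  choose! N hN using hN
  refine Set.mem_iUnion.2 ⟨F.sup N + 1, ?_⟩
  rw [hSs]
  exact Or.inr (Set.mem_iUnion₂.2 ⟨F, fun y hy => hmono (Finset.le_sup hy) (hN y hy), hx⟩)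

theorem exists_model {G : Subgroup (Perm ℕ)} (hc : ClosedG G) (hG : Oligo G)
    (HH : Subgroup (Perm Am)) (hHHc : (HH : Set (Perm Am)).Countable) (hHH : ∀ π ∈ HH, Elem G π) :
    ∃ (s : ℕ → ℕ) (ht : Perm Am → Perm ℕ), Cl G s ∧ (∀ π ∈ HH, ht π ∈ G) ∧
      (∀ π ∈ HH, ∀ π' ∈ HH, ht (π * π') = ht π * ht π') ∧
      (∀ π ∈ HH, ∀ n n', π (cs n) = cs n' → ht π (s n) = s n') ∧
      ∀ π ∈ HH, ∀ γ₀ : FSP, π = ac γ₀ → ∀ F : Finset ℕ, ∃ θ ∈ G, ∃ w : Ix, ∀ x ∈ F,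
        ht π x = θ⁻¹ (γ₀.1 w (θ x)) := by
  classical
  choose Θ hΘG tt htt using exists_ac hG
  obtain ⟨C, hCc, hC0, hCΘ⟩ := exists_closed_set (Set.range cs) (Set.countable_range _)
    (fun F => (⋃ x ∈ F, (fun π : Perm Am => π x) '' (HH : Set (Perm Am))) ∪
      Set.range (fun m => ac (Θ F) (cs m)))
    (fun F => (F.countable_toSet.biUnion fun x _ => hHHc.image _).union (Set.countable_range _))
  have hcstm : ∀ n, cs n ∈ C := fun n => hC0 ⟨n, rfl⟩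
  have hCact : ∀ π ∈ HH, ∀ x ∈ C, π x ∈ C := by
    intro π hπ x hx
    refine hCΘ {x} (by simpa using hx) (Or.inl ?_)
    exact Set.mem_iUnion₂.2 ⟨x, by simp, ⟨π, hπ, rfl⟩⟩
  have hCrep : ∀ F : Finset Am, (F : Set Am) ⊆ C → ∀ m, ac (Θ F) (cs m) ∈ C := by
    intro F hF m
    exact hCΘ F hF (Or.inr ⟨m, rfl⟩)
  have : Countable C := hCc.to_subtype
  have : Nonempty C := ⟨⟨cs 0, hcstm 0⟩⟩
  let Q : List (C × ℕ) → Prop := fun l => ∃ γ : FSP, (∀ w, γ.1 w ∈ G) ∧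
    ∀ p ∈ l, (p.1 : Am) = ac γ (cs p.2)
  -- comparison of two representations
  have hcmp : ∀ (l : List (C × ℕ)) (γ γ' : FSP) (t' : Am → ℕ), (∀ w, γ.1 w ∈ G) →
      (∀ w, γ'.1 w ∈ G) → (∀ p ∈ l, (p.1 : Am) = ac γ (cs p.2)) →
      (∀ p ∈ l, (p.1 : Am) = ac γ' (cs (t' p.1))) →
      ∃ δ ∈ G, ∀ p ∈ l, p.2 = δ (t' p.1) := by
    intro l γ γ' t' hγ hγ' h1 h2
    obtain ⟨δ, hδ, h3⟩ := cmp_rep hγ hγ' l.toFinset (fun p => p.2) (fun p => t' p.1) (by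
      intro p hp
      rw [← h1 p (List.mem_toFinset.1 hp)]
      exact h2 p (List.mem_toFinset.1 hp))
    exact ⟨δ, hδ, fun p hp => h3 p (List.mem_toFinset.2 hp)⟩
  have hshift : ∀ (γ' : FSP) (δ : Perm ℕ) (n : ℕ),
      ac (mv γ' (kv δ⁻¹)) (cs n) = ac γ' (cs (δ⁻¹ n)) := fun γ' δ n => by rw [ac_mv, ac_kv]
  obtain ⟨e, he⟩ := back_and_forth Q ⟨kv 1, fun _ => G.one_mem, by simp⟩
    (by
      rintro l ⟨γ, hγ, hl⟩ x
      let F : Finset Am := insert x.1 (l.map (fun p => (p.1 : Am))).toFinset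
      have hF := htt F
      obtain ⟨δ, hδ, hδl⟩ := hcmp l γ (Θ F) (tt F) hγ (hΘG F) hl (fun p hp =>
        hF _ (Finset.mem_insert_of_mem (List.mem_toFinset.2 (List.mem_map.2 ⟨p, hp, rfl⟩))))
      refine ⟨δ (tt F x.1), mv (Θ F) (kv δ⁻¹), fun w => G.mul_mem (hΘG F w) (G.inv_mem hδ), ?_⟩
      intro p hp
      rcases List.mem_cons.1 hp with rfl | hp
      · rw [hshift]
        simp only
        rw [ia]
        exact hF _ (Finset.mem_insert_self _ _)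
      · rw [hshift, hδl p hp, ia]
        exact hF _ (Finset.mem_insert_of_mem (List.mem_toFinset.2 (List.mem_map.2 ⟨p, hp, rfl⟩))))
    (by
      rintro l ⟨γ, hγ, hl⟩ n
      let F : Finset Am := (l.map (fun p => (p.1 : Am))).toFinset
      have hF := htt F
      have hFC : (F : Set Am) ⊆ C := by
        intro x hx
        obtain ⟨p, _, rfl⟩ := List.mem_map.1 (List.mem_toFinset.1 (Finset.mem_coe.1 hx))
        exact p.1.2
      obtain ⟨δ, hδ, hδl⟩ := hcmp l γ (Θ F) (tt F) hγ (hΘG F) hl (fun p hp =>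
        hF _ (List.mem_toFinset.2 (List.mem_map.2 ⟨p, hp, rfl⟩)))
      refine ⟨⟨ac (Θ F) (cs (δ⁻¹ n)), hCrep F hFC _⟩, mv (Θ F) (kv δ⁻¹),
        fun w => G.mul_mem (hΘG F w) (G.inv_mem hδ), ?_⟩
      intro p hp
      rcases List.mem_cons.1 hp with rfl | hp
      · rw [hshift]
      · rw [hshift, hδl p hp, ia]
        exact hF _ (List.mem_toFinset.2 (List.mem_map.2 ⟨p, hp, rfl⟩)))
    (by
      rintro l ⟨γ, hγ, hl⟩ p hp q hq
      constructor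
      · intro h
        have h1 := (hl p hp).symm.trans ((congrArg Subtype.val h).trans (hl q hq))
        exact cs_inj ((ac γ).injective h1)
      · intro h
        exact Subtype.ext (by rw [hl p hp, hl q hq, h]))
  -- approximation property of `e`
  have happ : ∀ F : Finset C, ∃ γ : FSP, (∀ w, γ.1 w ∈ G) ∧
      ∀ x ∈ F, (x : Am) = ac γ (cs (e x)) := by
    intro F
    obtain ⟨l, ⟨γ, hγ, hl⟩, h⟩ := he F
    exact ⟨γ, hγ, fun x hx => hl _ (h x hx)⟩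
  let s : ℕ → ℕ := fun n => e ⟨cs n, hcstm n⟩
  let eq' : ∀ π ∈ HH, C ≃ C := fun π hπ =>
    ⟨fun x => ⟨π x, hCact π hπ x x.2⟩, fun x => ⟨π⁻¹ x, hCact _ (HH.inv_mem hπ) x x.2⟩,
      fun x => Subtype.ext (by simp), fun x => Subtype.ext (by simp)⟩
  let ht : Perm Am → Perm ℕ := fun π => if hπ : π ∈ HH then (e.symm.trans (eq' π hπ)).trans e else 1
  have hht : ∀ π (hπ : π ∈ HH) (x : C), ht π (e x) = e (eq' π hπ x) := by
    intro π hπ x
    simp only [ht, dif_pos hπ, Equiv.trans_apply, Equiv.symm_apply_apply]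
  have hhtG : ∀ π ∈ HH, ht π ∈ G := by
    intro π hπ
    refine hc _ (fun F => ?_)
    let X : Finset C := F.image e.symm
    obtain ⟨γ, hγ, hl⟩ := happ (X ∪ X.image (eq' π hπ))
    obtain ⟨δ, δ', hδ, hδ', t, ht'⟩ := hHH π hπ (X.image Subtype.val)
    obtain ⟨ε, hε, h1⟩ := cmp_rep hγ hδ X (fun x => e x) (fun x => t x) (by
      intro x hx
      rw [← hl x (Finset.mem_union_left _ hx)]
      exact (ht' x (Finset.mem_image_of_mem _ hx)).1)
    obtain ⟨ε', hε', h2⟩ := cmp_rep hγ hδ' X (fun x => e (eq' π hπ x)) (fun x => t x) (by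
      intro x hx
      rw [← hl _ (Finset.mem_union_right _ (Finset.mem_image_of_mem _ hx))]
      exact (ht' x (Finset.mem_image_of_mem _ hx)).2)
    refine ⟨ε' * ε⁻¹, G.mul_mem hε' (G.inv_mem hε), fun n hn => ?_⟩
    have hx : e.symm n ∈ X := Finset.mem_image_of_mem _ hn
    have h3 := h1 _ hx
    have h4 := h2 _ hx
    rw [e.apply_symm_apply] at h3
    have h5 := hht π hπ (e.symm n)
    rw [e.apply_symm_apply] at h5
    rw [h5, h4, Perm.mul_apply]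
    congr 1
    rw [Perm.inv_eq_iff_eq]
    exact h3
  refine ⟨s, ht, fun F => ?_, hhtG, fun π hπ π' hπ' => ?_, fun π hπ n n' hn => ?_,
    fun π hπ γ₀ h0 F => ?_⟩
  · obtain ⟨γ, hγ, hl⟩ := happ (F.image (fun n => (⟨cs n, hcstm n⟩ : C)))
    obtain ⟨δ, hδ, h1⟩ := cmp_rep hγ (fun _ => G.one_mem) F s (fun n => n) (γ' := kv 1) (by
      intro n hn
      have h4 := hl ⟨cs n, hcstm n⟩ (Finset.mem_image_of_mem _ hn)
      exact h4.symm)
    exact ⟨δ, hδ, fun n hn => (h1 n hn).symm⟩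
  · refine Equiv.ext fun n => ?_
    obtain ⟨x, rfl⟩ := e.surjective n
    rw [Perm.mul_apply, hht π' hπ', hht π hπ, hht _ (HH.mul_mem hπ hπ')]
    rfl
  · change ht π (e ⟨cs n, hcstm n⟩) = e ⟨cs n', hcstm n'⟩
    rw [hht π hπ]
    congr 1
    exact Subtype.ext hn
  · subst h0
    let X : Finset C := F.image e.symm
    obtain ⟨γ, hγ, hl⟩ := happ (X ∪ X.image (eq' _ hπ))
    have h3 : ∀ n ∈ F, ∀ᶠ w in DD, γ₀.1 w (γ.1 w n) = γ.1 w (ht (ac γ₀) n) := by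
      intro n hn
      have hx : e.symm n ∈ X := Finset.mem_image_of_mem _ hn
      have h4 := hl (e.symm n) (Finset.mem_union_left _ hx)
      have h5 := hl (eq' _ hπ (e.symm n)) (Finset.mem_union_right _ (Finset.mem_image_of_mem _ hx))
      have h7 := hht _ hπ (e.symm n)
      rw [e.apply_symm_apply] at h4 h7
      rw [← h7] at h5
      have h6 : ((eq' _ hπ (e.symm n) : C) : Am) = ac γ₀ (e.symm n : C) := rfl
      rw [h6, h4, ac_cs, ac_cs, ac_mk, Am_eq] at h5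
      exact h5
    obtain ⟨w, hw⟩ := ((Filter.eventually_all_finset F).2 h3).exists
    refine ⟨γ.1 w, hγ w, w, fun n hn => ?_⟩
    rw [hw n hn, ia]

/-- null sequences -/
def NullS (u : ℕ → Perm ℕ) : Prop := ∀ x, ∀ᶠ k in (UU : Filter ℕ), u k x = x

theorem c0_mul (u v : ℕ → Perm ℕ) : ac (c0 (u * v)) = ac (c0 u) * ac (c0 v) := by
  refine Equiv.ext fun x => ?_
  induction x using Quotient.inductionOn with
  | h f => rfl

theorem c0_cs {u : ℕ → Perm ℕ} {n n' : ℕ} (h : ∀ᶠ k in (UU : Filter ℕ), u k n = n') :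
    ac (c0 u) (cs n) = cs n' := by
  rw [ac_cs]
  unfold cs
  rw [Am_eq]
  have h1 : Dp (fun w : Ix => u (w ((0 : ℕ) : ℤ)) n = n') (0 + 1) := by
    refine (Dp.coord (j := ((0 : ℕ) : ℤ)) (N := 0 + 1) (by norm_num) (by norm_num)).comp1
      fun k => u k n = n'
  refine DD_last (b := 0) h1 (fun w => ?_)
  filter_upwards [h] with k hk
  change u (Function.update w ((0 : ℕ) : ℤ) k ((0 : ℕ) : ℤ)) n = n'
  rw [Function.update_self]
  exact hk

/-- rich embeddings with a shift -/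
theorem exists_rich3 {G : Subgroup (Perm ℕ)} (hc : ClosedG G) (hG : Oligo G)
    (W : Subgroup (ℕ → Perm ℕ)) (hW : (W : Set (ℕ → Perm ℕ)).Countable)
    (hWG : ∀ u ∈ W, ∀ k, u k ∈ G) :
    ∃ (s : ℕ → ℕ) (ht : (ℕ → Perm ℕ) → Perm ℕ), Cl G s ∧ (∀ u ∈ W, ht u ∈ G) ∧
      (∀ u ∈ W, ∀ v ∈ W, ht (u * v) = ht u * ht v) ∧
      (∀ u ∈ W, ∀ n n', (∀ᶠ k in (UU : Filter ℕ), u k n = n') → ht u (s n) = s n') ∧
      (∀ u ∈ W, ∀ F : Finset ℕ, ∃ θ ∈ G, ∃ k, ∀ x ∈ F, ht u x = θ⁻¹ (u k (θ x))) ∧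
      ∃ σ ∈ G, ⇑σ ∘ s = s ∧ ∀ u ∈ W, NullS u → ∀ m : ℕ, 1 ≤ m →
        ∃ p ∈ G, ⇑p ∘ s = s ∧ ht u = p * σ ^ m * p⁻¹ * (σ ^ m)⁻¹ := by
  classical
  let B0 : Set (Perm Am) := (fun u => ac (c0 u)) '' (W : Set (ℕ → Perm ℕ)) ∪ ({sg} ∪
    ⋃ m : ℕ, (fun u => if h : NullS u ∧ 1 ≤ m then pp u h.1 h.2 else 1) '' (W : Set (ℕ → Perm ℕ)))
  have hB0 : B0.Countable := (hW.image _).union ((Set.countable_singleton _).union
    (Set.countable_iUnion fun m => hW.image _))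
  obtain ⟨H, hHc, hB, -⟩ := exists_countable_subgroup (α := Perm Am) (Ω := ℕ) (fun _ n => n) B0 hB0
    (fun _ => ∅) (fun _ => Set.countable_empty)
  let HH : Subgroup (Perm Am) := H ⊓ ElemG hG
  have hHHc : (HH : Set (Perm Am)).Countable := hHc.mono fun π hπ => hπ.1
  obtain ⟨s, ht, hs, h1, h2, h3, h4⟩ := exists_model hc hG HH hHHc (fun π hπ => hπ.2)
  have hcm : ∀ u ∈ W, ac (c0 u) ∈ HH := fun u hu =>
    ⟨hB (Or.inl ⟨u, hu, rfl⟩), elem_ac hG fun w => hWG u hu _⟩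
  have hsm : sg ∈ HH := ⟨hB (Or.inr (Or.inl rfl)), elem_sg hG⟩
  have hpm : ∀ u ∈ W, ∀ (hu : NullS u) (m : ℕ) (hm : 1 ≤ m), pp u hu hm ∈ HH := by
    intro u huW hu m hm
    refine ⟨hB (Or.inr (Or.inr (Set.mem_iUnion.2 ⟨m, u, huW, ?_⟩))), elem_pp hG hu (hWG u huW) hm⟩
    exact dif_pos ⟨hu, hm⟩
  have hone : ht 1 = 1 := by
    have := h2 1 HH.one_mem 1 HH.one_mem
    rw [mul_one] at this
    exact (mul_eq_left.1 this.symm)
  have hinv : ∀ π ∈ HH, ht π⁻¹ = (ht π)⁻¹ := by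
    intro π hπ
    have := h2 π hπ π⁻¹ (HH.inv_mem hπ)
    rw [mul_inv_cancel, hone] at this
    exact (eq_inv_of_mul_eq_one_right this.symm)
  have hpow : ∀ m : ℕ, sg ^ m ∈ HH ∧ ht (sg ^ m) = ht sg ^ m := by
    intro m
    induction m with
    | zero => exact ⟨HH.one_mem, by rw [pow_zero, pow_zero, hone]⟩
    | succ m ih => exact ⟨HH.pow_mem hsm _, by rw [pow_succ, pow_succ, h2 _ ih.1 _ hsm, ih.2]⟩
  refine ⟨s, fun u => ht (ac (c0 u)), hs, fun u hu => h1 _ (hcm u hu), fun u hu v hv => ?_,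
    fun u hu n n' h => h3 _ (hcm u hu) n n' (c0_cs h), fun u hu F => ?_, ht sg, h1 _ hsm, ?_, ?_⟩
  · change ht (ac (c0 (u * v))) = _
    rw [c0_mul, h2 _ (hcm u hu) _ (hcm v hv)]
  · obtain ⟨θ, hθ, w, hw⟩ := h4 _ (hcm u hu) (c0 u) rfl F
    exact ⟨θ, hθ, w 0, hw⟩
  · funext n
    exact h3 _ hsm n n (sg_cs n)
  · intro u huW hu m hm
    refine ⟨ht (pp u hu hm), h1 _ (hpm u huW hu m hm), ?_, ?_⟩
    · funext n
      exact h3 _ (hpm u huW hu m hm) n n (pp_cs hu hm n)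
    · have hp := hpm u huW hu m hm
      have e := comm_id hu hm
      change ht (ac (c0 u)) = _
      rw [e, h2 _ (HH.mul_mem (HH.mul_mem hp (hpow m).1) (HH.inv_mem hp)) _ (HH.inv_mem (hpow m).1),
        h2 _ (HH.mul_mem hp (hpow m).1) _ (HH.inv_mem hp), h2 _ hp _ (hpow m).1, hinv _ hp,
        hinv _ (hpow m).1, (hpow m).2]

end Pool.Agent.Olig
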