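import Pool.Agent.Olig.IterC

/-!
# Locally finite isomorphisms extend, up to a compact correction, to the closures
-/

open Equiv Filter

namespace Pool.Agent.Olig

variable {G D : Subgroup (Perm ℕ)}

/-- the pair `(n, μ)` is in the closure of the graph of `φ` -/
def LimP (φ : G →* D) (n μ : ℕ → ℕ) : Prop := ∀ E Y : Finset ℕ, ∃ g : G,
  (∀ x ∈ E, (g : Perm ℕ) x = n x) ∧ ∀ y ∈ Y, (φ g : Perm ℕ) y = μ y

/-- locally finite homomorphisms -/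
def LocFin (φ : G →* D) : Prop := ∀ y : ℕ, ∃ E Z : Finset ℕ, ∀ g : G,
  (∀ x ∈ E, (g : Perm ℕ) x = x) → (φ g : Perm ℕ) y ∈ Z

theorem LimP.mul {φ : G →* D} {n μ n' μ' : ℕ → ℕ} (h : LimP φ n μ) (h' : LimP φ n' μ') :
    LimP φ (n ∘ n') (μ ∘ μ') := by
  classical
  intro E Y
  obtain ⟨g', h1, h2⟩ := h' E Y
  obtain ⟨g, h3, h4⟩ := h (E.image n') (Y.image μ')
  refine ⟨g * g', fun x hx => ?_, fun y hy => ?_⟩
  · change (g : Perm ℕ) ((g' : Perm ℕ) x) = n (n' x)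
    rw [h1 x hx, h3 _ (Finset.mem_image_of_mem _ hx)]
  · rw [map_mul]
    change (φ g : Perm ℕ) ((φ g' : Perm ℕ) y) = μ (μ' y)
    rw [h2 y hy, h4 _ (Finset.mem_image_of_mem _ hy)]

theorem LimP.of (φ : G →* D) (g : G) : LimP φ (g : Perm ℕ) (φ g : Perm ℕ) :=
  fun _ _ => ⟨g, fun _ _ => rfl, fun _ _ => rfl⟩

theorem LimP.clG {φ : G →* D} {n μ : ℕ → ℕ} (h : LimP φ n μ) : Cl G n := by
  intro F
  obtain ⟨g, h1, _⟩ := h F ∅
  exact ⟨g, g.2, h1⟩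

theorem LimP.clD {φ : G →* D} {n μ : ℕ → ℕ} (h : LimP φ n μ) : Cl D μ := by
  intro F
  obtain ⟨g, _, h1⟩ := h ∅ F
  exact ⟨φ g, (φ g).2, h1⟩

theorem LimP.swap {φ : G ≃* D} {n μ : ℕ → ℕ} (h : LimP φ.toMonoidHom n μ) :
    LimP φ.symm.toMonoidHom μ n := by
  intro E Y
  obtain ⟨g, h1, h2⟩ := h Y E
  exact ⟨φ g, h2, fun y hy => by
    have : φ.symm.toMonoidHom (φ g) = g := φ.symm_apply_apply g
    rw [this]
    exact h1 y hy⟩

theorem LimP.unswap {φ : G ≃* D} {n μ : ℕ → ℕ} (h : LimP φ.symm.toMonoidHom μ n) :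
    LimP φ.toMonoidHom n μ := by
  intro E Y
  obtain ⟨d, h1, h2⟩ := h Y E
  exact ⟨φ.symm d, h2, fun y hy => by
    have : φ.toMonoidHom (φ.symm d) = d := φ.apply_symm_apply d
    rw [this]
    exact h1 y hy⟩

theorem LimP.congr_cl {φ : G →* D} {n μ : ℕ → ℕ} (h : ∀ E : Finset ℕ, ∃ n', (∀ x ∈ E, n' x = n x) ∧
    LimP φ n' μ) : LimP φ n μ := by
  intro E Y
  obtain ⟨n', h1, h2⟩ := h E
  obtain ⟨g, h3, h4⟩ := h2 E Y
  exact ⟨g, fun x hx => (h3 x hx).trans (h1 x hx), h4⟩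

theorem LimP.conj {φ : G →* D} (g t : G) (h : LimP φ (t : Perm ℕ) id) :
    LimP φ ((g⁻¹ * t * g : G) : Perm ℕ) id := by
  have h1 := ((LimP.of φ g⁻¹).mul h).mul (LimP.of φ g)
  have e1 : ((⇑((g⁻¹ : G) : Perm ℕ)) ∘ ⇑(t : Perm ℕ)) ∘ ⇑(g : Perm ℕ) =
      ⇑((g⁻¹ * t * g : G) : Perm ℕ) := rfl
  have e2 : ((⇑((φ g⁻¹ : D) : Perm ℕ)) ∘ id) ∘ ⇑(φ g : Perm ℕ) = id := by
    funext y
    rw [map_inv]
    change (φ g : Perm ℕ)⁻¹ ((φ g : Perm ℕ) y) = y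
    exact ia _ _
  rwa [e1, e2] at h1

/-- the elements `(t, 1)` of the closure of the graph and the elements `(1, φ t)` -/
theorem limP_kernel {φ : G →* D} {t : G} (h : LimP φ id (φ t : Perm ℕ)) : LimP φ (t : Perm ℕ) id := by
  classical
  intro E Y
  obtain ⟨w, h1, h2⟩ := h E (Y.image ⇑(φ t : Perm ℕ)⁻¹)
  refine ⟨t * w⁻¹, fun x hx => ?_, fun y hy => ?_⟩
  · change (t : Perm ℕ) ((w : Perm ℕ)⁻¹ x) = (t : Perm ℕ) x
    congr 1
    rw [Perm.inv_eq_iff_eq]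
    exact (h1 x hx).symm
  · rw [map_mul, map_inv]
    change (φ t : Perm ℕ) ((φ w : Perm ℕ)⁻¹ y) = y
    have h3 := h2 _ (Finset.mem_image_of_mem _ hy)
    have h4 : (φ t : Perm ℕ) ((φ t : Perm ℕ)⁻¹ y) = y := ai _ _
    rw [h4] at h3
    have h5 : (φ w : Perm ℕ)⁻¹ y = (φ t : Perm ℕ)⁻¹ y := by
      rw [Perm.inv_eq_iff_eq]
      exact h3.symm
    rw [h5, h4]

theorem limP_kernel' {φ : G ≃* D} {t : G} (h : LimP φ.toMonoidHom (t : Perm ℕ) id) :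
    LimP φ.toMonoidHom id (φ t : Perm ℕ) := by
  have h1 : LimP φ.symm.toMonoidHom id (φ.symm.toMonoidHom (φ t) : Perm ℕ) := by
    have e : φ.symm.toMonoidHom (φ t) = t := φ.symm_apply_apply t
    rw [e]
    exact h.swap
  exact (limP_kernel h1).unswap

theorem LimP.fibre_aux {φ : G →* D} (hφ : LocFin φ) {n μ μ' : ℕ → ℕ}
    (h : LimP φ n μ) (h' : LimP φ n μ') : ∃ s : ℕ → ℕ, μ' = μ ∘ s ∧ LimP φ id s := by
  classical
  choose EE ZZ hZ using hφ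
  -- key approximation
  have key : ∀ (E Y : Finset ℕ), ∃ w : G, (∀ x ∈ E, (w : Perm ℕ) x = x) ∧
      ∀ y ∈ Y, μ' y = μ ((φ w : Perm ℕ) y) := by
    intro E Y
    let E' : Finset ℕ := E ∪ Y.biUnion EE
    obtain ⟨g, h1, h2⟩ := h E' (Y.biUnion ZZ)
    obtain ⟨g', h3, h4⟩ := h' E' Y
    have hw : ∀ x ∈ E', ((g⁻¹ * g' : G) : Perm ℕ) x = x := by
      intro x hx
      change (g : Perm ℕ)⁻¹ ((g' : Perm ℕ) x) = x
      rw [h3 x hx, ← h1 x hx]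
      exact ia _ _
    refine ⟨g⁻¹ * g', fun x hx => hw x (Finset.mem_union_left _ hx), fun y hy => ?_⟩
    have h5 : (φ (g⁻¹ * g') : Perm ℕ) y ∈ ZZ y := hZ y _ (fun x hx =>
      hw x (Finset.mem_union_right _ (Finset.mem_biUnion.2 ⟨y, hy, hx⟩)))
    rw [← h2 _ (Finset.mem_biUnion.2 ⟨y, hy, h5⟩), ← h4 y hy, map_mul, map_inv]
    change _ = (φ g : Perm ℕ) ((φ g : Perm ℕ)⁻¹ ((φ g' : Perm ℕ) y))
    rw [ai]
  have hs : ∀ y, ∃ z, μ' y = μ z := fun y => by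
    obtain ⟨w, _, hw⟩ := key ∅ {y}
    exact ⟨_, hw y (by simp)⟩
  choose s hs using hs
  refine ⟨s, funext hs, fun E Y => ?_⟩
  obtain ⟨w, hw1, hw2⟩ := key E Y
  refine ⟨w, hw1, fun y hy => ?_⟩
  exact h.clD.injective (by rw [← hw2 y hy, hs y])

theorem LimP.fibre {φ : G →* D} (hφ : LocFin φ) (hD : ClosedG D) {n μ μ' : ℕ → ℕ}
    (h : LimP φ n μ) (h' : LimP φ n μ') : ∃ s : D, μ' = μ ∘ ⇑(s : Perm ℕ) ∧
      LimP φ id (s : Perm ℕ) := by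
  obtain ⟨s, hs, h1⟩ := h.fibre_aux hφ h'
  obtain ⟨r, hr, h2⟩ := h'.fibre_aux hφ h
  have e1 : s ∘ r = id := by
    funext y
    refine h.clD.injective ?_
    have e3 := congrFun hs (r y)
    have e4 := congrFun hr y
    simp only [Function.comp_apply, id_eq] at e3 e4 ⊢
    rw [← e3, ← e4]
  have e2 : r ∘ s = id := by
    funext y
    refine h'.clD.injective ?_
    have e3 := congrFun hr (s y)
    have e4 := congrFun hs y
    simp only [Function.comp_apply, id_eq] at e3 e4 ⊢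
    rw [← e3, ← e4]
  let s' : Perm ℕ := ⟨s, r, congrFun e2, congrFun e1⟩
  have hs' : (⇑s' : ℕ → ℕ) = s := rfl
  have hmem : s' ∈ D := hD _ (by rw [hs']; exact h1.clD)
  exact ⟨⟨s', hmem⟩, hs, h1⟩

theorem exists_limP {φ : G →* D} (hφ : LocFin φ) {n : ℕ → ℕ} (hn : Cl G n) : ∃ μ, LimP φ n μ := by
  classical
  choose g hg hgn using fun k : ℕ => hn (Finset.range k)
  choose EE ZZ hZ using hφ
  have hval : ∀ y, ∃ z, ∀ᶠ k in (UU : Filter ℕ), (φ ⟨g k, hg k⟩ : Perm ℕ) y = z := by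
    intro y
    let K : ℕ := (EE y).sup id + 1
    have h1 : ∀ᶠ k in (UU : Filter ℕ), ∃ z ∈ ((ZZ y).image (φ ⟨g K, hg K⟩ : Perm ℕ) : Set ℕ),
        (φ ⟨g k, hg k⟩ : Perm ℕ) y = z := by
      filter_upwards [UU_ge K] with k hk
      refine ⟨_, ?_, rfl⟩
      have h2 : (φ ((⟨g K, hg K⟩ : G)⁻¹ * ⟨g k, hg k⟩) : Perm ℕ) y ∈ ZZ y := by
        refine hZ y _ (fun x hx => ?_)
        change (g K)⁻¹ (g k x) = x
        have hx1 : x < K := Nat.lt_succ_of_le (Finset.le_sup (f := id) hx)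
        rw [hgn k x (Finset.mem_range.2 (hx1.trans_le hk)), ← hgn K x (Finset.mem_range.2 hx1)]
        exact ia _ _
      rw [Finset.mem_coe, Finset.mem_image]
      refine ⟨_, h2, ?_⟩
      rw [map_mul, map_inv]
      change (φ ⟨g K, hg K⟩ : Perm ℕ) ((φ ⟨g K, hg K⟩ : Perm ℕ)⁻¹ ((φ ⟨g k, hg k⟩ : Perm ℕ) y)) = _
      exact ai _ _
    rw [Ultrafilter.eventually_exists_mem_iff (Finset.finite_toSet _)] at h1
    obtain ⟨z, _, hz⟩ := h1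
    exact ⟨z, hz⟩
  choose μ hμ using hval
  refine ⟨μ, fun E Y => ?_⟩
  obtain ⟨k, h1, h2⟩ := (((Filter.eventually_all_finset Y).2 fun y _ => hμ y).and
    (UU_ge (E.sup id + 1))).exists
  exact ⟨⟨g k, hg k⟩, fun x hx => hgn k x (Finset.mem_range.2
    ((Nat.lt_succ_of_le (Finset.le_sup (f := id) hx)).trans_le h2)), h1⟩

/-- the limit group has finite orbits -/
theorem limS_finite {φ : G →* D} (hφ : LocFin φ) (y : ℕ) :
    {z | ∃ s : D, LimP φ id (s : Perm ℕ) ∧ (s : Perm ℕ) y = z}.Finite := by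
  obtain ⟨E, Z, hZ⟩ := hφ y
  refine Z.finite_toSet.subset ?_
  rintro z ⟨s, hs, rfl⟩
  obtain ⟨w, h1, h2⟩ := hs E {y}
  rw [← h2 y (by simp)]
  exact hZ w h1

theorem limS_inv {φ : G →* D} {s : D} (h : LimP φ id (s : Perm ℕ)) :
    LimP φ id ((s⁻¹ : D) : Perm ℕ) := by
  classical
  intro E Y
  obtain ⟨w, h1, h2⟩ := h E (Y.image ⇑(s : Perm ℕ)⁻¹)
  refine ⟨w⁻¹, fun x hx => ?_, fun y hy => ?_⟩
  · change (w : Perm ℕ)⁻¹ x = x
    rw [Perm.inv_eq_iff_eq]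
    exact (h1 x hx).symm
  · rw [map_inv]
    change (φ w : Perm ℕ)⁻¹ y = (s : Perm ℕ)⁻¹ y
    rw [Perm.inv_eq_iff_eq]
    have h3 := h2 _ (Finset.mem_image_of_mem _ hy)
    rw [h3]
    exact (ai _ _).symm

theorem limS_mul {φ : G →* D} {s s' : D} (h : LimP φ id (s : Perm ℕ)) (h' : LimP φ id (s' : Perm ℕ)) :
    LimP φ id ((s * s' : D) : Perm ℕ) := h.mul h'

theorem limS_one (φ : G →* D) : LimP φ id ((1 : D) : Perm ℕ) := by
  intro E Y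
  exact ⟨1, fun _ _ => rfl, fun y _ => by rw [map_one]⟩

/-- a power of an element of the limit group fixes the orbit of `y` -/
theorem limS_pow {φ : G →* D} (hφ : LocFin φ) {s : D} (hs : LimP φ id (s : Perm ℕ)) (y : ℕ) :
    ∃ m : ℕ, 1 ≤ m ∧ ∀ r : D, LimP φ id (r : Perm ℕ) →
      ((s : Perm ℕ) ^ m) ((r : Perm ℕ) y) = (r : Perm ℕ) y := by
  classical
  let Z : Set ℕ := {z | ∃ s : D, LimP φ id (s : Perm ℕ) ∧ (s : Perm ℕ) y = z}
  have hZf : Z.Finite := limS_finite hφ y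
  have hZs : ∀ x, x ∈ Z ↔ (s : Perm ℕ) x ∈ Z := by
    intro x
    constructor
    · rintro ⟨r, hr, rfl⟩
      exact ⟨s * r, limS_mul hs hr, rfl⟩
    · rintro ⟨r, hr, h⟩
      refine ⟨s⁻¹ * r, limS_mul (limS_inv hs) hr, ?_⟩
      change (s : Perm ℕ)⁻¹ ((r : Perm ℕ) y) = x
      rw [h]
      exact ia _ _
  have : Finite Z := hZf.to_subtype
  let p : Perm Z := (s : Perm ℕ).subtypePerm (fun x => (hZs x).symm)
  have hp : p ^ orderOf p = 1 := pow_orderOf_eq_one p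
  have hpos : 0 < orderOf p := orderOf_pos p
  have hpow : ∀ (k : ℕ) (z : Z), ((p ^ k) z : ℕ) = ((s : Perm ℕ) ^ k) z := by
    intro k
    induction k with
    | zero => intro z; rfl
    | succ k ih =>
      intro z
      rw [pow_succ, pow_succ, Perm.mul_apply, Perm.mul_apply, ih]
      rfl
  refine ⟨orderOf p, hpos, fun r hr => ?_⟩
  rw [← hpow (orderOf p) ⟨(r : Perm ℕ) y, r, hr, rfl⟩, hp]
  rfl

end Pool.Agent.Olig
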