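import Pool.Agent.Olig.IterH

/-!
# Extension of locally finite isomorphisms to the closures
-/

open Equiv Filter

namespace Pool.Agent.Olig

variable {G D : Subgroup (Perm ℕ)}

theorem exists_app (G : Subgroup (Perm ℕ)) (q : ℕ → ℕ) : ∃ u : ℕ → Perm ℕ, (∀ k, u k ∈ G) ∧
    (Cl G q → ∀ n, ∀ᶠ k in (UU : Filter ℕ), u k n = q n) ∧ ∀ g ∈ G, ⇑g = q → u = fun _ => g := by
  classical
  by_cases h : ∃ g ∈ G, ⇑g = q
  · obtain ⟨g, hg, rfl⟩ := h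
    exact ⟨fun _ => g, fun _ => hg, fun _ n => Eventually.of_forall fun _ => rfl,
      fun g' _ h => by rw [Equiv.coe_fn_injective h]⟩
  · by_cases hq : Cl G q
    · choose g hg hgn using fun k : ℕ => hq (Finset.range k)
      exact ⟨g, hg, fun _ n => (UU_ge (n + 1)).mono fun k hk => hgn k n (Finset.mem_range.2 hk),
        fun g' hg' h' => absurd ⟨g', hg', h'⟩ h⟩
    · exact ⟨fun _ => 1, fun _ => G.one_mem, fun h' => absurd h' hq,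
        fun g' hg' h' => absurd ⟨g', hg', h'⟩ h⟩

theorem local_ext {φ : G →* D} (hGc : ClosedG G) (hG : Oligo G) (hD : ClosedG D) (hφ : LocFin φ)
    (hK : KC φ) (Q : Finset (ℕ → ℕ)) (hQ : ∀ q ∈ Q, Cl G q) :
    ∃ E0 : (ℕ → ℕ) → (ℕ → ℕ), (∀ q ∈ Q, LimP φ q (E0 q)) ∧
      (∀ q ∈ Q, ∀ q' ∈ Q, q ∘ q' ∈ Q → E0 (q ∘ q') = E0 q ∘ E0 q') ∧
      ∀ t : G, ⇑(t : Perm ℕ) ∈ Q → LimP φ (t : Perm ℕ) id → E0 (t : Perm ℕ) = (φ t : Perm ℕ) := by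
  classical
  choose app hapG happ hapc using exists_app G
  obtain ⟨H, hHc, hB, -⟩ := exists_countable_subgroup (α := ℕ → Perm ℕ) (Ω := ℕ) (fun _ n => n)
    (app '' (Q : Set (ℕ → ℕ))) (Q.finite_toSet.image _).countable (fun _ => ∅)
    (fun _ => Set.countable_empty)
  let W : Subgroup (ℕ → Perm ℕ) :=
    { carrier := {γ | γ ∈ H ∧ ∀ k, γ k ∈ G}
      one_mem' := ⟨H.one_mem, fun _ => G.one_mem⟩
      mul_mem' := fun h h' => ⟨H.mul_mem h.1 h'.1, fun k => G.mul_mem (h.2 k) (h'.2 k)⟩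
      inv_mem' := fun h => ⟨H.inv_mem h.1, fun k => G.inv_mem (h.2 k)⟩ }
  have hWc : (W : Set (ℕ → Perm ℕ)).Countable := hHc.mono fun u hu => hu.1
  have hWG : ∀ u ∈ W, ∀ k, u k ∈ G := fun u hu => hu.2
  have hapW : ∀ q ∈ Q, app q ∈ W := fun q hq => ⟨hB ⟨q, hq, rfl⟩, hapG q⟩
  obtain ⟨s, ht, hs, htG, htm, hts, htR, σ, hσ, hσs, hnull⟩ := exists_rich3 hGc hG W hWc hWG
  obtain ⟨ν, hν, hνK⟩ := hK s hs
  have hνi : Function.Injective ν := hν.clD.injective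
  -- the homomorphism into the limit group
  have hS : ∀ v : G, ⇑(v : Perm ℕ) ∘ s = s → ∃ r : D, ⇑(φ v : Perm ℕ) ∘ ν = ν ∘ ⇑(r : Perm ℕ) ∧
      LimP φ id (r : Perm ℕ) := by
    intro v hv
    have h1 := (LimP.of φ v).mul hν
    rw [hv] at h1
    exact hν.fibre hφ hD h1
  -- null sequences are killed
  have hkill : ∀ u (hu : u ∈ W), NullS u → ⇑(φ ⟨ht u, htG u hu⟩ : Perm ℕ) ∘ ν = ν := by
    intro u hu hun
    obtain ⟨r0, hr0, hr0'⟩ := hS ⟨σ, hσ⟩ hσs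
    funext y
    obtain ⟨m, hm, hmy⟩ := limS_pow hφ hr0' y
    obtain ⟨p, hp, hps, e⟩ := hnull u hu hun m hm
    obtain ⟨rp, hrp, hrp'⟩ := hS ⟨p, hp⟩ hps
    have e1 : (⟨ht u, htG u hu⟩ : G) = ⟨p, hp⟩ * ⟨σ, hσ⟩ ^ m * ⟨p, hp⟩⁻¹ * (⟨σ, hσ⟩ ^ m)⁻¹ :=
      Subtype.ext e
    -- transport of an equality
    have tr : ∀ (v r : D), (⇑(v : Perm ℕ) ∘ ν = ν ∘ ⇑(r : Perm ℕ)) →
        ∀ k : ℕ, ⇑((v ^ k : D) : Perm ℕ) ∘ ν = ν ∘ ⇑((r ^ k : D) : Perm ℕ) := by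
      intro v r h k
      induction k with
      | zero => rfl
      | succ k ih =>
        funext x
        have h1 := congrFun h x
        have h2 := congrFun ih ((r : Perm ℕ) x)
        rw [pow_succ, pow_succ]
        change ((v ^ k : D) : Perm ℕ) ((v : Perm ℕ) (ν x)) = ν (((r ^ k : D) : Perm ℕ) ((r : Perm ℕ) x))
        simp only [Function.comp_apply] at h1 h2
        rw [h1, h2]
    have tri : ∀ (v r : D), (⇑(v : Perm ℕ) ∘ ν = ν ∘ ⇑(r : Perm ℕ)) →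
        ⇑((v⁻¹ : D) : Perm ℕ) ∘ ν = ν ∘ ⇑((r⁻¹ : D) : Perm ℕ) := by
      intro v r h
      funext x
      change (v : Perm ℕ)⁻¹ (ν x) = ν ((r : Perm ℕ)⁻¹ x)
      rw [Perm.inv_eq_iff_eq]
      have h1 := congrFun h ((r : Perm ℕ)⁻¹ x)
      simp only [Function.comp_apply] at h1
      rw [h1, ai]
    have hσm := tr _ _ hr0 m
    have hσi := tri _ _ hσm
    have hpi := tri _ _ hrp
    have hrpi : LimP φ id ((rp⁻¹ : D) : Perm ℕ) := limS_inv hrp'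
    have f1 : ((r0 ^ m : D) : Perm ℕ) y = y := by
      have := hmy 1 (limS_one φ)
      exact this
    have f2 : (((r0 ^ m)⁻¹ : D) : Perm ℕ) y = y := by
      change ((r0 ^ m : D) : Perm ℕ)⁻¹ y = y
      rw [Perm.inv_eq_iff_eq]
      exact f1.symm
    have f3 : ((r0 ^ m : D) : Perm ℕ) (((rp⁻¹ : D) : Perm ℕ) y) = ((rp⁻¹ : D) : Perm ℕ) y :=
      hmy _ hrpi
    rw [e1, map_mul, map_mul, map_mul, map_inv, map_inv, map_pow]
    change (φ ⟨p, hp⟩ : Perm ℕ) (((φ ⟨σ, hσ⟩ ^ m : D) : Perm ℕ) ((((φ ⟨p, hp⟩)⁻¹ : D) : Perm ℕ)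
      ((((φ ⟨σ, hσ⟩ ^ m)⁻¹ : D) : Perm ℕ) (ν y)))) = ν y
    have g1 := congrFun hσi y
    have g2 := congrFun hpi y
    have g3 := congrFun hσm (((rp⁻¹ : D) : Perm ℕ) y)
    have g4 := congrFun hrp (((rp⁻¹ : D) : Perm ℕ) y)
    simp only [Function.comp_apply] at g1 g2 g3 g4
    rw [g1, f2, g2, g3, f3, g4]
    congr 1
    change (rp : Perm ℕ) ((rp : Perm ℕ)⁻¹ y) = y
    exact ai _ _
  -- values
  have hval : ∀ q ∈ Q, ∃ μ : ℕ → ℕ, LimP φ q μ ∧ ∀ h : app q ∈ W,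
      ⇑(φ ⟨ht (app q), htG _ h⟩ : Perm ℕ) ∘ ν = ν ∘ μ := by
    intro q hq
    have hw := hapW q hq
    obtain ⟨μ, hμ⟩ := exists_limP hφ (hQ q hq)
    have h1 : ⇑(ht (app q)) ∘ s = s ∘ q := by
      funext n
      exact hts _ hw n (q n) (happ q (hQ q hq) n)
    have h2 := (LimP.of φ ⟨ht (app q), htG _ hw⟩).mul hν
    have h3 := hν.mul hμ
    rw [← h1] at h3
    obtain ⟨r, hr, hr'⟩ := h3.fibre hφ hD h2
    refine ⟨μ ∘ ⇑(r : Perm ℕ), ?_, fun _ => hr⟩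
    exact hμ.mul hr'
  choose! E0 hE0 hE0' using hval
  refine ⟨E0, hE0, fun q hq q' hq' hqq => ?_, fun t htQ htK => ?_⟩
  · have hw := hapW q hq
    have hw' := hapW q' hq'
    have hw'' := hapW _ hqq
    let u : ℕ → Perm ℕ := (app (q ∘ q'))⁻¹ * (app q * app q')
    have huW : u ∈ W := W.mul_mem (W.inv_mem hw'') (W.mul_mem hw hw')
    have hun : NullS u := by
      intro x
      filter_upwards [happ q' (hQ q' hq') x, happ q (hQ q hq) (q' x),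
        happ (q ∘ q') (hQ _ hqq) x] with k h1 h2 h3
      change (app (q ∘ q') k)⁻¹ (app q k (app q' k x)) = x
      rw [h1, h2, Perm.inv_eq_iff_eq, h3]
      rfl
    have e1 : ht (app q) * ht (app q') = ht (app (q ∘ q')) * ht u := by
      rw [← htm _ hw _ hw', ← htm _ hw'' _ huW]
      congr 1
      exact (mul_inv_cancel_left _ _).symm
    have e2 : (⟨ht (app q), htG _ hw⟩ : G) * ⟨ht (app q'), htG _ hw'⟩ =
        ⟨ht (app (q ∘ q')), htG _ hw''⟩ * ⟨ht u, htG _ huW⟩ := Subtype.ext e1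
    have e3 := congrArg (fun g : G => (φ g : Perm ℕ)) e2
    simp only [map_mul] at e3
    funext y
    refine hνi ?_
    have f1 := congrFun (hE0' q hq hw) (E0 q' y)
    have f2 := congrFun (hE0' q' hq' hw') y
    have f3 := congrFun (hE0' _ hqq hw'') y
    have f4 := congrFun (hkill u huW hun) y
    simp only [Function.comp_apply] at f1 f2 f3 f4
    rw [← f3]
    change _ = ν (E0 q (E0 q' y))
    rw [← f1, ← f2]
    have f5 := congrFun (congrArg (fun g : Perm ℕ => (⇑g : ℕ → ℕ)) e3) (ν y)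
    change (φ ⟨ht (app q), htG _ hw⟩ : Perm ℕ) ((φ ⟨ht (app q'), htG _ hw'⟩ : Perm ℕ) (ν y)) =
      (φ ⟨ht (app (q ∘ q')), htG _ hw''⟩ : Perm ℕ) ((φ ⟨ht u, htG _ huW⟩ : Perm ℕ) (ν y)) at f5
    rw [f5, f4]
  · have hw := hapW _ htQ
    have hapt : app ⇑(t : Perm ℕ) = fun _ => (t : Perm ℕ) := hapc _ _ t.2 rfl
    -- the lift is in the kernel group
    let t' : G := ⟨ht (app ⇑(t : Perm ℕ)), htG _ hw⟩
    have ht'K : LimP φ (t' : Perm ℕ) id := by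
      refine LimP.congr_cl fun E => ?_
      obtain ⟨θ, hθ, k, hk⟩ := htR _ hw E
      refine ⟨⇑((⟨θ, hθ⟩⁻¹ * t * ⟨θ, hθ⟩ : G) : Perm ℕ), fun x hx => ?_, LimP.conj ⟨θ, hθ⟩ t htK⟩
      change θ⁻¹ ((t : Perm ℕ) (θ x)) = ht (app ⇑(t : Perm ℕ)) x
      rw [hk x hx, hapt]
    have h1 : ∀ n, (t' : Perm ℕ) (s n) = s ((t : Perm ℕ) n) := fun n =>
      hts _ hw n _ (happ _ (hQ _ htQ) n)
    funext y
    refine hνi ?_
    have f1 := congrFun (hE0' _ htQ hw) y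
    simp only [Function.comp_apply] at f1
    rw [← f1]
    change (φ t' : Perm ℕ) (ν y) = _
    exact congrFun (hνK t' t ht'K htK (funext h1)) y

/-- compactness -/
theorem exists_ext_lf {φ : G →* D} (hGc : ClosedG G) (hG : Oligo G) (hD : ClosedG D)
    (hφ : LocFin φ) (hK : KC φ) :
    ∃ E : (ℕ → ℕ) → (ℕ → ℕ), (∀ q, Cl G q → LimP φ q (E q)) ∧
      (∀ q q', Cl G q → Cl G q' → E (q ∘ q') = E q ∘ E q') ∧
      ∀ t : G, LimP φ (t : Perm ℕ) id → E (t : Perm ℕ) = (φ t : Perm ℕ) := by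
  classical
  have hloc : ∀ Q : Finset {q : ℕ → ℕ // Cl G q}, ∃ E0 : (ℕ → ℕ) → (ℕ → ℕ),
      (∀ q : {q : ℕ → ℕ // Cl G q}, q ∈ Q → LimP φ q.1 (E0 q.1)) ∧
      (∀ q q' qq : {q : ℕ → ℕ // Cl G q}, q ∈ Q → q' ∈ Q → qq ∈ Q → qq.1 = q.1 ∘ q'.1 →
        E0 qq.1 = E0 q.1 ∘ E0 q'.1) ∧
      ∀ (t : G) (q : {q : ℕ → ℕ // Cl G q}), q ∈ Q → q.1 = ⇑(t : Perm ℕ) →
        LimP φ (t : Perm ℕ) id → E0 q.1 = (φ t : Perm ℕ) := by
    intro Q
    obtain ⟨E0, h1, h2, h3⟩ := local_ext hGc hG hD hφ hK (Q.image Subtype.val) (by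
      intro q hq
      obtain ⟨q', _, rfl⟩ := Finset.mem_image.1 hq
      exact q'.2)
    refine ⟨E0, fun q hq => h1 _ (Finset.mem_image_of_mem _ hq), ?_, ?_⟩
    · intro q q' qq hq hq' hqq e
      rw [e]
      exact h2 _ (Finset.mem_image_of_mem _ hq) _ (Finset.mem_image_of_mem _ hq')
        (by rw [← e]; exact Finset.mem_image_of_mem _ hqq)
    · intro t q hq e htK
      rw [e]
      exact h3 t (by rw [← e]; exact Finset.mem_image_of_mem _ hq) htK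
  choose E0 h1 h2 h3 using hloc
  let V : Ultrafilter (Finset {q : ℕ → ℕ // Cl G q}) := Ultrafilter.of atTop
  have hV : ∀ q : {q : ℕ → ℕ // Cl G q}, ∀ᶠ Q in (V : Filter (Finset {q : ℕ → ℕ // Cl G q})), q ∈ Q := by
    intro q
    have h : (V : Filter (Finset {q : ℕ → ℕ // Cl G q})) ≤ atTop := Ultrafilter.of_le _
    refine h ((eventually_ge_atTop {q}).mono fun Q hQ => ?_)
    exact hQ (Finset.mem_singleton_self q)
  have hval : ∀ (q : {q : ℕ → ℕ // Cl G q}) (y : ℕ), ∃ z, ∀ᶠ Q in (V : Filter (Finset {q : ℕ → ℕ // Cl G q})), E0 Q q.1 y = z := by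
    intro q y
    obtain ⟨μ, hμ⟩ := exists_limP hφ q.2
    have hfin : ((fun z => μ z) '' {z | ∃ s : D, LimP φ id (s : Perm ℕ) ∧ (s : Perm ℕ) y = z}).Finite :=
      (limS_finite hφ y).image _
    have h4 : ∀ᶠ Q in (V : Filter (Finset {q : ℕ → ℕ // Cl G q})), ∃ z ∈ (fun z => μ z) '' {z | ∃ s : D,
        LimP φ id (s : Perm ℕ) ∧ (s : Perm ℕ) y = z}, E0 Q q.1 y = z := by
      filter_upwards [hV q] with Q hQ
      obtain ⟨s, hs, hs'⟩ := hμ.fibre hφ hD (h1 Q q hQ)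
      refine ⟨_, ⟨(s : Perm ℕ) y, ⟨s, hs', rfl⟩, rfl⟩, ?_⟩
      rw [hs]
      rfl
    rw [Ultrafilter.eventually_exists_mem_iff hfin] at h4
    obtain ⟨z, _, hz⟩ := h4
    exact ⟨z, hz⟩
  choose E hE using hval
  have hEf : ∀ (q : {q : ℕ → ℕ // Cl G q}) (Y : Finset ℕ),
      ∀ᶠ Q in (V : Filter (Finset {q : ℕ → ℕ // Cl G q})), ∀ y ∈ Y, E0 Q q.1 y = E q y := fun q Y =>
    (Filter.eventually_all_finset Y).2 fun y _ => hE q y
  refine ⟨fun q => if hq : Cl G q then E ⟨q, hq⟩ else id, fun q hq => ?_, fun q q' hq hq' => ?_,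
    fun t htK => ?_⟩
  · simp only [dif_pos hq]
    intro A Y
    obtain ⟨Q, hQ1, hQ2⟩ := ((hEf ⟨q, hq⟩ Y).and (hV ⟨q, hq⟩)).exists
    obtain ⟨g, hg1, hg2⟩ := h1 Q ⟨q, hq⟩ hQ2 A Y
    exact ⟨g, hg1, fun y hy => (hg2 y hy).trans (hQ1 y hy)⟩
  · have hqq : Cl G (q ∘ q') := hq.comp hq'
    simp only [dif_pos hq, dif_pos hq', dif_pos hqq]
    funext y
    obtain ⟨Q, ⟨⟨⟨⟨a1, a2⟩, a3⟩, a4⟩, a5⟩, a6⟩ := ((((((hE ⟨q, hq⟩ (E ⟨q', hq'⟩ y)).and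
      (hE ⟨q', hq'⟩ y)).and (hE ⟨q ∘ q', hqq⟩ y)).and (hV ⟨q, hq⟩)).and (hV ⟨q', hq'⟩)).and
      (hV ⟨q ∘ q', hqq⟩)).exists
    have e := congrFun (h2 Q ⟨q, hq⟩ ⟨q', hq'⟩ ⟨q ∘ q', hqq⟩ a4 a5 a6 rfl) y
    change E0 Q (q ∘ q') y = E0 Q q (E0 Q q' y) at e
    change E ⟨q ∘ q', hqq⟩ y = E ⟨q, hq⟩ (E ⟨q', hq'⟩ y)
    rw [← a3, ← a1]
    change E0 Q (q ∘ q') y = E0 Q q (E ⟨q', hq'⟩ y)
    rw [← a2]
    exact e
  · have hq : Cl G ⇑(t : Perm ℕ) := Cl.of_mem t.2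
    simp only [dif_pos hq]
    funext y
    obtain ⟨Q, a1, a2⟩ := ((hE ⟨_, hq⟩ y).and (hV ⟨_, hq⟩)).exists
    rw [← a1]
    exact congrFun (h3 Q t ⟨_, hq⟩ a2 rfl htK) y

/-- isomorphism of the closures -/
theorem exists_iso_lf (hGc : ClosedG G) (hG : Oligo G) (hDc : ClosedG D)
    (φ : G ≃* D) (h1 : LocFin φ.toMonoidHom) (h2 : LocFin φ.symm.toMonoidHom) :
    ∃ E E' : (ℕ → ℕ) → (ℕ → ℕ), (∀ f, Cl G f → Cl D (E f)) ∧ (∀ f, Cl D f → Cl G (E' f)) ∧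
      (∀ f f', Cl G f → Cl G f' → E (f ∘ f') = E f ∘ E f') ∧
      (∀ f, Cl G f → E' (E f) = f) ∧ (∀ f, Cl D f → E (E' f) = f) ∧
      (∀ f, Cl G f → LimP φ.toMonoidHom f (E f)) := by
  classical
  obtain ⟨E, hE1, hE2, hE3⟩ := exists_ext_lf hGc hG hDc h1 (kc_of_locFin hGc hG hDc φ h1 h2)
  -- injectivity
  have hinj : ∀ f f', Cl G f → Cl G f' → E f = E f' → f = f' := by
    intro f f' hf hf' e
    have a1 := (hE1 f hf).swap
    have a2 := (hE1 f' hf').swap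
    rw [e] at a1
    obtain ⟨t, ht, htK⟩ := a2.fibre h2 hGc a1
    have htK' : LimP φ.toMonoidHom (t : Perm ℕ) id := htK.unswap
    have e1 : E f = E f' ∘ ⇑(φ t : Perm ℕ) := by
      rw [ht, hE2 f' _ hf' (Cl.of_mem t.2), hE3 t htK']
      rfl
    have e2 : (φ t : Perm ℕ) = 1 := by
      refine Equiv.ext fun y => ?_
      refine (hE1 f' hf').clD.injective ?_
      have := congrFun e1 y
      simp only [Function.comp_apply] at this
      rw [← this, e]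
      rfl
    have e3 : φ t = 1 := Subtype.ext e2
    have e4 : t = 1 := by
      have := congrArg φ.symm e3
      rwa [φ.symm_apply_apply, map_one] at this
    rw [ht, e4]
    rfl
  have hsur : ∀ μ, Cl D μ → ∃ f, Cl G f ∧ E f = μ := by
    intro μ hμ
    obtain ⟨q, hq⟩ := exists_limP h2 hμ
    have hq' := hq.unswap
    have hqc : Cl G q := hq'.clG
    obtain ⟨s, hs, hsK⟩ := (hE1 q hqc).fibre h1 hDc hq'
    have e0 : φ.toMonoidHom (φ.symm s) = s := φ.apply_symm_apply s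
    have hsK' : LimP φ.toMonoidHom (φ.symm s : Perm ℕ) id := by
      refine limP_kernel ?_
      rw [e0]
      exact hsK
    refine ⟨q ∘ ⇑(φ.symm s : Perm ℕ), hqc.comp (Cl.of_mem (φ.symm s).2), ?_⟩
    rw [hE2 _ _ hqc (Cl.of_mem (φ.symm s).2), hE3 _ hsK', e0, hs]
  choose! E' hE' hEE' using hsur
  refine ⟨E, E', fun f hf => (hE1 f hf).clD, hE', hE2, fun f hf => ?_, hEE', hE1⟩
  exact hinj _ _ (hE' _ (hE1 f hf).clD) hf (hEE' _ (hE1 f hf).clD)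

end Pool.Agent.Olig
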