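import Pool.Agent.Olig.IterC

/-!
# An absorbing subset of the iterated ultrapower
-/

open Equiv Filter

namespace Pool.Agent.Olig

theorem Ev_add {P : Ix → Prop} (m : ℕ) {n : ℕ} {a : ℤ} {w : Ix} :
    Ev P (n + m) a w ↔ Ev (fun w => Ev P m (a + n) w) n a w := by
  induction n generalizing a w with
  | zero =>
    rw [Nat.zero_add, Nat.cast_zero, add_zero]
    exact Iff.rfl
  | succ n ih =>
    have e : n + 1 + m = (n + m) + 1 := by ring
    rw [e, Ev_succ, Ev_succ]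
    refine Filter.eventually_congr (Eventually.of_forall fun k => ?_)
    rw [ih]
    have e2 : a + 1 + (n : ℤ) = a + ((n + 1 : ℕ) : ℤ) := by push_cast; ring
    rw [e2]

theorem Ev.exists' {P : Ix → Prop} {n : ℕ} {a : ℤ} {w : Ix} (h : Ev P n a w) :
    ∃ w', P w' ∧ ∀ f : Ix → ℕ, (∀ b, a ≤ b → Ind b f) → f w' = f w := by
  induction n generalizing a w with
  | zero => exact ⟨w, h, fun _ _ => rfl⟩
  | succ n ih =>
    rw [Ev_succ] at h
    obtain ⟨k, hk⟩ := h.exists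
    obtain ⟨w', h1, h2⟩ := ih hk
    refine ⟨w', h1, fun f hf => ?_⟩
    rw [h2 f fun b hb => hf b (by linarith), hf a le_rfl]

/-- the elements which depend only on the negative coordinates -/
def Ng (x : Am) : Prop := ∃ f : FSF, x = ⟦f⟧ ∧ ∀ b : ℤ, 0 ≤ b → Ind b f.1

theorem Ng_shift (f : FSF) : ∃ K : ℕ, ∀ k, K ≤ k → Ng ((sg ^ k)⁻¹ ⟦f⟧) := by
  obtain ⟨N, hN⟩ := f.2
  refine ⟨N, fun k hk => ?_⟩
  have hkN : (N : ℤ) ≤ k := by exact_mod_cast hk
  have hupd : ∀ (w : Ix) (b : ℤ) (c : ℕ), (fun j : ℤ => Function.update w b c (j - k)) =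
      Function.update (fun j : ℤ => w (j - k)) (b + k) c := by
    intro w b c
    funext j
    by_cases h : j = b + k
    · subst h
      rw [Function.update_self]
      have : b + (k : ℤ) - k = b := by ring
      rw [this, Function.update_self]
    · rw [Function.update_of_ne h, Function.update_of_ne]
      intro h'
      apply h
      rw [← h']
      ring
  have hind : ∀ b : ℤ, (b + k < -(N : ℤ) ∨ (N : ℤ) ≤ b + k) →
      Ind b (fun w : Ix => f.1 (fun j => w (j - k))) := by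
    intro b hb w c
    change f.1 (fun j : ℤ => Function.update w b c (j - k)) = _
    rw [hupd]
    exact hN _ hb _ _
  let f' : FSF := ⟨fun w => f.1 (fun j => w (j - k)), N + k, by
    intro b hb
    refine hind b ?_
    push_cast at hb
    have h0 : (0 : ℤ) ≤ k := Int.natCast_nonneg _
    rcases hb with hb | hb
    · left
      linarith
    · right
      linarith⟩
  refine ⟨f', ?_, fun b hb => hind b (Or.inr (by linarith))⟩
  rw [Perm.inv_eq_iff_eq]
  obtain ⟨h, e⟩ := sg_pow_mk f' k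
  rw [e, Am_eq]
  refine Eventually.of_forall fun w => ?_
  change f.1 w = f.1 (fun j => w (j - k + k))
  refine congrArg f.1 (funext fun j => congrArg w ?_)
  ring

theorem exists_model2 {G : Subgroup (Perm ℕ)} (hc : ClosedG G) (hG : Oligo G)
    (HH : Subgroup (Perm Am)) (hHHc : (HH : Set (Perm Am)).Countable) (hHH : ∀ π ∈ HH, Elem G π) :
    ∃ (C : Set Am) (e : C ≃ ℕ) (ht : Perm Am → Perm ℕ),
      (∀ π ∈ HH, ht π ∈ G) ∧
      (∀ π ∈ HH, ∀ x : C, ∃ h, ht π (e x) = e ⟨π x, h⟩) ∧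
      ∀ F : Finset C, ∃ γ : FSP, (∀ w, γ.1 w ∈ G) ∧ ∀ x ∈ F, (x : Am) = ac γ (cs (e x)) := by
  classical
  choose Θ hΘG tt htt using exists_ac hG
  obtain ⟨C, hCc, hC0, hCΘ⟩ := exists_closed_set (Set.range cs) (Set.countable_range _)
    (fun F => (⋃ x ∈ F, (fun π : Perm Am => π x) '' (HH : Set (Perm Am))) ∪
      Set.range (fun m => ac (Θ F) (cs m)))
    (fun F => (F.countable_toSet.biUnion fun x _ => hHHc.image _).union (Set.countable_range _))
  have hcstm : ∀ n, cs n ∈ C := fun n => hC0 ⟨n, rfl⟩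
  have hCact : ∀ π ∈ HH, ∀ x ∈ C, π x ∈ C := by
    intro π hπ x hx
    refine hCΘ {x} (by simpa using hx) (Or.inl ?_)
    exact Set.mem_iUnion₂.2 ⟨x, by simp, ⟨π, hπ, rfl⟩⟩
  have hCrep : ∀ F : Finset Am, (F : Set Am) ⊆ C → ∀ m, ac (Θ F) (cs m) ∈ C := by
    intro F hF m
    exact hCΘ F hF (Or.inr ⟨m, rfl⟩)
  have : Countable C := hCc.to_subtype
  have : Nonempty C := ⟨⟨cs 0, hcstm 0⟩⟩
  let Q : List (C × ℕ) → Prop := fun l => ∃ γ : FSP, (∀ w, γ.1 w ∈ G) ∧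
    ∀ p ∈ l, (p.1 : Am) = ac γ (cs p.2)
  -- comparison of two representations
  have hcmp : ∀ (l : List (C × ℕ)) (γ γ' : FSP) (t' : Am → ℕ), (∀ w, γ.1 w ∈ G) →
      (∀ w, γ'.1 w ∈ G) → (∀ p ∈ l, (p.1 : Am) = ac γ (cs p.2)) →
      (∀ p ∈ l, (p.1 : Am) = ac γ' (cs (t' p.1))) →
      ∃ δ ∈ G, ∀ p ∈ l, p.2 = δ (t' p.1) := by
    intro l γ γ' t' hγ hγ' h1 h2
    obtain ⟨δ, hδ, h3⟩ := cmp_rep hγ hγ' l.toFinset (fun p => p.2) (fun p => t' p.1) (by
      intro p hp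
      rw [← h1 p (List.mem_toFinset.1 hp)]
      exact h2 p (List.mem_toFinset.1 hp))
    exact ⟨δ, hδ, fun p hp => h3 p (List.mem_toFinset.2 hp)⟩
  have hshift : ∀ (γ' : FSP) (δ : Perm ℕ) (n : ℕ),
      ac (mv γ' (kv δ⁻¹)) (cs n) = ac γ' (cs (δ⁻¹ n)) := fun γ' δ n => by rw [ac_mv, ac_kv]
  obtain ⟨e, he⟩ := back_and_forth Q ⟨kv 1, fun _ => G.one_mem, by simp⟩
    (by
      rintro l ⟨γ, hγ, hl⟩ x
      let F : Finset Am := insert x.1 (l.map (fun p => (p.1 : Am))).toFinset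
      have hF := htt F
      obtain ⟨δ, hδ, hδl⟩ := hcmp l γ (Θ F) (tt F) hγ (hΘG F) hl (fun p hp =>
        hF _ (Finset.mem_insert_of_mem (List.mem_toFinset.2 (List.mem_map.2 ⟨p, hp, rfl⟩))))
      refine ⟨δ (tt F x.1), mv (Θ F) (kv δ⁻¹), fun w => G.mul_mem (hΘG F w) (G.inv_mem hδ), ?_⟩
      intro p hp
      rcases List.mem_cons.1 hp with rfl | hp
      · rw [hshift]
        simp only
        rw [ia]
        exact hF _ (Finset.mem_insert_self _ _)
      · rw [hshift, hδl p hp, ia]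
        exact hF _ (Finset.mem_insert_of_mem (List.mem_toFinset.2 (List.mem_map.2 ⟨p, hp, rfl⟩))))
    (by
      rintro l ⟨γ, hγ, hl⟩ n
      let F : Finset Am := (l.map (fun p => (p.1 : Am))).toFinset
      have hF := htt F
      have hFC : (F : Set Am) ⊆ C := by
        intro x hx
        obtain ⟨p, _, rfl⟩ := List.mem_map.1 (List.mem_toFinset.1 (Finset.mem_coe.1 hx))
        exact p.1.2
      obtain ⟨δ, hδ, hδl⟩ := hcmp l γ (Θ F) (tt F) hγ (hΘG F) hl (fun p hp =>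
        hF _ (List.mem_toFinset.2 (List.mem_map.2 ⟨p, hp, rfl⟩)))
      refine ⟨⟨ac (Θ F) (cs (δ⁻¹ n)), hCrep F hFC _⟩, mv (Θ F) (kv δ⁻¹),
        fun w => G.mul_mem (hΘG F w) (G.inv_mem hδ), ?_⟩
      intro p hp
      rcases List.mem_cons.1 hp with rfl | hp
      · rw [hshift]
      · rw [hshift, hδl p hp, ia]
        exact hF _ (List.mem_toFinset.2 (List.mem_map.2 ⟨p, hp, rfl⟩)))
    (by
      rintro l ⟨γ, hγ, hl⟩ p hp q hq
      constructor
      · intro h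
        have h1 := (hl p hp).symm.trans ((congrArg Subtype.val h).trans (hl q hq))
        exact cs_inj ((ac γ).injective h1)
      · intro h
        exact Subtype.ext (by rw [hl p hp, hl q hq, h]))
  -- approximation property of `e`
  have happ : ∀ F : Finset C, ∃ γ : FSP, (∀ w, γ.1 w ∈ G) ∧
      ∀ x ∈ F, (x : Am) = ac γ (cs (e x)) := by
    intro F
    obtain ⟨l, ⟨γ, hγ, hl⟩, h⟩ := he F
    exact ⟨γ, hγ, fun x hx => hl _ (h x hx)⟩
  let eq' : ∀ π ∈ HH, C ≃ C := fun π hπ =>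
    ⟨fun x => ⟨π x, hCact π hπ x x.2⟩, fun x => ⟨π⁻¹ x, hCact _ (HH.inv_mem hπ) x x.2⟩,
      fun x => Subtype.ext (by simp), fun x => Subtype.ext (by simp)⟩
  let ht : Perm Am → Perm ℕ := fun π => if hπ : π ∈ HH then (e.symm.trans (eq' π hπ)).trans e else 1
  have hht : ∀ π (hπ : π ∈ HH) (x : C), ht π (e x) = e (eq' π hπ x) := by
    intro π hπ x
    simp only [ht, dif_pos hπ, Equiv.trans_apply, Equiv.symm_apply_apply]
  have hhtG : ∀ π ∈ HH, ht π ∈ G := by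
    intro π hπ
    refine hc _ (fun F => ?_)
    let X : Finset C := F.image e.symm
    obtain ⟨γ, hγ, hl⟩ := happ (X ∪ X.image (eq' π hπ))
    obtain ⟨δ, δ', hδ, hδ', t, ht'⟩ := hHH π hπ (X.image Subtype.val)
    obtain ⟨ε, hε, h1⟩ := cmp_rep hγ hδ X (fun x => e x) (fun x => t x) (by
      intro x hx
      rw [← hl x (Finset.mem_union_left _ hx)]
      exact (ht' x (Finset.mem_image_of_mem _ hx)).1)
    obtain ⟨ε', hε', h2⟩ := cmp_rep hγ hδ' X (fun x => e (eq' π hπ x)) (fun x => t x) (by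
      intro x hx
      rw [← hl _ (Finset.mem_union_right _ (Finset.mem_image_of_mem _ hx))]
      exact (ht' x (Finset.mem_image_of_mem _ hx)).2)
    refine ⟨ε' * ε⁻¹, G.mul_mem hε' (G.inv_mem hε), fun n hn => ?_⟩
    have hx : e.symm n ∈ X := Finset.mem_image_of_mem _ hn
    have h3 := h1 _ hx
    have h4 := h2 _ hx
    rw [e.apply_symm_apply] at h3
    have h5 := hht π hπ (e.symm n)
    rw [e.apply_symm_apply] at h5
    rw [h5, h4, Perm.mul_apply]
    congr 1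
    rw [Perm.inv_eq_iff_eq]
    exact h3
  exact ⟨C, e, ht, hhtG, fun π hπ x => ⟨hCact π hπ x x.2, hht π hπ x⟩, happ⟩

/-- an absorbing set: `A` is swept out by `σ` and independent of its image under `g` -/
theorem exists_abs {G : Subgroup (Perm ℕ)} (hc : ClosedG G) (hG : Oligo G)
    (u : ℕ → Perm ℕ) (hu : ∀ k, u k ∈ G) :
    ∃ (A : Set ℕ) (σ g : Perm ℕ), σ ∈ G ∧ g ∈ G ∧
      (∀ x, ∃ K : ℕ, ∀ k, K ≤ k → (σ ^ k)⁻¹ x ∈ A) ∧
      ∀ X : Finset ℕ, (∀ x ∈ X, x ∈ A) → ∃ γ₁ ∈ G, ∀ᶠ k in (UU : Filter ℕ), ∃ γ ∈ G,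
        ∀ x ∈ X, γ x = γ₁ x ∧ γ (g x) = u k (γ₁ x) := by
  classical
  obtain ⟨H, hHc, hB, -⟩ := exists_countable_subgroup (α := Perm Am) (Ω := ℕ) (fun _ n => n)
    {sg, ac (c0 u)} (Set.Finite.countable (Set.toFinite _)) (fun _ => ∅)
    (fun _ => Set.countable_empty)
  let HH : Subgroup (Perm Am) := H ⊓ ElemG hG
  have hHHc : (HH : Set (Perm Am)).Countable := hHc.mono fun π hπ => hπ.1
  have hsm : sg ∈ HH := ⟨hB (Or.inl rfl), elem_sg hG⟩
  have hum : ac (c0 u) ∈ HH := ⟨hB (Or.inr rfl), elem_ac hG fun w => hu _⟩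
  obtain ⟨C, e, ht, h1, h2, h3⟩ := exists_model2 hc hG HH hHHc (fun π hπ => hπ.2)
  have hpow : ∀ (k : ℕ) (x : C), ((ht sg ^ k)⁻¹ (e x) = e x → True) ∧
      ∃ h, (ht sg ^ k) (e x) = e ⟨(sg ^ k) x, h⟩ := by
    intro k
    induction k with
    | zero => exact fun x => ⟨fun _ => trivial, x.2, rfl⟩
    | succ k ih =>
      intro x
      obtain ⟨h, e1⟩ := h2 sg hsm x
      obtain ⟨-, h', e2⟩ := ih ⟨sg x, h⟩
      refine ⟨fun _ => trivial, ?_, ?_⟩
      · rw [pow_succ]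
        exact h'
      · rw [pow_succ, Perm.mul_apply, e1, e2]
        congr 1
  have hpinv : ∀ (k : ℕ) (x : C), ∃ h, (ht sg ^ k)⁻¹ (e x) = e ⟨(sg ^ k)⁻¹ x, h⟩ := by
    intro k x
    obtain ⟨y, hy⟩ := e.surjective ((ht sg ^ k)⁻¹ (e x))
    obtain ⟨-, h, e1⟩ := hpow k y
    rw [hy, ai] at e1
    have e2 : (x : Am) = (sg ^ k) y := congrArg Subtype.val (e.injective e1)
    have e3 : (sg ^ k)⁻¹ (x : Am) = y := by
      rw [Perm.inv_eq_iff_eq]
      exact e2
    refine ⟨by rw [e3]; exact y.2, ?_⟩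
    rw [← hy]
    congr 1
    exact Subtype.ext e3.symm
  refine ⟨{n | Ng (e.symm n)}, ht sg, ht (ac (c0 u)), h1 _ hsm, h1 _ hum, fun n => ?_,
    fun X hX => ?_⟩
  · obtain ⟨x, rfl⟩ := e.surjective n
    obtain ⟨f, hf⟩ := Quotient.exists_rep (x : Am)
    obtain ⟨K, hK⟩ := Ng_shift f
    refine ⟨K, fun k hk => ?_⟩
    obtain ⟨h, e1⟩ := hpinv k x
    change Ng (e.symm ((ht sg ^ k)⁻¹ (e x)))
    rw [e1, e.symm_apply_apply]
    have h4 := hK k hk
    rw [hf] at h4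
    exact h4
  · have hg : ∀ n, ((e.symm (ht (ac (c0 u)) n) : C) : Am) = ac (c0 u) (e.symm n) := by
      intro n
      obtain ⟨h, e1⟩ := h2 _ hum (e.symm n)
      rw [e.apply_symm_apply] at e1
      rw [e1, e.symm_apply_apply]
    have : Nonempty FSF := ⟨⟨fun _ => 0, 0, Dp.const 0 0⟩⟩
    have hX' : ∀ x ∈ X, ∃ f : FSF, ((e.symm x : C) : Am) = ⟦f⟧ ∧ ∀ b : ℤ, 0 ≤ b → Ind b f.1 := hX
    choose! f hf hfI using hX'
    obtain ⟨γ, hγ, hl⟩ := h3 (X.image e.symm ∪ X.image (fun n => e.symm (ht (ac (c0 u)) n)))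
    have p1 : ∀ x ∈ X, ∀ᶠ w in DD, (f x).1 w = γ.1 w x := by
      intro x hx
      have h4 := hl (e.symm x) (Finset.mem_union_left _ (Finset.mem_image_of_mem _ hx))
      rw [e.apply_symm_apply, hf x hx, ac_cs, Am_eq] at h4
      exact h4
    have p2 : ∀ x ∈ X, ∀ᶠ w in DD, u (w 0) ((f x).1 w) = γ.1 w (ht (ac (c0 u)) x) := by
      intro x hx
      have h4 := hl (e.symm (ht (ac (c0 u)) x)) (Finset.mem_union_right _
        (Finset.mem_image_of_mem (fun n => e.symm (ht (ac (c0 u)) n)) hx))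
      rw [hg, e.apply_symm_apply, hf x hx, ac_mk, ac_cs, Am_eq] at h4
      exact h4
    let P : Ix → Prop := fun w => ∀ x ∈ X, (f x).1 w = γ.1 w x ∧
      u (w 0) ((f x).1 w) = γ.1 w (ht (ac (c0 u)) x)
    have hP : ∀ᶠ w in DD, P w := by
      filter_upwards [(Filter.eventually_all_finset X).2 p1,
        (Filter.eventually_all_finset X).2 p2] with w a b
      exact fun x hx => ⟨a x hx, b x hx⟩
    obtain ⟨N, hN⟩ := DD_iff.1 hP
    have h5 := hN (N + 1) (Nat.le_succ N)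
    have e1 : 2 * (N + 1) = (N + 1) + (N + 1) := by ring
    rw [e1, Ev_add] at h5
    obtain ⟨w0, h6, -⟩ := h5.exists'
    have e2 : (-((N + 1 : ℕ) : ℤ)) + ((N + 1 : ℕ) : ℤ) = 0 := by ring
    rw [e2, Ev_succ] at h6
    have key : ∀ᶠ k in (UU : Filter ℕ), ∃ w, P w ∧ w 0 = k ∧ ∀ x ∈ X, (f x).1 w = (f x).1 w0 := by
      filter_upwards [h6] with k hk
      obtain ⟨w, h7, h8⟩ := hk.exists'
      refine ⟨w, h7, ?_, fun x hx => ?_⟩
      · rw [h8 (fun w => w 0) (fun b hb w c => by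
          refine Function.update_of_ne ?_ _ _
          rintro rfl
          norm_num at hb)]
        exact Function.update_self _ _ _
      · rw [h8 _ fun b hb => hfI x hx b (by linarith)]
        exact hfI x hx 0 le_rfl _ _
    obtain ⟨k1, w1, hw1, -, hw1'⟩ := key.exists
    refine ⟨γ.1 w1, hγ w1, ?_⟩
    filter_upwards [key] with k hk
    obtain ⟨w, hw, hw0, hw'⟩ := hk
    refine ⟨γ.1 w, hγ w, fun x hx => ?_⟩
    have a1 := (hw x hx).1
    have a2 := (hw x hx).2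
    have a3 := (hw1 x hx).1
    rw [hw' x hx] at a1 a2
    rw [hw1' x hx] at a3
    rw [hw0] at a2
    exact ⟨by rw [← a1, a3], by rw [← a2, a3]⟩

end Pool.Agent.Olig
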