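import Pool.Agent.Olig.Supp

/-!
# Isomorphisms from the closure of an oligomorphic group: supports

`ClIso G D N P R`: `P` is an isomorphism, with inverse `R`, from the closure of `G` to the monoid
`N`, which contains the closure of the group `D` of its invertible elements.
-/

open Equiv Filter

namespace Pool.Agent.Olig

structure ClIso (G D : Subgroup (Perm ℕ)) (N : (ℕ → ℕ) → Prop) (P R : (ℕ → ℕ) → (ℕ → ℕ)) :
    Prop where
  cG : ClosedG G
  oG : Oligo G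
  cD : ClosedG D
  oD : Oligo D
  clN : ∀ f, Cl D f → N f
  compN : ∀ f f', N f → N f' → N (f ∘ f')
  memP : ∀ f, Cl G f → N (P f)
  memR : ∀ f, N f → Cl G (R f)
  mulP : ∀ f f', Cl G f → Cl G f' → P (f ∘ f') = P f ∘ P f'
  mulR : ∀ f f', N f → N f' → R (f ∘ f') = R f ∘ R f'
  RP : ∀ f, Cl G f → R (P f) = f
  PR : ∀ f, N f → P (R f) = f
  idP : P id = id
  gP : ∀ g ∈ G, ∃ d ∈ D, P ⇑g = ⇑d
  dR : ∀ d ∈ D, ∃ g ∈ G, R ⇑d = ⇑g

/-- the pointwise stabiliser of a finite set -/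
def stb (G : Subgroup (Perm ℕ)) (F : Finset ℕ) : Subgroup (Perm ℕ) where
  carrier := {g | g ∈ G ∧ ∀ x ∈ F, g x = x}
  one_mem' := ⟨G.one_mem, fun _ _ => rfl⟩
  mul_mem' := fun {a b} ha hb => ⟨G.mul_mem ha.1 hb.1, fun x hx => by
    rw [Perm.mul_apply, hb.2 x hx, ha.2 x hx]⟩
  inv_mem' := fun {a} ha => ⟨G.inv_mem ha.1, fun x hx => by
    rw [Perm.inv_eq_iff_eq]; exact (ha.2 x hx).symm⟩

theorem mem_stb {G : Subgroup (Perm ℕ)} {F : Finset ℕ} {g : Perm ℕ} :
    g ∈ stb G F ↔ g ∈ G ∧ ∀ x ∈ F, g x = x := Iff.rfl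

theorem stb_open (G : Subgroup (Perm ℕ)) (F : Finset ℕ) : OpenIn G (stb G F) :=
  ⟨fun _ hg => hg.1, F, fun _ hg h => ⟨hg, h⟩⟩

/-- points identified by some element of `N` -/
def Mg (N : (ℕ → ℕ) → Prop) (a b : ℕ) : Prop := ∃ f, N f ∧ f a = f b

/-- a quotient of `ℕ` by `Mg N` with the induced action -/
structure Quo (G : Subgroup (Perm ℕ)) (N : (ℕ → ℕ) → Prop) (P : (ℕ → ℕ) → (ℕ → ℕ)) (X : Type)
    (q : ℕ → X) (A : (ℕ → ℕ) → X → X) : Prop where
  sur : Function.Surjective q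
  qM : ∀ a b, q a = q b ↔ Mg N a b
  act : ∀ f, Cl G f → ∀ a, A f (q a) = q (P f a)

namespace ClIso

variable {G D : Subgroup (Perm ℕ)} {N : (ℕ → ℕ) → Prop} {P R : (ℕ → ℕ) → (ℕ → ℕ)}

theorem idR (h : ClIso G D N P R) : R id = id := by
  have := h.RP id (Cl.id' G)
  rwa [h.idP] at this

/-- inverses -/
theorem invP (h : ClIso G D N P R) {g d : Perm ℕ} (hg : g ∈ G) (hd : d ∈ D) (e : P ⇑g = ⇑d) :
    P ⇑g⁻¹ = ⇑d⁻¹ := by
  have h1 := h.mulP ⇑g ⇑g⁻¹ (Cl.of_mem hg) (Cl.of_mem (G.inv_mem hg))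
  have h2 : (⇑g ∘ ⇑g⁻¹ : ℕ → ℕ) = id := by funext x; exact ai g x
  rw [h2, h.idP, e] at h1
  funext x
  have h3 := congrFun h1 x
  simp only [id, Function.comp_apply] at h3
  symm
  rw [Perm.inv_eq_iff_eq]
  exact h3

theorem Rd (h : ClIso G D N P R) {g d : Perm ℕ} (hg : g ∈ G) (e : P ⇑g = ⇑d) : R ⇑d = ⇑g := by
  rw [← e, h.RP _ (Cl.of_mem hg)]

/-- an element of `N` identifying all mergeable points -/
theorem exists_e (h : ClIso G D N P R) : ∃ e, N e ∧ ∀ a b, Mg N a b ↔ e a = e b := by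
  classical
  have hf : ∀ p : ℕ × ℕ, ∃ f, N f ∧ (Mg N p.1 p.2 → f p.1 = f p.2) := by
    intro p
    by_cases hp : Mg N p.1 p.2
    · obtain ⟨f, hf, hfp⟩ := hp
      exact ⟨f, hf, fun _ => hfp⟩
    · exact ⟨id, h.clN _ (Cl.id' D), fun h => absurd h hp⟩
  choose f hf hfp using hf
  obtain ⟨s, hs, hext, _⟩ := exists_s h.cG h.oG (Set.range (fun p => R (f p)))
    (Set.countable_range _) (by
      rintro _ ⟨p, rfl⟩
      exact h.memR _ (hf p))
  refine ⟨P s, h.memP s hs, fun a b => ⟨fun hab => ?_, fun hab => ⟨_, h.memP s hs, hab⟩⟩⟩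
  obtain ⟨g, hg, e⟩ := hext _ ⟨(a, b), rfl⟩
  obtain ⟨d, _, hd⟩ := h.gP g hg
  have h1 := congrArg P e
  rw [h.mulP s _ hs (h.memR _ (hf _)), h.PR _ (hf _), h.mulP _ s (Cl.of_mem hg) hs, hd] at h1
  have h2 := congrFun h1 a
  have h3 := congrFun h1 b
  simp only [Function.comp_apply] at h2 h3
  have h4 := hfp (a, b) hab
  simp only at h4
  rw [h4, h3] at h2
  exact (d.injective h2).symm

theorem Mg_map (h : ClIso G D N P R) {f : ℕ → ℕ} (hf : N f) {a b : ℕ} :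
    Mg N (f a) (f b) ↔ Mg N a b := by
  constructor
  · rintro ⟨f', hf', e⟩
    exact ⟨f' ∘ f, h.compN _ _ hf' hf, e⟩
  · rintro ⟨f', hf', e⟩
    obtain ⟨s, hs, hext, _⟩ := exists_s h.cG h.oG {R f, R f'} (by simp) (by
      rintro _ (rfl | rfl)
      · exact h.memR _ hf
      · exact h.memR _ hf')
    obtain ⟨g, hg, e1⟩ := hext (R f) (by simp)
    obtain ⟨g', hg', e2⟩ := hext (R f') (by simp)
    obtain ⟨d, _, hd⟩ := h.gP g hg
    obtain ⟨d', _, hd'⟩ := h.gP g' hg'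
    have h1 := congrArg P e1
    have h2 := congrArg P e2
    rw [h.mulP s _ hs (h.memR _ hf), h.PR _ hf, h.mulP _ s (Cl.of_mem hg) hs, hd] at h1
    rw [h.mulP s _ hs (h.memR _ hf'), h.PR _ hf', h.mulP _ s (Cl.of_mem hg') hs, hd'] at h2
    refine ⟨P s, h.memP s hs, ?_⟩
    have a1 := congrFun h1 a
    have a2 := congrFun h1 b
    have b1 := congrFun h2 a
    have b2 := congrFun h2 b
    simp only [Function.comp_apply] at a1 a2 b1 b2
    rw [e, b2] at b1
    rw [a1, a2, d'.injective b1]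

theorem exists_quo (h : ClIso G D N P R) : ∃ (X : Type) (_ : Countable X) (q : ℕ → X)
    (A : (ℕ → ℕ) → X → X), Quo G N P X q A := by
  classical
  obtain ⟨e, he, hM⟩ := h.exists_e
  let st : Setoid ℕ := ⟨Mg N, ⟨fun a => (hM a a).2 rfl, fun {a b} hab => (hM b a).2 ((hM a b).1 hab).symm,
    fun {a b c} hab hbc => (hM a c).2 (((hM a b).1 hab).trans ((hM b c).1 hbc))⟩⟩
  refine ⟨Quotient st, inferInstance, Quotient.mk st, fun f x => if hf : Cl G f then
    Quotient.map (sa := st) (sb := st) (P f) (fun a b hab => (h.Mg_map (h.memP f hf)).2 hab) x else x,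
    ⟨Quotient.mk_surjective, fun a b => ⟨fun hab => Quotient.exact hab, fun hab => Quotient.sound hab⟩,
      fun f hf a => ?_⟩⟩
  simp only [dif_pos hf]
  rfl

/-- cancellation modulo `Mg` -/
theorem cancel (h : ClIso G D N P R) {t t' : ℕ → ℕ} (ht : N t) (ht' : N t')
    (hq : ∀ a, Mg N (t a) (t' a)) : t = t' := by
  obtain ⟨e, he, hM⟩ := h.exists_e
  have h1 : e ∘ t = e ∘ t' := funext fun a => (hM _ _).1 (hq a)
  have h2 := congrArg R h1
  rw [h.mulR _ _ he ht, h.mulR _ _ he ht'] at h2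
  have h3 : R t = R t' := funext fun x => (h.memR e he).injective (congrFun h2 x)
  rw [← h.PR t ht, ← h.PR t' ht', h3]

theorem Nd (h : ClIso G D N P R) {d : Perm ℕ} (hd : d ∈ D) : N ⇑d := h.clN _ (Cl.of_mem hd)

/-- every point is determined by finitely many classes -/
theorem exists_dcl (h : ClIso G D N P R) (c : ℕ) : ∃ C : Finset ℕ, ∀ d ∈ D,
    (∀ x ∈ C, Mg N (d x) x) → d c = c := by
  classical
  by_contra hcon
  push Not at hcon
  choose δ hδ hfix hne using fun n : ℕ => hcon (Finset.range n)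
  obtain ⟨w, hw⟩ := exists_lim h.oD (fun n i => if i % 2 = 0 then i / 2 else δ n (i / 2))
  have hev : ∀ j m, 2 * j < m → ∀ᶠ n in (UU : Filter ℕ), ∃ g ∈ D, (∀ k ≤ j, w (2 * k) = g k) ∧
      ∀ k < j, w (2 * k + 1) = g (δ n k) := by
    intro j m hm
    filter_upwards [hw m] with n hn
    obtain ⟨g, hg, h1⟩ := hn
    refine ⟨g, hg, fun k hk => ?_, fun k hk => ?_⟩
    · have h2 := h1 (2 * k) (by omega)
      have e1 : 2 * k % 2 = 0 := by omega
      have e2 : 2 * k / 2 = k := by omega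
      simp only [e1, e2, if_true] at h2
      exact h2
    · have h2 := h1 (2 * k + 1) (by omega)
      have e1 : ¬ (2 * k + 1) % 2 = 0 := by omega
      have e2 : (2 * k + 1) / 2 = k := by omega
      simp only [e1, e2, if_false] at h2
      exact h2
  have ht : Cl D (fun j => w (2 * j)) := by
    intro F
    obtain ⟨n, g, hg, h1, _⟩ := (hev (F.sup id) _ (Nat.lt_succ_self _)).exists
    exact ⟨g, hg, fun x hx => (h1 x (Finset.le_sup (f := id) hx)).symm⟩
  have ht' : Cl D (fun j => w (2 * j + 1)) := by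
    intro F
    obtain ⟨n, g, hg, _, h2⟩ := (hev (F.sup id + 1) _ (Nat.lt_succ_self _)).exists
    exact ⟨g * δ n, D.mul_mem hg (hδ n), fun x hx =>
      (h2 x (Nat.lt_succ_of_le (Finset.le_sup (f := id) hx))).symm⟩
  have key := h.cancel (h.clN _ ht) (h.clN _ ht') (fun a => by
    obtain ⟨n, ⟨g, hg, h1, h2⟩, hn⟩ :=
      ((hev (a + 1) _ (Nat.lt_succ_self _)).and (UU_ge (a + 1))).exists
    change Mg N (w (2 * a)) (w (2 * a + 1))
    rw [h1 a (Nat.le_succ a), h2 a (Nat.lt_succ_self a), h.Mg_map (h.Nd hg)]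
    obtain ⟨f, hf, e⟩ := hfix n a (Finset.mem_range.2 hn)
    exact ⟨f, hf, e.symm⟩)
  obtain ⟨n, g, hg, h1, h2⟩ := (hev (c + 1) _ (Nat.lt_succ_self _)).exists
  have h3 : w (2 * c) = w (2 * c + 1) := congrFun key c
  rw [h1 c (Nat.le_succ c), h2 c (Nat.lt_succ_self c)] at h3
  exact hne n (g.injective h3).symm

/-- the first lemma for `R` -/
theorem exists_fixR (h : ClIso G D N P R) (x : ℕ) : ∃ F : Finset ℕ, ∀ t, Cl D t → Fx F t →
    x ∈ Set.range (R t) := by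
  classical
  by_contra hcon
  push Not at hcon
  obtain ⟨u, hu, hQ⟩ := exists_seq_lim (G := D)
    (fun n u => (∃ g ∈ G, g x = n) → n ∉ Set.range (R u)) (by
      intro n u r hu hr h1 hg
      rw [h.mulR _ _ (h.clN u hu) (h.clN r hr)]
      rintro ⟨a, ha⟩
      exact h1 hg ⟨_, ha⟩) (by
      intro n u hu
      by_cases hb : (∃ g ∈ G, g x = n) ∧ n ∈ Set.range (R u)
      · obtain ⟨⟨g, hg, hgx⟩, z, hz⟩ := hb
        obtain ⟨g1, hg1, hg1z⟩ := h.memR _ (h.clN u hu) {z}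
        have hg1z := hg1z z (by simp)
        -- `z = g' x`
        have hg' : g1⁻¹ * g ∈ G := G.mul_mem (G.inv_mem hg1) hg
        have hzx : (g1⁻¹ * g) x = z := by
          rw [Perm.mul_apply, hgx, Perm.inv_eq_iff_eq, hg1z, hz]
        obtain ⟨d, hd, hPd⟩ := h.gP _ hg'
        obtain ⟨t, ht, htF, hxt⟩ := hcon ((Finset.range (n + 1)).image ⇑d⁻¹)
        refine ⟨⇑d ∘ t ∘ ⇑d⁻¹, (ht.mul_right (D.inv_mem hd)).mul_left hd, fun k hk => ?_, fun _ => ?_⟩
        · have h1 := htF (d⁻¹ k) (Finset.mem_image_of_mem _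
            (Finset.mem_range.2 (Nat.lt_succ_of_le hk)))
          simp only [Function.comp_apply]
          rw [h1, ai]
        · rintro ⟨a, ha⟩
          have hdt : Cl D (t ∘ ⇑d⁻¹) := ht.mul_right (D.inv_mem hd)
          rw [h.mulR _ _ (h.clN u hu) (h.clN _ (hdt.mul_left hd)), Function.comp_apply, ← hz] at ha
          have ha' := (h.memR _ (h.clN u hu)).injective ha
          rw [h.mulR _ _ (h.Nd hd) (h.clN _ hdt), h.mulR _ _ (h.clN t ht) (h.Nd (D.inv_mem hd)),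
            h.Rd hg' hPd, h.Rd (G.inv_mem hg') (h.invP hg' hd hPd)] at ha'
          simp only [Function.comp_apply] at ha'
          rw [← hzx] at ha'
          exact hxt ⟨_, (g1⁻¹ * g).injective ha'⟩
      · refine ⟨id, Cl.id' D, fun k _ => rfl, fun hb' h3 => hb ⟨hb', h3⟩⟩)
  obtain ⟨g, hg, hgx⟩ := h.memR _ (h.clN u hu) {x}
  exact hQ _ ⟨g, hg, hgx x (by simp)⟩ ⟨x, rfl⟩

end ClIso

variable {G D : Subgroup (Perm ℕ)} {N : (ℕ → ℕ) → Prop} {P R : (ℕ → ℕ) → (ℕ → ℕ)}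
  {X : Type} {q : ℕ → X} {A : (ℕ → ℕ) → X → X}

theorem Quo.injAct (h : ClIso G D N P R) (hq : Quo G N P X q A) : InjAct G X A where
  one := by
    intro x
    obtain ⟨a, rfl⟩ := hq.sur x
    rw [hq.act _ (Cl.id' G), h.idP]
    rfl
  mul := by
    intro f f' hf hf' x
    obtain ⟨a, rfl⟩ := hq.sur x
    rw [hq.act _ (hf.comp hf'), hq.act _ hf', hq.act _ hf, h.mulP _ _ hf hf']
    rfl
  inj := by
    intro f hf x y hxy
    obtain ⟨a, rfl⟩ := hq.sur x
    obtain ⟨b, rfl⟩ := hq.sur y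
    rw [hq.act _ hf, hq.act _ hf, hq.qM, h.Mg_map (h.memP f hf)] at hxy
    rwa [hq.qM]

theorem Quo.actR (h : ClIso G D N P R) (hq : Quo G N P X q A) {t : ℕ → ℕ} (ht : N t) (a : ℕ) :
    A (R t) (q a) = q (t a) := by
  rw [hq.act _ (h.memR t ht), h.PR t ht]

theorem Quo.q_map (h : ClIso G D N P R) (hq : Quo G N P X q A) {f : ℕ → ℕ} (hf : N f) {a b : ℕ} :
    q (f a) = q (f b) ↔ q a = q b := by
  rw [hq.qM, hq.qM, h.Mg_map hf]

/-- all cores are finite -/
theorem Quo.finite_core (h : ClIso G D N P R) (hq : Quo G N P X q A) (F : Finset ℕ) :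
    (KK G A F).Finite := by
  classical
  choose Fx' hFx using h.exists_fixR
  let G' : Finset ℕ := F.biUnion Fx'
  have hA := hq.injAct h
  -- the core is in all images of elements of the closure of `D` fixing `G'`
  have h1 : ∀ y ∈ KK G A F, ∀ t, Cl D t → Fx G' t → y ∈ Set.range (A (R t)) := by
    intro y hy t ht htG
    have hs := h.memR t (h.clN t ht)
    have hr : ∀ x ∈ F, ∃ a, R t a = x := fun x hx =>
      hFx x t ht fun z hz => htG z (Finset.mem_biUnion.2 ⟨x, hx, hz⟩)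
    choose! a ha using hr
    obtain ⟨g, hg, hgs⟩ := hs (F.image a)
    have hfix : Fx F (R t ∘ ⇑g⁻¹) := by
      intro x hx
      have h2 := hgs (a x) (Finset.mem_image_of_mem _ hx)
      rw [ha x hx] at h2
      have h3 : g⁻¹ x = a x := by rw [Perm.inv_eq_iff_eq]; exact h2.symm
      rw [Function.comp_apply, h3, ha x hx]
    obtain ⟨b, hb⟩ := hy _ (hs.mul_right (G.inv_mem hg)) hfix
    rw [hA.mul _ _ hs (Cl.of_mem (G.inv_mem hg))] at hb
    exact ⟨_, hb⟩
  -- finite orbits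
  have h2 : ∀ c : ℕ, q c ∈ KK G A F → (q '' {z | ∃ v ∈ stb D G', v c = z}).Finite := by
    intro c hc
    by_contra hinf
    have hv : ∀ n : ℕ, ∃ v ∈ stb D G', ∀ j < n, q (v j) ≠ q c := by
      intro n
      by_contra hcon
      push Not at hcon
      refine hinf (((Finset.range n).image q).finite_toSet.subset ?_)
      rintro _ ⟨z, ⟨v, hv, rfl⟩, rfl⟩
      obtain ⟨j, hj, hj2⟩ := hcon v⁻¹ ((stb D G').inv_mem hv)
      have h3 : q (v (v⁻¹ j)) = q (v c) := (hq.q_map h (h.Nd hv.1)).2 hj2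
      rw [ai] at h3
      exact Finset.mem_coe.2 (Finset.mem_image.2 ⟨j, Finset.mem_range.2 hj, h3⟩)
    choose v hv hvn using hv
    obtain ⟨t, ht⟩ := exists_lim ((stb_open D (insert c G')).oligo h.oD) (fun n j => v n j)
    have htc : Cl D t := by
      intro S
      obtain ⟨n, g, hg, h3⟩ := (ht (S.sup id + 1)).exists
      exact ⟨g * v n, D.mul_mem hg.1 (hv n).1, fun x hx =>
        (h3 x (Nat.lt_succ_of_le (Finset.le_sup (f := id) hx))).symm⟩
    have htF : Fx G' t := by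
      intro x hx
      obtain ⟨n, g, hg, h3⟩ := (ht (x + 1)).exists
      rw [h3 x (Nat.lt_succ_self x), (hv n).2 x hx, hg.2 x (Finset.mem_insert_of_mem hx)]
    obtain ⟨y, hy⟩ := h1 _ hc t htc htF
    obtain ⟨a, rfl⟩ := hq.sur y
    rw [hq.actR h (h.clN t htc)] at hy
    obtain ⟨n, ⟨g, hg, h3⟩, hn⟩ := ((ht (a + 1)).and (UU_ge (a + 1))).exists
    rw [h3 a (Nat.lt_succ_self a)] at hy
    have h4 : q (g (v n a)) = q (g c) := by
      rw [hy, hg.2 c (Finset.mem_insert_self _ _)]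
    exact hvn n a hn ((hq.q_map h (h.Nd hg.1)).1 h4)
  -- finitely many orbits
  obtain ⟨T, hT⟩ := ((stb_open D G').oligo h.oD) 1
  refine Set.Finite.subset (s := ⋃ τ ∈ T, {y | (q '' {z | ∃ v ∈ stb D G', v (τ 0) = z}).Finite ∧
    y ∈ q '' {z | ∃ v ∈ stb D G', v (τ 0) = z}}) ?_ ?_
  · refine Set.Finite.biUnion T.finite_toSet (fun τ _ => ?_)
    by_cases hf : (q '' {z | ∃ v ∈ stb D G', v (τ 0) = z}).Finite
    · exact hf.subset fun y hy => hy.2
    · exact Set.finite_empty.subset fun y hy => hf hy.1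
  · intro y hy
    obtain ⟨c, rfl⟩ := hq.sur y
    obtain ⟨τ, hτ, v, hv, hvc⟩ := hT (fun _ => c)
    have hvc := hvc 0
    refine Set.mem_iUnion₂.2 ⟨τ, hτ, ?_, ⟨_, ⟨v, hv, rfl⟩, by rw [hvc]⟩⟩
    refine (h2 c hy).subset ?_
    rintro _ ⟨z, ⟨w, hw, rfl⟩, rfl⟩
    refine ⟨_, ⟨w * v⁻¹, (stb D G').mul_mem hw ((stb D G').inv_mem hv), ?_⟩, rfl⟩
    rw [← hvc, Perm.mul_apply, ia]

/-- every class is supported -/
theorem Quo.goodPt [Countable X] (h : ClIso G D N P R) (hq : Quo G N P X q A) (y : X) :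
    GoodPt G A y :=
  (hq.injAct h).good h.cG h.oG (fun F => hq.finite_core h F) y

end Pool.Agent.Olig
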