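import Pool.Agent.Olig.IterF
import Pool.Agent.Olig.NecA

/-!
# Compact normal subgroups: absorption

`TN G T`: `T` is a normal subgroup of `G` with finite orbits, closed in the monoid of all maps.
`TU T U t`: `t` is in every open normal subgroup of `T` which is normalised by `U`.
-/

open Equiv Filter Pointwise

namespace Pool.Agent.Olig

/-- `T` is a compact normal subgroup of `G` -/
structure TN (G T : Subgroup (Perm ℕ)) : Prop where
  le : T ≤ G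
  nm : ∀ g ∈ G, ∀ t ∈ T, g * t * g⁻¹ ∈ T
  orb : ∀ x : ℕ, ∃ Z : Finset ℕ, ∀ t ∈ T, t x ∈ Z
  cl : ∀ f : ℕ → ℕ, Cl T f → ∃ t ∈ T, f = ⇑t

/-- `t` is in every open normal subgroup of `T` normalised by `U` -/
def TU (T U : Subgroup (Perm ℕ)) (t : Perm ℕ) : Prop :=
  ∀ N, ON T N → (∀ u ∈ U, ∀ n ∈ N, u * n * u⁻¹ ∈ N) → t ∈ N

theorem cj_one (N : Subgroup (Perm ℕ)) : cj 1 N = N := by
  ext x
  rw [mem_cj]
  simp

theorem cj_mul (a b : Perm ℕ) (N : Subgroup (Perm ℕ)) : cj (a * b) N = cj a (cj b N) := by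
  ext x
  rw [mem_cj, mem_cj, mem_cj]
  have : (a * b)⁻¹ * x * (a * b) = b⁻¹ * (a⁻¹ * x * a) * b := by group
  rw [this]

/-- the orbit of `N` is finite -/
def FO (U N : Subgroup (Perm ℕ)) : Prop := {N' | ∃ u ∈ U, cj u N = N'}.Finite

theorem FO_cj {U N : Subgroup (Perm ℕ)} {v : Perm ℕ} (hv : v ∈ U) : FO U (cj v N) ↔ FO U N := by
  have : {N' | ∃ u ∈ U, cj u (cj v N) = N'} = {N' | ∃ u ∈ U, cj u N = N'} := by
    ext N'
    constructor
    · rintro ⟨u, hu, h⟩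
      exact ⟨u * v, U.mul_mem hu hv, by rw [cj_mul, h]⟩
    · rintro ⟨u, hu, h⟩
      refine ⟨u * v⁻¹, U.mul_mem hu (U.inv_mem hv), ?_⟩
      rw [← cj_mul, inv_mul_cancel_right, h]
  unfold FO
  rw [this]

/-- the normaliser of `N` in `U` -/
def nz (U N : Subgroup (Perm ℕ)) : Subgroup U where
  carrier := {u | cj (u : Perm ℕ) N = N}
  one_mem' := cj_one N
  mul_mem' := by
    intro a b ha hb
    change cj ((a : Perm ℕ) * (b : Perm ℕ)) N = N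
    have ha' : cj (a : Perm ℕ) N = N := ha
    have hb' : cj (b : Perm ℕ) N = N := hb
    rw [cj_mul, hb', ha']
  inv_mem' := by
    intro a ha
    change cj (a : Perm ℕ)⁻¹ N = N
    have ha' : cj (a : Perm ℕ) N = N := ha
    conv_lhs => rw [← ha']
    rw [← cj_mul, inv_mul_cancel, cj_one]

theorem FO_of_finiteIndex {U N : Subgroup (Perm ℕ)} (h : (nz U N).FiniteIndex) : FO U N := by
  have : Finite (U ⧸ nz U N) := Subgroup.finite_quotient_of_finiteIndex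
  refine (Set.finite_range (fun q : U ⧸ nz U N => cj (q.out : Perm ℕ) N)).subset ?_
  rintro _ ⟨u, hu, rfl⟩
  refine ⟨QuotientGroup.mk (⟨u, hu⟩ : U), ?_⟩
  obtain ⟨k, hk⟩ := QuotientGroup.mk_out_eq_mul (nz U N) (⟨u, hu⟩ : U)
  simp only
  rw [hk]
  change cj (u * ((k : U) : Perm ℕ)) N = cj u N
  have hk2 : cj ((k : U) : Perm ℕ) N = N := k.2
  rw [cj_mul, hk2]

/-- Neumann's lemma -/
theorem neumann {U : Subgroup (Perm ℕ)} (L : Finset (Subgroup (Perm ℕ)))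
    (hL : ∀ N ∈ L, ¬ FO U N) : ∃ u ∈ U, ∀ N ∈ L, ∀ N' ∈ L, cj u N ≠ N' := by
  classical
  by_contra hcon
  push Not at hcon
  let g : Subgroup (Perm ℕ) × Subgroup (Perm ℕ) → U := fun p =>
    if h : ∃ u : U, cj (u : Perm ℕ) p.1 = p.2 then h.choose else 1
  have hg : ∀ p, (∃ u : U, cj (u : Perm ℕ) p.1 = p.2) → cj (g p : Perm ℕ) p.1 = p.2 := by
    intro p hp
    have e : g p = hp.choose := dif_pos hp
    rw [e]
    exact hp.choose_spec
  have hcov : ⋃ p ∈ L ×ˢ L, (g p) • ((nz U p.1 : Subgroup U) : Set U) = Set.univ := by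
    rw [Set.eq_univ_iff_forall]
    intro u
    obtain ⟨N, hN, N', hN', e⟩ := hcon u u.2
    refine Set.mem_iUnion₂.2 ⟨(N, N'), Finset.mk_mem_product hN hN', ?_⟩
    rw [Set.mem_smul_set_iff_inv_smul_mem]
    change cj (((g (N, N'))⁻¹ * u : U) : Perm ℕ) N = N
    have e2 := hg (N, N') ⟨u, e⟩
    simp only at e2
    change cj ((g (N, N') : Perm ℕ)⁻¹ * (u : Perm ℕ)) N = N
    generalize (g (N, N') : Perm ℕ) = γ at e2
    rw [cj_mul, e, ← e2, ← cj_mul, inv_mul_cancel, cj_one]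
  obtain ⟨p, hp, hfi⟩ := Subgroup.exists_finiteIndex_of_leftCoset_cover hcov
  exact hL _ (Finset.mem_product.1 hp).1 (FO_of_finiteIndex hfi)

theorem exists_pow_fix (p : Perm ℕ) (Z : Finset ℕ) (h : ∀ z ∈ Z, p z ∈ Z) :
    ∃ m, 1 ≤ m ∧ ∀ z ∈ Z, (p ^ m) z = z := by
  have hk : ∀ k : ℕ, ∀ z ∈ Z, (p ^ k) z ∈ Z := by
    intro k
    induction k with
    | zero => exact fun z hz => hz
    | succ k ih =>
      intro z hz
      rw [pow_succ, Perm.mul_apply]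
      exact ih _ (h z hz)
  obtain ⟨i, j, hij, e⟩ := Finite.exists_ne_map_eq_of_infinite
    (fun (k : ℕ) (z : {z // z ∈ Z}) => (⟨(p ^ k) z.1, hk k z.1 z.2⟩ : {z // z ∈ Z}))
  have key : ∀ i j : ℕ, i < j → (∀ z ∈ Z, (p ^ i) z = (p ^ j) z) →
      ∃ m, 1 ≤ m ∧ ∀ z ∈ Z, (p ^ m) z = z := by
    intro i j hij e
    refine ⟨j - i, Nat.sub_pos_of_lt hij, fun z hz => ?_⟩
    apply (p ^ i).injective
    rw [← Perm.mul_apply, ← pow_add, e z hz]
    congr 2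
    omega
  have e' : ∀ z ∈ Z, (p ^ i) z = (p ^ j) z := fun z hz =>
    congrArg Subtype.val (congrFun e ⟨z, hz⟩)
  rcases Nat.lt_or_gt_of_ne hij with h1 | h1
  · exact key i j h1 e'
  · exact key j i h1 fun z hz => (e' z hz).symm

variable {G T : Subgroup (Perm ℕ)}

namespace TN

theorem nm' (h : TN G T) {g t : Perm ℕ} (hg : g ∈ G) (ht : t ∈ T) : g⁻¹ * t * g ∈ T := by
  have := h.nm g⁻¹ (G.inv_mem hg) t ht
  rwa [inv_inv] at this

/-- finite invariant sets -/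
theorem exists_tc (h : TN G T) (X : Finset ℕ) : ∃ X' : Finset ℕ, ∀ y, y ∈ X' ↔
    ∃ x ∈ X, ∃ t ∈ T, t x = y := by
  classical
  choose Z hZ using h.orb
  have hf : {y | ∃ x ∈ X, ∃ t ∈ T, t x = y}.Finite := by
    refine (X.biUnion Z).finite_toSet.subset ?_
    rintro _ ⟨x, hx, t, ht, rfl⟩
    exact Finset.mem_coe.2 (Finset.mem_biUnion.2 ⟨x, hx, hZ x t ht⟩)
  exact ⟨hf.toFinset, fun y => by rw [Set.Finite.mem_toFinset]; rfl⟩

/-- the invariant closure of a finite set -/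
noncomputable def tc (h : TN G T) (X : Finset ℕ) : Finset ℕ := (h.exists_tc X).choose

theorem mem_tc (h : TN G T) {X : Finset ℕ} {y : ℕ} : y ∈ h.tc X ↔ ∃ x ∈ X, ∃ t ∈ T, t x = y :=
  (h.exists_tc X).choose_spec y

theorem sub_tc (h : TN G T) {X : Finset ℕ} {x : ℕ} (hx : x ∈ X) : x ∈ h.tc X :=
  h.mem_tc.2 ⟨x, hx, 1, T.one_mem, rfl⟩

theorem inv_tc (h : TN G T) (X : Finset ℕ) : ∀ t ∈ T, ∀ x ∈ h.tc X, t x ∈ h.tc X := by
  intro t ht x hx
  obtain ⟨y, hy, s, hs, rfl⟩ := h.mem_tc.1 hx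
  exact h.mem_tc.2 ⟨y, hy, t * s, T.mul_mem ht hs, rfl⟩

theorem cj_eq (h : TN G T) {N : Subgroup (Perm ℕ)} (hN : N ≤ T) {X : Finset ℕ}
    (hX : ∀ t ∈ T, ∀ x ∈ X, t x ∈ X) (hXN : ∀ t ∈ T, (∀ x ∈ X, t x = x) → t ∈ N) {v : Perm ℕ}
    (hv : v ∈ G) (hvX : ∀ x ∈ X, v x = x) : cj v N = N := by
  have hvX' : ∀ x ∈ X, v⁻¹ x = x := fun x hx => by
    rw [Perm.inv_eq_iff_eq]
    exact (hvX x hx).symm
  ext x
  rw [mem_cj]
  constructor
  · intro hx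
    have hxT : x ∈ T := by
      have := h.nm v hv _ (hN hx)
      have e : v * (v⁻¹ * x * v) * v⁻¹ = x := by group
      rwa [e] at this
    have h1 : (v⁻¹ * x * v)⁻¹ * x ∈ N := by
      refine hXN _ (T.mul_mem (T.inv_mem (hN hx)) hxT) fun y hy => ?_
      rw [Perm.mul_apply, Perm.inv_eq_iff_eq, Perm.mul_apply, Perm.mul_apply, hvX y hy,
        hvX' _ (hX x hxT y hy)]
    have := N.mul_mem hx h1
    rwa [mul_inv_cancel_left] at this
  · intro hx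
    have hxT := hN hx
    have h2 := h.nm' hv hxT
    have h1 : x⁻¹ * (v⁻¹ * x * v) ∈ N := by
      refine hXN _ (T.mul_mem (T.inv_mem hxT) h2) fun y hy => ?_
      rw [Perm.mul_apply, Perm.inv_eq_iff_eq, Perm.mul_apply, Perm.mul_apply, hvX y hy,
        hvX' _ (hX x hxT y hy)]
    have := N.mul_mem hx h1
    rwa [mul_inv_cancel_left] at this

theorem ON_cj (h : TN G T) {N : Subgroup (Perm ℕ)} (hN : ON T N) {v : Perm ℕ} (hv : v ∈ G) :
    ON T (cj v N) := by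
  classical
  obtain ⟨X, hX⟩ := hN.op
  refine ⟨⟨fun x hx => ?_, X.image v, fun t ht h1 => ?_⟩, fun t ht n hn => ?_⟩
  · have := h.nm v hv _ (hN.le (mem_cj.1 hx))
    have e : v * (v⁻¹ * x * v) * v⁻¹ = x := by group
    rwa [e] at this
  · rw [mem_cj]
    refine hX _ (h.nm' hv ht) fun x hx => ?_
    rw [Perm.mul_apply, Perm.mul_apply, h1 _ (Finset.mem_image_of_mem _ hx), ia]
  · rw [mem_cj] at *
    have := hN.nm _ (h.nm' hv ht) _ hn
    have e : v⁻¹ * t * v * (v⁻¹ * n * v) * (v⁻¹ * t * v)⁻¹ = v⁻¹ * (t * n * t⁻¹) * v := by group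
    rwa [e] at this

theorem exists_X (h : TN G T) {N : Subgroup (Perm ℕ)} (hN : ON T N) : ∃ X : Finset ℕ,
    (∀ t ∈ T, ∀ x ∈ X, t x ∈ X) ∧ ∀ t ∈ T, (∀ x ∈ X, t x = x) → t ∈ N := by
  obtain ⟨X, hX⟩ := hN.op
  exact ⟨h.tc X, h.inv_tc X, fun t ht h1 => hX t ht fun x hx => h1 x (h.sub_tc hx)⟩

theorem countable_ON (h : TN G T) : {N | ON T N}.Countable := by
  classical
  have hX : ∀ N, ON T N → ∃ X : Finset ℕ,
    (∀ t ∈ T, ∀ x ∈ X, t x ∈ X) ∧ ∀ t ∈ T, (∀ x ∈ X, t x = x) → t ∈ N := fun N hN => h.exists_X hN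
  choose! X hX1 hX2 using hX
  let c : Subgroup (Perm ℕ) → Finset ℕ × Finset (Finset (ℕ × ℕ)) := fun N =>
    (X N, ((X N ×ˢ X N).powerset).filter (fun D => ∃ t ∈ N, D = (X N).image (fun x => (x, t x))))
  have key : ∀ N N', ON T N → ON T N' → c N = c N' → N ≤ N' := by
    intro N N' hN hN' e t ht
    have h1 : (X N).image (fun x => (x, t x)) ∈ (c N).2 := by
      refine Finset.mem_filter.2 ⟨Finset.mem_powerset.2 fun p hp => ?_, t, ht, rfl⟩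
      obtain ⟨x, hx, rfl⟩ := Finset.mem_image.1 hp
      exact Finset.mk_mem_product hx (hX1 N hN t (hN.le ht) x hx)
    rw [e] at h1
    obtain ⟨-, t', ht', e'⟩ := Finset.mem_filter.1 h1
    have h2 : ∀ x ∈ X N', t x = t' x := by
      intro x hx
      have h3 : (x, t' x) ∈ (X N).image (fun x => (x, t x)) := by
        rw [e']
        exact Finset.mem_image_of_mem (fun x => (x, t' x)) hx
      obtain ⟨y, _, e3⟩ := Finset.mem_image.1 h3
      have e4 : y = x := congrArg Prod.fst e3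
      have e5 : t y = t' x := congrArg Prod.snd e3
      rw [← e5, e4]
    have h4 : t'⁻¹ * t ∈ N' := hX2 N' hN' _ (T.mul_mem (T.inv_mem (hN'.le ht')) (hN.le ht))
      fun x hx => by rw [Perm.mul_apply, Perm.inv_eq_iff_eq, h2 x hx]
    have := N'.mul_mem ht' h4
    rwa [mul_inv_cancel_left] at this
  refine Set.countable_of_injective_of_countable_image (f := c) ?_ (Set.to_countable _)
  intro N hN N' hN' e
  exact le_antisymm (key N N' hN hN' e) (key N' N hN' hN e.symm)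

/-- a sequence moving all subgroups with infinite orbits apart -/
theorem exists_apart (h : TN G T) (U : Subgroup (Perm ℕ)) : ∃ u : ℕ → Perm ℕ, (∀ k, u k ∈ U) ∧
    ∀ N N', ON T N → ON T N' → ¬ FO U N → ¬ FO U N' →
      ∀ᶠ k in (UU : Filter ℕ), cj (u k) N ≠ N' := by
  classical
  have hc : {N | ON T N ∧ ¬ FO U N}.Countable := h.countable_ON.mono fun N hN => hN.1
  obtain ⟨f, hf⟩ := Set.countable_iff_exists_injOn.1 hc
  have hfin : ∀ k : ℕ, {N | (ON T N ∧ ¬ FO U N) ∧ f N ≤ k}.Finite := by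
    intro k
    refine Set.Finite.of_finite_image (f := f) ((Set.finite_Iic k).subset ?_)
      (hf.mono fun N hN => hN.1)
    rintro _ ⟨N, hN, rfl⟩
    exact hN.2
  have hex : ∀ k : ℕ, ∃ u ∈ U, ∀ N ∈ (hfin k).toFinset, ∀ N' ∈ (hfin k).toFinset, cj u N ≠ N' :=
    fun k => neumann _ fun N hN => ((Set.Finite.mem_toFinset _).1 hN).1.2
  choose u hu hu' using hex
  refine ⟨u, hu, fun N N' hN hN' h1 h2 => ?_⟩
  filter_upwards [UU_ge (f N), UU_ge (f N')] with k hk hk'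
  exact hu' k N ((Set.Finite.mem_toFinset _).2 ⟨⟨hN, h1⟩, hk⟩) N'
    ((Set.Finite.mem_toFinset _).2 ⟨⟨hN', h2⟩, hk'⟩)

/-- the core of a subgroup with a finite orbit -/
theorem mem_of_TU (h : TN G T) {U N : Subgroup (Perm ℕ)} (hUG : U ≤ G) (hN : ON T N)
    (hF : FO U N) {t : Perm ℕ} (ht : TU T U t) : t ∈ N := by
  classical
  have hall : ∀ N' ∈ {N' | ∃ u ∈ U, cj u N = N'}, ON T N' := by
    rintro _ ⟨u, hu, rfl⟩
    exact h.ON_cj hN (hUG hu)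
  let M : Subgroup (Perm ℕ) := sInf {N' | ∃ u ∈ U, cj u N = N'}
  have hM : ∀ x, x ∈ M ↔ ∀ u ∈ U, x ∈ cj u N := by
    intro x
    rw [Subgroup.mem_sInf]
    constructor
    · intro h1 u hu
      exact h1 _ ⟨u, hu, rfl⟩
    · rintro h1 _ ⟨u, hu, rfl⟩
      exact h1 u hu
  have hMN : M ≤ N := by
    intro x hx
    have := (hM x).1 hx 1 U.one_mem
    rwa [cj_one] at this
  have hop : ∃ A : Finset ℕ, ∀ g ∈ T, (∀ x ∈ A, g x = x) → g ∈ M := by
    choose! A hA using fun N' (hN' : N' ∈ {N' | ∃ u ∈ U, cj u N = N'}) => (hall N' hN').op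
    refine ⟨hF.toFinset.biUnion A, fun g hg h1 => ?_⟩
    rw [hM]
    intro u hu
    refine hA _ ⟨u, hu, rfl⟩ g hg fun x hx => h1 x (Finset.mem_biUnion.2 ⟨_, ?_, hx⟩)
    exact (Set.Finite.mem_toFinset _).2 ⟨u, hu, rfl⟩
  have hON : ON T M := by
    refine ⟨⟨hMN.trans hN.le, hop⟩, fun g hg n hn => ?_⟩
    rw [hM]
    intro u hu
    exact (hall _ ⟨u, hu, rfl⟩).nm g hg n ((hM n).1 hn u hu)
  refine hMN (ht M hON fun v hv n hn => ?_)
  rw [hM]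
  intro u hu
  have h1 := (hM n).1 hn (v⁻¹ * u) (U.mul_mem (U.inv_mem hv) hu)
  rw [mem_cj] at h1 ⊢
  have e : (v⁻¹ * u)⁻¹ * n * (v⁻¹ * u) = u⁻¹ * (v * n * v⁻¹) * u := by group
  rwa [e] at h1

/-- products -/
def pr (A B : Subgroup (Perm ℕ)) (hAB : ∀ a ∈ A, ∀ b ∈ B, a * b * a⁻¹ ∈ B) :
    Subgroup (Perm ℕ) where
  carrier := {x | ∃ a ∈ A, ∃ b ∈ B, x = a * b}
  one_mem' := ⟨1, A.one_mem, 1, B.one_mem, (mul_one 1).symm⟩
  mul_mem' := by
    rintro _ _ ⟨a, ha, b, hb, rfl⟩ ⟨a', ha', b', hb', rfl⟩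
    refine ⟨a * a', A.mul_mem ha ha', a'⁻¹ * b * a' * b', B.mul_mem ?_ hb', by group⟩
    have := hAB a'⁻¹ (A.inv_mem ha') b hb
    rwa [inv_inv] at this
  inv_mem' := by
    rintro _ ⟨a, ha, b, hb, rfl⟩
    exact ⟨a⁻¹, A.inv_mem ha, a * b⁻¹ * a⁻¹, hAB a ha _ (B.inv_mem hb), by group⟩

theorem ON_pr {A B : Subgroup (Perm ℕ)} (hA : A ≤ T) (hAn : ∀ t ∈ T, ∀ a ∈ A, t * a * t⁻¹ ∈ A)
    (hB : ON T B) : ON T (pr A B fun a ha b hb => hB.nm a (hA ha) b hb) := by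
  obtain ⟨X, hX⟩ := hB.op
  refine ⟨⟨?_, X, fun t ht h1 => ⟨1, A.one_mem, t, hX t ht h1, (one_mul t).symm⟩⟩, ?_⟩
  · rintro _ ⟨a, ha, b, hb, rfl⟩
    exact T.mul_mem (hA ha) (hB.le hb)
  · rintro t ht _ ⟨a, ha, b, hb, rfl⟩
    exact ⟨t * a * t⁻¹, hAn t ht a ha, t * b * t⁻¹, hB.nm t ht b hb, by group⟩

theorem stb_nm {X : Finset ℕ} (hX : ∀ t ∈ T, ∀ x ∈ X, t x ∈ X) :
    ∀ t ∈ T, ∀ a ∈ stb T X, t * a * t⁻¹ ∈ stb T X := by
  intro t ht a ha
  refine ⟨T.mul_mem (T.mul_mem ht ha.1) (T.inv_mem ht), fun x hx => ?_⟩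
  rw [Perm.mul_apply, Perm.mul_apply, ha.2 _ (hX _ (T.inv_mem ht) x hx), ai]

theorem stb_ON {X : Finset ℕ} (hX : ∀ t ∈ T, ∀ x ∈ X, t x ∈ X) : ON T (stb T X) :=
  ⟨stb_open T X, stb_nm hX⟩

end TN

end Pool.Agent.Olig
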