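import Pool.Agent.Olig.NecB

/-!
# Isomorphisms from the closure of an oligomorphic group are homeomorphisms modulo compact normal
subgroups
-/

open Equiv Filter

namespace Pool.Agent.Olig

variable {G D : Subgroup (Perm ℕ)} {N : (ℕ → ℕ) → Prop} {P R : (ℕ → ℕ) → (ℕ → ℕ)}

/-- the limits `d ∈ D` of `P g` for `g → 1` -/
def SS (G D : Subgroup (Perm ℕ)) (P : (ℕ → ℕ) → (ℕ → ℕ)) : Set (Perm ℕ) :=
  {d | d ∈ D ∧ ∀ F Y : Finset ℕ, ∃ g ∈ stb G F, ∀ y ∈ Y, P ⇑g y = d y}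

theorem SupS.mem_map {X : Type} {A : (ℕ → ℕ) → X → X} {K : Finset X} {F : Finset ℕ}
    (h : SupS G A K F) {s : ℕ → ℕ} (hs : Cl G s) (hsF : Fx F s) {y : X} (hy : y ∈ K) :
    A s y ∈ K := by
  classical
  have h1 := h s hs hsF
  have h2 : A s y ∈ @Finset.image _ _ (fun a b => Classical.propDecidable (a = b)) (A s) K :=
    Finset.mem_image.2 ⟨y, hy, rfl⟩
  rw [h1] at h2
  exact h2

theorem SupS.surj {X : Type} {A : (ℕ → ℕ) → X → X} {K : Finset X} {F : Finset ℕ}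
    (h : SupS G A K F) {s : ℕ → ℕ} (hs : Cl G s) (hsF : Fx F s) {y : X} (hy : y ∈ K) :
    ∃ z ∈ K, A s z = y := by
  classical
  have h1 := h s hs hsF
  rw [← h1] at hy
  exact Finset.mem_image.1 hy

theorem SupS.of {X : Type} {A : (ℕ → ℕ) → X → X} {K : Finset X} {F : Finset ℕ}
    (h : ∀ s, Cl G s → Fx F s → (∀ y ∈ K, A s y ∈ K) ∧ ∀ y ∈ K, ∃ z ∈ K, A s z = y) :
    SupS G A K F := by
  classical
  intro s hs hsF
  obtain ⟨h1, h2⟩ := h s hs hsF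
  ext y
  rw [Finset.mem_image]
  constructor
  · rintro ⟨z, hz, rfl⟩
    exact h1 z hz
  · exact h2 y

namespace ClIso

/-- the inverse isomorphism -/
theorem symm (h : ClIso G D N P R) : ClIso D G (Cl G) R P where
  cG := h.cD
  oG := h.oD
  cD := h.cG
  oD := h.oG
  clN := fun _ hf => hf
  compN := fun _ _ hf hf' => hf.comp hf'
  memP := fun f hf => h.memR f (h.clN f hf)
  memR := fun f hf => h.cl_of_N (h.memP f hf)
  mulP := fun f f' hf hf' => h.mulR f f' (h.clN f hf) (h.clN f' hf')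
  mulR := h.mulP
  RP := fun f hf => h.PR f (h.clN f hf)
  PR := h.RP
  idP := h.idR
  gP := h.dR
  dR := h.gP

theorem clP (h : ClIso G D N P R) {f : ℕ → ℕ} (hf : Cl G f) : Cl D (P f) :=
  h.cl_of_N (h.memP f hf)

/-- `SS` is a subgroup -/
def SSg (h : ClIso G D N P R) : Subgroup (Perm ℕ) where
  carrier := SS G D P
  one_mem' := ⟨D.one_mem, fun F Y => ⟨1, (stb G F).one_mem, fun y _ => by
    have : (⇑(1 : Perm ℕ) : ℕ → ℕ) = id := rfl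
    rw [this, h.idP]⟩⟩
  mul_mem' := by
    classical
    rintro a b ⟨ha, ha'⟩ ⟨hb, hb'⟩
    refine ⟨D.mul_mem ha hb, fun F Y => ?_⟩
    obtain ⟨g2, hg2, h2⟩ := hb' F Y
    obtain ⟨g1, hg1, h1⟩ := ha' F (Y.image b)
    refine ⟨g1 * g2, (stb G F).mul_mem hg1 hg2, fun y hy => ?_⟩
    have e := congrFun (h.mulP ⇑g1 ⇑g2 (Cl.of_mem hg1.1) (Cl.of_mem hg2.1)) y
    change P (⇑g1 ∘ ⇑g2) y = _
    rw [e, Function.comp_apply, h2 y hy, h1 _ (Finset.mem_image_of_mem _ hy)]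
    rfl
  inv_mem' := by
    classical
    rintro a ⟨ha, ha'⟩
    refine ⟨D.inv_mem ha, fun F Y => ?_⟩
    obtain ⟨g, hg, h1⟩ := ha' F (Y.image ⇑a⁻¹)
    obtain ⟨d, hd, hPd⟩ := h.gP g hg.1
    refine ⟨g⁻¹, (stb G F).inv_mem hg, fun y hy => ?_⟩
    rw [h.invP hg.1 hd hPd, Perm.inv_eq_iff_eq]
    have h2 := h1 _ (Finset.mem_image_of_mem _ hy)
    rw [hPd, ai] at h2
    exact h2.symm

theorem mem_SSg (h : ClIso G D N P R) {d : Perm ℕ} : d ∈ h.SSg ↔ d ∈ SS G D P := Iff.rfl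

theorem SSg_le (h : ClIso G D N P R) : h.SSg ≤ D := fun _ hd => hd.1

theorem SSg_normal (h : ClIso G D N P R) {δ d : Perm ℕ} (hδ : δ ∈ D) (hd : d ∈ h.SSg) :
    δ * d * δ⁻¹ ∈ h.SSg := by
  classical
  refine ⟨D.mul_mem (D.mul_mem hδ hd.1) (D.inv_mem hδ), fun F Y => ?_⟩
  obtain ⟨γ, hγ, hRγ⟩ := h.dR δ hδ
  have hPγ : P ⇑γ = ⇑δ := by rw [← hRγ, h.PR _ (h.Nd hδ)]
  obtain ⟨g, hg, h1⟩ := hd.2 (F.image ⇑γ⁻¹) (Y.image ⇑δ⁻¹)
  have hmem : γ * g * γ⁻¹ ∈ stb G F := by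
    refine ⟨G.mul_mem (G.mul_mem hγ hg.1) (G.inv_mem hγ), fun x hx => ?_⟩
    rw [Perm.mul_apply, Perm.mul_apply, hg.2 _ (Finset.mem_image_of_mem _ hx), ai]
  refine ⟨_, hmem, fun y hy => ?_⟩
  have e1 : (⇑(γ * g * γ⁻¹) : ℕ → ℕ) = ⇑γ ∘ (⇑g ∘ ⇑γ⁻¹) := rfl
  rw [e1, h.mulP _ _ (Cl.of_mem hγ) ((Cl.of_mem hg.1).comp (Cl.of_mem (G.inv_mem hγ))),
    h.mulP _ _ (Cl.of_mem hg.1) (Cl.of_mem (G.inv_mem hγ)), h.invP hγ hδ hPγ, hPγ]
  simp only [Function.comp_apply]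
  rw [h1 _ (Finset.mem_image_of_mem _ hy)]
  rfl

/-- finite orbits -/
theorem SSg_orbit (h : ClIso G D N P R) (c : ℕ) : ∃ Z : Finset ℕ, ∀ d ∈ h.SSg, d c ∈ Z := by
  obtain ⟨F, Z, hZ⟩ := h.finP c
  refine ⟨Z, fun d hd => ?_⟩
  obtain ⟨g, hg, h1⟩ := hd.2 F {c}
  rw [← h1 c (by simp)]
  exact hZ g hg

/-- a finite invariant set containing a given finite set -/
theorem exists_inv (h : ClIso G D N P R) (Y : Finset ℕ) : ∃ Z : Finset ℕ, Y ⊆ Z ∧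
    ∀ d ∈ h.SSg, ∀ z ∈ Z, d z ∈ Z := by
  classical
  choose Z hZ using h.SSg_orbit
  have hfin : {z | ∃ y ∈ Y, ∃ d ∈ h.SSg, d y = z}.Finite := by
    refine (Y.biUnion Z).finite_toSet.subset ?_
    rintro _ ⟨y, hy, d, hd, rfl⟩
    exact Finset.mem_coe.2 (Finset.mem_biUnion.2 ⟨y, hy, hZ y d hd⟩)
  refine ⟨hfin.toFinset, fun y hy => ?_, fun d hd z hz => ?_⟩
  · rw [Set.Finite.mem_toFinset]
    exact ⟨y, hy, 1, h.SSg.one_mem, rfl⟩
  · rw [Set.Finite.mem_toFinset] at hz ⊢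
    obtain ⟨y, hy, d', hd', rfl⟩ := hz
    exact ⟨y, hy, d * d', h.SSg.mul_mem hd hd', rfl⟩

/-- `SSg` is closed -/
theorem SSg_closed (h : ClIso G D N P R) {d : Perm ℕ} (hd : Cl h.SSg d) : d ∈ h.SSg := by
  refine ⟨h.cD d (hd.mono h.SSg_le), fun F Y => ?_⟩
  obtain ⟨δ, hδ, h1⟩ := hd Y
  obtain ⟨g, hg, h2⟩ := hδ.2 F Y
  exact ⟨g, hg, fun y hy => by rw [h2 y hy, h1 y hy]⟩

/-- elements of the pointwise closure of `SSg` are permutations in `SSg` -/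
theorem SSg_cl (h : ClIso G D N P R) {f : ℕ → ℕ} (hf : Cl h.SSg f) : ∃ d ∈ h.SSg, f = ⇑d := by
  classical
  have hs : Function.Surjective f := by
    intro c
    obtain ⟨Z, hcZ, hZ⟩ := h.exists_inv {c}
    have h1 : Z.image f = Z := by
      refine Finset.eq_of_subset_of_card_le (fun z hz => ?_) ?_
      · obtain ⟨z', hz', rfl⟩ := Finset.mem_image.1 hz
        obtain ⟨d, hd, h2⟩ := hf {z'}
        rw [← h2 z' (by simp)]
        exact hZ d hd z' hz'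
      · rw [Finset.card_image_of_injective _ hf.injective]
    have h2 : c ∈ Z.image f := by rw [h1]; exact hcZ (by simp)
    obtain ⟨z, _, hz⟩ := Finset.mem_image.1 h2
    exact ⟨z, hz⟩
  let τ : Perm ℕ := Equiv.ofBijective f ⟨hf.injective, hs⟩
  exact ⟨τ, h.SSg_closed (d := τ) hf, rfl⟩

/-- correspondence of the two subgroups -/
theorem mem_SS_symm (h : ClIso G D N P R) {g d : Perm ℕ} (hg : g ∈ G) (e : P ⇑g = ⇑d)
    (hS : d ∈ SS G D P) : g ∈ SS D G R := by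
  classical
  refine ⟨hg, fun F X => ?_⟩
  obtain ⟨x, hx, h1⟩ := (h.SSg.inv_mem hS).2 X F
  obtain ⟨δ, hδ, hPδ⟩ := h.gP x hx.1
  refine ⟨d * δ, ⟨D.mul_mem hS.1 hδ, fun y hy => ?_⟩, fun y hy => ?_⟩
  · rw [Perm.mul_apply, ← hPδ, h1 y hy, ai]
  · have e1 : (⇑(d * δ) : ℕ → ℕ) = ⇑d ∘ ⇑δ := rfl
    rw [e1, h.mulR _ _ (h.Nd hS.1) (h.Nd hδ), h.Rd hg e, h.Rd hx.1 hPδ, Function.comp_apply,
      hx.2 y hy]

theorem mem_SS_iff (h : ClIso G D N P R) {g d : Perm ℕ} (hg : g ∈ G) (e : P ⇑g = ⇑d) :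
    g ∈ h.symm.SSg ↔ d ∈ h.SSg := by
  constructor
  · intro h1
    obtain ⟨d', hd', e'⟩ := h.gP g hg
    have hdd : d = d' := DFunLike.coe_injective (e.symm.trans e')
    subst hdd
    have h2 : R ⇑d = ⇑g := h.Rd hg e
    exact h.symm.mem_SS_symm hd' h2 h1
  · intro h1
    exact h.mem_SS_symm hg e h1

/-- continuity modulo `SSg` on the group -/
theorem cont_grp (h : ClIso G D N P R) (Y : Finset ℕ) : ∃ F : Finset ℕ, ∀ g ∈ stb G F,
    ∃ σ ∈ h.SSg, ∀ y ∈ Y, P ⇑g y = σ y := by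
  classical
  by_contra hcon
  push Not at hcon
  choose g hg hne using fun n : ℕ => hcon (Finset.range n)
  have hlim : ∀ x, ∀ᶠ i in (UU : Filter ℕ), g i x = id x := by
    intro x
    filter_upwards [UU_ge (x + 1)] with i hi
    exact (hg i).2 x (Finset.mem_range.2 hi)
  have hlim' : ∀ x, ∀ᶠ i in (UU : Filter ℕ), (g i)⁻¹ x = id x := by
    intro x
    filter_upwards [hlim x] with i hi
    rw [Perm.inv_eq_iff_eq, id, hi]
    rfl
  obtain ⟨t, htc, ht⟩ := h.exists_limP (fun i => (hg i).1) hlim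
  obtain ⟨t', _, ht'⟩ := h.exists_limP (k := fun i => (g i)⁻¹) (fun i => G.inv_mem (hg i).1) hlim'
  have hsur : Function.Surjective t := by
    intro c
    refine ⟨t' c, ?_⟩
    obtain ⟨i, h1, h2⟩ := ((ht' c).and (ht (t' c))).exists
    obtain ⟨d, hd, hPd⟩ := h.gP _ (hg i).1
    rw [← h2, ← h1, h.invP (hg i).1 hd hPd, hPd, ai]
  let τ : Perm ℕ := Equiv.ofBijective t ⟨htc.injective, hsur⟩
  have hτ : τ ∈ h.SSg := by
    refine ⟨h.cD τ htc, fun F Y' => ?_⟩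
    obtain ⟨i, h1, h2⟩ := (((Filter.eventually_all_finset Y').2 fun y _ => ht y).and
      (UU_ge (F.sup id + 1))).exists
    refine ⟨g i, ⟨(hg i).1, fun x hx => (hg i).2 x (Finset.mem_range.2 ?_)⟩, fun y hy => h1 y hy⟩
    exact lt_of_lt_of_le (Nat.lt_succ_of_le (Finset.le_sup (f := id) hx)) h2
  obtain ⟨i, hi⟩ := ((Filter.eventually_all_finset Y).2 fun y _ => ht y).exists
  obtain ⟨y, hy, hy2⟩ := hne i τ hτ
  exact hy2 (hi y hy)

/-- the action of the closure of `G` on `ℕ` -/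
theorem injActP (h : ClIso G D N P R) : InjAct G ℕ P where
  one := fun x => by rw [h.idP]; rfl
  mul := fun f f' hf hf' x => congrFun (h.mulP f f' hf hf') x
  inj := fun f hf => (h.clP hf).injective

/-- finite supported sets -/
theorem exists_supS (h : ClIso G D N P R) (Y : Finset ℕ) : ∃ K F : Finset ℕ, Y ⊆ K ∧
    SupS G P K F := by
  classical
  obtain ⟨X, _, q, A, hq⟩ := h.exists_quo
  have hA := hq.injAct h
  have hinj : Function.Injective q := by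
    intro a b hab
    obtain ⟨f, hf, e⟩ := (hq.qM a b).1 hab
    exact (h.cl_of_N hf).injective e
  choose K F hKF hK using fun y => (hA.goodPt_iff (fun F => hq.finite_core h F)).1 (hq.goodPt h y)
  -- one point
  have hone : ∀ y : ℕ, ∃ K' : Finset ℕ, y ∈ K' ∧ SupS G P K' (F (q y)) := by
    intro y
    refine ⟨(K (q y)).preimage q hinj.injOn, Finset.mem_preimage.2 (hK (q y)),
      SupS.of fun s hs hsF => ⟨fun z hz => ?_, fun z hz => ?_⟩⟩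
    · rw [Finset.mem_preimage] at hz ⊢
      rw [← hq.act s hs]
      exact (hKF (q y)).mem_map hs hsF hz
    · rw [Finset.mem_preimage] at hz
      obtain ⟨x, hx, hxz⟩ := (hKF (q y)).surj hs hsF hz
      obtain ⟨z', rfl⟩ := hq.sur x
      rw [hq.act s hs] at hxz
      exact ⟨z', Finset.mem_preimage.2 hx, hinj hxz⟩
  choose K' hyK' hK' using hone
  refine ⟨Y.biUnion K', Y.biUnion fun y => F (q y), fun y hy =>
    Finset.mem_biUnion.2 ⟨y, hy, hyK' y⟩, SupS.of fun s hs hsF => ⟨fun z hz => ?_, fun z hz => ?_⟩⟩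
  · obtain ⟨y, hy, hz⟩ := Finset.mem_biUnion.1 hz
    exact Finset.mem_biUnion.2 ⟨y, hy, (hK' y).mem_map hs
      (fun x hx => hsF x (Finset.mem_biUnion.2 ⟨y, hy, hx⟩)) hz⟩
  · obtain ⟨y, hy, hz⟩ := Finset.mem_biUnion.1 hz
    obtain ⟨z', hz', e⟩ := (hK' y).surj hs
      (fun x hx => hsF x (Finset.mem_biUnion.2 ⟨y, hy, hx⟩)) hz
    exact ⟨z', Finset.mem_biUnion.2 ⟨y, hy, hz'⟩, e⟩

/-- continuity modulo `SSg` at the identity -/
theorem cont_one (h : ClIso G D N P R) (Y : Finset ℕ) : ∃ F : Finset ℕ, ∀ n, Cl G n → Fx F n →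
    ∃ σ ∈ h.SSg, ∀ y ∈ Y, P n y = σ y := by
  classical
  obtain ⟨K, F2, hYK, hKF⟩ := h.exists_supS Y
  obtain ⟨F3, hF3⟩ := h.cont_grp K
  refine ⟨F2 ∪ F3, fun n hn hnF => ?_⟩
  let U := stb G (F2 ∪ F3)
  have hU : OpenIn G U := stb_open G _
  have hnU : Cl U n := by
    intro S
    obtain ⟨g, hg, h1⟩ := hn (S ∪ (F2 ∪ F3))
    exact ⟨g, ⟨hg, fun x hx => by rw [h1 x (Finset.mem_union_right _ hx), hnF x hx]⟩,
      fun x hx => h1 x (Finset.mem_union_left _ hx)⟩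
  obtain ⟨m, hm, hext, _⟩ := exists_s (hU.closedG h.cG) (hU.oligo h.oG) {n}
    (Set.countable_singleton _) (by
      intro f hf
      rw [Set.mem_singleton_iff.1 hf]
      exact hnU)
  obtain ⟨g, hg, e⟩ := hext n rfl
  have hmG : Cl G m := hm.mono hU.le
  obtain ⟨σ, hσ, h1⟩ := hF3 g ⟨hg.1, fun x hx => hg.2 x (Finset.mem_union_right _ hx)⟩
  have hmF : Fx F2 m := fun x hx => by
    obtain ⟨u, hu, h2⟩ := hm {x}
    rw [← h2 x (by simp)]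
    exact hu.2 x (Finset.mem_union_left _ hx)
  have e2 := congrArg P e
  rw [h.mulP m n hmG hn, h.mulP _ m (Cl.of_mem hg.1) hmG] at e2
  -- conjugate `σ`
  obtain ⟨Z, hKZ, hZ⟩ := h.exists_inv K
  obtain ⟨δ, hδ, h3⟩ := (h.clP hmG) Z
  have hσ' : δ⁻¹ * σ * δ ∈ h.SSg := by
    have := h.SSg_normal (D.inv_mem hδ) hσ
    rwa [inv_inv] at this
  refine ⟨δ⁻¹ * σ * δ, hσ', fun y hy => ?_⟩
  have hyK := hYK hy
  apply (h.clP hmG).injective
  have h4 := congrFun e2 y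
  simp only [Function.comp_apply] at h4
  have h5 : P m y ∈ K := hKF.mem_map hmG hmF hyK
  rw [h4, h1 _ h5, ← h3 _ (hZ _ hσ' y (hKZ hyK)), Perm.mul_apply, Perm.mul_apply, ai,
    h3 y (hKZ hyK)]

/-- continuity modulo `SSg` -/
theorem cont_mod (h : ClIso G D N P R) (Y : Finset ℕ) : ∃ F : Finset ℕ, ∀ s s', Cl G s →
    Cl G s' → (∀ x ∈ F, s x = s' x) → ∃ σ ∈ h.SSg, ∀ y ∈ Y, P s' y = P s (σ y) := by
  classical
  obtain ⟨Z, hYZ, hZ⟩ := h.exists_inv Y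
  obtain ⟨F, hF⟩ := h.cont_one Z
  refine ⟨F, fun s s' hs hs' hss => ?_⟩
  obtain ⟨g, hg, h1⟩ := hs F
  have key : ∀ f, Cl G f → (∀ x ∈ F, g x = f x) → ∃ σ ∈ h.SSg, ∀ y ∈ Z, P f y = P ⇑g (σ y) := by
    intro f hf hgf
    obtain ⟨σ, hσ, h2⟩ := hF (⇑g⁻¹ ∘ f) (hf.mul_left (G.inv_mem hg)) (fun x hx => by
      rw [Function.comp_apply, ← hgf x hx, ia])
    refine ⟨σ, hσ, fun y hy => ?_⟩
    have e : f = ⇑g ∘ (⇑g⁻¹ ∘ f) := by
      funext x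
      simp only [Function.comp_apply]
      rw [ai]
    conv_lhs => rw [e]
    rw [h.mulP _ _ (Cl.of_mem hg) (hf.mul_left (G.inv_mem hg)), Function.comp_apply, h2 y hy]
  obtain ⟨σ1, hσ1, k1⟩ := key s hs h1
  obtain ⟨σ2, hσ2, k2⟩ := key s' hs' (fun x hx => by rw [h1 x hx, hss x hx])
  refine ⟨σ1⁻¹ * σ2, h.SSg.mul_mem (h.SSg.inv_mem hσ1) hσ2, fun y hy => ?_⟩
  have hy' := hYZ hy
  have hm : (σ1⁻¹ * σ2) y ∈ Z := hZ _ (h.SSg.mul_mem (h.SSg.inv_mem hσ1) hσ2) y hy'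
  rw [k2 y hy', k1 _ hm, Perm.mul_apply, ai]

end ClIso

end Pool.Agent.Olig
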