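import Pool.Agent.Olig.IterG
import Pool.Agent.Olig.IterD
import Pool.Agent.Olig.NecC

/-!
# Compatibility with the compact kernel
-/

open Equiv Filter

namespace Pool.Agent.Olig

variable {G D T : Subgroup (Perm ℕ)}

theorem TN.of_closed (hle : T ≤ G) (hnm : ∀ g ∈ G, ∀ t ∈ T, g * t * g⁻¹ ∈ T)
    (horb : ∀ x : ℕ, ∃ Z : Finset ℕ, ∀ t ∈ T, t x ∈ Z) (hcl : ClosedG T) : TN G T := by
  classical
  refine ⟨hle, hnm, horb, fun f hf => ?_⟩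
  have hs : Function.Surjective f := by
    intro c
    obtain ⟨Z, hZ⟩ := horb c
    let Y : Finset ℕ := Z.filter (fun z => ∃ t ∈ T, t c = z)
    have hY : ∀ z, z ∈ Y ↔ ∃ t ∈ T, t c = z := by
      intro z
      rw [Finset.mem_filter]
      exact ⟨fun h => h.2, fun h => ⟨by obtain ⟨t, ht, rfl⟩ := h; exact hZ t ht, h⟩⟩
    have h1 : Y.image f = Y := by
      refine Finset.eq_of_subset_of_card_le (fun z hz => ?_) ?_
      · obtain ⟨z', hz', rfl⟩ := Finset.mem_image.1 hz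
        obtain ⟨d, hd, h2⟩ := hf {z'}
        obtain ⟨s, hs, rfl⟩ := (hY _).1 hz'
        rw [← h2 _ (by simp)]
        exact (hY _).2 ⟨d * s, T.mul_mem hd hs, rfl⟩
      · rw [Finset.card_image_of_injective _ hf.injective]
    have h2 : c ∈ Y.image f := by rw [h1]; exact (hY c).2 ⟨1, T.one_mem, rfl⟩
    obtain ⟨z, _, hz⟩ := Finset.mem_image.1 h2
    exact ⟨z, hz⟩
  exact ⟨Equiv.ofBijective f ⟨hf.injective, hs⟩, hcl (Equiv.ofBijective f ⟨hf.injective, hs⟩) hf, rfl⟩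

namespace TN

/-- sequences in a compact normal subgroup have limits -/
theorem exists_lim (h : TN G T) (c : ℕ → Perm ℕ) (hc : ∀ n, c n ∈ T) :
    ∃ p ∈ T, ∀ x, ∀ᶠ n in (UU : Filter ℕ), c n x = p x := by
  have h1 : ∀ x, ∃ z, ∀ᶠ n in (UU : Filter ℕ), c n x = z := by
    intro x
    obtain ⟨Z, hZ⟩ := h.orb x
    exact UU_const (Z := Z) (Eventually.of_forall fun n => hZ _ (hc n))
  choose f hf using h1
  obtain ⟨p, hp, e⟩ := h.cl f (fun F => by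
    obtain ⟨n, hn⟩ := ((Filter.eventually_all_finset F).2 fun x _ => hf x).exists
    exact ⟨c n, hc n, hn⟩)
  subst e
  exact ⟨p, hp, hf⟩

theorem absorb (h : TN G T) (ψ : G →* Perm ℕ) {A : Set ℕ} {σ : G}
    (hA : ∀ x, ∃ K : ℕ, ∀ k, K ≤ k → ((σ : Perm ℕ) ^ k)⁻¹ x ∈ A) {Z : Finset ℕ}
    (hZT : ∀ t : G, (t : Perm ℕ) ∈ T → ∀ z ∈ Z, ψ t z ∈ Z) (hZσ : ∀ z ∈ Z, ψ σ z ∈ Z) {a : G}
    (ha : (a : Perm ℕ) ∈ T) (haA : ∀ x, (∀ t ∈ T, t x ∈ A) → (a : Perm ℕ) x = x) :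
    ∀ z ∈ Z, ψ a z = z := by
  classical
  obtain ⟨m, hm, hmZ⟩ := exists_pow_fix (ψ σ) Z hZσ
  let τ : Perm ℕ := (σ : Perm ℕ) ^ m
  have hτG : τ ∈ G := G.pow_mem σ.2 m
  let ak : ℕ → Perm ℕ := fun k => τ ^ k * a * (τ ^ k)⁻¹
  have hak : ∀ k, ak k ∈ T := fun k => h.nm _ (G.pow_mem hτG k) _ ha
  have hfix : ∀ x, ∃ K, ∀ k, K ≤ k → ak k x = x := by
    intro x
    choose K hK using hA
    refine ⟨(h.tc {x}).sup K, fun k hk => ?_⟩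
    have e : τ ^ k = (σ : Perm ℕ) ^ (m * k) := (pow_mul _ _ _).symm
    have hw : ∀ y ∈ h.tc {x}, (τ ^ k)⁻¹ y ∈ A := fun y hy => by
      rw [e]
      exact hK y (m * k) ((Finset.le_sup hy).trans (hk.trans (Nat.le_mul_of_pos_left k hm)))
    have e2 : (a : Perm ℕ) ((τ ^ k)⁻¹ x) = (τ ^ k)⁻¹ x := by
      refine haA _ fun t ht => ?_
      have h1 : (τ ^ k * t * (τ ^ k)⁻¹) x ∈ h.tc {x} :=
        h.mem_tc.2 ⟨x, by simp, _, h.nm _ (G.pow_mem hτG k) _ ht, rfl⟩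
      have h2 := hw _ h1
      have h3 : (τ ^ k)⁻¹ ((τ ^ k * t * (τ ^ k)⁻¹) x) = t ((τ ^ k)⁻¹ x) := by
        rw [Perm.mul_apply, Perm.mul_apply, ia]
      rwa [h3] at h2
    change (τ ^ k) ((a : Perm ℕ) ((τ ^ k)⁻¹ x)) = x
    rw [e2, ai]
  let pn : ℕ → Perm ℕ := fun n => Nat.rec 1 (fun n p => p * ak n) n
  have hpn0 : pn 0 = 1 := rfl
  have hpns : ∀ n, pn (n + 1) = pn n * ak n := fun n => rfl
  have hpnT : ∀ n, pn n ∈ T := by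
    intro n
    induction n with
    | zero => exact T.one_mem
    | succ n ih => rw [hpns]; exact T.mul_mem ih (hak n)
  have hleft : ∀ n, pn (n + 1) = a * (τ * pn n * τ⁻¹) := by
    intro n
    induction n with
    | zero =>
      rw [hpns, hpn0]
      change 1 * (τ ^ 0 * a * (τ ^ 0)⁻¹) = a * (τ * 1 * τ⁻¹)
      group
    | succ n ih =>
      have e0 : pn (n + 1 + 1) = a * (τ * pn n * τ⁻¹) * ak (n + 1) := by rw [hpns (n + 1), ih]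
      rw [e0, hpns n]
      change a * (τ * pn n * τ⁻¹) * (τ ^ (n + 1) * a * (τ ^ (n + 1))⁻¹) =
        a * (τ * (pn n * (τ ^ n * a * (τ ^ n)⁻¹)) * τ⁻¹)
      have e : τ ^ (n + 1) = τ * τ ^ n := pow_succ' _ _
      rw [e]
      group
  choose K hK using hfix
  have hst : ∀ x n, K x ≤ n → pn n x = pn (K x) x := by
    intro x n hn
    induction hn with
    | refl => rfl
    | step hn ih =>
      rename_i n
      rw [Nat.succ_eq_add_one, hpns, Perm.mul_apply, hK x n hn, ih]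
  obtain ⟨p, hp, e⟩ := h.cl (fun x => pn (K x) x) (fun F => by
    refine ⟨pn (F.sup K), hpnT _, fun x hx => hst x _ (Finset.le_sup hx)⟩)
  have hpx : ∀ x n, K x ≤ n → pn n x = p x := fun x n hn => (hst x n hn).trans (congrFun e x)
  have heq : p = a * (τ * p * τ⁻¹) := by
    refine Equiv.ext fun x => ?_
    have h1 := hpx x (max (K x) (K (τ⁻¹ x)) + 1) ((le_max_left _ _).trans (Nat.le_succ _))
    rw [hleft] at h1
    rw [← h1, Perm.mul_apply, Perm.mul_apply, Perm.mul_apply, Perm.mul_apply, Perm.mul_apply,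
      Perm.mul_apply, hpx (τ⁻¹ x) _ (le_max_right _ _)]
  let p' : G := ⟨p, h.le hp⟩
  let τ' : G := σ ^ m
  have hτ' : (τ' : Perm ℕ) = τ := by simp [τ', τ]
  have e3 : a = p' * τ' * p'⁻¹ * τ'⁻¹ := by
    refine Subtype.ext ?_
    change (a : Perm ℕ) = p * (τ' : Perm ℕ) * p⁻¹ * (τ' : Perm ℕ)⁻¹
    rw [hτ']
    have : (a : Perm ℕ) = (a * (τ * p * τ⁻¹)) * (τ * p⁻¹ * τ⁻¹) := by group
    rw [← heq] at this
    rw [this]
    group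
  have hτZ : ∀ z ∈ Z, ψ τ' z = z := by
    intro z hz
    rw [map_pow]
    exact hmZ z hz
  intro z hz
  rw [e3, map_mul, map_mul, map_mul, map_inv ψ τ']
  have h1 : (ψ τ')⁻¹ z = z := by
    rw [Perm.inv_eq_iff_eq]
    exact (hτZ z hz).symm
  have h2 : ψ p'⁻¹ z ∈ Z := hZT p'⁻¹ (T.inv_mem hp) z hz
  rw [Perm.mul_apply, h1, Perm.mul_apply, Perm.mul_apply, hτZ _ h2, map_inv, ai]

theorem fix_of_TU (h : TN G T) (ψ : G →* Perm ℕ) {U : Subgroup (Perm ℕ)} (hUG : U ≤ G)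
    (hUc : ClosedG U) (hU : Oligo U) {Z : Finset ℕ}
    (hZT : ∀ t : G, (t : Perm ℕ) ∈ T → ∀ z ∈ Z, ψ t z ∈ Z)
    (hZU : ∀ u : G, (u : Perm ℕ) ∈ U → ∀ z ∈ Z, ψ u z ∈ Z) {t : G} (ht : (t : Perm ℕ) ∈ T)
    (htU : TU T U t) : ∀ z ∈ Z, ψ t z = z := by
  classical
  obtain ⟨u, hu, hap⟩ := h.exists_apart U
  obtain ⟨A, σ, g, hσ, hg, hA, hX⟩ := exists_abs hUc hU u hu
  have hgG := hUG hg
  have key : ∀ X F : Finset ℕ, (∀ t ∈ T, ∀ x ∈ X, t x ∈ X) → (∀ t ∈ T, ∀ x ∈ F, t x ∈ F) →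
      (∀ x ∈ X, x ∈ A) → ∃ a ∈ stb T X, ∃ b ∈ stb T (X.image g),
        ∀ x ∈ F, (t : Perm ℕ) x = a (b x) := by
    intro X F hXi hFi hXA
    have hgi : ∀ s ∈ T, ∀ x ∈ X.image g, s x ∈ X.image g := by
      intro s hs x hx
      obtain ⟨y, hy, rfl⟩ := Finset.mem_image.1 hx
      refine Finset.mem_image.2 ⟨g⁻¹ (s (g y)), ?_, ai _ _⟩
      exact hXi _ (h.nm' hgG hs) y hy
    have hB := stb_ON hFi
    have hB2 := ON_pr (A := stb T (X.image g)) (fun x hx => hx.1) (stb_nm hgi) hB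
    have hB3 := ON_pr (A := stb T X) (fun x hx => hx.1) (stb_nm hXi) hB2
    have hXN : ∀ s ∈ T, (∀ x ∈ X, s x = x) → s ∈ pr (stb T X) (pr (stb T (X.image g)) (stb T F)
        (fun a ha b hb => hB.nm a ha.1 b hb)) (fun a ha b hb => hB2.nm a ha.1 b hb) :=
      fun s hs h1 => ⟨s, ⟨hs, h1⟩, 1, Subgroup.one_mem _, (mul_one s).symm⟩
    have hgN : ∀ s ∈ T, (∀ x ∈ X.image g, s x = x) → s ∈ pr (stb T X)
        (pr (stb T (X.image g)) (stb T F)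
        (fun a ha b hb => hB.nm a ha.1 b hb)) (fun a ha b hb => hB2.nm a ha.1 b hb) :=
      fun s hs h1 => ⟨1, Subgroup.one_mem _, s, ⟨s, ⟨hs, h1⟩, 1, Subgroup.one_mem _,
        (mul_one s).symm⟩, (one_mul s).symm⟩
    have hFO : FO U (pr (stb T X) (pr (stb T (X.image g)) (stb T F)
        (fun a ha b hb => hB.nm a ha.1 b hb)) (fun a ha b hb => hB2.nm a ha.1 b hb)) := by
      generalize pr (stb T X) (pr (stb T (X.image g)) (stb T F)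
        (fun a ha b hb => hB.nm a ha.1 b hb)) (fun a ha b hb => hB2.nm a ha.1 b hb) = N
        at hXN hgN hB3
      by_contra hinf
      obtain ⟨γ₁, hγ₁, hev⟩ := hX X hXA
      have hg1 : γ₁ * g⁻¹ ∈ U := U.mul_mem hγ₁ (U.inv_mem hg)
      have h1 := hap (cj (γ₁ * g⁻¹) N) (cj γ₁ N) (h.ON_cj hB3 (hUG hg1)) (h.ON_cj hB3 (hUG hγ₁))
        (by rwa [FO_cj hg1]) (by rwa [FO_cj hγ₁])
      obtain ⟨k, ⟨γ, hγ, hk⟩, hne⟩ := (hev.and h1).exists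
      apply hne
      have e1 : cj γ N = cj γ₁ N := by
        have e2 : cj (γ₁⁻¹ * γ) N = N := h.cj_eq hB3.le hXi hXN
          (G.mul_mem (G.inv_mem (hUG hγ₁)) (hUG hγ)) (fun x hx => by
            rw [Perm.mul_apply, Perm.inv_eq_iff_eq, (hk x hx).1])
        conv_rhs => rw [← e2]
        rw [← cj_mul, mul_inv_cancel_left]
      have e3 : cj (u k * (γ₁ * g⁻¹)) N = cj γ N := by
        have e2 : cj (γ⁻¹ * (u k * (γ₁ * g⁻¹))) N = N := h.cj_eq hB3.le hgi hgN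
          (G.mul_mem (G.inv_mem (hUG hγ)) (G.mul_mem (hUG (hu k)) (hUG hg1))) (fun x hx => by
            obtain ⟨y, hy, rfl⟩ := Finset.mem_image.1 hx
            rw [Perm.mul_apply, Perm.inv_eq_iff_eq, Perm.mul_apply, Perm.mul_apply, ia,
              (hk y hy).2])
        conv_rhs => rw [← e2]
        rw [← cj_mul, mul_inv_cancel_left]
      rw [← cj_mul, e3, e1]
    obtain ⟨a, ha, b', ⟨b, hb, c, hc, rfl⟩, e⟩ := h.mem_of_TU hUG hB3 hFO htU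
    refine ⟨a, ha, b, hb, fun x hx => ?_⟩
    rw [e, Perm.mul_apply, Perm.mul_apply, hc.2 x hx]
  have hXn : ∀ n : ℕ, ∀ t ∈ T, ∀ x ∈ (h.tc (Finset.range n)).filter (fun x => ∀ t ∈ T, t x ∈ A),
      t x ∈ (h.tc (Finset.range n)).filter (fun x => ∀ t ∈ T, t x ∈ A) := by
    intro n t ht x hx
    rw [Finset.mem_filter] at hx ⊢
    exact ⟨h.inv_tc _ t ht x hx.1, fun s hs => hx.2 (s * t) (T.mul_mem hs ht)⟩
  choose a ha b hb hab using fun n : ℕ => key _ (h.tc (Finset.range n)) (hXn n)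
    (h.inv_tc (Finset.range n)) (fun x hx => (Finset.mem_filter.1 hx).2 1 T.one_mem)
  obtain ⟨p, hp, hpa⟩ := h.exists_lim a fun n => (ha n).1
  obtain ⟨q, hq, hqb⟩ := h.exists_lim b fun n => (hb n).1
  have hmem : ∀ x, (∀ t ∈ T, t x ∈ A) → ∀ n, x + 1 ≤ n →
      x ∈ (h.tc (Finset.range n)).filter (fun x => ∀ t ∈ T, t x ∈ A) := by
    intro x hx n hn
    exact Finset.mem_filter.2 ⟨h.sub_tc (Finset.mem_range.2 hn), hx⟩
  have hpfix : ∀ x, (∀ t ∈ T, t x ∈ A) → p x = x := by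
    intro x hx
    obtain ⟨n, h1, h2⟩ := ((hpa x).and (UU_ge (x + 1))).exists
    rw [← h1]
    exact (ha n).2 x (hmem x hx n h2)
  have hqfix : ∀ x, (∀ t ∈ T, t x ∈ A) → (g⁻¹ * q * g) x = x := by
    intro x hx
    obtain ⟨n, h1, h2⟩ := ((hqb (g x)).and (UU_ge (x + 1))).exists
    rw [Perm.mul_apply, Perm.mul_apply, ← h1, (hb n).2 _ (Finset.mem_image_of_mem _
      (hmem x hx n h2)), ia]
  have htpq : (t : Perm ℕ) = p * q := by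
    refine Equiv.ext fun x => ?_
    obtain ⟨n, ⟨h1, h2⟩, h3⟩ := (((hpa (q x)).and (hqb x)).and (UU_ge (x + 1))).exists
    rw [hab n x (h.sub_tc (Finset.mem_range.2 h3)), h2, h1, Perm.mul_apply]
  have c1 : ∀ z ∈ Z, ψ ⟨p, h.le hp⟩ z = z := h.absorb ψ (σ := ⟨σ, hUG hσ⟩) hA hZT
    (hZU ⟨σ, hUG hσ⟩ hσ) hp hpfix
  have hq' : g⁻¹ * q * g ∈ T := h.nm' hgG hq
  have c2 : ∀ z ∈ Z, ψ ⟨g⁻¹ * q * g, h.le hq'⟩ z = z := h.absorb ψ (σ := ⟨σ, hUG hσ⟩) hA hZT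
    (hZU ⟨σ, hUG hσ⟩ hσ) hq' hqfix
  have e1 : t = ⟨p, h.le hp⟩ * (⟨g, hgG⟩ * ⟨g⁻¹ * q * g, h.le hq'⟩ * ⟨g, hgG⟩⁻¹) := by
    refine Subtype.ext ?_
    change (t : Perm ℕ) = p * (g * (g⁻¹ * q * g) * g⁻¹)
    rw [htpq]
    group
  intro z hz
  rw [e1, map_mul, map_mul, map_mul, Perm.mul_apply, Perm.mul_apply, Perm.mul_apply,
    c2 _ (hZU ⟨g, hgG⟩⁻¹ (U.inv_mem hg) z hz), map_inv, ai, c1 z hz]

/-- the residual acts trivially modulo the invariant open normal subgroups -/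
theorem Res_TU (h : TN G T) {U : Subgroup (Perm ℕ)} (hUG : U ≤ G) {u t : Perm ℕ}
    (hu : u ∈ Res U) (ht : t ∈ T) : TU T U (t⁻¹ * (u⁻¹ * t * u)) := by
  intro N hN hNU
  have hNU' : ∀ b ∈ U, ∀ n ∈ N, b⁻¹ * n * b ∈ N := by
    intro b hb n hn
    have := hNU b⁻¹ (U.inv_mem hb) n hn
    rwa [inv_inv] at this
  let V : Subgroup (Perm ℕ) :=
    { carrier := {v | v ∈ U ∧ ∀ s ∈ T, s⁻¹ * (v⁻¹ * s * v) ∈ N}
      one_mem' := ⟨U.one_mem, fun s hs => by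
        have : s⁻¹ * ((1 : Perm ℕ)⁻¹ * s * 1) = 1 := by group
        rw [this]
        exact N.one_mem⟩
      mul_mem' := by
        rintro a b ⟨ha, ha'⟩ ⟨hb, hb'⟩
        refine ⟨U.mul_mem ha hb, fun s hs => ?_⟩
        have := N.mul_mem (hb' s hs) (hNU' b hb _ (ha' s hs))
        have e : s⁻¹ * (b⁻¹ * s * b) * (b⁻¹ * (s⁻¹ * (a⁻¹ * s * a)) * b) =
          s⁻¹ * ((a * b)⁻¹ * s * (a * b)) := by group
        rwa [e] at this
      inv_mem' := by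
        rintro a ⟨ha, ha'⟩
        refine ⟨U.inv_mem ha, fun s hs => ?_⟩
        have := N.inv_mem (ha' _ (h.nm a (hUG ha) s hs))
        have e : ((a * s * a⁻¹)⁻¹ * (a⁻¹ * (a * s * a⁻¹) * a))⁻¹ = s⁻¹ * (a⁻¹⁻¹ * s * a⁻¹) := by
          group
        rwa [e] at this }
  have hV : ON U V := by
    obtain ⟨X, hX1, hX2⟩ := h.exists_X hN
    refine ⟨⟨fun v hv => hv.1, X, fun v hv h1 => ⟨hv, fun s hs => ?_⟩⟩,
      fun w hw v hv => ⟨U.mul_mem (U.mul_mem hw hv.1) (U.inv_mem hw), fun s hs => ?_⟩⟩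
    · refine hX2 _ (T.mul_mem (T.inv_mem hs) (h.nm' (hUG hv) hs)) fun x hx => ?_
      have h2 : v⁻¹ (s x) = s x := by
        rw [Perm.inv_eq_iff_eq]
        exact (h1 _ (hX1 s hs x hx)).symm
      rw [Perm.mul_apply, Perm.mul_apply, Perm.mul_apply, h1 x hx, h2, ia]
    · have := hNU w hw _ (hv.2 _ (h.nm' (hUG hw) hs))
      have e : w * ((w⁻¹ * s * w)⁻¹ * (v⁻¹ * (w⁻¹ * s * w) * v)) * w⁻¹ =
        s⁻¹ * ((w * v * w⁻¹)⁻¹ * s * (w * v * w⁻¹)) := by group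
      rwa [e] at this
  exact (mem_Res.1 hu V hV).2 t ht

end TN

/-- limits along a sequence -/
theorem exists_limP_seq {φ : G →* D} (hφ : LocFin φ) {n : ℕ → ℕ} (g : ℕ → G)
    (hgn : ∀ k, ∀ x < k, (g k : Perm ℕ) x = n x) :
    ∃ μ, LimP φ n μ ∧ ∀ y, ∀ᶠ k in (UU : Filter ℕ), (φ (g k) : Perm ℕ) y = μ y := by
  classical
  choose EE ZZ hZ using hφ
  have hval : ∀ y, ∃ z, ∀ᶠ k in (UU : Filter ℕ), (φ (g k) : Perm ℕ) y = z := by
    intro y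
    let K : ℕ := (EE y).sup id + 1
    refine UU_const (Z := (ZZ y).image (φ (g K) : Perm ℕ)) ?_
    filter_upwards [UU_ge K] with k hk
    have h2 : (φ ((g K)⁻¹ * g k) : Perm ℕ) y ∈ ZZ y := by
      refine hZ y _ (fun x hx => ?_)
      change (g K : Perm ℕ)⁻¹ ((g k : Perm ℕ) x) = x
      have hx1 : x < K := Nat.lt_succ_of_le (Finset.le_sup (f := id) hx)
      rw [hgn k x (hx1.trans_le hk), ← hgn K x hx1]
      exact ia _ _
    rw [Finset.mem_image]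
    refine ⟨_, h2, ?_⟩
    rw [map_mul, map_inv]
    change (φ (g K) : Perm ℕ) ((φ (g K) : Perm ℕ)⁻¹ ((φ (g k) : Perm ℕ) y)) = _
    exact ai _ _
  choose μ hμ using hval
  refine ⟨μ, fun E Y => ?_, hμ⟩
  obtain ⟨k, h1, h2⟩ := (((Filter.eventually_all_finset Y).2 fun y _ => hμ y).and
    (UU_ge (E.sup id + 1))).exists
  exact ⟨g k, fun x hx => hgn k x
    ((Nat.lt_succ_of_le (Finset.le_sup (f := id) hx)).trans_le h2), h1⟩

/-- the kernel group -/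
def KT (φ : G ≃* D) : Subgroup (Perm ℕ) where
  carrier := {t | t ∈ G ∧ LimP φ.toMonoidHom t id}
  one_mem' := ⟨G.one_mem, by
    intro E Y
    exact ⟨1, fun _ _ => rfl, fun y _ => by rw [map_one]; rfl⟩⟩
  mul_mem' := by
    rintro a b ⟨ha, ha'⟩ ⟨hb, hb'⟩
    exact ⟨G.mul_mem ha hb, ha'.mul hb'⟩
  inv_mem' := by
    classical
    rintro a ⟨ha, ha'⟩
    refine ⟨G.inv_mem ha, fun A B => ?_⟩
    obtain ⟨w, hw1, hw2⟩ := ha' (A.image ⇑a⁻¹) B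
    refine ⟨w⁻¹, fun x hx => ?_, fun z hz => ?_⟩
    · change (w : Perm ℕ)⁻¹ x = a⁻¹ x
      rw [Perm.inv_eq_iff_eq, hw1 _ (Finset.mem_image_of_mem _ hx)]
      exact (ai _ _).symm
    · rw [map_inv]
      change (φ.toMonoidHom w : Perm ℕ)⁻¹ z = z
      rw [Perm.inv_eq_iff_eq]
      exact (hw2 z hz).symm

theorem TN_KT (hGc : ClosedG G) (φ : G ≃* D) (h2 : LocFin φ.symm.toMonoidHom) : TN G (KT φ) := by
  refine TN.of_closed (fun t ht => ht.1) ?_ ?_ ?_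
  · rintro g hg t ⟨ht, ht'⟩
    refine ⟨G.mul_mem (G.mul_mem hg ht) (G.inv_mem hg), ?_⟩
    have := LimP.conj (φ := φ.toMonoidHom) (⟨g, hg⟩⁻¹ : G) ⟨t, ht⟩ ht'
    rwa [inv_inv] at this
  · intro x
    obtain ⟨E, Z, hZ⟩ := h2 x
    refine ⟨Z, ?_⟩
    rintro t ⟨ht, ht'⟩
    obtain ⟨g, hg1, hg2⟩ := ht' {x} E
    have := hZ (φ g) hg2
    have e : φ.symm.toMonoidHom (φ g) = g := φ.symm_apply_apply g
    rw [e, hg1 x (by simp)] at this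
    exact this
  · intro g hg
    refine ⟨hGc g (hg.mono (show KT φ ≤ G from fun t ht => ht.1)), ?_⟩
    refine LimP.congr_cl fun E => ?_
    obtain ⟨t, ht, h3⟩ := hg E
    exact ⟨⇑t, h3, ht.2⟩

theorem exists_kc1 (hGc : ClosedG G) (hG : Oligo G) (φ : G ≃* D) (h1 : LocFin φ.toMonoidHom)
    (h2 : LocFin φ.symm.toMonoidHom) {n : ℕ → ℕ} (hn : Cl G n) (Y : Finset ℕ) :
    ∃ μ, LimP φ.toMonoidHom n μ ∧ ∀ t t' : G, LimP φ.toMonoidHom (t : Perm ℕ) id →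
      LimP φ.toMonoidHom (t' : Perm ℕ) id → ⇑(t : Perm ℕ) ∘ n = n ∘ ⇑(t' : Perm ℕ) →
      ∀ y ∈ Y, (φ t : Perm ℕ) (μ y) = μ ((φ t' : Perm ℕ) y) := by
  classical
  have hT := TN_KT hGc φ h2
  choose EE ZZ hZZ using h1
  have h1 : LocFin φ.toMonoidHom := fun y => ⟨EE y, ZZ y, hZZ y⟩
  let Y' : Finset ℕ := Y.biUnion fun y => (limS_finite h1 y).toFinset
  have hY' : ∀ z, z ∈ Y' ↔ ∃ y ∈ Y, ∃ s : D, LimP φ.toMonoidHom id (s : Perm ℕ) ∧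
      (s : Perm ℕ) y = z := by
    intro z
    rw [Finset.mem_biUnion]
    refine exists_congr fun y => and_congr_right fun _ => ?_
    rw [Set.Finite.mem_toFinset]
    rfl
  have hYY : ∀ y ∈ Y, y ∈ Y' := fun y hy => (hY' y).2 ⟨y, hy, 1, limS_one _, rfl⟩
  let E : Finset ℕ := Y'.biUnion EE
  let U : Subgroup (Perm ℕ) := stb G E
  have hUo : OpenIn G U := stb_open G E
  have hZf : {z | ∃ u : G, (u : Perm ℕ) ∈ U ∧ ∃ y ∈ Y', (φ u : Perm ℕ) y = z}.Finite := by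
    refine (Y'.biUnion ZZ).finite_toSet.subset ?_
    rintro _ ⟨u, hu, y, hy, rfl⟩
    exact Finset.mem_coe.2 (Finset.mem_biUnion.2 ⟨y, hy, hZZ y u fun x hx =>
      hu.2 x (Finset.mem_biUnion.2 ⟨y, hy, hx⟩)⟩)
  let Z : Finset ℕ := hZf.toFinset
  have hZ : ∀ z, z ∈ Z ↔ ∃ u : G, (u : Perm ℕ) ∈ U ∧ ∃ y ∈ Y', (φ u : Perm ℕ) y = z := by
    intro z
    rw [Set.Finite.mem_toFinset]
    rfl
  have hYZ : ∀ y ∈ Y, y ∈ Z := fun y hy => (hZ y).2 ⟨1, U.one_mem, y, hYY y hy, by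
    rw [map_one]; rfl⟩
  let ψ : G →* Perm ℕ := D.subtype.comp φ.toMonoidHom
  have hψ : ∀ g : G, ψ g = (φ g : Perm ℕ) := fun g => rfl
  have hZU : ∀ u : G, (u : Perm ℕ) ∈ U → ∀ z ∈ Z, ψ u z ∈ Z := by
    intro u hu z hz
    obtain ⟨u', hu', y, hy, rfl⟩ := (hZ z).1 hz
    refine (hZ _).2 ⟨u * u', U.mul_mem hu hu', y, hy, ?_⟩
    rw [map_mul]
    rfl
  have hZT : ∀ t : G, (t : Perm ℕ) ∈ KT φ → ∀ z ∈ Z, ψ t z ∈ Z := by
    intro t ht z hz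
    obtain ⟨u, hu, y, hy, rfl⟩ := (hZ z).1 hz
    have h3 : LimP φ.toMonoidHom id (φ (u⁻¹ * t * u) : Perm ℕ) := limP_kernel' (LimP.conj u t ht.2)
    obtain ⟨y0, hy0, s, hs, rfl⟩ := (hY' y).1 hy
    refine (hZ _).2 ⟨u, hu, (φ (u⁻¹ * t * u) : Perm ℕ) ((s : Perm ℕ) y0), ?_, ?_⟩
    · exact (hY' _).2 ⟨y0, hy0, φ (u⁻¹ * t * u) * s, limS_mul h3 hs, rfl⟩
    · rw [map_mul, map_mul, map_inv]
      change (φ u : Perm ℕ) ((φ u : Perm ℕ)⁻¹ ((φ t : Perm ℕ) ((φ u : Perm ℕ) _))) = _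
      rw [ai]
      rfl
  obtain ⟨σ, hσ, hn'⟩ := exists_decomp_open hGc hG hUo hn
  set n' : ℕ → ℕ := ⇑σ⁻¹ ∘ n with hn'd
  choose v hv hvn using fun k : ℕ => hn' (Finset.range k)
  have hvU : ∀ k, v k ∈ U := fun k => Res_le U (hv k)
  let vG : ℕ → G := fun k => ⟨v k, (hvU k).1⟩
  obtain ⟨μ', hμ', hμk⟩ := exists_limP_seq h1 vG (fun k x hx => hvn k x (Finset.mem_range.2 hx))
  have hnn : ⇑σ ∘ n' = n := by
    funext x
    rw [hn'd]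
    simp only [Function.comp_apply]
    exact ai _ _
  refine ⟨⇑(φ ⟨σ, hσ⟩ : Perm ℕ) ∘ μ', ?_, fun t t' ht ht' htt y hy => ?_⟩
  · have := (LimP.of φ.toMonoidHom ⟨σ, hσ⟩).mul hμ'
    have e : ⇑((⟨σ, hσ⟩ : G) : Perm ℕ) ∘ n' = n := hnn
    rw [e] at this
    exact this
  · let t₁ : G := ⟨σ, hσ⟩⁻¹ * t * ⟨σ, hσ⟩
    have ht₁ : (t₁ : Perm ℕ) ∈ KT φ := ⟨t₁.2, LimP.conj ⟨σ, hσ⟩ t ht⟩
    have ht'T : (t' : Perm ℕ) ∈ KT φ := ⟨t'.2, ht'⟩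
    have htn : ∀ x, (t₁ : Perm ℕ) (n' x) = n' ((t' : Perm ℕ) x) := by
      intro x
      have e := congrFun htt x
      simp only [Function.comp_apply] at e
      change σ⁻¹ ((t : Perm ℕ) (σ (σ⁻¹ (n x)))) = σ⁻¹ (n ((t' : Perm ℕ) x))
      rw [ai, e]
    have hTU1 : TU (KT φ) U ((t' : Perm ℕ)⁻¹ * (t₁ : Perm ℕ)) := by
      intro N hN hNU
      obtain ⟨X, hX1, hX2⟩ := hT.exists_X hN
      let j : ℕ := X.sup id + 1
      have hj : ∀ x ∈ X, v j x = n' x := fun x hx => hvn j x (Finset.mem_range.2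
        (Nat.lt_succ_of_le (Finset.le_sup (f := id) hx)))
      have hc := hT.nm' (hvU j).1 ht₁
      have m1 : (t' : Perm ℕ)⁻¹ * ((v j)⁻¹ * (t₁ : Perm ℕ) * v j) ∈ N := by
        refine hX2 _ ((KT φ).mul_mem ((KT φ).inv_mem ht'T) hc) fun x hx => ?_
        rw [Perm.mul_apply, Perm.inv_eq_iff_eq, Perm.mul_apply, Perm.mul_apply, Perm.inv_eq_iff_eq,
          hj x hx, htn, hj _ (hX1 _ ht'T x hx)]
      have m2 := hT.Res_TU (U := U) hUo.le (hv j) ht₁ N hN hNU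
      have := N.mul_mem m1 (N.inv_mem m2)
      have e : (t' : Perm ℕ)⁻¹ * ((v j)⁻¹ * (t₁ : Perm ℕ) * v j) *
          ((t₁ : Perm ℕ)⁻¹ * ((v j)⁻¹ * (t₁ : Perm ℕ) * v j))⁻¹ =
          (t' : Perm ℕ)⁻¹ * (t₁ : Perm ℕ) := by group
      rwa [e] at this
    obtain ⟨k, hk1, hk2⟩ := ((hμk y).and (hμk ((φ t' : Perm ℕ) y))).exists
    have hTU2 : TU (KT φ) U ((t'⁻¹ * ((vG k)⁻¹ * t₁ * vG k) : G) : Perm ℕ) := by
      intro N hN hNU
      have m1 := hTU1 N hN hNU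
      have m2 := hT.Res_TU (U := U) hUo.le (hv k) ht₁ N hN hNU
      have := N.mul_mem m1 m2
      have e : (t' : Perm ℕ)⁻¹ * (t₁ : Perm ℕ) *
          ((t₁ : Perm ℕ)⁻¹ * ((v k)⁻¹ * (t₁ : Perm ℕ) * v k)) =
          (t' : Perm ℕ)⁻¹ * ((v k)⁻¹ * (t₁ : Perm ℕ) * v k) := by group
      rwa [e] at this
    have hmem : ((t'⁻¹ * ((vG k)⁻¹ * t₁ * vG k) : G) : Perm ℕ) ∈ KT φ :=
      (KT φ).mul_mem ((KT φ).inv_mem ht'T) (hT.nm' (hvU k).1 ht₁)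
    have h4 := hT.fix_of_TU ψ hUo.le (hUo.closedG hGc) (hUo.oligo hG) hZT hZU hmem hTU2 y
      (hYZ y hy)
    rw [hψ, map_mul, map_mul, map_mul, map_inv, map_inv] at h4
    change (φ t' : Perm ℕ)⁻¹ ((φ (vG k) : Perm ℕ)⁻¹ ((φ t₁ : Perm ℕ) ((φ (vG k) : Perm ℕ) y))) =
      y at h4
    have hk1' : (φ (vG k) : Perm ℕ) y = μ' y := hk1
    have hk2' : (φ (vG k) : Perm ℕ) ((φ t' : Perm ℕ) y) = μ' ((φ t' : Perm ℕ) y) := hk2
    rw [Perm.inv_eq_iff_eq, Perm.inv_eq_iff_eq, hk1', hk2'] at h4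
    change (φ t : Perm ℕ) ((φ ⟨σ, hσ⟩ : Perm ℕ) (μ' y)) =
      (φ ⟨σ, hσ⟩ : Perm ℕ) (μ' ((φ t' : Perm ℕ) y))
    rw [← h4]
    have e : φ t₁ = (φ ⟨σ, hσ⟩)⁻¹ * φ t * φ ⟨σ, hσ⟩ := by
      rw [← map_inv, ← map_mul, ← map_mul]
    rw [e]
    change _ = (φ ⟨σ, hσ⟩ : Perm ℕ) ((φ ⟨σ, hσ⟩ : Perm ℕ)⁻¹ ((φ t : Perm ℕ)
      ((φ ⟨σ, hσ⟩ : Perm ℕ) (μ' y))))
    rw [ai]

/-- compatibility with the kernel -/
def KC (φ : G →* D) : Prop := ∀ n, Cl G n → ∃ μ, LimP φ n μ ∧ ∀ t t' : G,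
  LimP φ (t : Perm ℕ) id → LimP φ (t' : Perm ℕ) id → ⇑(t : Perm ℕ) ∘ n = n ∘ ⇑(t' : Perm ℕ) →
    ⇑(φ t : Perm ℕ) ∘ μ = μ ∘ ⇑(φ t' : Perm ℕ)

theorem kc_of_locFin (hGc : ClosedG G) (hG : Oligo G) (hDc : ClosedG D) (φ : G ≃* D)
    (h1 : LocFin φ.toMonoidHom) (h2 : LocFin φ.symm.toMonoidHom) : KC φ.toMonoidHom := by
  classical
  intro n hn
  choose μ hμ hμ' using fun k : ℕ => exists_kc1 hGc hG φ h1 h2 hn (Finset.range k)
  have hval : ∀ y, ∃ z, ∀ᶠ k in (UU : Filter ℕ), μ k y = z := by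
    intro y
    refine UU_const (Z := (limS_finite h1 y).toFinset.image (μ 0)) (Eventually.of_forall fun k => ?_)
    obtain ⟨s, hs, hs'⟩ := (hμ 0).fibre h1 hDc (hμ k)
    rw [hs]
    exact Finset.mem_image_of_mem _ ((Set.Finite.mem_toFinset _).2 ⟨s, hs', rfl⟩)
  choose ν hν using hval
  refine ⟨ν, fun E Y => ?_, fun t t' ht ht' htt => funext fun y => ?_⟩
  · obtain ⟨k, hk⟩ := ((Filter.eventually_all_finset Y).2 fun y _ => hν y).exists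
    obtain ⟨g, hg1, hg2⟩ := hμ k E Y
    exact ⟨g, hg1, fun y hy => (hg2 y hy).trans (hk y hy)⟩
  · obtain ⟨k, ⟨hk1, hk2⟩, hk3⟩ := (((hν y).and (hν ((φ t' : Perm ℕ) y))).and
      (UU_ge (y + 1))).exists
    have := hμ' k t t' ht ht' htt y (Finset.mem_range.2 hk3)
    rw [hk1, hk2] at this
    exact this

end Pool.Agent.Olig
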