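import Pool.Agent.Olig.LoA
import Pool.Agent.Olig.IterC

/-!
# Independent blocks in the iterated ultrapower along a linear order
-/

open Equiv Filter

namespace Pool.Agent.Olig.LO

variable {I : Type} [LinearOrder I]

theorem exists_model2 (I : Type) [LinearOrder I] {G : Subgroup (Perm ℕ)} (hc : ClosedG G) (hG : Oligo G)
    (HH : Subgroup (Perm (Am I))) (hHHc : (HH : Set (Perm (Am I))).Countable) (hHH : ∀ π ∈ HH, Elem G π) :
    ∃ (C : Set (Am I)) (e : C ≃ ℕ) (ht : Perm (Am I) → Perm ℕ), (∀ n, (cs n : Am I) ∈ C) ∧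
      (∀ π ∈ HH, ht π ∈ G) ∧
      (∀ π ∈ HH, ∀ x : C, ∃ h, ht π (e x) = e ⟨π x, h⟩) ∧
      ∀ F : Finset C, ∃ γ : FSP I, (∀ w, γ.1 w ∈ G) ∧ ∀ x ∈ F, (x : Am I) = ac γ (cs (e x)) := by
  classical
  choose Θ hΘG tt htt using exists_ac (I := I) hG
  obtain ⟨C, hCc, hC0, hCΘ⟩ := exists_closed_set (A := Am I) (Set.range cs) (Set.countable_range _)
    (fun F => (⋃ x ∈ F, (fun π : Perm (Am I) => π x) '' (HH : Set (Perm (Am I)))) ∪
      Set.range (fun m => ac (Θ F) (cs m)))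
    (fun F => (F.countable_toSet.biUnion fun x _ => hHHc.image _).union (Set.countable_range _))
  have hcstm : ∀ n, cs n ∈ C := fun n => hC0 ⟨n, rfl⟩
  have hCact : ∀ π ∈ HH, ∀ x ∈ C, π x ∈ C := by
    intro π hπ x hx
    refine hCΘ {x} (by simpa using hx) (Or.inl ?_)
    exact Set.mem_iUnion₂.2 ⟨x, by simp, ⟨π, hπ, rfl⟩⟩
  have hCrep : ∀ F : Finset (Am I), (F : Set (Am I)) ⊆ C → ∀ m, ac (Θ F) (cs m) ∈ C := by
    intro F hF m
    exact hCΘ F hF (Or.inr ⟨m, rfl⟩)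
  have : Countable C := hCc.to_subtype
  have : Nonempty C := ⟨⟨cs 0, hcstm 0⟩⟩
  let Q : List (C × ℕ) → Prop := fun l => ∃ γ : FSP I, (∀ w, γ.1 w ∈ G) ∧
    ∀ p ∈ l, (p.1 : Am I) = ac γ (cs p.2)
  -- comparison of two representations
  have hcmp : ∀ (l : List (C × ℕ)) (γ γ' : FSP I) (t' : Am I → ℕ), (∀ w, γ.1 w ∈ G) →
      (∀ w, γ'.1 w ∈ G) → (∀ p ∈ l, (p.1 : Am I) = ac γ (cs p.2)) →
      (∀ p ∈ l, (p.1 : Am I) = ac γ' (cs (t' p.1))) →
      ∃ δ ∈ G, ∀ p ∈ l, p.2 = δ (t' p.1) := by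
    intro l γ γ' t' hγ hγ' h1 h2
    obtain ⟨δ, hδ, h3⟩ := cmp_rep hγ hγ' l.toFinset (fun p => p.2) (fun p => t' p.1) (by
      intro p hp
      rw [← h1 p (List.mem_toFinset.1 hp)]
      exact h2 p (List.mem_toFinset.1 hp))
    exact ⟨δ, hδ, fun p hp => h3 p (List.mem_toFinset.2 hp)⟩
  have hshift : ∀ (γ' : FSP I) (δ : Perm ℕ) (n : ℕ),
      ac (mv γ' (kv δ⁻¹)) (cs n) = ac γ' (cs (δ⁻¹ n)) := fun γ' δ n => by rw [ac_mv, ac_kv]
  obtain ⟨e, he⟩ := back_and_forth Q ⟨kv 1, fun _ => G.one_mem, by simp⟩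
    (by
      rintro l ⟨γ, hγ, hl⟩ x
      let F : Finset (Am I) := insert x.1 (l.map (fun p => (p.1 : Am I))).toFinset
      have hF := htt F
      obtain ⟨δ, hδ, hδl⟩ := hcmp l γ (Θ F) (tt F) hγ (hΘG F) hl (fun p hp =>
        hF _ (Finset.mem_insert_of_mem (List.mem_toFinset.2 (List.mem_map.2 ⟨p, hp, rfl⟩))))
      refine ⟨δ (tt F x.1), mv (Θ F) (kv δ⁻¹), fun w => G.mul_mem (hΘG F w) (G.inv_mem hδ), ?_⟩
      intro p hp
      rcases List.mem_cons.1 hp with rfl | hp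
      · rw [hshift]
        simp only
        rw [ia]
        exact hF _ (Finset.mem_insert_self _ _)
      · rw [hshift, hδl p hp, ia]
        exact hF _ (Finset.mem_insert_of_mem (List.mem_toFinset.2 (List.mem_map.2 ⟨p, hp, rfl⟩))))
    (by
      rintro l ⟨γ, hγ, hl⟩ n
      let F : Finset (Am I) := (l.map (fun p => (p.1 : Am I))).toFinset
      have hF := htt F
      have hFC : (F : Set (Am I)) ⊆ C := by
        intro x hx
        obtain ⟨p, _, rfl⟩ := List.mem_map.1 (List.mem_toFinset.1 (Finset.mem_coe.1 hx))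
        exact p.1.2
      obtain ⟨δ, hδ, hδl⟩ := hcmp l γ (Θ F) (tt F) hγ (hΘG F) hl (fun p hp =>
        hF _ (List.mem_toFinset.2 (List.mem_map.2 ⟨p, hp, rfl⟩)))
      refine ⟨⟨ac (Θ F) (cs (δ⁻¹ n)), hCrep F hFC _⟩, mv (Θ F) (kv δ⁻¹),
        fun w => G.mul_mem (hΘG F w) (G.inv_mem hδ), ?_⟩
      intro p hp
      rcases List.mem_cons.1 hp with rfl | hp
      · rw [hshift]
      · rw [hshift, hδl p hp, ia]
        exact hF _ (List.mem_toFinset.2 (List.mem_map.2 ⟨p, hp, rfl⟩)))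
    (by
      rintro l ⟨γ, hγ, hl⟩ p hp q hq
      constructor
      · intro h
        have h1 := (hl p hp).symm.trans ((congrArg Subtype.val h).trans (hl q hq))
        exact cs_inj ((ac γ).injective h1)
      · intro h
        exact Subtype.ext (by rw [hl p hp, hl q hq, h]))
  -- approximation property of `e`
  have happ : ∀ F : Finset C, ∃ γ : FSP I, (∀ w, γ.1 w ∈ G) ∧
      ∀ x ∈ F, (x : Am I) = ac γ (cs (e x)) := by
    intro F
    obtain ⟨l, ⟨γ, hγ, hl⟩, h⟩ := he F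
    exact ⟨γ, hγ, fun x hx => hl _ (h x hx)⟩
  let eq' : ∀ π ∈ HH, C ≃ C := fun π hπ =>
    ⟨fun x => ⟨π x, hCact π hπ x x.2⟩, fun x => ⟨π⁻¹ x, hCact _ (HH.inv_mem hπ) x x.2⟩,
      fun x => Subtype.ext (by simp), fun x => Subtype.ext (by simp)⟩
  let ht : Perm (Am I) → Perm ℕ := fun π => if hπ : π ∈ HH then (e.symm.trans (eq' π hπ)).trans e else 1
  have hht : ∀ π (hπ : π ∈ HH) (x : C), ht π (e x) = e (eq' π hπ x) := by
    intro π hπ x
    simp only [ht, dif_pos hπ, Equiv.trans_apply, Equiv.symm_apply_apply]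
  have hhtG : ∀ π ∈ HH, ht π ∈ G := by
    intro π hπ
    refine hc _ (fun F => ?_)
    let X : Finset C := F.image e.symm
    obtain ⟨γ, hγ, hl⟩ := happ (X ∪ X.image (eq' π hπ))
    obtain ⟨δ, δ', hδ, hδ', t, ht'⟩ := hHH π hπ (X.image Subtype.val)
    obtain ⟨ε, hε, h1⟩ := cmp_rep hγ hδ X (fun x => e x) (fun x => t x) (by
      intro x hx
      rw [← hl x (Finset.mem_union_left _ hx)]
      exact (ht' x (Finset.mem_image_of_mem _ hx)).1)
    obtain ⟨ε', hε', h2⟩ := cmp_rep hγ hδ' X (fun x => e (eq' π hπ x)) (fun x => t x) (by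
      intro x hx
      rw [← hl _ (Finset.mem_union_right _ (Finset.mem_image_of_mem _ hx))]
      exact (ht' x (Finset.mem_image_of_mem _ hx)).2)
    refine ⟨ε' * ε⁻¹, G.mul_mem hε' (G.inv_mem hε), fun n hn => ?_⟩
    have hx : e.symm n ∈ X := Finset.mem_image_of_mem _ hn
    have h3 := h1 _ hx
    have h4 := h2 _ hx
    rw [e.apply_symm_apply] at h3
    have h5 := hht π hπ (e.symm n)
    rw [e.apply_symm_apply] at h5
    rw [h5, h4, Perm.mul_apply]
    congr 1
    rw [Perm.inv_eq_iff_eq]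
    exact h3
  exact ⟨C, e, ht, hcstm, hhtG, fun π hπ x => ⟨hCact π hπ x x.2, hht π hπ x⟩, happ⟩

/-- the finite products of the `c i` with `ε i = true` -/
def tt (c : ℕ → Perm ℕ) (ε : ℕ → Bool) : ℕ → Perm ℕ
  | 0 => 1
  | n + 1 => (if ε n then c n else 1) * tt c ε n

theorem tt_zero (c : ℕ → Perm ℕ) (ε : ℕ → Bool) : tt c ε 0 = 1 := rfl

theorem tt_succ (c : ℕ → Perm ℕ) (ε : ℕ → Bool) (n : ℕ) :
    tt c ε (n + 1) = (if ε n then c n else 1) * tt c ε n := rfl

theorem exists_blocks (I : Type) [LinearOrder I] {G T : Subgroup (Perm ℕ)} (hc : ClosedG G)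
    (hG : Oligo G) (hTG : T ≤ G) (hTn : ∀ g ∈ G, ∀ t ∈ T, g * t * g⁻¹ ∈ T) (hTc : ClosedG T)
    (τ : ℕ → Perm ℕ) (hτ : ∀ k, τ k ∈ T) (z : ℕ)
    (hz : ∀ x, (∃ t ∈ T, t z = x) → ∀ y, ∀ᶠ k in (UU : Filter ℕ), τ k x ≠ y)
    (a b : ℕ → I) (hab : ∀ i, a i < b i) (hba : ∀ k i, k < i → b k < a i) (α : ℕ → (I ≃o I))
    (hα : ∀ i, α i (a i) = b i) (hα' : ∀ i k, k ≠ i → α i (a k) = a k) :
    ∃ (c g : ℕ → Perm ℕ) (z' : ℕ), (∀ j, c j ∈ T) ∧ (∀ j, g j ∈ G) ∧ (∀ j, g j z' = z') ∧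
      (∀ j k, j ≠ k → g j * c k = c k * g j) ∧
      ∀ (ε : ℕ → Bool) (i : ℕ), g i (c i (tt c ε i z')) ≠ c i (tt c ε i z') := by
  classical
  obtain ⟨H, hHc, hB, -⟩ := exists_countable_subgroup (α := Perm (Am I)) (Ω := ℕ) (fun _ n => n)
    (Set.range (fun j => ac (cj' (a j) τ)) ∪ Set.range (fun j => ix (α j)))
    ((Set.countable_range _).union (Set.countable_range _)) (fun _ => ∅)
    (fun _ => Set.countable_empty)
  let HH : Subgroup (Perm (Am I)) := H ⊓ ElemG hG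
  have hHHc : (HH : Set (Perm (Am I))).Countable := hHc.mono fun π hπ => hπ.1
  have hCm : ∀ j, ac (cj' (a j) τ) ∈ HH := fun j =>
    ⟨hB (Or.inl ⟨j, rfl⟩), elem_ac hG fun w => hTG (hτ _)⟩
  have hAm : ∀ j, ix (α j) ∈ HH := fun j => ⟨hB (Or.inr ⟨j, rfl⟩), elem_ix hG _⟩
  obtain ⟨C, e, ht, hcs, h1, h2, h3⟩ := exists_model2 I hc hG HH hHHc (fun π hπ => hπ.2)
  let c : ℕ → Perm ℕ := fun j => ht (ac (cj' (a j) τ))
  let g : ℕ → Perm ℕ := fun j => ht (ix (α j))
  have hcj : ∀ j (x : C), ∃ h, c j (e x) = e ⟨ac (cj' (a j) τ) x, h⟩ := fun j x => h2 _ (hCm j) x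
  have hgj : ∀ j (x : C), ∃ h, g j (e x) = e ⟨ix (α j) x, h⟩ := fun j x => h2 _ (hAm j) x
  have hcT : ∀ j, c j ∈ T := by
    intro j
    refine hTc _ fun F => ?_
    obtain ⟨γ, hγ, hl⟩ := h3 (F.image e.symm ∪ F.image (fun n => e.symm (c j n)))
    have h4 : ∀ n ∈ F, ∀ᶠ w in DL I, τ (w (a j)) (γ.1 w n) = γ.1 w (c j n) := by
      intro n hn
      have h5 := hl (e.symm n) (Finset.mem_union_left _ (Finset.mem_image_of_mem _ hn))
      have h6 := hl (e.symm (c j n)) (Finset.mem_union_right _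
        (Finset.mem_image_of_mem (fun n => e.symm (c j n)) hn))
      obtain ⟨h7, h8⟩ := hcj j (e.symm n)
      rw [e.apply_symm_apply] at h5 h8
      rw [e.apply_symm_apply] at h6
      have h9 : ((e.symm (c j n) : C) : Am I) = ac (cj' (a j) τ) (e.symm n) := by
        rw [h8, e.symm_apply_apply]
      rw [h9, h5, ac_cs, ac_cs, ac_mk, Am_eq] at h6
      exact h6
    obtain ⟨w, hw⟩ := ((Filter.eventually_all_finset F).2 h4).exists
    refine ⟨(γ.1 w)⁻¹ * τ (w (a j)) * γ.1 w, ?_, fun n hn => ?_⟩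
    · have := hTn (γ.1 w)⁻¹ (G.inv_mem (hγ w)) _ (hτ (w (a j)))
      rwa [inv_inv] at this
    · rw [Perm.mul_apply, Perm.mul_apply, hw n hn, ia]
  have hcomm : ∀ j k, j ≠ k → g j * c k = c k * g j := by
    intro j k hjk
    refine Equiv.ext fun n => ?_
    obtain ⟨x, rfl⟩ := e.surjective n
    obtain ⟨p1, q1⟩ := hcj k x
    obtain ⟨p2, q2⟩ := hgj j ⟨_, p1⟩
    obtain ⟨p3, q3⟩ := hgj j x
    obtain ⟨p4, q4⟩ := hcj k ⟨_, p3⟩
    rw [Perm.mul_apply, Perm.mul_apply, q1, q2, q3, q4]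
    congr 1
    refine Subtype.ext ?_
    change ix (α j) (ac (cj' (a k) τ) x) = ac (cj' (a k) τ) (ix (α j) x)
    generalize (x : Am I) = y
    induction y using Quotient.inductionOn with
    | h f =>
      rw [ac_mk, ix_mk, ix_mk, ac_mk, Am_eq]
      refine Eventually.of_forall fun w => ?_
      change τ (w (α j (a k))) _ = τ (w (a k)) _
      rw [hα' j k (Ne.symm hjk)]
      rfl
  -- finite products in the model
  let tw : (ℕ → Bool) → ℕ → Jx I → Perm ℕ := fun ε n => Nat.rec (fun _ => 1)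
    (fun n p w => (if ε n then τ (w (a n)) else 1) * p w) n
  have htw : ∀ ε n w, tw ε (n + 1) w = (if ε n then τ (w (a n)) else 1) * tw ε n w :=
    fun _ _ _ => rfl
  have htwT : ∀ ε n w, tw ε n w ∈ T := by
    intro ε n w
    induction n with
    | zero => exact T.one_mem
    | succ n ih =>
      rw [htw]
      refine T.mul_mem ?_ ih
      split_ifs
      · exact hτ _
      · exact T.one_mem
  have htwD : ∀ ε n, Dp (tw ε n) ((Finset.range n).image a) := by
    intro ε n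
    induction n with
    | zero => exact Dp.const _ _
    | succ n ih =>
      intro x hx w k
      rw [htw, htw, ih x (fun h' => hx ?_) w k, Function.update_of_ne]
      · rintro rfl
        exact hx (Finset.mem_image_of_mem _ (Finset.mem_range.2 (Nat.lt_succ_self n)))
      · obtain ⟨m, hm, rfl⟩ := Finset.mem_image.1 h'
        exact Finset.mem_image_of_mem _ (Finset.mem_range.2
          ((Finset.mem_range.1 hm).trans (Nat.lt_succ_self n)))
  have hkey : ∀ (ε : ℕ → Bool) (n : ℕ), ∃ (h : ∃ s, Dp (fun w : Jx I => tw ε n w z) s)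
      (h' : (⟦⟨fun w => tw ε n w z, h⟩⟧ : Am I) ∈ C),
      tt c ε n (e ⟨cs z, hcs z⟩) = e ⟨⟦⟨fun w => tw ε n w z, h⟩⟧, h'⟩ := by
    intro ε n
    have hd : ∀ n, ∃ s, Dp (fun w : Jx I => tw ε n w z) s := fun n =>
      ⟨_, (htwD ε n).comp1 fun p => p z⟩
    induction n with
    | zero => exact ⟨hd 0, hcs z, rfl⟩
    | succ n ih =>
      obtain ⟨p1, p2, p3⟩ := ih
      by_cases hε : ε n = true
      · obtain ⟨p4, p5⟩ := hcj n ⟨_, p2⟩
        have e1 : (⟦⟨fun w => tw ε (n + 1) w z, hd (n + 1)⟩⟧ : Am I) =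
            ac (cj' (a n) τ) ⟦⟨fun w => tw ε n w z, p1⟩⟧ := by
          rw [ac_mk, Am_eq]
          refine Eventually.of_forall fun w => ?_
          change tw ε (n + 1) w z = τ (w (a n)) (tw ε n w z)
          rw [htw, if_pos hε, Perm.mul_apply]
        refine ⟨hd (n + 1), by rw [e1]; exact p4, ?_⟩
        rw [tt_succ, if_pos hε, Perm.mul_apply, p3, p5]
        congr 1
        exact Subtype.ext e1.symm
      · have e1 : (⟦⟨fun w => tw ε (n + 1) w z, hd (n + 1)⟩⟧ : Am I) =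
            ⟦⟨fun w => tw ε n w z, p1⟩⟧ := by
          rw [Am_eq]
          refine Eventually.of_forall fun w => ?_
          change tw ε (n + 1) w z = tw ε n w z
          rw [htw, if_neg hε, one_mul]
        refine ⟨hd (n + 1), by rw [e1]; exact p2, ?_⟩
        rw [tt_succ, if_neg hε, one_mul, p3]
        congr 1
        exact Subtype.ext e1.symm
  refine ⟨c, g, e ⟨cs z, hcs z⟩, hcT, fun j => h1 _ (hAm j), fun j => ?_, hcomm, fun ε i => ?_⟩
  · obtain ⟨p1, p2⟩ := hgj j ⟨cs z, hcs z⟩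
    rw [p2]
    congr 1
  · obtain ⟨p1, p2, p3⟩ := hkey ε i
    obtain ⟨p4, p5⟩ := hcj i ⟨_, p2⟩
    obtain ⟨p6, p7⟩ := hgj i ⟨_, p4⟩
    rw [p3, p5, p7]
    intro heq
    have h4 : ix (α i) (ac (cj' (a i) τ) ⟦⟨fun w => tw ε i w z, p1⟩⟧) =
        ac (cj' (a i) τ) ⟦⟨fun w => tw ε i w z, p1⟩⟧ := congrArg Subtype.val (e.injective heq)
    rw [ac_mk, ix_mk, Am_eq] at h4
    have hlt : ∀ k, k < i → a k < a i := fun k hk => (hab k).trans (hba k i hk)
    have hni : ∀ k, k < i → a k ≠ b i := fun k hk => ((hlt k hk).trans (hab i)).ne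
    have hbi : b i ∉ (Finset.range i).image a := by
      intro h'
      obtain ⟨m, hm, h5⟩ := Finset.mem_image.1 h'
      exact hni m (Finset.mem_range.1 hm) h5
    have htwα : ∀ w, tw ε i (fun j => w (α i j)) = tw ε i w := by
      intro w
      have : ∀ n, n ≤ i → tw ε n (fun j => w (α i j)) = tw ε n w := by
        intro n
        induction n with
        | zero => exact fun _ => rfl
        | succ n ih =>
          intro hn
          rw [htw ε n (fun j => w (α i j)), htw ε n w, ih (Nat.le_of_succ_le hn),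
            hα' i n (Nat.ne_of_lt hn)]
      exact this i le_rfl
    have h5 : ∀ᶠ w in DL I, τ (w (b i)) (tw ε i w z) ≠ τ (w (a i)) (tw ε i w z) := by
      refine DL_last (s := insert (a i) ((Finset.range i).image a)) (b := b i) ?_ ?_ fun w => ?_
      · intro x hx
        rcases Finset.mem_insert.1 hx with rfl | hx
        · exact hab i
        · obtain ⟨m, hm, rfl⟩ := Finset.mem_image.1 hx
          exact (hlt m (Finset.mem_range.1 hm)).trans (hab i)
      · have d1 := (htwD ε i).comp1 fun p => p z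
        have d2 : Dp (fun w : Jx I => τ (w (b i)) (tw ε i w z)) _ :=
          ((Dp.coord (b i)).comp1 τ).comp2 d1 fun p x => p x
        have d3 : Dp (fun w : Jx I => τ (w (a i)) (tw ε i w z)) _ :=
          ((Dp.coord (a i)).comp1 τ).comp2 d1 fun p x => p x
        refine (d2.comp2 d3 fun x y => x ≠ y).mono fun x hx => ?_
        simp only [Finset.mem_union, Finset.mem_singleton, Finset.mem_insert] at hx ⊢
        tauto
      · have h6 := hz (tw ε i w z) ⟨_, htwT ε i w, rfl⟩ (τ (w (a i)) (tw ε i w z))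
        filter_upwards [h6] with k hk
        have d1 := htwD ε i (b i) hbi w k
        rw [d1, Function.update_self, Function.update_of_ne (hab i).ne]
        exact hk
    obtain ⟨w, hw1, hw2⟩ := (h4.and h5).exists
    apply hw2
    have hw3 : τ (w (α i (a i))) (tw ε i (fun j => w (α i j)) z) = τ (w (a i)) (tw ε i w z) := hw1
    rw [hα, htwα] at hw3
    exact hw3

/-- the shift of one block -/
def bl (i : ℕ) : (ℕ ×ₗ ℤ) ≃o (ℕ ×ₗ ℤ) where
  toFun x := toLex ((ofLex x).1, if (ofLex x).1 = i then (ofLex x).2 + 1 else (ofLex x).2)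
  invFun x := toLex ((ofLex x).1, if (ofLex x).1 = i then (ofLex x).2 - 1 else (ofLex x).2)
  left_inv x := by
    by_cases h : (ofLex x).1 = i
    · simp [h]
      rw [← h]
      rfl
    · simp [h]
  right_inv x := by
    by_cases h : (ofLex x).1 = i
    · simp [h]
      rw [← h]
      rfl
    · simp [h]
  map_rel_iff' := by
    intro x y
    obtain ⟨⟨p1, p2⟩, rfl⟩ := toLex.surjective x
    obtain ⟨⟨q1, q2⟩, rfl⟩ := toLex.surjective y
    change toLex (p1, if p1 = i then p2 + 1 else p2) ≤ toLex (q1, if q1 = i then q2 + 1 else q2) ↔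
      toLex (p1, p2) ≤ toLex (q1, q2)
    rw [Prod.Lex.toLex_le_toLex, Prod.Lex.toLex_le_toLex]
    simp only
    split_ifs <;> omega

end Pool.Agent.Olig.LO
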