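import Pool.Agent.Olig.GI

/-!
# The open mapping theorem modulo a finite normal subgroup
-/

open Equiv Filter Topology

namespace Pool.Agent.Olig

/-- a Borel subgroup of countable index is open -/
theorem open_of_borel {H : Type} [Group H] [TopologicalSpace H] [IsTopologicalGroup H]
    [BaireSpace H] [MeasurableSpace H] [BorelSpace H] (A : Subgroup H)
    (hA : MeasurableSet (A : Set H)) (s : Set H) (hs : s.Countable)
    (hcov : ∀ h, ∃ a ∈ s, a⁻¹ * h ∈ A) : IsOpen (A : Set H) := by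
  obtain ⟨u, hu, hAu⟩ := hA.residualEq_isOpen
  have htr : ∀ a : H, Tendsto (fun y : H => a⁻¹ * y) (residual H) (residual H) := fun a =>
    tendsto_residual_of_isOpenMap (continuous_const_mul a⁻¹) (isOpenMap_mul_left a⁻¹)
  have hmem : ∀ a : H, ∀ᶠ y in residual H, (a⁻¹ * y ∈ A ↔ a⁻¹ * y ∈ u) := by
    intro a
    have h1 : ∀ᶠ y in residual H, (y ∈ (A : Set H) ↔ y ∈ u) := by
      filter_upwards [hAu] with y hy
      exact iff_of_eq hy
    exact (htr a).eventually h1
  rcases u.eq_empty_or_nonempty with he | ⟨x, hx⟩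
  · exfalso
    have h1 : ∀ᶠ y in residual H, ∀ a ∈ s, (a⁻¹ * y ∈ A ↔ a⁻¹ * y ∈ u) :=
      (eventually_countable_ball hs).2 fun a _ => hmem a
    have h2 : Dense {y | ∀ a ∈ s, (a⁻¹ * y ∈ A ↔ a⁻¹ * y ∈ u)} := dense_of_mem_residual h1
    obtain ⟨y, hy⟩ := h2.nonempty
    obtain ⟨a, ha, hay⟩ := hcov y
    have h3 := (hy a ha).1 hay
    rw [he] at h3
    exact h3
  · have key : ∀ h : H, h * x ∈ u → h ∈ A := by
      intro h hh
      have hd : Dense {y | (y ∈ A ↔ y ∈ u) ∧ (h⁻¹ * y ∈ A ↔ h⁻¹ * y ∈ u)} := by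
        refine dense_of_mem_residual ?_
        filter_upwards [hmem 1, hmem h] with y h1 h2
        rw [inv_one, one_mul] at h1
        exact ⟨h1, h2⟩
      have hO : IsOpen ({y | h⁻¹ * y ∈ u} ∩ u) :=
        (hu.preimage (continuous_const_mul h⁻¹)).inter hu
      obtain ⟨y, hy1, hy2⟩ := hd.inter_open_nonempty _ hO ⟨h * x, by
        simp only [Set.mem_inter_iff, Set.mem_ofPred_eq, inv_mul_cancel_left]
        exact ⟨hx, hh⟩⟩
      have h3 := hy2.1.2 hy1.2
      have h4 := hy2.2.2 hy1.1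
      have h5 := A.mul_mem h3 (A.inv_mem h4)
      rwa [mul_inv_rev, inv_inv, mul_inv_cancel_left] at h5
    refine Subgroup.isOpen_of_mem_nhds A (g := 1) ?_
    have hO : IsOpen {h : H | h * x ∈ u} := hu.preimage (continuous_mul_const x)
    refine Filter.mem_of_superset (hO.mem_nhds ?_) key
    simpa using hx

/-- the topology of pointwise convergence of permutations and their inverses -/
@[reducible] def permTop : TopologicalSpace (Perm ℕ) :=
  TopologicalSpace.induced (fun g : Perm ℕ => ((⇑g : ℕ → ℕ), (⇑g⁻¹ : ℕ → ℕ))) inferInstance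

attribute [local instance] permTop

theorem continuous_ev2 {Z : Type} [TopologicalSpace Z] {f : Z → ℕ → ℕ} (hf : Continuous f)
    {m : Z → ℕ} (hm : Continuous m) : Continuous fun z => f z (m z) := by
  refine continuous_def.2 fun s _ => ?_
  have h1 : (fun z => f z (m z)) ⁻¹' s = ⋃ n : ℕ, (m ⁻¹' {n}) ∩ (fun z => f z n) ⁻¹' s := by
    ext z
    simp
  rw [h1]
  refine isOpen_iUnion fun n => ((isOpen_discrete _).preimage hm).inter ?_
  exact (isOpen_discrete _).preimage ((continuous_apply n).comp hf)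

theorem continuous_pair :
    Continuous (fun g : Perm ℕ => ((⇑g : ℕ → ℕ), (⇑g⁻¹ : ℕ → ℕ))) := continuous_induced_dom

theorem continuous_coe : Continuous (fun g : Perm ℕ => (⇑g : ℕ → ℕ)) :=
  continuous_fst.comp continuous_pair

theorem continuous_coe_inv : Continuous (fun g : Perm ℕ => (⇑g⁻¹ : ℕ → ℕ)) :=
  continuous_snd.comp continuous_pair

theorem perm_group : IsTopologicalGroup (Perm ℕ) where
  continuous_mul := by
    refine continuous_induced_rng.2 (Continuous.prodMk ?_ ?_)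
    · refine continuous_pi fun x => ?_
      exact continuous_ev2 (continuous_coe.comp continuous_fst)
        ((continuous_apply x).comp (continuous_coe.comp continuous_snd))
    · refine continuous_pi fun x => ?_
      have h1 : ∀ z : Perm ℕ × Perm ℕ, (z.1 * z.2)⁻¹ x = z.2⁻¹ (z.1⁻¹ x) := by
        intro z
        rw [mul_inv_rev]
        rfl
      refine Continuous.congr ?_ (fun z => (h1 z).symm)
      exact continuous_ev2 (continuous_coe_inv.comp continuous_snd)
        ((continuous_apply x).comp (continuous_coe_inv.comp continuous_fst))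
  continuous_inv := by
    refine continuous_induced_rng.2 (Continuous.prodMk ?_ ?_)
    · exact continuous_coe_inv
    · refine Continuous.congr continuous_coe (fun z => ?_)
      simp

attribute [local instance] perm_group

theorem perm_polish : PolishSpace (Perm ℕ) := by
  have hemb : IsClosedEmbedding (fun g : Perm ℕ => ((⇑g : ℕ → ℕ), (⇑g⁻¹ : ℕ → ℕ))) := by
    refine ⟨⟨⟨rfl⟩, fun g g' h => DFunLike.coe_injective (congrArg Prod.fst h)⟩, ?_⟩
    have h1 : Set.range (fun g : Perm ℕ => ((⇑g : ℕ → ℕ), (⇑g⁻¹ : ℕ → ℕ))) =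
        ⋂ x : ℕ, {z : (ℕ → ℕ) × (ℕ → ℕ) | z.1 (z.2 x) = x} ∩ {z | z.2 (z.1 x) = x} := by
      ext z
      simp only [Set.mem_range, Set.mem_iInter, Set.mem_inter_iff, Set.mem_ofPred_eq]
      constructor
      · rintro ⟨g, rfl⟩ x
        exact ⟨ai g x, ia g x⟩
      · intro h
        exact ⟨⟨z.1, z.2, fun x => (h x).2, fun x => (h x).1⟩, rfl⟩
    rw [h1]
    refine isClosed_iInter fun x => ?_
    refine IsClosed.inter ?_ ?_
    · exact isClosed_eq (continuous_ev2 continuous_fst ((continuous_apply x).comp continuous_snd))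
        continuous_const
    · exact isClosed_eq (continuous_ev2 continuous_snd ((continuous_apply x).comp continuous_fst))
        continuous_const
  exact hemb.polishSpace

attribute [local instance] perm_polish

theorem isOpen_agree (g : Perm ℕ) (F : Finset ℕ) : IsOpen {g' : Perm ℕ | ∀ x ∈ F, g' x = g x} := by
  have : {g' : Perm ℕ | ∀ x ∈ F, g' x = g x} = ⋂ x ∈ F, (fun g' : Perm ℕ => g' x) ⁻¹' {g x} := by
    ext g'
    simp
  rw [this]
  exact isOpen_biInter_finset fun x _ => (isOpen_discrete _).preimage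
    ((continuous_apply x).comp continuous_coe)

theorem isClosed_of_closedG {D : Subgroup (Perm ℕ)} (hD : ClosedG D) :
    IsClosed (D : Set (Perm ℕ)) := by
  refine isClosed_of_closure_subset fun g hg => ?_
  refine hD g (fun F => ?_)
  obtain ⟨g', h1, h2⟩ := mem_closure_iff.1 hg _ (isOpen_agree g F) (fun x _ => rfl)
  exact ⟨g', h2, h1⟩

/-- neighbourhoods of the identity contain stabilisers -/
theorem exists_stb_of_open {D : Subgroup (Perm ℕ)} {O : Set D} (hO : IsOpen O) (h1 : (1 : D) ∈ O) :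
    ∃ Y : Finset ℕ, ∀ (d : Perm ℕ) (hd : d ∈ D), (∀ y ∈ Y, d y = y) → (⟨d, hd⟩ : D) ∈ O := by
  classical
  obtain ⟨O', hO', rfl⟩ := isOpen_induced_iff.1 hO
  obtain ⟨O'', hO'', rfl⟩ := isOpen_induced_iff.1 hO'
  obtain ⟨u, v, hu, hv, hmu, hmv, hsub⟩ := isOpen_prod_iff.1 hO'' _ _ h1
  obtain ⟨I, a, ha, hIa⟩ := isOpen_pi_iff.1 hu _ hmu
  obtain ⟨J, b, hb, hJb⟩ := isOpen_pi_iff.1 hv _ hmv
  refine ⟨I ∪ J, fun d hd hfix => ?_⟩
  refine hsub ⟨hIa fun x hx => ?_, hJb fun x hx => ?_⟩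
  · have h2 : d x = x := hfix x (Finset.mem_union_left _ hx)
    change d x ∈ a x
    rw [h2]
    exact (ha x hx).2
  · have h2 : d⁻¹ x = x := by
      rw [Perm.inv_eq_iff_eq]
      exact (hfix x (Finset.mem_union_right _ hx)).symm
    change d⁻¹ x ∈ b x
    rw [h2]
    exact (hb x hx).2

namespace GI

variable {G D K : Subgroup (Perm ℕ)} {p r : Perm ℕ → Perm ℕ}

/-- the product of the image of a stabiliser and of the centraliser -/
def AF (h : GI G D p r) (hK : NS G K) (F : Finset ℕ) : Subgroup D where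
  carrier := {d | ∃ g ∈ stb G F, (p g)⁻¹ * d.1 ∈ h.C hK}
  one_mem' := ⟨1, (stb G F).one_mem, by
    rw [h.p1]
    simpa using (h.C hK).one_mem⟩
  mul_mem' := by
    rintro a b ⟨g, hg, h1⟩ ⟨g', hg', h2⟩
    refine ⟨g * g', (stb G F).mul_mem hg hg', ?_⟩
    rw [h.pm _ hg.1 _ hg'.1]
    have h3 := h.C_normal hK (D.inv_mem b.2) h1
    rw [inv_inv] at h3
    have h4 := (h.C hK).mul_mem h2 h3
    have e : (p g')⁻¹ * b.1 * (b.1⁻¹ * ((p g)⁻¹ * a.1) * b.1) = (p g')⁻¹ * (p g)⁻¹ * a.1 * b.1 := by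
      group
    rw [e] at h4
    have e2 : (p g * p g')⁻¹ * (a * b : D).1 = (p g')⁻¹ * (p g)⁻¹ * a.1 * b.1 := by
      rw [Subgroup.coe_mul]
      group
    rw [e2]
    exact h4
  inv_mem' := by
    rintro a ⟨g, hg, h1⟩
    refine ⟨g⁻¹, (stb G F).inv_mem hg, ?_⟩
    rw [h.pinv hg.1, inv_inv]
    have h3 := h.C_normal hK (h.pD g hg.1) ((h.C hK).inv_mem h1)
    have e : p g * ((p g)⁻¹ * a.1)⁻¹ * (p g)⁻¹ = p g * (a⁻¹ : D).1 := by
      rw [Subgroup.coe_inv]
      group
    rwa [e] at h3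

theorem open_map (h : GI G D p r) (hK : NS G K) (hL : Oligo (h.L hK)) (hc : h.Cont hK) (F : Finset ℕ)
    (hF : ∀ g ∈ stb G F, p g ∈ h.C hK → g = 1) :
    ∃ Y : Finset ℕ, ∀ d ∈ stb D Y, ∃ g ∈ stb G F, (p g)⁻¹ * d ∈ h.C hK := by
  classical
  have hDp : PolishSpace D := (isClosed_of_closedG h.cD).polishSpace
  let : MeasurableSpace D := borel D
  have : BorelSpace D := ⟨rfl⟩
  let B : Set (Perm ℕ × D) := {x | x.1 ∈ stb G F ∧ (p x.1)⁻¹ * x.2.1 ∈ h.C hK}
  have hstbc : IsClosed (stb G F : Set (Perm ℕ)) :=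
    isClosed_of_closedG ((stb_open G F).closedG h.cG)
  have hBc : IsClosed B := by
    rw [← isOpen_compl_iff, isOpen_iff_forall_mem_open]
    rintro ⟨g, d⟩ hgd
    by_cases hg : g ∈ stb G F
    · have he : (p g)⁻¹ * d.1 ∉ h.C hK := fun h1 => hgd ⟨hg, h1⟩
      set e := (p g)⁻¹ * d.1 with hedef
      have hne : ∀ c ∈ h.C hK, ∃ y, c y ≠ e y := by
        intro c hc'
        by_contra hcon
        push Not at hcon
        have : c = e := Equiv.ext hcon
        exact he (this ▸ hc')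
      choose! y0 hy0 using hne
      let Y0 : Finset ℕ := (h.finite_C hK hL).toFinset.image y0
      obtain ⟨F', hF'⟩ := h.contC hK hL hc (Y0.image e)
      refine ⟨{x | (∀ z ∈ F', x.1 z = g z)} ∩ {x | ∀ y ∈ Y0, x.2.1 y = d.1 y}, ?_, ?_, ?_⟩
      · rintro ⟨g', d'⟩ ⟨h1, h2⟩ ⟨hg', he'⟩
        simp only [Set.mem_ofPred_eq] at h1 h2 hg' he'
        have hmem : g'⁻¹ * g ∈ stb G F' := ⟨G.mul_mem (G.inv_mem hg'.1) hg.1, fun x hx => by
          rw [Perm.mul_apply, ← h1 x hx, ia]⟩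
        obtain ⟨c, hcC, hcY⟩ := hF' _ hmem
        have h3 : c⁻¹ * ((p g')⁻¹ * d'.1) ∈ h.C hK := (h.C hK).mul_mem ((h.C hK).inv_mem hcC) he'
        have h4 := hy0 _ h3
        apply h4
        have hy : y0 (c⁻¹ * ((p g')⁻¹ * d'.1)) ∈ Y0 :=
          Finset.mem_image_of_mem _ ((Set.Finite.mem_toFinset _).2 h3)
        set y := y0 (c⁻¹ * ((p g')⁻¹ * d'.1)) with hydef
        rw [Perm.mul_apply, Perm.inv_eq_iff_eq, ← hcY _ (Finset.mem_image_of_mem _ hy),
          h.pm _ (G.inv_mem hg'.1) _ hg.1, h.pinv hg'.1, Perm.mul_apply, Perm.mul_apply, h2 y hy,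
          hedef, Perm.mul_apply, ai]
      · refine IsOpen.inter ?_ ?_
        · exact (isOpen_agree g F').preimage continuous_fst
        · exact (isOpen_agree d.1 Y0).preimage (continuous_subtype_val.comp continuous_snd)
      · exact ⟨fun _ _ => rfl, fun _ _ => rfl⟩
    · refine ⟨{x | x.1 ∈ ((stb G F : Set (Perm ℕ))ᶜ)}, ?_, ?_, hg⟩
      · rintro ⟨g', d'⟩ h1 h2
        exact h1 h2.1
      · exact hstbc.isOpen_compl.preimage continuous_fst
  have hinj : Set.InjOn (Prod.snd : Perm ℕ × D → D) B := by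
    rintro ⟨g, d⟩ ⟨hg, h1⟩ ⟨g', d'⟩ ⟨hg', h2⟩ hdd
    simp only at hg h1 hg' h2 hdd
    subst hdd
    have h3 := (h.C hK).mul_mem h2 ((h.C hK).inv_mem h1)
    have e : (p g')⁻¹ * d.1 * ((p g)⁻¹ * d.1)⁻¹ = (p g')⁻¹ * p g := by group
    rw [e, ← h.pinv hg'.1, ← h.pm _ (G.inv_mem hg'.1) _ hg.1] at h3
    have h4 := hF _ ((stb G F).mul_mem ((stb G F).inv_mem hg') hg) h3
    have h5 : g = g' := by
      have := mul_eq_one_iff_inv_eq.1 h4
      rw [inv_inv] at this
      exact this.symm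
    rw [h5]
  have hmeas : MeasurableSet (h.AF hK F : Set D) := by
    have h1 := hBc.measurableSet_image_of_continuousOn_injOn
      (f := (Prod.snd : Perm ℕ × D → D)) continuous_snd.continuousOn hinj
    have h2 : Prod.snd '' B = (h.AF hK F : Set D) := by
      ext d
      constructor
      · rintro ⟨⟨g, d'⟩, ⟨hg, h3⟩, rfl⟩
        exact ⟨g, hg, h3⟩
      · rintro ⟨g, hg, h3⟩
        exact ⟨⟨g, d⟩, ⟨hg, h3⟩, rfl⟩
    rwa [h2] at h1
  -- countable index
  let gg : ({x // x ∈ F} → ℕ) → Perm ℕ := fun τ =>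
    if hτ : ∃ g ∈ G, ∀ x : {x // x ∈ F}, g x.1 = τ x then hτ.choose else 1
  have hgg : ∀ τ, gg τ ∈ G := by
    intro τ
    simp only [gg]
    split_ifs with hτ
    · exact hτ.choose_spec.1
    · exact G.one_mem
  have hopen := open_of_borel (h.AF hK F) hmeas
    (Set.range fun τ => (⟨p (gg τ), h.pD _ (hgg τ)⟩ : D)) (Set.countable_range _) (by
      intro d
      have hex : ∃ g ∈ G, ∀ x : {x // x ∈ F}, g x.1 = (fun x : {x // x ∈ F} => r d.1 x.1) x :=
        ⟨r d.1, h.rG _ d.2, fun _ => rfl⟩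
      refine ⟨_, ⟨fun x => r d.1 x.1, rfl⟩, (gg fun x => r d.1 x.1)⁻¹ * r d.1, ?_, ?_⟩
      · have e0 : gg (fun x => r d.1 x.1) = hex.choose := dif_pos hex
        refine ⟨G.mul_mem (G.inv_mem (hgg _)) (h.rG _ d.2), fun x hx => ?_⟩
        rw [Perm.mul_apply, Perm.inv_eq_iff_eq, e0]
        exact (hex.choose_spec.2 ⟨x, hx⟩).symm
      · rw [h.pm _ (G.inv_mem (hgg _)) _ (h.rG _ d.2), h.pinv (hgg _), h.pr _ d.2]
        have e1 : ((⟨p (gg fun x => r d.1 x.1), h.pD _ (hgg _)⟩ : D)⁻¹ * d : D).1 =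
          (p (gg fun x => r d.1 x.1))⁻¹ * d.1 := rfl
        rw [e1, inv_mul_cancel]
        exact (h.C hK).one_mem)
  obtain ⟨Y, hY⟩ := exists_stb_of_open hopen (h.AF hK F).one_mem
  exact ⟨Y, fun d hd => hY d hd.1 hd.2⟩

end GI

end Pool.Agent.Olig
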