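import Pool.Agent.Olig.IterH
import Pool.Agent.Olig.LoB
import Pool.Agent.Olig.OpenMap

/-!
# Locally finite isomorphisms have locally finite inverses
-/

open Equiv Filter Pointwise

namespace Pool.Agent.Olig

variable {G D T : Subgroup (Perm ℕ)}

/-! ### moving points -/

/-- the stabiliser of a point in `T` -/
def sp (T : Subgroup (Perm ℕ)) (x : ℕ) : Subgroup T where
  carrier := {t | (t : Perm ℕ) x = x}
  one_mem' := rfl
  mul_mem' := by
    intro a b ha hb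
    change (a : Perm ℕ) ((b : Perm ℕ) x) = x
    have ha' : (a : Perm ℕ) x = x := ha
    have hb' : (b : Perm ℕ) x = x := hb
    rw [hb', ha']
  inv_mem' := by
    intro a ha
    have ha' : (a : Perm ℕ) x = x := ha
    change (a : Perm ℕ)⁻¹ x = x
    rw [Perm.inv_eq_iff_eq]
    exact ha'.symm

theorem neumann_pt (L : Finset ℕ) (hL : ∀ x ∈ L, ¬ {y | ∃ t ∈ T, t x = y}.Finite) :
    ∃ t ∈ T, ∀ x ∈ L, ∀ y ∈ L, t x ≠ y := by
  classical
  by_contra hcon
  push Not at hcon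
  let g : ℕ × ℕ → T := fun p => if h : ∃ u : T, (u : Perm ℕ) p.1 = p.2 then h.choose else 1
  have hg : ∀ p, (∃ u : T, (u : Perm ℕ) p.1 = p.2) → (g p : Perm ℕ) p.1 = p.2 := by
    intro p hp
    have e : g p = hp.choose := dif_pos hp
    rw [e]
    exact hp.choose_spec
  have hcov : ⋃ p ∈ L ×ˢ L, (g p) • ((sp T p.1 : Subgroup T) : Set T) = Set.univ := by
    rw [Set.eq_univ_iff_forall]
    intro u
    obtain ⟨x, hx, y, hy, e⟩ := hcon u u.2
    refine Set.mem_iUnion₂.2 ⟨(x, y), Finset.mk_mem_product hx hy, ?_⟩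
    rw [Set.mem_smul_set_iff_inv_smul_mem]
    change (g (x, y) : Perm ℕ)⁻¹ ((u : Perm ℕ) x) = x
    rw [Perm.inv_eq_iff_eq, e]
    exact (hg (x, y) ⟨u, e⟩).symm
  obtain ⟨p, hp, hfi⟩ := Subgroup.exists_finiteIndex_of_leftCoset_cover hcov
  refine hL _ (Finset.mem_product.1 hp).1 ?_
  have : Finite (T ⧸ sp T p.1) := Subgroup.finite_quotient_of_finiteIndex
  refine (Set.finite_range (fun q : T ⧸ sp T p.1 => (q.out : Perm ℕ) p.1)).subset ?_
  rintro _ ⟨u, hu, rfl⟩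
  refine ⟨QuotientGroup.mk (⟨u, hu⟩ : T), ?_⟩
  obtain ⟨k, hk⟩ := QuotientGroup.mk_out_eq_mul (sp T p.1) (⟨u, hu⟩ : T)
  simp only
  rw [hk]
  change u (((k : T) : Perm ℕ) p.1) = u p.1
  have hk2 : ((k : T) : Perm ℕ) p.1 = p.1 := k.2
  rw [hk2]

theorem exists_tau {z : ℕ} (hz : ¬ {y | ∃ t ∈ T, t z = y}.Finite) : ∃ τ : ℕ → Perm ℕ,
    (∀ k, τ k ∈ T) ∧ ∀ x, (∃ t ∈ T, t z = x) → ∀ y, ∀ᶠ k in (UU : Filter ℕ), τ k x ≠ y := by
  classical
  have horb : ∀ x, (∃ t ∈ T, t z = x) → ¬ {y | ∃ t ∈ T, t x = y}.Finite := by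
    rintro _ ⟨s, hs, rfl⟩ hf
    refine hz (hf.subset ?_)
    rintro _ ⟨t, ht, rfl⟩
    exact ⟨t * s⁻¹, T.mul_mem ht (T.inv_mem hs), by rw [Perm.mul_apply, ia]⟩
  choose τ hτ h using fun k : ℕ => neumann_pt (T := T)
    ((Finset.range k).filter (fun x => ∃ t ∈ T, t z = x))
    (fun x hx => horb x (Finset.mem_filter.1 hx).2)
  refine ⟨τ, hτ, fun x hx y => ?_⟩
  by_cases hy : ∃ t ∈ T, t z = y
  · filter_upwards [UU_ge (x + 1), UU_ge (y + 1)] with k hk hk'
    exact h k x (Finset.mem_filter.2 ⟨Finset.mem_range.2 hk, hx⟩) y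
      (Finset.mem_filter.2 ⟨Finset.mem_range.2 hk', hy⟩)
  · refine Eventually.of_forall fun k h' => hy ?_
    obtain ⟨t, ht, rfl⟩ := hx
    exact ⟨τ k * t, T.mul_mem (hτ k) ht, h'⟩

/-! ### the two kernels -/

theorem KT_le (φ : G ≃* D) : KT φ ≤ G := fun _ ht => ht.1

theorem KT_nm (φ : G ≃* D) : ∀ g ∈ G, ∀ t ∈ KT φ, g * t * g⁻¹ ∈ KT φ := by
  rintro g hg t ⟨ht, ht'⟩
  refine ⟨G.mul_mem (G.mul_mem hg ht) (G.inv_mem hg), ?_⟩
  have := LimP.conj (φ := φ.toMonoidHom) (⟨g, hg⟩⁻¹ : G) ⟨t, ht⟩ ht'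
  rwa [inv_inv] at this

theorem KT_closed (hGc : ClosedG G) (φ : G ≃* D) : ClosedG (KT φ) := by
  intro g hg
  refine ⟨hGc g (hg.mono (KT_le φ)), ?_⟩
  refine LimP.congr_cl fun E => ?_
  obtain ⟨t, ht, h3⟩ := hg E
  exact ⟨⇑t, h3, ht.2⟩

/-- the limit group -/
def KS (φ : G ≃* D) : Subgroup (Perm ℕ) where
  carrier := {s | s ∈ D ∧ LimP φ.toMonoidHom id s}
  one_mem' := ⟨D.one_mem, limS_one φ.toMonoidHom⟩
  mul_mem' := by
    rintro a b ⟨ha, ha'⟩ ⟨hb, hb'⟩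
    exact ⟨D.mul_mem ha hb, ha'.mul hb'⟩
  inv_mem' := by
    rintro a ⟨ha, ha'⟩
    exact ⟨D.inv_mem ha, limS_inv (s := ⟨a, ha⟩) ha'⟩

theorem TN_KS (hDc : ClosedG D) (φ : G ≃* D) (h1 : LocFin φ.toMonoidHom) : TN D (KS φ) := by
  refine TN.of_closed (fun t ht => ht.1) ?_ ?_ ?_
  · rintro d hd s ⟨hs, hs'⟩
    refine ⟨D.mul_mem (D.mul_mem hd hs) (D.inv_mem hd), ?_⟩
    obtain ⟨g, hg⟩ := φ.surjective ⟨d, hd⟩
    have h2 := ((LimP.of φ.toMonoidHom g).mul hs').mul (LimP.of φ.toMonoidHom g⁻¹)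
    have e1 : (⇑(g : Perm ℕ) ∘ id) ∘ ⇑((g⁻¹ : G) : Perm ℕ) = id := funext fun x => ai _ _
    have e0 : (φ.toMonoidHom g : Perm ℕ) = d := congrArg Subtype.val hg
    have e0' : (φ.toMonoidHom g⁻¹ : Perm ℕ) = d⁻¹ := by
      rw [map_inv]
      exact congrArg (fun x : Perm ℕ => x⁻¹) e0
    rw [e1, e0, e0'] at h2
    exact h2
  · intro y
    refine ⟨(limS_finite h1 y).toFinset, ?_⟩
    rintro t ⟨ht, ht'⟩
    exact (Set.Finite.mem_toFinset _).2 ⟨⟨t, ht⟩, ht', rfl⟩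
  · intro g hg
    refine ⟨hDc g (hg.mono (show KS φ ≤ D from fun t ht => ht.1)), fun E Y => ?_⟩
    obtain ⟨s, hs, h3⟩ := hg Y
    obtain ⟨w, hw1, hw2⟩ := hs.2 E Y
    exact ⟨w, hw1, fun y hy => (hw2 y hy).trans (h3 y hy)⟩

/-! ### the first kernel is compact -/

theorem tt_congr (c : ℕ → Perm ℕ) {ε ε' : ℕ → Bool} {i : ℕ} (h : ∀ k < i, ε k = ε' k) :
    LO.tt c ε i = LO.tt c ε' i := by
  induction i with
  | zero => rfl
  | succ i ih =>
    rw [LO.tt_succ, LO.tt_succ, ih fun k hk => h k (hk.trans (Nat.lt_succ_self i)),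
      h i (Nat.lt_succ_self i)]

theorem tt_mem {c : ℕ → Perm ℕ} (hc : ∀ j, c j ∈ T) (ε : ℕ → Bool) (i : ℕ) :
    LO.tt c ε i ∈ T := by
  induction i with
  | zero => exact T.one_mem
  | succ i ih =>
    rw [LO.tt_succ]
    refine T.mul_mem ?_ ih
    split_ifs
    · exact hc i
    · exact T.one_mem

theorem KT_orb (hGc : ClosedG G) (hG : Oligo G) (hDc : ClosedG D) (φ : G ≃* D)
    (h1 : LocFin φ.toMonoidHom) (z : ℕ) : {y | ∃ t ∈ KT φ, t z = y}.Finite := by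
  classical
  by_contra hinf
  obtain ⟨τ, hτ, hz⟩ := exists_tau hinf
  obtain ⟨c, g, z', hcT, hgG, hgz, hcomm, hne⟩ := LO.exists_blocks (ℕ ×ₗ ℤ) hGc hG (KT_le φ)
    (KT_nm φ) (KT_closed hGc φ) τ hτ z hz (fun i => toLex (i, 0)) (fun i => toLex (i, 1))
    (fun i => by
      change toLex (i, (0 : ℤ)) < toLex (i, (1 : ℤ))
      rw [Prod.Lex.toLex_lt_toLex]
      right
      exact ⟨rfl, by norm_num⟩)
    (fun k i hki => by
      change toLex (k, (1 : ℤ)) < toLex (i, (0 : ℤ))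
      rw [Prod.Lex.toLex_lt_toLex]
      left
      exact hki)
    LO.bl (fun i => by
      change toLex (i, if i = i then (0 : ℤ) + 1 else 0) = toLex (i, (1 : ℤ))
      simp)
    (fun i k hk => by
      change toLex (k, if k = i then (0 : ℤ) + 1 else 0) = toLex (k, (0 : ℤ))
      rw [if_neg hk])
  have hS := TN_KS hDc φ h1
  -- elements of `G`
  let tG : (ℕ → Bool) → ℕ → G := fun ε j => ⟨LO.tt c ε j, (tt_mem hcT ε j).1⟩
  let gG : ℕ → G := fun j => ⟨g j, hgG j⟩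
  have htS : ∀ ε j, (φ (tG ε j) : Perm ℕ) ∈ KS φ := fun ε j =>
    ⟨(φ (tG ε j)).2, limP_kernel' (tt_mem hcT ε j).2⟩
  have htg : ∀ ε i j k, i < j → j ≤ k → g i * (LO.tt c ε k * (LO.tt c ε j)⁻¹) =
      (LO.tt c ε k * (LO.tt c ε j)⁻¹) * g i := by
    intro ε i j k hij hjk
    induction hjk with
    | refl => rw [mul_inv_cancel, mul_one, one_mul]
    | step hjk ih =>
      rename_i k
      rw [Nat.succ_eq_add_one, LO.tt_succ]
      split_ifs with hε
      · have hik : i ≠ k := Nat.ne_of_lt (hij.trans_le hjk)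
        rw [mul_assoc (c k), ← mul_assoc (g i), hcomm i k hik, mul_assoc (c k), ih, ← mul_assoc (c k)]
      · rw [one_mul, ih]
  have hlim : ∀ ε, ∃ r : G, ∀ i j, i < j → g i * ((r : Perm ℕ) * (LO.tt c ε j)⁻¹) =
      ((r : Perm ℕ) * (LO.tt c ε j)⁻¹) * g i := by
    intro ε
    obtain ⟨s, hs, hlim⟩ := hS.exists_lim (fun j => (φ (tG ε j) : Perm ℕ)) (htS ε)
    refine ⟨φ.symm ⟨s, hs.1⟩, fun i j hij => ?_⟩
    have hφr : φ (φ.symm ⟨s, hs.1⟩) = ⟨s, hs.1⟩ := φ.apply_symm_apply _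
    have key : gG i * (φ.symm ⟨s, hs.1⟩ * (tG ε j)⁻¹) = φ.symm ⟨s, hs.1⟩ * (tG ε j)⁻¹ * gG i := by
      apply φ.injective
      rw [map_mul, map_mul, map_mul, map_mul, hφr]
      refine Subtype.ext (Equiv.ext fun y => ?_)
      rw [map_inv]
      change (φ (gG i) : Perm ℕ) (s ((φ (tG ε j) : Perm ℕ)⁻¹ y)) =
        s ((φ (tG ε j) : Perm ℕ)⁻¹ ((φ (gG i) : Perm ℕ) y))
      obtain ⟨k, ⟨hk1, hk2⟩, hk3⟩ := (((hlim ((φ (tG ε j) : Perm ℕ)⁻¹ y)).and
        (hlim ((φ (tG ε j) : Perm ℕ)⁻¹ ((φ (gG i) : Perm ℕ) y)))).and (UU_ge j)).exists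
      rw [← hk1, ← hk2]
      have e1 : gG i * (tG ε k * (tG ε j)⁻¹) = tG ε k * (tG ε j)⁻¹ * gG i :=
        Subtype.ext (htg ε i j k hij hk3)
      have e2 := congrArg (fun x : G => (φ x : Perm ℕ) y) e1
      simp only [map_mul, map_inv] at e2
      exact e2
    exact congrArg Subtype.val key
  choose r hr using hlim
  have htfix : ∀ ε i, g i * LO.tt c ε i = LO.tt c ε i * g i := by
    intro ε i
    have : ∀ n, n ≤ i → g i * LO.tt c ε n = LO.tt c ε n * g i := by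
      intro n
      induction n with
      | zero => intro _; rw [LO.tt_zero, mul_one, one_mul]
      | succ n ih =>
        intro hn
        rw [LO.tt_succ]
        split_ifs
        · rw [← mul_assoc, hcomm i n (Nat.ne_of_gt hn), mul_assoc, ih (Nat.le_of_succ_le hn),
            mul_assoc]
        · rw [one_mul, ih (Nat.le_of_succ_le hn)]
    exact this i le_rfl
  have hdist : ∀ (ε ε' : ℕ → Bool) (i : ℕ), (∀ k < i, ε k = ε' k) → ε i = false → ε' i = true →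
      (r ε : Perm ℕ) z' ≠ (r ε' : Perm ℕ) z' := by
    intro ε ε' i hlt h2 h3 heq
    have e1 := hr ε i (i + 1) (Nat.lt_succ_self i)
    have e2 := hr ε' i (i + 1) (Nat.lt_succ_self i)
    rw [LO.tt_succ, h2] at e1
    rw [LO.tt_succ, h3, ← tt_congr c hlt] at e2
    simp only [Bool.false_eq_true, if_false, if_true, one_mul] at e1 e2
    have hnei := hne ε i
    set t := LO.tt c ε i with ht
    have h4 : g i (t z') = t z' := by
      have := congrArg (fun x : Perm ℕ => x z') (htfix ε i)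
      simp only [Perm.mul_apply] at this
      rw [this, hgz i]
    set p := (r ε : Perm ℕ) * t⁻¹ with hp
    set q := (r ε' : Perm ℕ) * (c i * t)⁻¹ with hq
    have h5 : p (t z') = (r ε : Perm ℕ) z' := by rw [hp, Perm.mul_apply, ia]
    have h6 : q (c i (t z')) = (r ε' : Perm ℕ) z' := by
      rw [hq, Perm.mul_apply, ← Perm.mul_apply (c i) t, ia]
    have h7 : q (c i (t z')) = p (t z') := by rw [h5, h6, heq]
    apply hnei
    apply q.injective
    have f1 := congrArg (fun x : Perm ℕ => x (c i (t z'))) e2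
    simp only [Perm.mul_apply] at f1
    have f2 := congrArg (fun x : Perm ℕ => x (t z')) e1
    simp only [Perm.mul_apply] at f2
    rw [← f1, h7, f2, h4]
  -- uncountably many sequences
  have hninj := Function.cantor_injective
    (fun A : Set ℕ => (r (fun n => decide (n ∈ A)) : Perm ℕ) z')
  apply hninj
  intro A B hAB
  by_contra hne'
  have hex : ∃ n, decide (n ∈ A) ≠ decide (n ∈ B) := by
    by_contra hcon
    push Not at hcon
    apply hne'
    ext n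
    have := hcon n
    simpa using this
  obtain ⟨i, hspec, hlt⟩ : ∃ i, decide (i ∈ A) ≠ decide (i ∈ B) ∧
      ∀ k < i, decide (k ∈ A) = decide (k ∈ B) :=
    ⟨Nat.find hex, Nat.find_spec hex, fun k hk => by
      by_contra hk'
      exact Nat.find_min hex hk hk'⟩
  by_cases hA : i ∈ A
  · have hB : i ∉ B := fun h' => hspec (by simp [hA, h'])
    refine hdist (fun n => decide (n ∈ B)) (fun n => decide (n ∈ A)) i
      (fun k hk => (hlt k hk).symm) (by simp [hB]) (by simp [hA]) hAB.symm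
  · have hB : i ∈ B := by
      by_contra h'
      exact hspec (by simp [hA, h'])
    exact hdist (fun n => decide (n ∈ A)) (fun n => decide (n ∈ B)) i hlt (by simp [hA])
      (by simp [hB]) hAB

end Pool.Agent.Olig
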