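import Pool.Agent.Olig.IterP
import Pool.Agent.Olig.IterE

/-!
# Locally finite isomorphisms have locally finite inverses: the open mapping theorem
-/

open Equiv Filter

namespace Pool.Agent.Olig

variable {G D : Subgroup (Perm ℕ)}

/-- the closure of the image of a stabiliser -/
def KF (φ : G ≃* D) (F : Finset ℕ) : Subgroup D where
  carrier := {d | ∀ Y : Finset ℕ, ∃ g : G, (∀ x ∈ F, (g : Perm ℕ) x = x) ∧
    ∀ y ∈ Y, (φ g : Perm ℕ) y = (d : Perm ℕ) y}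
  one_mem' := fun Y => ⟨1, fun _ _ => rfl, fun y _ => by rw [map_one]⟩
  mul_mem' := by
    classical
    intro a b ha hb Y
    obtain ⟨g', h1, h2⟩ := hb Y
    obtain ⟨g, h3, h4⟩ := ha (Y.image ⇑(b : Perm ℕ))
    refine ⟨g * g', fun x hx => ?_, fun y hy => ?_⟩
    · change (g : Perm ℕ) ((g' : Perm ℕ) x) = x
      rw [h1 x hx, h3 x hx]
    · rw [map_mul]
      change (φ g : Perm ℕ) ((φ g' : Perm ℕ) y) = (a : Perm ℕ) ((b : Perm ℕ) y)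
      rw [h2 y hy, h4 _ (Finset.mem_image_of_mem _ hy)]
  inv_mem' := by
    classical
    intro a ha Y
    obtain ⟨g, h1, h2⟩ := ha (Y.image ⇑(a : Perm ℕ)⁻¹)
    refine ⟨g⁻¹, fun x hx => ?_, fun y hy => ?_⟩
    · change (g : Perm ℕ)⁻¹ x = x
      rw [Perm.inv_eq_iff_eq]
      exact (h1 x hx).symm
    · rw [map_inv]
      change (φ g : Perm ℕ)⁻¹ y = (a : Perm ℕ)⁻¹ y
      rw [Perm.inv_eq_iff_eq]
      have h3 := h2 _ (Finset.mem_image_of_mem _ hy)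
      rw [h3]
      exact (ai _ _).symm

theorem mem_KF {φ : G ≃* D} {F : Finset ℕ} {d : D} : d ∈ KF φ F ↔
    ∀ Y : Finset ℕ, ∃ g : G, (∀ x ∈ F, (g : Perm ℕ) x = x) ∧
      ∀ y ∈ Y, (φ g : Perm ℕ) y = (d : Perm ℕ) y := Iff.rfl

theorem KF_of {φ : G ≃* D} {F : Finset ℕ} {g : G} (hg : ∀ x ∈ F, (g : Perm ℕ) x = x) :
    φ g ∈ KF φ F := fun _ => ⟨g, hg, fun _ _ => rfl⟩

theorem KF_conj {φ : G ≃* D} {F F' : Finset ℕ} {d : D} (hd : d ∈ KF φ F) (p : G)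
    (hF : ∀ x ∈ F', (p : Perm ℕ)⁻¹ x ∈ F) : φ p * d * (φ p)⁻¹ ∈ KF φ F' := by
  classical
  intro Y
  obtain ⟨g, h1, h2⟩ := hd (Y.image ⇑(φ p : Perm ℕ)⁻¹)
  refine ⟨p * g * p⁻¹, fun x hx => ?_, fun y hy => ?_⟩
  · change (p : Perm ℕ) ((g : Perm ℕ) ((p : Perm ℕ)⁻¹ x)) = x
    rw [h1 _ (hF x hx), ai]
  · rw [map_mul, map_mul, map_inv]
    change (φ p : Perm ℕ) ((φ g : Perm ℕ) ((φ p : Perm ℕ)⁻¹ y)) =
      (φ p : Perm ℕ) ((d : Perm ℕ) ((φ p : Perm ℕ)⁻¹ y))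
    rw [h2 _ (Finset.mem_image_of_mem _ hy)]

attribute [local instance] permTop perm_group perm_polish

theorem isClosed_KF (φ : G ≃* D) (F : Finset ℕ) : IsClosed (KF φ F : Set D) := by
  refine isClosed_of_closure_subset fun d hd Y => ?_
  have ho : IsOpen {d' : D | ∀ x ∈ Y, (d' : Perm ℕ) x = (d : Perm ℕ) x} :=
    (isOpen_agree (d : Perm ℕ) Y).preimage continuous_subtype_val
  obtain ⟨d', h1, h2⟩ := mem_closure_iff.1 hd _ ho (fun x _ => rfl)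
  obtain ⟨g, h3, h4⟩ := h2 Y
  exact ⟨g, h3, fun y hy => (h4 y hy).trans (h1 y hy)⟩

theorem open_KF (hDc : ClosedG D) (φ : G ≃* D) (F : Finset ℕ) : ∃ Y : Finset ℕ, ∀ d : D,
    (∀ y ∈ Y, (d : Perm ℕ) y = y) → d ∈ KF φ F := by
  classical
  have hDp : PolishSpace D := (isClosed_of_closedG hDc).polishSpace
  let : MeasurableSpace D := borel D
  have : BorelSpace D := ⟨rfl⟩
  let gg : ({x // x ∈ F} → ℕ) → G := fun τ =>
    if hτ : ∃ g : G, ∀ x : {x // x ∈ F}, (g : Perm ℕ) x.1 = τ x then hτ.choose else 1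
  have hgg : ∀ τ, (∃ g : G, ∀ x : {x // x ∈ F}, (g : Perm ℕ) x.1 = τ x) →
      ∀ x : {x // x ∈ F}, (gg τ : Perm ℕ) x.1 = τ x := by
    intro τ hτ
    have e : gg τ = hτ.choose := dif_pos hτ
    rw [e]
    exact hτ.choose_spec
  have hopen := open_of_borel (KF φ F) (isClosed_KF φ F).measurableSet
    (Set.range fun τ => φ (gg τ)) (Set.countable_range _) (by
      intro d
      refine ⟨_, ⟨fun x => (φ.symm d : Perm ℕ) x.1, rfl⟩, ?_⟩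
      set τ : {x // x ∈ F} → ℕ := fun x => (φ.symm d : Perm ℕ) x.1 with hτ
      have h1 := hgg τ ⟨φ.symm d, fun _ => rfl⟩
      have e : (φ (gg τ))⁻¹ * d = φ ((gg τ)⁻¹ * φ.symm d) := by
        rw [map_mul, map_inv, φ.apply_symm_apply]
      simp only
      rw [e]
      refine KF_of fun x hx => ?_
      change (gg τ : Perm ℕ)⁻¹ ((φ.symm d : Perm ℕ) x) = x
      rw [Perm.inv_eq_iff_eq]
      exact (h1 ⟨x, hx⟩).symm)
  obtain ⟨Y, hY⟩ := exists_stb_of_open hopen (KF φ F).one_mem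
  exact ⟨Y, fun d hd => hY d d.2 hd⟩

/-- approximation from the right -/
theorem KF_step (hDc : ClosedG D) (φ : G ≃* D) {A A' : Finset ℕ} {e : D} (he : e ∈ KF φ A)
    (Y : Finset ℕ) : ∃ g : G, (∀ x ∈ A, (g : Perm ℕ) x = x) ∧ (φ g)⁻¹ * e ∈ KF φ A' ∧
      ∀ y ∈ Y, (φ g : Perm ℕ) y = (e : Perm ℕ) y := by
  classical
  obtain ⟨Y', hY'⟩ := open_KF hDc φ A'
  obtain ⟨g, h1, h2⟩ := he (Y ∪ Y')
  refine ⟨g, h1, hY' _ fun y hy => ?_, fun y hy => h2 y (Finset.mem_union_left _ hy)⟩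
  change (φ g : Perm ℕ)⁻¹ ((e : Perm ℕ) y) = y
  rw [Perm.inv_eq_iff_eq]
  exact (h2 y (Finset.mem_union_right _ hy)).symm

/-- approximation from the left -/
theorem KF_step' (hDc : ClosedG D) (φ : G ≃* D) {A A' : Finset ℕ} {e : D} (he : e ∈ KF φ A)
    (Y : Finset ℕ) : ∃ g : G, (∀ x ∈ A, (g : Perm ℕ) x = x) ∧ e * (φ g)⁻¹ ∈ KF φ A' ∧
      ∀ y ∈ Y, (φ g : Perm ℕ) y = (e : Perm ℕ) y := by
  classical
  obtain ⟨Y', hY'⟩ := open_KF hDc φ A'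
  obtain ⟨g, h1, h2⟩ := he (Y ∪ Y'.image ⇑(e : Perm ℕ)⁻¹)
  refine ⟨g, h1, hY' _ fun y hy => ?_, fun y hy => h2 y (Finset.mem_union_left _ hy)⟩
  change (e : Perm ℕ) ((φ g : Perm ℕ)⁻¹ y) = y
  have h3 := h2 ((e : Perm ℕ)⁻¹ y) (Finset.mem_union_right _ (Finset.mem_image_of_mem _ hy))
  rw [ai] at h3
  have h4 : (φ g : Perm ℕ)⁻¹ y = (e : Perm ℕ)⁻¹ y := by
    rw [Perm.inv_eq_iff_eq]
    exact h3.symm
  rw [h4, ai]

theorem back_forth_step (hDc : ClosedG D) (φ : G ≃* D) (d : D) (n : ℕ) (p : G) (A : Finset ℕ)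
    (h : (φ p)⁻¹ * d ∈ KF φ A) : ∃ (p' : G) (A' : Finset ℕ), (φ p')⁻¹ * d ∈ KF φ A' ∧ A ⊆ A' ∧
      (∀ x ∈ A, (p' : Perm ℕ) x = (p : Perm ℕ) x) ∧ n ∈ A' ∧ (∃ x ∈ A', (p' : Perm ℕ) x = n) ∧
      ∀ y ∈ Finset.range (n + 1), (φ p' : Perm ℕ) y = (d : Perm ℕ) y := by
  classical
  obtain ⟨g, hg1, hg2, -⟩ := KF_step hDc φ (A' := insert n A) h ∅
  -- forth
  set p1 : G := p * g with hp1
  have h1 : (φ p1)⁻¹ * d ∈ KF φ (insert n A) := by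
    have e : (φ p1)⁻¹ * d = (φ g)⁻¹ * ((φ p)⁻¹ * d) := by
      rw [hp1, map_mul]
      group
    rw [e]
    exact hg2
  have hp1A : ∀ x ∈ A, (p1 : Perm ℕ) x = (p : Perm ℕ) x := by
    intro x hx
    change (p : Perm ℕ) ((g : Perm ℕ) x) = (p : Perm ℕ) x
    rw [hg1 x hx]
  -- back
  have h2 : d * (φ p1)⁻¹ ∈ KF φ ((insert n A).image ⇑(p1 : Perm ℕ)) := by
    have := KF_conj h1 p1 (F' := (insert n A).image ⇑(p1 : Perm ℕ)) (fun x hx => by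
      obtain ⟨y, hy, rfl⟩ := Finset.mem_image.1 hx
      rw [ia]
      exact hy)
    have e : φ p1 * ((φ p1)⁻¹ * d) * (φ p1)⁻¹ = d * (φ p1)⁻¹ := by group
    rwa [e] at this
  obtain ⟨g', hg1', hg2', hg3'⟩ := KF_step' hDc φ
    (A' := insert n ((insert n A).image ⇑(p1 : Perm ℕ))) h2
    ((Finset.range (n + 1)).image ⇑(φ p1 : Perm ℕ))
  set p' : G := g' * p1 with hp'
  have h3 : d * (φ p')⁻¹ ∈ KF φ (insert n ((insert n A).image ⇑(p1 : Perm ℕ))) := by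
    have e : d * (φ p')⁻¹ = d * (φ p1)⁻¹ * (φ g')⁻¹ := by
      rw [hp', map_mul]
      group
    rw [e]
    exact hg2'
  have hp'A : ∀ x ∈ insert n A, (p' : Perm ℕ) x = (p1 : Perm ℕ) x := by
    intro x hx
    change (g' : Perm ℕ) ((p1 : Perm ℕ) x) = (p1 : Perm ℕ) x
    exact hg1' _ (Finset.mem_image_of_mem _ hx)
  refine ⟨p', (insert n ((insert n A).image ⇑(p1 : Perm ℕ))).image ⇑(p' : Perm ℕ)⁻¹, ?_, ?_, ?_,
    ?_, ?_, ?_⟩
  · have := KF_conj h3 p'⁻¹ (F' := (insert n ((insert n A).image ⇑(p1 : Perm ℕ))).image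
      ⇑(p' : Perm ℕ)⁻¹) (fun x hx => by
      obtain ⟨y, hy, rfl⟩ := Finset.mem_image.1 hx
      change (p' : Perm ℕ)⁻¹⁻¹ ((p' : Perm ℕ)⁻¹ y) ∈ _
      rw [inv_inv, ai]
      exact hy)
    have e : φ p'⁻¹ * (d * (φ p')⁻¹) * (φ p'⁻¹)⁻¹ = (φ p')⁻¹ * d := by
      rw [map_inv]
      group
    rwa [e] at this
  · intro x hx
    refine Finset.mem_image.2 ⟨(p1 : Perm ℕ) x, Finset.mem_insert_of_mem
      (Finset.mem_image_of_mem _ (Finset.mem_insert_of_mem hx)), ?_⟩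
    rw [Perm.inv_eq_iff_eq]
    exact (hp'A x (Finset.mem_insert_of_mem hx)).symm
  · intro x hx
    rw [hp'A x (Finset.mem_insert_of_mem hx), hp1A x hx]
  · refine Finset.mem_image.2 ⟨(p1 : Perm ℕ) n, Finset.mem_insert_of_mem
      (Finset.mem_image_of_mem _ (Finset.mem_insert_self _ _)), ?_⟩
    rw [Perm.inv_eq_iff_eq]
    exact (hp'A n (Finset.mem_insert_self _ _)).symm
  · exact ⟨(p' : Perm ℕ)⁻¹ n, Finset.mem_image_of_mem _ (Finset.mem_insert_self _ _), ai _ _⟩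
  · intro y hy
    have h4 := hg3' _ (Finset.mem_image_of_mem ⇑(φ p1 : Perm ℕ) hy)
    rw [hp', map_mul]
    change (φ g' : Perm ℕ) ((φ p1 : Perm ℕ) y) = (d : Perm ℕ) y
    rw [h4]
    change (d : Perm ℕ) ((φ p1 : Perm ℕ)⁻¹ ((φ p1 : Perm ℕ) y)) = _
    rw [ia]

/-- the open mapping theorem for the closure of the graph -/
theorem open_lim (hGc : ClosedG G) (hDc : ClosedG D) (φ : G ≃* D) (F : Finset ℕ) :
    ∃ Y : Finset ℕ, ∀ d : D, (∀ y ∈ Y, (d : Perm ℕ) y = y) →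
      ∃ g : G, (∀ x ∈ F, (g : Perm ℕ) x = x) ∧ LimP φ.toMonoidHom (g : Perm ℕ) (d : Perm ℕ) := by
  classical
  obtain ⟨Y, hY⟩ := open_KF hDc φ F
  refine ⟨Y, fun d hd => ?_⟩
  have hd0 : d ∈ KF φ F := hY d hd
  have hstep : ∀ (n : ℕ) (q : {q : G × Finset ℕ // (φ q.1)⁻¹ * d ∈ KF φ q.2}),
      ∃ q' : {q : G × Finset ℕ // (φ q.1)⁻¹ * d ∈ KF φ q.2}, q.1.2 ⊆ q'.1.2 ∧
        (∀ x ∈ q.1.2, (q'.1.1 : Perm ℕ) x = (q.1.1 : Perm ℕ) x) ∧ n ∈ q'.1.2 ∧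
        (∃ x ∈ q'.1.2, (q'.1.1 : Perm ℕ) x = n) ∧
        ∀ y ∈ Finset.range (n + 1), (φ q'.1.1 : Perm ℕ) y = (d : Perm ℕ) y := by
    intro n q
    obtain ⟨p', A', h1, h2⟩ := back_forth_step hDc φ d n q.1.1 q.1.2 q.2
    exact ⟨⟨(p', A'), h1⟩, h2⟩
  choose st h1 h2 h3 h4 h5 using hstep
  let q0 : {q : G × Finset ℕ // (φ q.1)⁻¹ * d ∈ KF φ q.2} := ⟨(1, F), by
    rw [map_one, inv_one, one_mul]
    exact hd0⟩
  let L : ℕ → {q : G × Finset ℕ // (φ q.1)⁻¹ * d ∈ KF φ q.2} :=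
    fun n => Nat.rec q0 (fun n q => st n q) n
  have hLs : ∀ n, L (n + 1) = st n (L n) := fun n => rfl
  have hmono : ∀ n m, n ≤ m → (L n).1.2 ⊆ (L m).1.2 ∧
      ∀ x ∈ (L n).1.2, ((L m).1.1 : Perm ℕ) x = ((L n).1.1 : Perm ℕ) x := by
    intro n m hnm
    induction hnm with
    | refl => exact ⟨Finset.Subset.refl _, fun _ _ => rfl⟩
    | step _ ih =>
      rename_i m _
      obtain ⟨i1, i2⟩ := ih
      rw [Nat.succ_eq_add_one, hLs]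
      exact ⟨i1.trans (h1 m (L m)), fun x hx => by rw [h2 m (L m) x (i1 hx), i2 x hx]⟩
  have hmem : ∀ x, x ∈ (L (x + 1)).1.2 := fun x => by
    rw [hLs]
    exact h3 x (L x)
  let f : ℕ → ℕ := fun x => ((L (x + 1)).1.1 : Perm ℕ) x
  have hf : ∀ x m, x + 1 ≤ m → ((L m).1.1 : Perm ℕ) x = f x := fun x m hm =>
    (hmono _ _ hm).2 x (hmem x)
  have hcl : Cl G f := by
    intro E
    refine ⟨((L (E.sup id + 1)).1.1 : Perm ℕ), (L (E.sup id + 1)).1.1.2, fun x hx => ?_⟩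
    exact hf x (E.sup id + 1) (Nat.succ_le_succ (Finset.le_sup (f := id) hx))
  have hsur : Function.Surjective f := by
    intro n
    obtain ⟨x, hx, hxn⟩ := h4 n (L n)
    refine ⟨x, ?_⟩
    rw [← hf x (max (x + 1) (n + 1)) (le_max_left _ _),
      (hmono (n + 1) _ (le_max_right _ _)).2 x (by rw [hLs]; exact hx), hLs]
    exact hxn
  let r : Perm ℕ := Equiv.ofBijective f ⟨hcl.injective, hsur⟩
  have hr : (⇑r : ℕ → ℕ) = f := rfl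
  have hrG : r ∈ G := hGc r (by rw [hr]; exact hcl)
  refine ⟨⟨r, hrG⟩, fun x hx => ?_, fun E Y' => ?_⟩
  · change f x = x
    rw [← hf x (x + 1) le_rfl]
    have := (hmono 0 (x + 1) (Nat.zero_le _)).2 x hx
    rw [this]
    rfl
  · refine ⟨(L (max (E.sup id) (Y'.sup id) + 1)).1.1, fun x hx => ?_, fun y hy => ?_⟩
    · exact hf x _ (Nat.succ_le_succ ((Finset.le_sup (f := id) hx).trans (le_max_left _ _)))
    · rw [hLs]
      refine h5 _ _ y (Finset.mem_range.2 (Nat.lt_succ_of_le ?_))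
      exact (Finset.le_sup (f := id) hy).trans (le_max_right _ _)

/-- a locally finite isomorphism has a locally finite inverse -/
theorem locFin_symm (hGc : ClosedG G) (hG : Oligo G) (hDc : ClosedG D) (φ : G ≃* D)
    (h1 : LocFin φ.toMonoidHom) : LocFin φ.symm.toMonoidHom := by
  classical
  intro x
  obtain ⟨Y, hY⟩ := open_lim hGc hDc φ {x}
  refine ⟨Y, (KT_orb hGc hG hDc φ h1 x).toFinset, fun d hd => ?_⟩
  rw [Set.Finite.mem_toFinset]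
  obtain ⟨g, hg, hlim⟩ := hY d hd
  have hgx : (g : Perm ℕ) x = x := hg x (by simp)
  set g0 : G := φ.symm d with hg0
  have hφ0 : φ g0 = d := φ.apply_symm_apply d
  have hinv : LimP φ.toMonoidHom ((g⁻¹ : G) : Perm ℕ) ((d⁻¹ : D) : Perm ℕ) := by
    intro E Y'
    obtain ⟨w, hw1, hw2⟩ := hlim (E.image ⇑(g : Perm ℕ)⁻¹) (Y'.image ⇑(d : Perm ℕ)⁻¹)
    refine ⟨w⁻¹, fun x hx => ?_, fun z hz => ?_⟩
    · change (w : Perm ℕ)⁻¹ x = (g : Perm ℕ)⁻¹ x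
      rw [Perm.inv_eq_iff_eq, hw1 _ (Finset.mem_image_of_mem _ hx)]
      exact (ai _ _).symm
    · rw [map_inv]
      change (φ.toMonoidHom w : Perm ℕ)⁻¹ z = (d : Perm ℕ)⁻¹ z
      rw [Perm.inv_eq_iff_eq, hw2 _ (Finset.mem_image_of_mem _ hz)]
      exact (ai _ _).symm
  have h3 := (LimP.of φ.toMonoidHom g0).mul hinv
  have e1 : ⇑((φ.toMonoidHom g0 : D) : Perm ℕ) ∘ ⇑((d⁻¹ : D) : Perm ℕ) = id := by
    funext y
    have : φ.toMonoidHom g0 = d := hφ0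
    rw [this]
    exact ai _ _
  rw [e1] at h3
  have hmem : ((g0 * g⁻¹ : G) : Perm ℕ) ∈ KT φ := ⟨(g0 * g⁻¹).2, h3⟩
  refine ⟨_, hmem, ?_⟩
  change (g0 : Perm ℕ) ((g : Perm ℕ)⁻¹ x) = (φ.symm.toMonoidHom d : Perm ℕ) x
  have h4 : (g : Perm ℕ)⁻¹ x = x := by
    rw [Perm.inv_eq_iff_eq]
    exact hgx.symm
  rw [h4]
  rfl

end Pool.Agent.Olig
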