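import Pool.Agent.Olig.LoB

/-!
# Independent blocks, with an invariant relation
-/

open Equiv Filter

namespace Pool.Agent.Olig.LO

variable {I : Type} [LinearOrder I]

theorem exists_blocksR (I : Type) [LinearOrder I] {G T : Subgroup (Perm ℕ)} (hc : ClosedG G)
    (hG : Oligo G) (hTG : T ≤ G) (hTn : ∀ g ∈ G, ∀ t ∈ T, g * t * g⁻¹ ∈ T) (hTc : ClosedG T)
    (Rl : ℕ → ℕ → Prop) (hR : ∀ g ∈ G, ∀ x y, Rl x y → Rl (g x) (g y))
    (τ : ℕ → Perm ℕ) (hτ : ∀ k, τ k ∈ T) (z : ℕ)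
    (hz : ∀ x, (∃ t ∈ T, t z = x) → ∀ y, ∀ᶠ k in (UU : Filter ℕ), ¬ Rl (τ k x) y)
    (a b : ℕ → I) (hab : ∀ i, a i < b i) (hba : ∀ k i, k < i → b k < a i) (α : ℕ → (I ≃o I))
    (hα : ∀ i, α i (a i) = b i) (hα' : ∀ i k, k ≠ i → α i (a k) = a k) :
    ∃ (c g : ℕ → Perm ℕ) (z' : ℕ), (∀ j, c j ∈ T) ∧ (∀ j, g j ∈ G) ∧ (∀ j, g j z' = z') ∧
      (∀ j k, j ≠ k → g j * c k = c k * g j) ∧
      ∀ (ε : ℕ → Bool) (i : ℕ), ¬ Rl (g i (c i (tt c ε i z'))) (c i (tt c ε i z')) := by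
  classical
  obtain ⟨H, hHc, hB, -⟩ := exists_countable_subgroup (α := Perm (Am I)) (Ω := ℕ) (fun _ n => n)
    (Set.range (fun j => ac (cj' (a j) τ)) ∪ Set.range (fun j => ix (α j)))
    ((Set.countable_range _).union (Set.countable_range _)) (fun _ => ∅)
    (fun _ => Set.countable_empty)
  let HH : Subgroup (Perm (Am I)) := H ⊓ ElemG hG
  have hHHc : (HH : Set (Perm (Am I))).Countable := hHc.mono fun π hπ => hπ.1
  have hCm : ∀ j, ac (cj' (a j) τ) ∈ HH := fun j =>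
    ⟨hB (Or.inl ⟨j, rfl⟩), elem_ac hG fun w => hTG (hτ _)⟩
  have hAm : ∀ j, ix (α j) ∈ HH := fun j => ⟨hB (Or.inr ⟨j, rfl⟩), elem_ix hG _⟩
  obtain ⟨C, e, ht, hcs, h1, h2, h3⟩ := exists_model2 I hc hG HH hHHc (fun π hπ => hπ.2)
  let c : ℕ → Perm ℕ := fun j => ht (ac (cj' (a j) τ))
  let g : ℕ → Perm ℕ := fun j => ht (ix (α j))
  have hcj : ∀ j (x : C), ∃ h, c j (e x) = e ⟨ac (cj' (a j) τ) x, h⟩ := fun j x => h2 _ (hCm j) x
  have hgj : ∀ j (x : C), ∃ h, g j (e x) = e ⟨ix (α j) x, h⟩ := fun j x => h2 _ (hAm j) x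
  have hcT : ∀ j, c j ∈ T := by
    intro j
    refine hTc _ fun F => ?_
    obtain ⟨γ, hγ, hl⟩ := h3 (F.image e.symm ∪ F.image (fun n => e.symm (c j n)))
    have h4 : ∀ n ∈ F, ∀ᶠ w in DL I, τ (w (a j)) (γ.1 w n) = γ.1 w (c j n) := by
      intro n hn
      have h5 := hl (e.symm n) (Finset.mem_union_left _ (Finset.mem_image_of_mem _ hn))
      have h6 := hl (e.symm (c j n)) (Finset.mem_union_right _
        (Finset.mem_image_of_mem (fun n => e.symm (c j n)) hn))
      obtain ⟨h7, h8⟩ := hcj j (e.symm n)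
      rw [e.apply_symm_apply] at h5 h8
      rw [e.apply_symm_apply] at h6
      have h9 : ((e.symm (c j n) : C) : Am I) = ac (cj' (a j) τ) (e.symm n) := by
        rw [h8, e.symm_apply_apply]
      rw [h9, h5, ac_cs, ac_cs, ac_mk, Am_eq] at h6
      exact h6
    obtain ⟨w, hw⟩ := ((Filter.eventually_all_finset F).2 h4).exists
    refine ⟨(γ.1 w)⁻¹ * τ (w (a j)) * γ.1 w, ?_, fun n hn => ?_⟩
    · have := hTn (γ.1 w)⁻¹ (G.inv_mem (hγ w)) _ (hτ (w (a j)))
      rwa [inv_inv] at this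
    · rw [Perm.mul_apply, Perm.mul_apply, hw n hn, ia]
  have hcomm : ∀ j k, j ≠ k → g j * c k = c k * g j := by
    intro j k hjk
    refine Equiv.ext fun n => ?_
    obtain ⟨x, rfl⟩ := e.surjective n
    obtain ⟨p1, q1⟩ := hcj k x
    obtain ⟨p2, q2⟩ := hgj j ⟨_, p1⟩
    obtain ⟨p3, q3⟩ := hgj j x
    obtain ⟨p4, q4⟩ := hcj k ⟨_, p3⟩
    rw [Perm.mul_apply, Perm.mul_apply, q1, q2, q3, q4]
    congr 1
    refine Subtype.ext ?_
    change ix (α j) (ac (cj' (a k) τ) x) = ac (cj' (a k) τ) (ix (α j) x)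
    generalize (x : Am I) = y
    induction y using Quotient.inductionOn with
    | h f =>
      rw [ac_mk, ix_mk, ix_mk, ac_mk, Am_eq]
      refine Eventually.of_forall fun w => ?_
      change τ (w (α j (a k))) _ = τ (w (a k)) _
      rw [hα' j k (Ne.symm hjk)]
      rfl
  -- finite products in the model
  let tw : (ℕ → Bool) → ℕ → Jx I → Perm ℕ := fun ε n => Nat.rec (fun _ => 1)
    (fun n p w => (if ε n then τ (w (a n)) else 1) * p w) n
  have htw : ∀ ε n w, tw ε (n + 1) w = (if ε n then τ (w (a n)) else 1) * tw ε n w :=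
    fun _ _ _ => rfl
  have htwT : ∀ ε n w, tw ε n w ∈ T := by
    intro ε n w
    induction n with
    | zero => exact T.one_mem
    | succ n ih =>
      rw [htw]
      refine T.mul_mem ?_ ih
      split_ifs
      · exact hτ _
      · exact T.one_mem
  have htwD : ∀ ε n, Dp (tw ε n) ((Finset.range n).image a) := by
    intro ε n
    induction n with
    | zero => exact Dp.const _ _
    | succ n ih =>
      intro x hx w k
      rw [htw, htw, ih x (fun h' => hx ?_) w k, Function.update_of_ne]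
      · rintro rfl
        exact hx (Finset.mem_image_of_mem _ (Finset.mem_range.2 (Nat.lt_succ_self n)))
      · obtain ⟨m, hm, rfl⟩ := Finset.mem_image.1 h'
        exact Finset.mem_image_of_mem _ (Finset.mem_range.2
          ((Finset.mem_range.1 hm).trans (Nat.lt_succ_self n)))
  have hkey : ∀ (ε : ℕ → Bool) (n : ℕ), ∃ (h : ∃ s, Dp (fun w : Jx I => tw ε n w z) s)
      (h' : (⟦⟨fun w => tw ε n w z, h⟩⟧ : Am I) ∈ C),
      tt c ε n (e ⟨cs z, hcs z⟩) = e ⟨⟦⟨fun w => tw ε n w z, h⟩⟧, h'⟩ := by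
    intro ε n
    have hd : ∀ n, ∃ s, Dp (fun w : Jx I => tw ε n w z) s := fun n =>
      ⟨_, (htwD ε n).comp1 fun p => p z⟩
    induction n with
    | zero => exact ⟨hd 0, hcs z, rfl⟩
    | succ n ih =>
      obtain ⟨p1, p2, p3⟩ := ih
      by_cases hε : ε n = true
      · obtain ⟨p4, p5⟩ := hcj n ⟨_, p2⟩
        have e1 : (⟦⟨fun w => tw ε (n + 1) w z, hd (n + 1)⟩⟧ : Am I) =
            ac (cj' (a n) τ) ⟦⟨fun w => tw ε n w z, p1⟩⟧ := by
          rw [ac_mk, Am_eq]
          refine Eventually.of_forall fun w => ?_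
          change tw ε (n + 1) w z = τ (w (a n)) (tw ε n w z)
          rw [htw, if_pos hε, Perm.mul_apply]
        refine ⟨hd (n + 1), by rw [e1]; exact p4, ?_⟩
        rw [tt_succ, if_pos hε, Perm.mul_apply, p3, p5]
        congr 1
        exact Subtype.ext e1.symm
      · have e1 : (⟦⟨fun w => tw ε (n + 1) w z, hd (n + 1)⟩⟧ : Am I) =
            ⟦⟨fun w => tw ε n w z, p1⟩⟧ := by
          rw [Am_eq]
          refine Eventually.of_forall fun w => ?_
          change tw ε (n + 1) w z = tw ε n w z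
          rw [htw, if_neg hε, one_mul]
        refine ⟨hd (n + 1), by rw [e1]; exact p2, ?_⟩
        rw [tt_succ, if_neg hε, one_mul, p3]
        congr 1
        exact Subtype.ext e1.symm
  refine ⟨c, g, e ⟨cs z, hcs z⟩, hcT, fun j => h1 _ (hAm j), fun j => ?_, hcomm, fun ε i => ?_⟩
  · obtain ⟨p1, p2⟩ := hgj j ⟨cs z, hcs z⟩
    rw [p2]
    congr 1
  · obtain ⟨p1, p2, p3⟩ := hkey ε i
    obtain ⟨p4, p5⟩ := hcj i ⟨_, p2⟩
    obtain ⟨p6, p7⟩ := hgj i ⟨_, p4⟩
    rw [p3, p5, p7]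
    intro heq
    obtain ⟨γ, hγ, hl⟩ := h3 {⟨_, p6⟩, ⟨_, p4⟩}
    have l1 := hl ⟨_, p6⟩ (by simp)
    have l2 := hl ⟨_, p4⟩ (by simp)
    simp only at l1 l2
    obtain ⟨n1, hn1⟩ : ∃ n, n = e ⟨_, p6⟩ := ⟨_, rfl⟩
    obtain ⟨n2, hn2⟩ : ∃ n, n = e ⟨_, p4⟩ := ⟨_, rfl⟩
    rw [← hn1] at l1 heq
    rw [← hn2] at l2 heq
    rw [ac_mk, ac_cs, Am_eq] at l2
    rw [ac_mk, ix_mk, ac_cs, Am_eq] at l1
    have h4 : ∀ᶠ w in DL I, Rl (τ (w (α i (a i))) (tw ε i (fun j => w (α i j)) z))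
        (τ (w (a i)) (tw ε i w z)) := by
      filter_upwards [l1, l2] with w w1 w2
      have w1' : τ (w (α i (a i))) (tw ε i (fun j => w (α i j)) z) = γ.1 w n1 := w1
      have w2' : τ (w (a i)) (tw ε i w z) = γ.1 w n2 := w2
      rw [w1', w2']
      exact hR _ (hγ w) _ _ heq
    have hlt : ∀ k, k < i → a k < a i := fun k hk => (hab k).trans (hba k i hk)
    have hni : ∀ k, k < i → a k ≠ b i := fun k hk => ((hlt k hk).trans (hab i)).ne
    have hbi : b i ∉ (Finset.range i).image a := by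
      intro h'
      obtain ⟨m, hm, h5⟩ := Finset.mem_image.1 h'
      exact hni m (Finset.mem_range.1 hm) h5
    have htwα : ∀ w, tw ε i (fun j => w (α i j)) = tw ε i w := by
      intro w
      have : ∀ n, n ≤ i → tw ε n (fun j => w (α i j)) = tw ε n w := by
        intro n
        induction n with
        | zero => exact fun _ => rfl
        | succ n ih =>
          intro hn
          rw [htw ε n (fun j => w (α i j)), htw ε n w, ih (Nat.le_of_succ_le hn),
            hα' i n (Nat.ne_of_lt hn)]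
      exact this i le_rfl
    have h5 : ∀ᶠ w in DL I, ¬ Rl (τ (w (b i)) (tw ε i w z)) (τ (w (a i)) (tw ε i w z)) := by
      refine DL_last (s := insert (a i) ((Finset.range i).image a)) (b := b i) ?_ ?_ fun w => ?_
      · intro x hx
        rcases Finset.mem_insert.1 hx with rfl | hx
        · exact hab i
        · obtain ⟨m, hm, rfl⟩ := Finset.mem_image.1 hx
          exact (hlt m (Finset.mem_range.1 hm)).trans (hab i)
      · have d1 := (htwD ε i).comp1 fun p => p z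
        have d2 : Dp (fun w : Jx I => τ (w (b i)) (tw ε i w z)) _ :=
          ((Dp.coord (b i)).comp1 τ).comp2 d1 fun p x => p x
        have d3 : Dp (fun w : Jx I => τ (w (a i)) (tw ε i w z)) _ :=
          ((Dp.coord (a i)).comp1 τ).comp2 d1 fun p x => p x
        refine (d2.comp2 d3 fun x y => ¬ Rl x y).mono fun x hx => ?_
        simp only [Finset.mem_union, Finset.mem_singleton, Finset.mem_insert] at hx ⊢
        tauto
      · have h6 := hz (tw ε i w z) ⟨_, htwT ε i w, rfl⟩ (τ (w (a i)) (tw ε i w z))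
        filter_upwards [h6] with k hk
        have d1 := htwD ε i (b i) hbi w k
        rw [d1, Function.update_self, Function.update_of_ne (hab i).ne]
        exact hk
    obtain ⟨w, hw1, hw2⟩ := (h4.and h5).exists
    apply hw2
    rw [hα, htwα] at hw1
    exact hw1


end Pool.Agent.Olig.LO
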