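import Pool.Agent.Olig.IterQ
import Pool.Agent.Olig.LoC

/-!
# Normal subgroups with compact quotient under abstract isomorphisms
-/

open Equiv Filter Pointwise

namespace Pool.Agent.Olig

variable {G D K : Subgroup (Perm ℕ)} {Rl : ℕ → ℕ → Prop}

/-- an invariant equivalence relation -/
structure InvEq (D : Subgroup (Perm ℕ)) (Rl : ℕ → ℕ → Prop) : Prop where
  refl : ∀ x, Rl x x
  symm : ∀ {x y}, Rl x y → Rl y x
  trans : ∀ {x y z}, Rl x y → Rl y z → Rl x z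
  inv : ∀ g ∈ D, ∀ {x y}, Rl x y → Rl (g x) (g y)

/-- the stabiliser of a class -/
def spR (h : InvEq D Rl) (x : ℕ) : Subgroup D where
  carrier := {t | Rl ((t : Perm ℕ) x) x}
  one_mem' := h.refl x
  mul_mem' := by
    intro a b ha hb
    exact h.trans (h.inv a a.2 hb) ha
  inv_mem' := by
    intro a ha
    have ha' : Rl ((a : Perm ℕ) x) x := ha
    have h1 := h.inv (a : Perm ℕ)⁻¹ (D.inv_mem a.2) ha'
    rw [ia] at h1
    exact h.symm h1

theorem neumann_ptR (h : InvEq D Rl) (L : Finset ℕ)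
    (hL : ∀ x ∈ L, ¬ ∃ Y : Finset ℕ, ∀ t ∈ D, ∃ y ∈ Y, Rl (t x) y) :
    ∃ t ∈ D, ∀ x ∈ L, ∀ y ∈ L, ¬ Rl (t x) y := by
  classical
  by_contra hcon
  push Not at hcon
  let g : ℕ × ℕ → D := fun p => if h : ∃ u : D, Rl ((u : Perm ℕ) p.1) p.2 then h.choose else 1
  have hg : ∀ p, (∃ u : D, Rl ((u : Perm ℕ) p.1) p.2) → Rl ((g p : Perm ℕ) p.1) p.2 := by
    intro p hp
    have e : g p = hp.choose := dif_pos hp
    rw [e]
    exact hp.choose_spec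
  have hcov : ⋃ p ∈ L ×ˢ L, (g p) • ((spR h p.1 : Subgroup D) : Set D) = Set.univ := by
    rw [Set.eq_univ_iff_forall]
    intro u
    obtain ⟨x, hx, y, hy, e⟩ := hcon u u.2
    refine Set.mem_iUnion₂.2 ⟨(x, y), Finset.mk_mem_product hx hy, ?_⟩
    rw [Set.mem_smul_set_iff_inv_smul_mem]
    change Rl ((g (x, y) : Perm ℕ)⁻¹ ((u : Perm ℕ) x)) x
    have h1 := h.inv (g (x, y) : Perm ℕ)⁻¹ (D.inv_mem (g (x, y)).2) e
    have h2 := h.inv (g (x, y) : Perm ℕ)⁻¹ (D.inv_mem (g (x, y)).2) (hg (x, y) ⟨u, e⟩)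
    rw [ia] at h2
    exact h.trans h1 (h.symm h2)
  obtain ⟨p, hp, hfi⟩ := Subgroup.exists_finiteIndex_of_leftCoset_cover hcov
  refine hL _ (Finset.mem_product.1 hp).1 ?_
  have : Finite (D ⧸ spR h p.1) := Subgroup.finite_quotient_of_finiteIndex
  refine ⟨(Set.finite_range (fun q : D ⧸ spR h p.1 => (q.out : Perm ℕ) p.1)).toFinset, ?_⟩
  intro u hu
  obtain ⟨k, hk⟩ := QuotientGroup.mk_out_eq_mul (spR h p.1) (⟨u, hu⟩ : D)
  refine ⟨_, (Set.Finite.mem_toFinset _).2 ⟨QuotientGroup.mk (⟨u, hu⟩ : D), rfl⟩, ?_⟩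
  simp only
  rw [hk]
  have hk2 : Rl (((k : D) : Perm ℕ) p.1) p.1 := k.2
  exact h.symm (h.inv u hu hk2)

theorem exists_tauR (h : InvEq D Rl) {z : ℕ}
    (hz : ¬ ∃ Y : Finset ℕ, ∀ t ∈ D, ∃ y ∈ Y, Rl (t z) y) : ∃ τ : ℕ → Perm ℕ,
    (∀ k, τ k ∈ D) ∧ ∀ x, (∃ t ∈ D, t z = x) → ∀ y, ∀ᶠ k in (UU : Filter ℕ), ¬ Rl (τ k x) y := by
  classical
  have horb : ∀ x, (∃ t ∈ D, t z = x) → ¬ ∃ Y : Finset ℕ, ∀ t ∈ D, ∃ y ∈ Y, Rl (t x) y := by
    rintro _ ⟨s, hs, rfl⟩ ⟨Y, hY⟩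
    refine hz ⟨Y, fun t ht => ?_⟩
    obtain ⟨y, hy, h1⟩ := hY (t * s⁻¹) (D.mul_mem ht (D.inv_mem hs))
    refine ⟨y, hy, ?_⟩
    rwa [Perm.mul_apply, ia] at h1
  choose τ hτ h1 using fun k : ℕ => neumann_ptR h
    ((Finset.range k).filter (fun x => ∃ t ∈ D, t z = x))
    (fun x hx => horb x (Finset.mem_filter.1 hx).2)
  refine ⟨τ, hτ, fun x hx y => ?_⟩
  by_cases hy : ∃ t ∈ D, Rl (t z) y
  · obtain ⟨t, ht, hty⟩ := hy
    filter_upwards [UU_ge (x + 1), UU_ge (t z + 1)] with k hk hk' hR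
    exact h1 k x (Finset.mem_filter.2 ⟨Finset.mem_range.2 hk, hx⟩) (t z)
      (Finset.mem_filter.2 ⟨Finset.mem_range.2 hk', t, ht, rfl⟩) (h.trans hR (h.symm hty))
  · refine Eventually.of_forall fun k h' => hy ?_
    obtain ⟨t, ht, rfl⟩ := hx
    exact ⟨τ k * t, D.mul_mem (hτ k) ht, h'⟩

/-! ### limits modulo an oligomorphic normal subgroup -/

theorem oligo_ult (hKo : Oligo K) (F : Finset ℕ) (w : ℕ → ℕ) :
    ∃ y, ∀ᶠ k in (UU : Filter ℕ), ∃ n ∈ stb K F, n (w k) = y := by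
  classical
  obtain ⟨T, hT⟩ := ((stb_open K F).oligo hKo) 1
  have h1 : ∀ᶠ k in (UU : Filter ℕ), ∃ t ∈ (T : Set (Fin 1 → ℕ)), ∃ n ∈ stb K F, n (w k) = t 0 := by
    refine Eventually.of_forall fun k => ?_
    obtain ⟨t, ht, g, hg, e⟩ := hT (fun _ => w k)
    refine ⟨t, ht, g⁻¹, (stb K F).inv_mem hg, ?_⟩
    rw [Perm.inv_eq_iff_eq]
    exact (e 0).symm
  rw [Ultrafilter.eventually_exists_mem_iff T.finite_toSet] at h1
  obtain ⟨t, _, ht⟩ := h1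
  exact ⟨t 0, ht⟩

theorem exists_rlim (hGc : ClosedG G) (hKG : K ≤ G) (hKn : ∀ g ∈ G, ∀ k ∈ K, g * k * g⁻¹ ∈ K)
    (hKo : Oligo K) (s : ℕ → Perm ℕ) (hs : ∀ k, s k ∈ G) :
    ∃ r ∈ G, ∀ F : Finset ℕ, ∀ᶠ k in (UU : Filter ℕ), ∃ l ∈ K, ∀ x ∈ F, s k (l x) = r x := by
  classical
  obtain ⟨e, he⟩ := back_and_forth (A := ℕ)
    (fun l => ∀ᶠ k in (UU : Filter ℕ), ∃ m ∈ K, ∀ p ∈ l, s k (m p.1) = p.2)
    (Eventually.of_forall fun k => ⟨1, K.one_mem, by simp⟩)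
    (by
      intro l hl x
      let w : ℕ → ℕ := fun k => if h : ∃ m ∈ K, ∀ p ∈ l, s k (m p.1) = p.2 then
        s k (h.choose x) else 0
      obtain ⟨y, hy⟩ := oligo_ult hKo (l.map (fun p => p.2)).toFinset w
      refine ⟨y, ?_⟩
      filter_upwards [hl, hy] with k hk hk'
      obtain ⟨n, hn, hny⟩ := hk'
      have e1 : w k = s k (hk.choose x) := dif_pos hk
      obtain ⟨hm, hm'⟩ := hk.choose_spec
      rw [e1] at hny
      refine ⟨(s k)⁻¹ * n * s k * hk.choose, K.mul_mem ?_ hm, fun p hp => ?_⟩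
      · have := hKn (s k)⁻¹ (G.inv_mem (hs k)) n hn.1
        rwa [inv_inv] at this
      · simp only [Perm.mul_apply, ai]
        rcases List.mem_cons.1 hp with rfl | hp
        · exact hny
        · rw [hm' p hp]
          exact hn.2 _ (List.mem_toFinset.2 (List.mem_map.2 ⟨p, hp, rfl⟩)))
    (by
      intro l hl y
      let w : ℕ → ℕ := fun k => if h : ∃ m ∈ K, ∀ p ∈ l, s k (m p.1) = p.2 then
        (h.choose)⁻¹ ((s k)⁻¹ y) else 0
      obtain ⟨x, hx⟩ := oligo_ult hKo (l.map (fun p => p.1)).toFinset w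
      refine ⟨x, ?_⟩
      filter_upwards [hl, hx] with k hk hk'
      obtain ⟨n, hn, hny⟩ := hk'
      have e1 : w k = (hk.choose)⁻¹ ((s k)⁻¹ y) := dif_pos hk
      obtain ⟨hm, hm'⟩ := hk.choose_spec
      refine ⟨hk.choose * n⁻¹, K.mul_mem hm (K.inv_mem hn.1), fun p hp => ?_⟩
      rw [Perm.mul_apply]
      rcases List.mem_cons.1 hp with rfl | hp
      · simp only
        rw [← hny, ia, e1, ai, ai]
      · have h1 : n⁻¹ p.1 = p.1 := by
          rw [Perm.inv_eq_iff_eq]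
          exact (hn.2 _ (List.mem_toFinset.2 (List.mem_map.2 ⟨p, hp, rfl⟩))).symm
        rw [h1]
        exact hm' p hp)
    (by
      intro l hl p hp q hq
      obtain ⟨k, m, _, hm⟩ := hl.exists
      rw [← hm p hp, ← hm q hq]
      constructor
      · intro h
        rw [h]
      · intro h
        exact m.injective ((s k).injective h))
  refine ⟨e, hGc _ fun F => ?_, fun F => ?_⟩
  · obtain ⟨l, hl, h⟩ := he F
    obtain ⟨k, m, hmK, hm⟩ := hl.exists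
    exact ⟨s k * m, G.mul_mem (hs k) (hKG hmK), fun x hx => hm _ (h x hx)⟩
  · obtain ⟨l, hl, h⟩ := he F
    filter_upwards [hl] with k hk
    obtain ⟨m, hmK, hm⟩ := hk
    exact ⟨m, hmK, fun x hx => hm _ (h x hx)⟩

theorem comm_mem (hKG : K ≤ G) (hKn : ∀ g ∈ G, ∀ k ∈ K, g * k * g⁻¹ ∈ K) (hKc : ClosedG K)
    {s : ℕ → Perm ℕ} (hs : ∀ k, s k ∈ G) {r : Perm ℕ}
    (hr : ∀ F : Finset ℕ, ∀ᶠ k in (UU : Filter ℕ), ∃ l ∈ K, ∀ x ∈ F, s k (l x) = r x)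
    {g : Perm ℕ} (hg : g ∈ G) {j : ℕ}
    (hc : ∀ k, j ≤ k → g * (s k * (s j)⁻¹) = (s k * (s j)⁻¹) * g) :
    g * (r * (s j)⁻¹) * g⁻¹ * (r * (s j)⁻¹)⁻¹ ∈ K := by
  classical
  refine hKc _ fun F => ?_
  obtain ⟨k, ⟨l, hl, h1⟩, hjk⟩ := ((hr (F.image ⇑r⁻¹ ∪
    F.image (fun x => (s j)⁻¹ (g⁻¹ (s j (r⁻¹ x)))))).and (UU_ge j)).exists
  refine ⟨g * (s k * l * (s j)⁻¹) * g⁻¹ * (s k * l * (s j)⁻¹)⁻¹, ?_, fun x hx => ?_⟩
  · have h2 : s j * l * (s j)⁻¹ ∈ K := hKn _ (hs j) _ hl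
    have h3 : g * (s j * l * (s j)⁻¹) * g⁻¹ ∈ K := hKn _ hg _ h2
    have h4 : (s k * (s j)⁻¹) * (g * (s j * l * (s j)⁻¹) * g⁻¹ * (s j * l * (s j)⁻¹)⁻¹) *
        (s k * (s j)⁻¹)⁻¹ ∈ K :=
      hKn _ (G.mul_mem (hs k) (G.inv_mem (hs j))) _ (K.mul_mem h3 (K.inv_mem h2))
    have h5 : g * (s k * l * (s j)⁻¹) * g⁻¹ * (s k * l * (s j)⁻¹)⁻¹ =
        (s k * (s j)⁻¹) * (g * (s j * l * (s j)⁻¹) * g⁻¹ * (s j * l * (s j)⁻¹)⁻¹) *
        (s k * (s j)⁻¹)⁻¹ := by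
      have h6 : g * (s k * l * (s j)⁻¹) = (g * (s k * (s j)⁻¹)) * (s j * l * (s j)⁻¹) := by group
      rw [h6, hc k hjk]
      group
    rw [h5]
    exact h4
  · have e1 := h1 (r⁻¹ x) (Finset.mem_union_left _ (Finset.mem_image_of_mem _ hx))
    rw [ai] at e1
    have e2 := h1 _ (Finset.mem_union_right _
      (Finset.mem_image_of_mem (fun x => (s j)⁻¹ (g⁻¹ (s j (r⁻¹ x)))) hx))
    have e3 : (s k * l * (s j)⁻¹)⁻¹ x = s j (r⁻¹ x) := by
      rw [Perm.inv_eq_iff_eq, Perm.mul_apply, Perm.mul_apply, ia]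
      exact e1.symm
    have e4 : (r * (s j)⁻¹)⁻¹ x = s j (r⁻¹ x) := by
      rw [Perm.inv_eq_iff_eq, Perm.mul_apply, ia, ai]
    have f1 : (g * (s k * l * (s j)⁻¹) * g⁻¹ * (s k * l * (s j)⁻¹)⁻¹) x =
      g (s k (l ((s j)⁻¹ (g⁻¹ ((s k * l * (s j)⁻¹)⁻¹ x))))) := rfl
    have f2 : (g * (r * (s j)⁻¹) * g⁻¹ * (r * (s j)⁻¹)⁻¹) x =
      g (r ((s j)⁻¹ (g⁻¹ ((r * (s j)⁻¹)⁻¹ x)))) := rfl
    rw [f1, f2, e3, e4, e2]

/-- the image of an oligomorphic closed normal subgroup has finitely many orbits -/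
theorem finite_orbits_image (hGc : ClosedG G) (hKG : K ≤ G)
    (hKn : ∀ g ∈ G, ∀ k ∈ K, g * k * g⁻¹ ∈ K) (hKc : ClosedG K) (hKo : Oligo K)
    (hDc : ClosedG D) (hD : Oligo D) (φ : G ≃* D) :
    ∃ Z : Finset ℕ, ∀ y, ∃ z ∈ Z, ∃ k : G, (k : Perm ℕ) ∈ K ∧ (φ k : Perm ℕ) z = y := by
  classical
  let Rl : ℕ → ℕ → Prop := fun x y => ∃ k : G, (k : Perm ℕ) ∈ K ∧ (φ k : Perm ℕ) x = y
  have hE : InvEq D Rl :=
    { refl := fun x => ⟨1, K.one_mem, by rw [map_one]; rfl⟩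
      symm := by
        rintro x y ⟨k, hk, rfl⟩
        exact ⟨k⁻¹, K.inv_mem hk, by rw [map_inv]; exact ia _ _⟩
      trans := by
        rintro x y z ⟨k, hk, rfl⟩ ⟨k', hk', rfl⟩
        exact ⟨k' * k, K.mul_mem hk' hk, by rw [map_mul]; rfl⟩
      inv := by
        rintro g hg x y ⟨k, hk, rfl⟩
        refine ⟨φ.symm ⟨g, hg⟩ * k * (φ.symm ⟨g, hg⟩)⁻¹, hKn _ (φ.symm ⟨g, hg⟩).2 _ hk, ?_⟩
        rw [map_mul, map_mul, map_inv, φ.apply_symm_apply]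
        change g ((φ k : Perm ℕ) (g⁻¹ (g x))) = g ((φ k : Perm ℕ) x)
        rw [ia] }
  by_contra hcon
  -- a point whose orbit meets infinitely many classes
  obtain ⟨z, hz⟩ : ∃ z, ¬ ∃ Y : Finset ℕ, ∀ t ∈ D, ∃ y ∈ Y, Rl (t z) y := by
    by_contra hcon'
    push Not at hcon'
    choose Y hY using hcon'
    obtain ⟨T, hT⟩ := hD 1
    refine hcon ⟨T.biUnion (fun t => Y (t 0)), fun y => ?_⟩
    obtain ⟨t, ht, g, hg, e⟩ := hT (fun _ => y)
    obtain ⟨z, hz, h1⟩ := hY (t 0) g hg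
    rw [e 0] at h1
    obtain ⟨k, hk, h2⟩ := hE.symm h1
    exact ⟨z, Finset.mem_biUnion.2 ⟨t, ht, hz⟩, k, hk, h2⟩
  obtain ⟨τ, hτ, hz'⟩ := exists_tauR hE hz
  obtain ⟨c, g, z', hcT, hgG, hgz, hcomm, hne⟩ := LO.exists_blocksR (ℕ ×ₗ ℤ) hDc hD le_rfl
    (fun g hg t ht => D.mul_mem (D.mul_mem hg ht) (D.inv_mem hg)) hDc Rl
    (fun g hg x y hxy => hE.inv g hg hxy) τ hτ z hz' (fun i => toLex (i, 0))
    (fun i => toLex (i, 1))
    (fun i => by
      change toLex (i, (0 : ℤ)) < toLex (i, (1 : ℤ))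
      rw [Prod.Lex.toLex_lt_toLex]
      right
      exact ⟨rfl, by norm_num⟩)
    (fun k i hki => by
      change toLex (k, (1 : ℤ)) < toLex (i, (0 : ℤ))
      rw [Prod.Lex.toLex_lt_toLex]
      left
      exact hki)
    LO.bl (fun i => by
      change toLex (i, if i = i then (0 : ℤ) + 1 else 0) = toLex (i, (1 : ℤ))
      simp)
    (fun i k hk => by
      change toLex (k, if k = i then (0 : ℤ) + 1 else 0) = toLex (k, (0 : ℤ))
      rw [if_neg hk])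
  -- elements of `G`
  let sG : (ℕ → Bool) → ℕ → G := fun ε j => φ.symm ⟨LO.tt c ε j, tt_mem hcT ε j⟩
  let gG : ℕ → G := fun j => φ.symm ⟨g j, hgG j⟩
  have htg : ∀ ε i j k, i < j → j ≤ k → g i * (LO.tt c ε k * (LO.tt c ε j)⁻¹) =
      (LO.tt c ε k * (LO.tt c ε j)⁻¹) * g i := by
    intro ε i j k hij hjk
    induction hjk with
    | refl => rw [mul_inv_cancel, mul_one, one_mul]
    | step hjk ih =>
      rename_i k
      rw [Nat.succ_eq_add_one, LO.tt_succ]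
      split_ifs with hε
      · have hik : i ≠ k := Nat.ne_of_lt (hij.trans_le hjk)
        rw [mul_assoc (c k), ← mul_assoc (g i), hcomm i k hik, mul_assoc (c k), ih, ← mul_assoc (c k)]
      · rw [one_mul, ih]
  have htgG : ∀ ε i j k, i < j → j ≤ k → gG i * (sG ε k * (sG ε j)⁻¹) =
      (sG ε k * (sG ε j)⁻¹) * gG i := by
    intro ε i j k hij hjk
    apply φ.injective
    simp only [map_mul, map_inv, sG, gG, φ.apply_symm_apply]
    exact Subtype.ext (htg ε i j k hij hjk)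
  have hlim : ∀ ε, ∃ r : D, ∀ i j, i < j → ∀ x, Rl ((r : Perm ℕ) ((LO.tt c ε j)⁻¹ (g i x)))
      (g i ((r : Perm ℕ) ((LO.tt c ε j)⁻¹ x))) := by
    intro ε
    obtain ⟨r, hrG, hr⟩ := exists_rlim hGc hKG hKn hKo (fun k => (sG ε k : Perm ℕ))
      (fun k => (sG ε k).2)
    refine ⟨φ ⟨r, hrG⟩, fun i j hij x => ?_⟩
    have h1 := comm_mem hKG hKn hKc (s := fun k => (sG ε k : Perm ℕ)) (fun k => (sG ε k).2) hr
      (gG i).2 (j := j) (fun k hk => congrArg Subtype.val (htgG ε i j k hij hk))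
    refine ⟨gG i * (⟨r, hrG⟩ * (sG ε j)⁻¹) * (gG i)⁻¹ * (⟨r, hrG⟩ * (sG ε j)⁻¹)⁻¹, h1, ?_⟩
    have e1 : φ (sG ε j) = ⟨LO.tt c ε j, tt_mem hcT ε j⟩ := φ.apply_symm_apply _
    have e2 : φ (gG i) = ⟨g i, hgG i⟩ := φ.apply_symm_apply _
    simp only [map_mul, map_inv, e1, e2]
    change g i ((φ ⟨r, hrG⟩ : Perm ℕ) ((LO.tt c ε j)⁻¹ ((g i)⁻¹
      (((φ ⟨r, hrG⟩ : Perm ℕ) * (LO.tt c ε j)⁻¹)⁻¹
        ((φ ⟨r, hrG⟩ : Perm ℕ) ((LO.tt c ε j)⁻¹ (g i x))))))) = _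
    rw [← Perm.mul_apply (φ ⟨r, hrG⟩ : Perm ℕ) (LO.tt c ε j)⁻¹ (g i x), ia, ia]
  choose r hr using hlim
  have htfix : ∀ ε i, g i * LO.tt c ε i = LO.tt c ε i * g i := by
    intro ε i
    have : ∀ n, n ≤ i → g i * LO.tt c ε n = LO.tt c ε n * g i := by
      intro n
      induction n with
      | zero => intro _; rw [LO.tt_zero, mul_one, one_mul]
      | succ n ih =>
        intro hn
        rw [LO.tt_succ]
        split_ifs
        · rw [← mul_assoc, hcomm i n (Nat.ne_of_gt hn), mul_assoc, ih (Nat.le_of_succ_le hn),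
            mul_assoc]
        · rw [one_mul, ih (Nat.le_of_succ_le hn)]
    exact this i le_rfl
  have hdist : ∀ (ε ε' : ℕ → Bool) (i : ℕ), (∀ k < i, ε k = ε' k) → ε i = false → ε' i = true →
      ¬ Rl ((r ε : Perm ℕ) z') ((r ε' : Perm ℕ) z') := by
    intro ε ε' i hlt h2 h3 heq
    have e1 := hr ε i (i + 1) (Nat.lt_succ_self i)
    have e2 := hr ε' i (i + 1) (Nat.lt_succ_self i)
    rw [LO.tt_succ, h2] at e1
    rw [LO.tt_succ, h3, ← tt_congr c hlt] at e2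
    simp only [Bool.false_eq_true, if_false, if_true, one_mul] at e1 e2
    have hnei := hne ε i
    set t := LO.tt c ε i with ht
    have h4 : g i (t z') = t z' := by
      have := congrArg (fun x : Perm ℕ => x z') (htfix ε i)
      simp only [Perm.mul_apply] at this
      rw [this, hgz i]
    have htD : t ∈ D := tt_mem hcT ε i
    have f1 := e1 (t z')
    rw [h4, ia] at f1
    have f2 := e2 (c i (t z'))
    have h6 : (c i * t)⁻¹ (c i (t z')) = z' := by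
      rw [Perm.inv_eq_iff_eq]
      rfl
    rw [h6] at f2
    have f3 : Rl (g i ((r ε : Perm ℕ) z')) (g i ((r ε' : Perm ℕ) z')) := hE.inv _ (hgG i) heq
    have f4 : Rl ((r ε' : Perm ℕ) ((c i * t)⁻¹ (g i (c i (t z')))))
        ((r ε' : Perm ℕ) ((c i * t)⁻¹ (c i (t z')))) := by
      rw [h6]
      exact hE.trans f2 (hE.trans (hE.symm f3) (hE.trans (hE.symm f1) heq))
    have f5 := hE.inv _ (D.inv_mem (r ε').2) f4
    rw [ia, ia] at f5
    have f6 := hE.inv _ (D.mul_mem (hcT i) htD) f5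
    rw [ai, ai] at f6
    exact hnei f6
  -- uncountably many sequences
  have hninj := Function.cantor_injective
    (fun A : Set ℕ => (r (fun n => decide (n ∈ A)) : Perm ℕ) z')
  apply hninj
  intro A B hAB
  have hAB' : (r (fun n => decide (n ∈ A)) : Perm ℕ) z' =
    (r (fun n => decide (n ∈ B)) : Perm ℕ) z' := hAB
  by_contra hne'
  have hex : ∃ n, decide (n ∈ A) ≠ decide (n ∈ B) := by
    by_contra hcon
    push Not at hcon
    apply hne'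
    ext n
    have := hcon n
    simpa using this
  obtain ⟨i, hspec, hlt⟩ : ∃ i, decide (i ∈ A) ≠ decide (i ∈ B) ∧
      ∀ k < i, decide (k ∈ A) = decide (k ∈ B) :=
    ⟨Nat.find hex, Nat.find_spec hex, fun k hk => by
      by_contra hk'
      exact Nat.find_min hex hk hk'⟩
  by_cases hA : i ∈ A
  · have hB : i ∉ B := fun h' => hspec (by simp [hA, h'])
    refine hdist (fun n => decide (n ∈ B)) (fun n => decide (n ∈ A)) i
      (fun k hk => (hlt k hk).symm) (by simp [hB]) (by simp [hA]) ?_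
    rw [hAB']
    exact hE.refl _
  · have hB : i ∈ B := by
      by_contra h'
      exact hspec (by simp [hA, h'])
    refine hdist (fun n => decide (n ∈ A)) (fun n => decide (n ∈ B)) i hlt (by simp [hA])
      (by simp [hB]) ?_
    rw [hAB']
    exact hE.refl _

end Pool.Agent.Olig
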