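import Pool.Agent.Olig.IterR

/-!
# Isomorphisms which are tame on an oligomorphic normal subgroup are locally finite
-/

open Equiv Filter Pointwise

namespace Pool.Agent.Olig

variable {G D K : Subgroup (Perm ℕ)}

/-- the action on the point `y` through `φ` of pointwise stabilisers in `K` has a finite orbit -/
def KFin (K : Subgroup (Perm ℕ)) (φ : G →* D) : Prop := ∀ y : ℕ, ∃ F Z : Finset ℕ, ∀ k : G,
  (k : Perm ℕ) ∈ stb K F → (φ k : Perm ℕ) y ∈ Z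

theorem locFin_of_KFin (hGc : ClosedG G) (hKG : K ≤ G)
    (hKn : ∀ g ∈ G, ∀ k ∈ K, g * k * g⁻¹ ∈ K) (hKc : ClosedG K) (hKo : Oligo K)
    (hDc : ClosedG D) (hD : Oligo D) (φ : G ≃* D) (hK : KFin K φ.toMonoidHom) :
    LocFin φ.toMonoidHom := by
  classical
  intro y
  choose Fz Ez hFE using hK
  obtain ⟨Z, hZ⟩ := finite_orbits_image hGc hKG hKn hKc hKo hDc hD φ
  let F := Fz y
  -- finitely many double cosets
  have hT : ∀ z : ℕ, ∃ T : Finset ({x // x ∈ Fz z} → ℕ), ∀ x : {x // x ∈ Fz z} → ℕ, ∃ t ∈ T,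
      ∃ g ∈ stb K F, ∀ i, g (t i) = x i := fun z =>
    ((stb_open K F).oligo hKo).fintype {x // x ∈ Fz z}
  choose T hT using hT
  let P : (z : ℕ) → ({x // x ∈ Fz z} → ℕ) → Prop := fun z t => ∃ h : G, (h : Perm ℕ) ∈ K ∧
    ∀ a : {x // x ∈ Fz z}, (h : Perm ℕ) a.1 = t a
  let h : (z : ℕ) → ({x // x ∈ Fz z} → ℕ) → G := fun z t => if hh : P z t then hh.choose else 1
  have hh : ∀ z t, P z t → ((h z t : G) : Perm ℕ) ∈ K ∧
      ∀ a : {x // x ∈ Fz z}, ((h z t : G) : Perm ℕ) a.1 = t a := by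
    intro z t ht
    have e : h z t = ht.choose := dif_pos ht
    rw [e]
    exact ht.choose_spec
  let W : Finset ℕ := Z.biUnion fun z => (T z).biUnion fun t =>
    (Ez z).image fun e => (φ (h z t) : Perm ℕ) e
  have hW : ∀ x, ∃ w ∈ W, ∃ n : G, (n : Perm ℕ) ∈ stb K F ∧ (φ n : Perm ℕ) w = x := by
    intro x
    obtain ⟨z, hz, k, hk, rfl⟩ := hZ x
    obtain ⟨t, ht, n, hn, e⟩ := hT z (fun a => (k : Perm ℕ) a.1)
    have hnG : n ∈ G := hKG hn.1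
    have hP : P z t := by
      refine ⟨⟨n, hnG⟩⁻¹ * k, K.mul_mem (K.inv_mem hn.1) hk, fun a => ?_⟩
      change n⁻¹ ((k : Perm ℕ) a.1) = t a
      rw [Perm.inv_eq_iff_eq]
      exact (e a).symm
    obtain ⟨h1, h2⟩ := hh z t hP
    let m : G := (h z t)⁻¹ * (⟨n, hnG⟩⁻¹ * k)
    have hm : (m : Perm ℕ) ∈ stb K (Fz z) := by
      refine ⟨K.mul_mem (K.inv_mem h1) (K.mul_mem (K.inv_mem hn.1) hk), fun a ha => ?_⟩
      change ((h z t : G) : Perm ℕ)⁻¹ (n⁻¹ ((k : Perm ℕ) a)) = a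
      rw [Perm.inv_eq_iff_eq, Perm.inv_eq_iff_eq, h2 ⟨a, ha⟩]
      exact (e ⟨a, ha⟩).symm
    have hmz := hFE z m hm
    have hk2 : k = ⟨n, hnG⟩ * (h z t * m) := by
      simp only [m]
      group
    refine ⟨(φ (h z t) : Perm ℕ) ((φ m : Perm ℕ) z), ?_, ⟨n, hnG⟩, hn, ?_⟩
    · exact Finset.mem_biUnion.2 ⟨z, hz, Finset.mem_biUnion.2 ⟨t, ht,
        Finset.mem_image_of_mem _ hmz⟩⟩
    · have e3 : φ k = φ ⟨n, hnG⟩ * (φ (h z t) * φ m) := by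
        rw [← map_mul, ← map_mul, ← hk2]
      exact (congrArg (fun d : D => (d : Perm ℕ) z) e3).symm
  -- the points with finite orbits
  let orb : ℕ → Set ℕ := fun x => {v | ∃ n : G, (n : Perm ℕ) ∈ stb K F ∧ (φ n : Perm ℕ) x = v}
  have horb : ∀ w x, x ∈ orb w → orb x = orb w := by
    rintro w _ ⟨n, hn, rfl⟩
    ext v
    constructor
    · rintro ⟨n', hn', rfl⟩
      exact ⟨n' * n, (stb K F).mul_mem hn' hn, by rw [map_mul]; rfl⟩
    · rintro ⟨n', hn', rfl⟩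
      refine ⟨n' * n⁻¹, (stb K F).mul_mem hn' ((stb K F).inv_mem hn), ?_⟩
      rw [map_mul, map_inv]
      change (φ n' : Perm ℕ) ((φ n : Perm ℕ)⁻¹ ((φ n : Perm ℕ) w)) = _
      rw [ia]
  have hfin : {x | (orb x).Finite}.Finite := by
    refine Set.Finite.subset (s := ⋃ w ∈ W, {v | (orb w).Finite ∧ v ∈ orb w}) ?_ ?_
    · refine W.finite_toSet.biUnion fun w _ => ?_
      by_cases hf : (orb w).Finite
      · exact hf.subset fun v hv => hv.2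
      · refine Set.Finite.subset Set.finite_empty fun v hv => absurd hv.1 hf
    · intro x hx
      obtain ⟨w, hw, n, hn, e⟩ := hW x
      have h1 : x ∈ orb w := ⟨n, hn, e⟩
      refine Set.mem_iUnion₂.2 ⟨w, hw, ?_, h1⟩
      rw [← horb w x h1]
      exact hx
  have hy : (orb y).Finite := by
    refine (Ez y).finite_toSet.subset ?_
    rintro _ ⟨n, hn, rfl⟩
    exact hFE y n hn
  refine ⟨F, hfin.toFinset, fun g hg => (Set.Finite.mem_toFinset _).2 ?_⟩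
  -- invariance
  have h1 : orb ((φ g : Perm ℕ) y) ⊆ (fun v => (φ g : Perm ℕ) v) '' orb y := by
    rintro _ ⟨n, hn, rfl⟩
    refine ⟨(φ (g⁻¹ * n * g) : Perm ℕ) y, ⟨g⁻¹ * n * g, ⟨?_, fun x hx => ?_⟩, rfl⟩, ?_⟩
    · have := hKn (g : Perm ℕ)⁻¹ (G.inv_mem g.2) _ hn.1
      rwa [inv_inv] at this
    · change (g : Perm ℕ)⁻¹ ((n : Perm ℕ) ((g : Perm ℕ) x)) = x
      rw [Perm.inv_eq_iff_eq, hg x hx]
      exact hn.2 x hx
    · rw [map_mul, map_mul, map_inv]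
      change (φ g : Perm ℕ) ((φ g : Perm ℕ)⁻¹ ((φ n : Perm ℕ) ((φ g : Perm ℕ) y))) = _
      rw [ai]
  exact (hy.image _).subset h1

/-- countable index subgroups of `K` contain finite index subgroups of open subgroups -/
def WSI (K : Subgroup (Perm ℕ)) : Prop := ∀ H : Subgroup (Perm ℕ), H ≤ K →
  (∃ C : Set (Perm ℕ), C.Countable ∧ ∀ k ∈ K, ∃ c ∈ C, c⁻¹ * k ∈ H) →
  ∃ (F : Finset ℕ) (R : Set (Perm ℕ)), R.Finite ∧ ∀ k ∈ stb K F, ∃ r ∈ R, r⁻¹ * k ∈ H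

theorem KFin_of_WSI (hKG : K ≤ G) (hW : WSI K) (φ : G →* D) : KFin K φ := by
  classical
  intro y
  let H : Subgroup (Perm ℕ) :=
    { carrier := {k | ∃ g : G, (g : Perm ℕ) = k ∧ k ∈ K ∧ (φ g : Perm ℕ) y = y}
      one_mem' := ⟨1, rfl, K.one_mem, by rw [map_one]; rfl⟩
      mul_mem' := by
        rintro _ _ ⟨g, rfl, hg, h1⟩ ⟨g', rfl, hg', h2⟩
        refine ⟨g * g', rfl, K.mul_mem hg hg', ?_⟩
        rw [map_mul]
        change (φ g : Perm ℕ) ((φ g' : Perm ℕ) y) = y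
        rw [h2, h1]
      inv_mem' := by
        rintro _ ⟨g, rfl, hg, h1⟩
        refine ⟨g⁻¹, rfl, K.inv_mem hg, ?_⟩
        rw [map_inv]
        change (φ g : Perm ℕ)⁻¹ y = y
        rw [Perm.inv_eq_iff_eq]
        exact h1.symm }
  have hHK : H ≤ K := by
    rintro _ ⟨g, rfl, hg, _⟩
    exact hg
  -- equality of values
  have hval : ∀ k k' : G, (k : Perm ℕ) ∈ K → (k' : Perm ℕ) ∈ K →
      (φ k : Perm ℕ) y = (φ k' : Perm ℕ) y → (k' : Perm ℕ)⁻¹ * k ∈ H := by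
    intro k k' hk hk' e
    refine ⟨k'⁻¹ * k, rfl, K.mul_mem (K.inv_mem hk') hk, ?_⟩
    rw [map_mul, map_inv]
    change (φ k' : Perm ℕ)⁻¹ ((φ k : Perm ℕ) y) = y
    rw [Perm.inv_eq_iff_eq]
    exact e
  let c : ℕ → Perm ℕ := fun z => if h : ∃ k : G, (k : Perm ℕ) ∈ K ∧ (φ k : Perm ℕ) y = z then
    (h.choose : Perm ℕ) else 1
  obtain ⟨F, R, hR, hFR⟩ := hW H hHK ⟨Set.range c, Set.countable_range _, by
    intro k hk
    let k' : G := ⟨k, hKG hk⟩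
    have hex : ∃ g : G, (g : Perm ℕ) ∈ K ∧ (φ g : Perm ℕ) y = (φ k' : Perm ℕ) y := ⟨k', hk, rfl⟩
    refine ⟨c ((φ k' : Perm ℕ) y), ⟨_, rfl⟩, ?_⟩
    have e : c ((φ k' : Perm ℕ) y) = (hex.choose : Perm ℕ) := dif_pos hex
    rw [e]
    exact hval k' hex.choose hk hex.choose_spec.1 hex.choose_spec.2.symm⟩
  have hfin : {z | ∃ k : G, (k : Perm ℕ) ∈ stb K F ∧ (φ k : Perm ℕ) y = z}.Finite := by
    refine Set.Finite.subset (s := ⋃ r ∈ R, {z | ∃ k : G, r⁻¹ * (k : Perm ℕ) ∈ H ∧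
      (φ k : Perm ℕ) y = z}) ?_ ?_
    · refine hR.biUnion fun r _ => Set.Subsingleton.finite ?_
      rintro _ ⟨k, hk, rfl⟩ _ ⟨k', hk', rfl⟩
      have h1 := H.mul_mem (H.inv_mem hk) hk'
      have h2 : (r⁻¹ * (k : Perm ℕ))⁻¹ * (r⁻¹ * (k' : Perm ℕ)) = (k : Perm ℕ)⁻¹ * k' := by group
      rw [h2] at h1
      obtain ⟨g, hg, _, h3⟩ := h1
      have h4 : g = k⁻¹ * k' := Subtype.ext hg
      rw [h4, map_mul, map_inv] at h3
      change (φ k : Perm ℕ)⁻¹ ((φ k' : Perm ℕ) y) = y at h3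
      rw [Perm.inv_eq_iff_eq] at h3
      exact h3.symm
    · rintro _ ⟨k, hk, rfl⟩
      obtain ⟨r, hr, h1⟩ := hFR k hk
      exact Set.mem_iUnion₂.2 ⟨r, hr, k, h1, rfl⟩
  exact ⟨F, hfin.toFinset, fun k hk => (Set.Finite.mem_toFinset _).2 ⟨k, hk, rfl⟩⟩

end Pool.Agent.Olig
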