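import Pool.Agent.Olig.IterS

/-!
# The image of an oligomorphic normal subgroup is oligomorphic
-/

open Equiv Filter Pointwise

namespace Pool.Agent.Olig

variable {G D K : Subgroup (Perm ℕ)}

theorem oligo_image (hGc : ClosedG G) (hKG : K ≤ G)
    (hKn : ∀ g ∈ G, ∀ k ∈ K, g * k * g⁻¹ ∈ K) (hKc : ClosedG K) (hKo : Oligo K)
    (hDc : ClosedG D) (hD : Oligo D) (φ : G ≃* D) (n : ℕ) :
    ∃ Z : Finset (Fin n → ℕ), ∀ y : Fin n → ℕ, ∃ z ∈ Z, ∃ k : G, (k : Perm ℕ) ∈ K ∧
      ∀ i, (φ k : Perm ℕ) (z i) = y i := by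
  classical
  rcases n with _ | n
  · exact ⟨{fun _ => 0}, fun y => ⟨_, Finset.mem_singleton_self _, 1, K.one_mem, fun i => i.elim0⟩⟩
  obtain ⟨e⟩ : Nonempty (ℕ ≃ (Fin (n + 1) → ℕ)) := nonempty_equiv_of_countable
  let π : Perm ℕ →* Perm ℕ := MonoidHom.mk'
    (fun d => ⟨fun m => e.symm (fun i => d (e m i)), fun m => e.symm (fun i => d⁻¹ (e m i)),
      fun m => by simp, fun m => by simp⟩) (fun a b => Equiv.ext fun m => by simp)
  have hπ : ∀ d m, π d m = e.symm (fun i => d (e m i)) := fun d m => rfl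
  have hπe : ∀ d x, π d (e.symm x) = e.symm (fun i => d (x i)) := fun d x => by
    rw [hπ, e.apply_symm_apply]
  have hπi : Function.Injective π := by
    intro a b hab
    refine Equiv.ext fun x => ?_
    have h1 := congrArg (fun g : Perm ℕ => e (g (e.symm (fun _ => x))) 0) hab
    simp only [hπe, e.apply_symm_apply] at h1
    exact h1
  have hD'c : ClosedG (D.map π) := by
    intro g hg
    have hsym : ∀ F : Finset ℕ, ∃ d ∈ D, ∀ m ∈ F, π d m = g m := by
      intro F
      obtain ⟨_, ⟨d, hd, rfl⟩, h1⟩ := hg F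
      exact ⟨d, hd, h1⟩
    -- the diagonal
    have hdiag : ∀ x, ∃ y, g (e.symm (fun _ => x)) = e.symm (fun _ => y) := by
      intro x
      obtain ⟨d, _, h1⟩ := hsym {e.symm (fun _ => x)}
      refine ⟨d x, ?_⟩
      rw [← h1 _ (Finset.mem_singleton_self _), hπe]
    choose f hf using hdiag
    have hfd : ∀ (F : Finset ℕ) (M : Finset ℕ), ∃ d ∈ D, (∀ x ∈ F, d x = f x) ∧
        ∀ m ∈ M, π d m = g m := by
      intro F M
      obtain ⟨d, hd, h1⟩ := hsym (F.image (fun x => e.symm (fun _ => x)) ∪ M)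
      refine ⟨d, hd, fun x hx => ?_, fun m hm => h1 m (Finset.mem_union_right _ hm)⟩
      have h2 := h1 _ (Finset.mem_union_left _ (Finset.mem_image_of_mem (fun x => e.symm (fun _ => x)) hx))
      rw [hπe, hf] at h2
      exact congrFun (e.symm.injective h2) 0
    have hfi : Function.Injective f := by
      intro a b hab
      obtain ⟨d, _, h1, _⟩ := hfd {a, b} ∅
      have h2 := h1 a (by simp)
      have h3 := h1 b (by simp)
      exact d.injective (by rw [h2, h3, hab])
    have hfs : Function.Surjective f := by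
      intro y
      obtain ⟨d, hd, h1⟩ := hsym {g.symm (e.symm (fun _ => y))}
      have h2 := h1 _ (Finset.mem_singleton_self _)
      rw [g.apply_symm_apply, hπ] at h2
      have h3 := e.symm.injective h2
      refine ⟨e (g.symm (e.symm (fun _ => y))) 0, ?_⟩
      have h4 : e (g.symm (e.symm (fun _ => y))) =
          fun _ => e (g.symm (e.symm (fun _ => y))) 0 := by
        funext i
        have e1 := congrFun h3 i
        have e2 := congrFun h3 0
        exact d.injective (e1.trans e2.symm)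
      have h5 := hf (e (g.symm (e.symm (fun _ => y))) 0)
      rw [← h4, e.symm_apply_apply, g.apply_symm_apply] at h5
      exact (congrFun (e.symm.injective h5) 0).symm
    let p : Perm ℕ := Equiv.ofBijective f ⟨hfi, hfs⟩
    have hpf : ∀ x, p x = f x := fun x => rfl
    have hp : p ∈ D := by
      refine hDc p fun F => ?_
      obtain ⟨d, hd, h1, _⟩ := hfd F ∅
      exact ⟨d, hd, h1⟩
    refine ⟨p, hp, Equiv.ext fun m => ?_⟩
    obtain ⟨d, hd, h1, h2⟩ := hfd (Finset.univ.image (e m)) {m}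
    rw [← h2 m (Finset.mem_singleton_self _), hπ, hπ]
    congr 1
    funext i
    rw [hpf, h1 _ (Finset.mem_image_of_mem _ (Finset.mem_univ i))]
  have hD' : Oligo (D.map π) := by
    intro k
    obtain ⟨T, hT⟩ := hD.fintype (Fin k × Fin (n + 1))
    refine ⟨T.image (fun t j => e.symm (fun i => t (j, i))), fun x => ?_⟩
    obtain ⟨t, ht, g, hg, h1⟩ := hT (fun p => e (x p.1) p.2)
    refine ⟨_, Finset.mem_image_of_mem _ ht, π g, ⟨g, hg, rfl⟩, fun j => ?_⟩
    rw [hπe]
    apply e.injective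
    rw [e.apply_symm_apply]
    funext i
    exact h1 (j, i)
  obtain ⟨Z, hZ⟩ := finite_orbits_image hGc hKG hKn hKc hKo hD'c hD'
    (φ.trans (D.equivMapOfInjective π hπi))
  refine ⟨Z.image e, fun y => ?_⟩
  obtain ⟨z, hz, k, hk, h1⟩ := hZ (e.symm y)
  refine ⟨e z, Finset.mem_image_of_mem _ hz, k, hk, fun i => ?_⟩
  have h2 : ((φ.trans (D.equivMapOfInjective π hπi)) k : Perm ℕ) = π (φ k : Perm ℕ) := rfl
  rw [h2, hπ] at h1
  exact congrFun (e.symm.injective h1) i

end Pool.Agent.Olig
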