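import Pool.Agent.Olig.NecA

/-!
# Isomorphisms from the closure of an oligomorphic group: the image is a closure

Main results: `ClIso.finP`, `ClIso.finR` (finite orbits of small subgroups), `ClIso.cl_of_N`.
-/

open Equiv Filter

namespace Pool.Agent.Olig

/-- points outside the range of `w` are moved by elements fixing the range -/
def Mover (G : Subgroup (Perm ℕ)) (w : ℕ → ℕ) : Prop :=
  ∀ x, (∀ y, w y ≠ x) → ∃ γ ∈ G, ⇑γ ∘ w = w ∧ γ x ≠ x

theorem Mover.mul_left {G : Subgroup (Perm ℕ)} {w : ℕ → ℕ} (h : Mover G w) {g : Perm ℕ}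
    (hg : g ∈ G) : Mover G (⇑g ∘ w) := by
  intro x hx
  obtain ⟨γ, hγ, h1, h2⟩ := h (g⁻¹ x) (fun y hy => hx y (by
    rw [Function.comp_apply, hy, ai]))
  refine ⟨g * γ * g⁻¹, G.mul_mem (G.mul_mem hg hγ) (G.inv_mem hg), ?_, ?_⟩
  · funext y
    have h3 := congrFun h1 y
    simp only [Function.comp_apply] at h3 ⊢
    rw [Perm.mul_apply, Perm.mul_apply, ia, h3]
  · rw [Perm.mul_apply, Perm.mul_apply]
    intro h3
    apply h2
    apply g.injective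
    rw [h3, ai]

/-- points with a finite orbit under a pointwise stabiliser -/
theorem finite_acl {G : Subgroup (Perm ℕ)} (hG : Oligo G) (E : Finset ℕ) :
    {x | {z | ∃ v ∈ stb G E, v x = z}.Finite}.Finite := by
  classical
  obtain ⟨T, hT⟩ := ((stb_open G E).oligo hG) 1
  refine Set.Finite.subset (s := ⋃ τ ∈ T, {y | {z | ∃ v ∈ stb G E, v (τ 0) = z}.Finite ∧
    y ∈ {z | ∃ v ∈ stb G E, v (τ 0) = z}}) ?_ ?_
  · refine Set.Finite.biUnion T.finite_toSet (fun τ _ => ?_)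
    by_cases hf : {z | ∃ v ∈ stb G E, v (τ 0) = z}.Finite
    · exact hf.subset fun y hy => hy.2
    · exact Set.finite_empty.subset fun y hy => hf hy.1
  · intro c hc
    obtain ⟨τ, hτ, v, hv, hvc⟩ := hT (fun _ => c)
    have hvc := hvc 0
    refine Set.mem_iUnion₂.2 ⟨τ, hτ, ?_, ⟨v, hv, hvc⟩⟩
    refine Set.Finite.subset hc ?_
    rintro z ⟨w, hw, rfl⟩
    refine ⟨w * v⁻¹, (stb G E).mul_mem hw ((stb G E).inv_mem hv), ?_⟩
    rw [← hvc, Perm.mul_apply, ia]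

/-- a point with infinite orbit is missed -/
theorem exists_miss {G : Subgroup (Perm ℕ)} (hG : Oligo G) (E : Finset ℕ) (x : ℕ)
    (hinf : ¬ {z | ∃ v ∈ stb G E, v x = z}.Finite) :
    ∃ t, Cl G t ∧ Fx E t ∧ x ∉ Set.range t := by
  classical
  have hv : ∀ n : ℕ, ∃ v ∈ stb G E, ∀ j < n, v j ≠ x := by
    intro n
    by_contra hcon
    push Not at hcon
    refine hinf ((Finset.range n).finite_toSet.subset ?_)
    rintro z ⟨v, hv, rfl⟩
    obtain ⟨j, hj, hj2⟩ := hcon v⁻¹ ((stb G E).inv_mem hv)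
    rw [Perm.inv_eq_iff_eq] at hj2
    rw [← hj2]
    exact Finset.mem_coe.2 (Finset.mem_range.2 hj)
  choose v hv hvn using hv
  obtain ⟨t, ht⟩ := exists_lim ((stb_open G (insert x E)).oligo hG) (fun n j => v n j)
  refine ⟨t, ?_, ?_, ?_⟩
  · intro S
    obtain ⟨n, g, hg, h3⟩ := (ht (S.sup id + 1)).exists
    exact ⟨g * v n, G.mul_mem hg.1 (hv n).1, fun x hx =>
      (h3 x (Nat.lt_succ_of_le (Finset.le_sup (f := id) hx))).symm⟩
  · intro x hx
    obtain ⟨n, g, hg, h3⟩ := (ht (x + 1)).exists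
    rw [h3 x (Nat.lt_succ_self x), (hv n).2 x hx, hg.2 x (Finset.mem_insert_of_mem hx)]
  · rintro ⟨a, ha⟩
    obtain ⟨n, ⟨g, hg, h3⟩, hn⟩ := ((ht (a + 1)).and (UU_ge (a + 1))).exists
    rw [h3 a (Nat.lt_succ_self a)] at ha
    have h4 : g (v n a) = g x := by rw [ha, hg.2 x (Finset.mem_insert_self _ _)]
    exact hvn n a hn (g.injective h4)

/-- the points in all ranges of movers fixing `E` -/
theorem finite_movers {G : Subgroup (Perm ℕ)} (hc : ClosedG G) (hG : Oligo G) (E : Finset ℕ) :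
    {x | ∀ w, Cl G w → Fx E w → Mover G w → x ∈ Set.range w}.Finite := by
  classical
  refine (finite_acl hG E).subset ?_
  intro x hx
  by_contra hinf
  obtain ⟨t, ht, htE, hxt⟩ := exists_miss hG E x hinf
  obtain ⟨r, hr, hext, hmove⟩ := exists_s hc hG {t} (Set.countable_singleton _) (by
    intro f hf
    rw [Set.mem_singleton_iff.1 hf]
    exact ht)
  obtain ⟨g, hg, e⟩ := hext t rfl
  obtain ⟨g1, hg1, h1⟩ := hr (insert x E)
  have hw : (⇑g1⁻¹ ∘ (r ∘ t) : ℕ → ℕ) = ⇑(g1⁻¹ * g) ∘ r := by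
    rw [e]
    rfl
  have hmem : g1⁻¹ * g ∈ G := G.mul_mem (G.inv_mem hg1) hg
  obtain ⟨a, ha⟩ := hx (⇑g1⁻¹ ∘ (r ∘ t)) ((hr.comp ht).mul_left (G.inv_mem hg1))
    (fun y hy => by
      simp only [Function.comp_apply]
      rw [htE y hy, ← h1 y (Finset.mem_insert_of_mem hy), ia])
    (by rw [hw]; exact Mover.mul_left hmove hmem)
  simp only [Function.comp_apply] at ha
  rw [Perm.inv_eq_iff_eq, h1 x (Finset.mem_insert_self _ _)] at ha
  exact hxt ⟨a, hr.injective ha⟩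

/-- approximating sequences -/
theorem Cl.exists_seq {G : Subgroup (Perm ℕ)} {s : ℕ → ℕ} (hs : Cl G s) (E : Finset ℕ) :
    ∃ k : ℕ → Perm ℕ, (∀ i, k i ∈ G) ∧ (∀ i, ∀ x ∈ E, k i x = s x) ∧
      ∀ x, ∀ᶠ i in (UU : Filter ℕ), k i x = s x := by
  classical
  choose k hk h using fun i : ℕ => hs (E ∪ Finset.range (i + 1))
  refine ⟨k, hk, fun i x hx => h i x (Finset.mem_union_left _ hx), fun x => ?_⟩
  filter_upwards [UU_ge x] with i hi
  exact h i x (Finset.mem_union_right _ (Finset.mem_range.2 (Nat.lt_succ_of_le hi)))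

/-- a sequence with eventually finitely many values is eventually constant -/
theorem UU_const {f : ℕ → ℕ} {Z : Finset ℕ} (h : ∀ᶠ i in (UU : Filter ℕ), f i ∈ Z) :
    ∃ z, ∀ᶠ i in (UU : Filter ℕ), f i = z := by
  have h' : ∀ᶠ k in (UU : Filter ℕ), ∃ z ∈ (Z : Set ℕ), f k = z := by
    filter_upwards [h] with k hk
    exact ⟨f k, hk, rfl⟩
  rw [Ultrafilter.eventually_exists_mem_iff Z.finite_toSet] at h'
  obtain ⟨z, _, hz⟩ := h'
  exact ⟨z, hz⟩

namespace ClIso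

variable {G D : Subgroup (Perm ℕ)} {N : (ℕ → ℕ) → Prop} {P R : (ℕ → ℕ) → (ℕ → ℕ)}
  {X : Type} {q : ℕ → X} {A : (ℕ → ℕ) → X → X}

/-- small subgroups of `G` have finite orbits through `P` -/
theorem finP (h : ClIso G D N P R) (c : ℕ) : ∃ (F Z : Finset ℕ), ∀ g ∈ stb G F, P ⇑g c ∈ Z := by
  classical
  obtain ⟨X, _, q, A, hq⟩ := h.exists_quo
  have hA := hq.injAct h
  obtain ⟨C, hC⟩ := h.exists_dcl c
  choose F hF using fun x : ℕ => hq.goodPt h (q x)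
  let F0 : Finset ℕ := C.biUnion F
  have hfin : {y | ∃ g ∈ stb G F0, P ⇑g c = y}.Finite := by
    let W : Set ({x // x ∈ C} → X) := Set.pi Set.univ fun x => KK G A (F x.1)
    have hW : W.Finite := Set.Finite.pi' (fun x => hq.finite_core h (F x.1)) |>.subset
      (fun θ hθ x => hθ x trivial)
    let ch : ({x // x ∈ C} → X) → ℕ := fun θ =>
      if hθ : ∃ g ∈ stb G F0, ∀ x : {x // x ∈ C}, q (P ⇑g x.1) = θ x then P ⇑hθ.choose c else 0
    refine (hW.image ch).subset ?_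
    rintro _ ⟨g, hg, rfl⟩
    refine ⟨fun x => q (P ⇑g x.1), ?_, ?_⟩
    · intro x _
      have h1 : g ∈ stb G (F x.1) :=
        ⟨hg.1, fun y hy => hg.2 y (Finset.mem_biUnion.2 ⟨x.1, x.2, hy⟩)⟩
      have h2 := hA.supS_core (hq.finite_core h (F x.1)) ⇑g (Cl.of_mem h1.1) h1.2
      have h3 : A ⇑g (q x.1) ∈ (hq.finite_core h (F x.1)).toFinset := by
        rw [← h2]
        exact Finset.mem_image_of_mem _ ((Set.Finite.mem_toFinset _).2 (hF x.1))
      rw [Set.Finite.mem_toFinset, hq.act _ (Cl.of_mem h1.1)] at h3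
      exact h3
    · have hθ : ∃ g' ∈ stb G F0, ∀ x : {x // x ∈ C}, q (P ⇑g' x.1) = q (P ⇑g x.1) :=
        ⟨g, hg, fun _ => rfl⟩
      have e0 : ch (fun x => q (P ⇑g x.1)) = P ⇑hθ.choose c := dif_pos hθ
      rw [e0]
      have key : ∀ g' ∈ stb G F0, (∀ x : {x // x ∈ C}, q (P ⇑g' x.1) = q (P ⇑g x.1)) →
          P ⇑g' c = P ⇑g c := by
        intro g' hg' hgx
        obtain ⟨d, hd, hPd⟩ := h.gP g hg.1
        obtain ⟨d', hd', hPd'⟩ := h.gP _ hg'.1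
        have h4 := hC (d⁻¹ * d') (D.mul_mem (D.inv_mem hd) hd') (fun x hx => by
          have h5 := hgx ⟨x, hx⟩
          simp only at h5
          rw [hPd, hPd'] at h5
          have h6 := (hq.q_map h (h.Nd (D.inv_mem hd))).2 h5
          rw [ia] at h6
          exact (hq.qM _ _).1 h6)
        rw [Perm.mul_apply, Perm.inv_eq_iff_eq] at h4
        rw [hPd, hPd', h4]
      exact key _ hθ.choose_spec.1 hθ.choose_spec.2
  refine ⟨F0, hfin.toFinset, fun g hg => ?_⟩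
  rw [Set.Finite.mem_toFinset]
  exact ⟨g, hg, rfl⟩

/-- limits through `P` -/
theorem exists_limP (h : ClIso G D N P R) {s : ℕ → ℕ} {k : ℕ → Perm ℕ} (hk : ∀ i, k i ∈ G)
    (hks : ∀ x, ∀ᶠ i in (UU : Filter ℕ), k i x = s x) :
    ∃ t, Cl D t ∧ ∀ c, ∀ᶠ i in (UU : Filter ℕ), P ⇑(k i) c = t c := by
  classical
  have h1 : ∀ c, ∃ z, ∀ᶠ i in (UU : Filter ℕ), P ⇑(k i) c = z := by
    intro c
    obtain ⟨F, Z, hZ⟩ := h.finP c
    have h2 := (Filter.eventually_all_finset F).2 fun x _ => hks x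
    obtain ⟨i0, hi0⟩ := h2.exists
    refine UU_const (Z := Z.image (P ⇑(k i0))) ?_
    filter_upwards [h2] with i hi
    have h3 : (k i0)⁻¹ * k i ∈ stb G F := ⟨G.mul_mem (G.inv_mem (hk i0)) (hk i), fun x hx => by
      rw [Perm.mul_apply, hi x hx, ← hi0 x hx, ia]⟩
    refine Finset.mem_image.2 ⟨_, hZ _ h3, ?_⟩
    have h4 := h.mulP ⇑(k i0) ⇑((k i0)⁻¹ * k i) (Cl.of_mem (hk i0)) (Cl.of_mem h3.1)
    have h5 : (⇑(k i0) ∘ ⇑((k i0)⁻¹ * k i) : ℕ → ℕ) = ⇑(k i) := by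
      funext x
      rw [Function.comp_apply, Perm.mul_apply, ai]
    rw [h5] at h4
    rw [h4]
    rfl
  choose t ht using h1
  refine ⟨t, fun F => ?_, ht⟩
  obtain ⟨i, hi⟩ := ((Filter.eventually_all_finset F).2 fun x _ => ht x).exists
  obtain ⟨d, hd, hPd⟩ := h.gP _ (hk i)
  exact ⟨d, hd, fun x hx => by rw [← hi x hx, hPd]⟩

/-- the limit has the same image as `P s`, modulo `Mg` -/
theorem limP_range (h : ClIso G D N P R) (hq : Quo G N P X q A) [Countable X] {s : ℕ → ℕ}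
    (hs : Cl G s) {k : ℕ → Perm ℕ} (hk : ∀ i, k i ∈ G)
    (hks : ∀ x, ∀ᶠ i in (UU : Filter ℕ), k i x = s x) {t : ℕ → ℕ}
    (ht : ∀ c, ∀ᶠ i in (UU : Filter ℕ), P ⇑(k i) c = t c) (a : ℕ) :
    (∃ b, q (t a) = q (P s b)) ∧ ∃ b, q (P s a) = q (t b) := by
  classical
  have hA := hq.injAct h
  obtain ⟨K, F, hKF, hK⟩ := (hA.goodPt_iff (fun F => hq.finite_core h F)).1 (hq.goodPt h (q a))
  choose rep hrep using hq.sur
  have h1 := (Filter.eventually_all_finset F).2 fun x _ => hks x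
  have h2 := (Filter.eventually_all_finset K).2 fun y _ => ht (rep y)
  obtain ⟨i, ⟨h1, h2⟩, h3⟩ := ((h1.and h2).and (ht a)).exists
  have e1 : K.image (A s) = K.image (A ⇑(k i)) :=
    hKF.agree hA hs (Cl.of_mem (hk i)) (fun x hx => (h1 x hx).symm)
  constructor
  · have h4 : q (t a) ∈ K.image (A ⇑(k i)) := by
      refine Finset.mem_image.2 ⟨q a, hK, ?_⟩
      rw [hq.act _ (Cl.of_mem (hk i)), h3]
    rw [← e1] at h4
    obtain ⟨y, _, hy⟩ := Finset.mem_image.1 h4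
    obtain ⟨b, rfl⟩ := hq.sur y
    rw [hq.act _ hs] at hy
    exact ⟨b, hy.symm⟩
  · have h4 : q (P s a) ∈ K.image (A s) := by
      refine Finset.mem_image.2 ⟨q a, hK, ?_⟩
      rw [hq.act _ hs]
    rw [e1] at h4
    obtain ⟨y, hyK, hy⟩ := Finset.mem_image.1 h4
    refine ⟨rep y, ?_⟩
    rw [← h2 y hyK, ← hq.act _ (Cl.of_mem (hk i)), hrep, hy]

/-- for movers the limit does not leave the range -/
theorem limP_mover (h : ClIso G D N P R) {w : ℕ → ℕ}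
    (hw : Cl G w) (hmv : Mover G w) {k : ℕ → Perm ℕ} (hk : ∀ i, k i ∈ G)
    (hkw : ∀ x, ∀ᶠ i in (UU : Filter ℕ), k i x = w x) {t : ℕ → ℕ} (htc : Cl D t)
    (ht : ∀ c, ∀ᶠ i in (UU : Filter ℕ), P ⇑(k i) c = t c) (z : ℕ) :
    R t z ∈ Set.range w := by
  obtain ⟨X, _, q, A, hq⟩ := h.exists_quo
  by_contra hcon
  obtain ⟨γ, hγ, h1, h2⟩ := hmv (R t z) (fun y hy => hcon ⟨y, hy⟩)
  obtain ⟨d, hd, hPd⟩ := h.gP γ hγ
  have h3 := h.mulP _ _ (Cl.of_mem hγ) hw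
  rw [h1, hPd] at h3
  have h4 : (⇑d ∘ t : ℕ → ℕ) = t := by
    refine h.cancel (h.compN _ _ (h.Nd hd) (h.clN t htc)) (h.clN t htc) (fun a => ?_)
    obtain ⟨b, hb⟩ := (h.limP_range hq hw hk hkw ht a).1
    rw [← hq.qM, Function.comp_apply, (hq.q_map h (h.Nd hd)).2 hb, hb]
    exact congrArg q (congrFun h3 b).symm
  have h5 := congrArg R h4
  rw [h.mulR _ _ (h.Nd hd) (h.clN t htc), h.Rd hγ hPd] at h5
  exact h2 (congrFun h5 z)

/-- small subgroups of `D` have finite orbits through `R` -/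
theorem finR (h : ClIso G D N P R) (x : ℕ) : ∃ (F Z : Finset ℕ), ∀ d ∈ stb D F, R ⇑d x ∈ Z := by
  classical
  obtain ⟨F, hF⟩ := h.exists_fixR x
  choose E Z hZ using h.finP
  let E0 : Finset ℕ := F.biUnion E
  refine ⟨F, (finite_movers h.cG h.oG E0).toFinset, fun d hd => ?_⟩
  rw [Set.Finite.mem_toFinset]
  intro w hw hwE hmv
  obtain ⟨k, hk, hkE, hkw⟩ := hw.exists_seq E0
  obtain ⟨t, htc, ht⟩ := h.exists_limP hk hkw
  -- `F` is contained in the range of `t`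
  let ZZ : Set ℕ := {z | ∃ y ∈ F, ∃ g ∈ stb G E0, P ⇑g y = z}
  have hZZ : ZZ.Finite := by
    refine (F.biUnion Z).finite_toSet.subset ?_
    rintro _ ⟨y, hy, g, hg, rfl⟩
    refine Finset.mem_coe.2 (Finset.mem_biUnion.2 ⟨y, hy, hZ y g ⟨hg.1, fun x hx => ?_⟩⟩)
    exact hg.2 x (Finset.mem_biUnion.2 ⟨y, hy, hx⟩)
  have hmap : ∀ z ∈ ZZ, t z ∈ ZZ := by
    rintro _ ⟨y, hy, g, hg, rfl⟩
    obtain ⟨i, hi⟩ := (ht (P ⇑g y)).exists
    have hki : k i * g ∈ stb G E0 := ⟨G.mul_mem (hk i) hg.1, fun x hx => by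
      rw [Perm.mul_apply, hg.2 x hx, hkE i x hx, hwE x hx]⟩
    refine ⟨y, hy, _, hki, ?_⟩
    rw [← hi]
    have h4 := h.mulP ⇑(k i) ⇑g (Cl.of_mem (hk i)) (Cl.of_mem hg.1)
    exact congrFun h4 y
  have hrange : ∀ y ∈ F, y ∈ Set.range t := by
    intro y hy
    have h5 : hZZ.toFinset.image t = hZZ.toFinset := by
      refine Finset.eq_of_subset_of_card_le ?_ ?_
      · intro z hz
        obtain ⟨z', hz', rfl⟩ := Finset.mem_image.1 hz
        exact (Set.Finite.mem_toFinset _).2 (hmap _ ((Set.Finite.mem_toFinset _).1 hz'))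
      · rw [Finset.card_image_of_injective _ htc.injective]
    have h6 : y ∈ hZZ.toFinset := (Set.Finite.mem_toFinset _).2
      ⟨y, hy, 1, (stb G E0).one_mem, by
        have : (⇑(1 : Perm ℕ) : ℕ → ℕ) = id := rfl
        rw [this, h.idP]
        rfl⟩
    rw [← h5] at h6
    obtain ⟨z, _, hz⟩ := Finset.mem_image.1 h6
    exact ⟨z, hz⟩
  choose! a ha using hrange
  obtain ⟨δ, hδ, hδt⟩ := htc (F.image a)
  have hδ1 : ∀ y ∈ F, δ⁻¹ y = a y := by
    intro y hy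
    rw [Perm.inv_eq_iff_eq, hδt _ (Finset.mem_image_of_mem _ hy), ha y hy]
  have hfix : Fx F (⇑d⁻¹ ∘ (t ∘ ⇑δ⁻¹)) := by
    intro y hy
    simp only [Function.comp_apply]
    rw [hδ1 y hy, ha y hy]
    exact ((stb D F).inv_mem hd).2 y hy
  have htδ : Cl D (t ∘ ⇑δ⁻¹) := htc.mul_right (D.inv_mem hδ)
  obtain ⟨b, hb⟩ := hF _ (htδ.mul_left (D.inv_mem hd.1)) hfix
  obtain ⟨g, hg, hRg⟩ := h.dR d hd.1
  have hRinv : R ⇑d⁻¹ = ⇑g⁻¹ := by
    have h7 : P ⇑g = ⇑d := by rw [← hRg, h.PR _ (h.Nd hd.1)]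
    exact h.Rd (G.inv_mem hg) (h.invP hg hd.1 h7)
  rw [h.mulR _ _ (h.Nd (D.inv_mem hd.1)) (h.clN _ htδ), h.mulR _ _ (h.clN t htc)
    (h.Nd (D.inv_mem hδ)), hRinv] at hb
  simp only [Function.comp_apply] at hb
  rw [Perm.inv_eq_iff_eq] at hb
  rw [hRg, ← hb]
  exact h.limP_mover hw hmv hk hkw htc ht _

/-- a limit whose image is everything modulo `Mg` is in `D` -/
theorem limP_mem (h : ClIso G D N P R) {t : ℕ → ℕ} (htc : Cl D t)
    (hsur : ∀ b, ∃ a, Mg N (t a) b) : ∃ τ ∈ D, t = ⇑τ := by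
  classical
  have hs : Function.Surjective t := by
    intro c
    obtain ⟨C, hC⟩ := h.exists_dcl c
    choose a ha using hsur
    obtain ⟨δ0, hδ0, h0⟩ := htc (C.image a)
    obtain ⟨δ1, hδ1, h1⟩ := htc (insert (δ0⁻¹ c) (C.image a))
    have h2 := hC (δ1 * δ0⁻¹) (D.mul_mem hδ1 (D.inv_mem hδ0)) (fun x hx => by
      have hax := Finset.mem_image_of_mem a hx
      have e1 : (δ1 * δ0⁻¹) (t (a x)) = t (a x) := by
        rw [Perm.mul_apply, ← h0 _ hax, ia, h1 _ (Finset.mem_insert_of_mem hax), h0 _ hax]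
      have h3 := ha x
      obtain ⟨f, hf, e⟩ := (h.Mg_map (h.Nd (D.mul_mem hδ1 (D.inv_mem hδ0)))).2 h3
      obtain ⟨E, hE, hM⟩ := h.exists_e
      rw [hM] at h3 ⊢
      have h4 := (hM _ _).1 ⟨f, hf, e⟩
      rw [e1] at h4
      rw [← h4, h3])
    refine ⟨δ0⁻¹ c, ?_⟩
    rw [← h1 _ (Finset.mem_insert_self _ _)]
    exact h2
  let τ : Perm ℕ := Equiv.ofBijective t ⟨htc.injective, hs⟩
  exact ⟨τ, h.cD τ htc, rfl⟩

/-- images of movers are in the closure of `D` -/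
theorem cl_mover (h : ClIso G D N P R) {w : ℕ → ℕ} (hw : Cl G w) (hmv : Mover G w) :
    Cl D (P w) := by
  classical
  obtain ⟨X, _, q, A, hq⟩ := h.exists_quo
  obtain ⟨k, hk, _, hkw⟩ := hw.exists_seq ∅
  obtain ⟨t, htc, ht⟩ := h.exists_limP hk hkw
  choose κ hκ using h.limP_mover hw hmv hk hkw htc ht
  have hRt : Cl G (R t) := h.memR t (h.clN t htc)
  have hκc : Cl G κ := by
    intro F
    obtain ⟨g1, hg1, h1⟩ := hRt F
    obtain ⟨g2, hg2, h2⟩ := hw (F.image κ)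
    refine ⟨g2⁻¹ * g1, G.mul_mem (G.inv_mem hg2) hg1, fun x hx => ?_⟩
    rw [Perm.mul_apply, Perm.inv_eq_iff_eq, h1 x hx, h2 _ (Finset.mem_image_of_mem _ hx), hκ x]
  have htw : t = P w ∘ P κ := by
    rw [← h.mulP w κ hw hκc, ← h.PR t (h.clN t htc)]
    congr 1
    exact (funext hκ).symm
  obtain ⟨k', hk', _, hk'κ⟩ := hκc.exists_seq ∅
  obtain ⟨t', htc', ht'⟩ := h.exists_limP hk' hk'κ
  obtain ⟨τ, hτ, hτt⟩ := h.limP_mem htc' (fun b => by
    obtain ⟨a, ha⟩ := (h.limP_range hq hw hk hkw ht b).2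
    rw [htw, Function.comp_apply, hq.q_map h (h.memP w hw)] at ha
    obtain ⟨a', ha'⟩ := (h.limP_range hq hκc hk' hk'κ ht' a).2
    exact ⟨a', by rw [← hq.qM, ← ha', ← ha]⟩)
  -- `κ` is surjective
  have hsur : Function.Surjective κ := by
    intro x
    obtain ⟨F, Z, hZ⟩ := h.finR x
    obtain ⟨gτ, hgτ, hRτ⟩ := h.dR τ hτ
    have h1 := (Filter.eventually_all_finset F).2 fun y _ => ht' (τ⁻¹ y)
    have h2 : ∀ᶠ i in (UU : Filter ℕ), (k' i)⁻¹ x ∈ Z.image ⇑gτ⁻¹ := by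
      filter_upwards [h1] with i hi
      obtain ⟨d, hd, hPd⟩ := h.gP _ (hk' i)
      have h3 : τ * d⁻¹ ∈ stb D F := ⟨D.mul_mem hτ (D.inv_mem hd), fun y hy => by
        have h4 := hi y hy
        rw [hPd, hτt, ai] at h4
        rw [Perm.mul_apply]
        have h5 : d⁻¹ y = τ⁻¹ y := by rw [Perm.inv_eq_iff_eq]; exact h4.symm
        rw [h5, ai]⟩
      have h6 := hZ _ h3
      have e1 : (⇑(τ * d⁻¹) : ℕ → ℕ) = ⇑τ ∘ ⇑d⁻¹ := rfl
      rw [e1, h.mulR _ _ (h.Nd hτ) (h.Nd (D.inv_mem hd)), hRτ,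
        h.Rd (G.inv_mem (hk' i)) (h.invP (hk' i) hd hPd)] at h6
      refine Finset.mem_image.2 ⟨_, h6, ?_⟩
      rw [Function.comp_apply, ia]
    obtain ⟨z, hz⟩ := UU_const h2
    obtain ⟨i, hi1, hi2⟩ := (hz.and (hk'κ z)).exists
    refine ⟨z, ?_⟩
    rw [← hi2, ← hi1, ai]
  let κ' : Perm ℕ := Equiv.ofBijective κ ⟨hκc.injective, hsur⟩
  have hκ' : κ' ∈ G := h.cG κ' hκc
  obtain ⟨d, hd, hPd⟩ := h.gP κ' hκ'
  have e2 : P κ = ⇑d := hPd
  have e3 : P w = t ∘ ⇑d⁻¹ := by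
    rw [htw, e2]
    funext x
    simp only [Function.comp_apply]
    rw [ai]
  rw [e3]
  exact htc.mul_right (D.inv_mem hd)

/-- every element of `N` is in the closure of `D` -/
theorem cl_of_N (h : ClIso G D N P R) {f : ℕ → ℕ} (hf : N f) : Cl D f := by
  classical
  obtain ⟨w, hw, hext, hmv⟩ := exists_s h.cG h.oG {R f} (Set.countable_singleton _) (by
    intro f' hf'
    rw [Set.mem_singleton_iff.1 hf']
    exact h.memR f hf)
  obtain ⟨g, hg, e⟩ := hext (R f) rfl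
  obtain ⟨d, hd, hPd⟩ := h.gP g hg
  have h1 := congrArg P e
  rw [h.mulP w _ hw (h.memR f hf), h.PR f hf, h.mulP _ w (Cl.of_mem hg) hw, hPd] at h1
  have hPw := h.cl_mover hw hmv
  intro F
  obtain ⟨δ1, hδ1, h2⟩ := (hPw.mul_left hd) F
  obtain ⟨δ2, hδ2, h3⟩ := hPw (F.image f)
  refine ⟨δ2⁻¹ * δ1, D.mul_mem (D.inv_mem hδ2) hδ1, fun x hx => ?_⟩
  rw [Perm.mul_apply, Perm.inv_eq_iff_eq, h2 x hx, h3 _ (Finset.mem_image_of_mem _ hx)]
  exact (congrFun h1 x).symm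

end ClIso

end Pool.Agent.Olig
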