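import Pool.Agent.Olig.IterT
import Pool.Agent.Olig.NecB

/-!
# The kernel of an abstract isomorphism and the centralisers of normal subgroups
-/

open Equiv Filter Pointwise

namespace Pool.Agent.Olig

variable {G D K T : Subgroup (Perm ℕ)}

/-- the closure of the image of `T` -/
def clI (φ : G ≃* D) (T : Subgroup (Perm ℕ)) : Subgroup (Perm ℕ) where
  carrier := {d | d ∈ D ∧ ∀ Y : Finset ℕ, ∃ t : G, (t : Perm ℕ) ∈ T ∧ ∀ y ∈ Y, (φ t : Perm ℕ) y = d y}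
  one_mem' := ⟨D.one_mem, fun Y => ⟨1, T.one_mem, fun y _ => by rw [map_one]; rfl⟩⟩
  mul_mem' := by
    classical
    rintro a b ⟨ha, ha'⟩ ⟨hb, hb'⟩
    refine ⟨D.mul_mem ha hb, fun Y => ?_⟩
    obtain ⟨t', h1, h2⟩ := hb' Y
    obtain ⟨t, h3, h4⟩ := ha' (Y.image b)
    refine ⟨t * t', T.mul_mem h3 h1, fun y hy => ?_⟩
    rw [map_mul]
    change (φ t : Perm ℕ) ((φ t' : Perm ℕ) y) = a (b y)
    rw [h2 y hy, h4 _ (Finset.mem_image_of_mem _ hy)]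
  inv_mem' := by
    classical
    rintro a ⟨ha, ha'⟩
    refine ⟨D.inv_mem ha, fun Y => ?_⟩
    obtain ⟨t, h1, h2⟩ := ha' (Y.image ⇑a⁻¹)
    refine ⟨t⁻¹, T.inv_mem h1, fun y hy => ?_⟩
    rw [map_inv]
    change (φ t : Perm ℕ)⁻¹ y = a⁻¹ y
    rw [Perm.inv_eq_iff_eq, h2 _ (Finset.mem_image_of_mem _ hy), ai]

theorem TN_clI (hDc : ClosedG D) (φ : G ≃* D)
    (hTn : ∀ g ∈ G, ∀ t ∈ T, g * t * g⁻¹ ∈ T)
    (hb : ∀ y : ℕ, ∃ Z : Finset ℕ, ∀ t : G, (t : Perm ℕ) ∈ T → (φ t : Perm ℕ) y ∈ Z) :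
    TN D (clI φ T) := by
  classical
  refine TN.of_closed (fun d hd => hd.1) ?_ ?_ ?_
  · rintro d hd s ⟨hs, hs'⟩
    refine ⟨D.mul_mem (D.mul_mem hd hs) (D.inv_mem hd), fun Y => ?_⟩
    obtain ⟨t, h1, h2⟩ := hs' (Y.image ⇑d⁻¹)
    obtain ⟨g, hg⟩ := φ.surjective ⟨d, hd⟩
    refine ⟨g * t * g⁻¹, hTn _ g.2 _ h1, fun y hy => ?_⟩
    rw [map_mul, map_mul, map_inv, hg]
    change d ((φ t : Perm ℕ) (d⁻¹ y)) = d (s (d⁻¹ y))
    rw [h2 _ (Finset.mem_image_of_mem _ hy)]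
  · intro y
    obtain ⟨Z, hZ⟩ := hb y
    refine ⟨Z, ?_⟩
    rintro d ⟨hd, hd'⟩
    obtain ⟨t, h1, h2⟩ := hd' {y}
    rw [← h2 y (Finset.mem_singleton_self y)]
    exact hZ t h1
  · intro g hg
    refine ⟨hDc g (hg.mono (show clI φ T ≤ D from fun t ht => ht.1)), fun Y => ?_⟩
    obtain ⟨s, hs, h3⟩ := hg Y
    obtain ⟨w, hw1, hw2⟩ := hs.2 Y
    exact ⟨w, hw1, fun y hy => (hw2 y hy).trans (h3 y hy)⟩

/-- a closed normal subgroup whose image has finite orbits has finite orbits -/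
theorem orb_of_bounded (hGc : ClosedG G) (hG : Oligo G) (hDc : ClosedG D) (φ : G ≃* D)
    (hTG : T ≤ G) (hTn : ∀ g ∈ G, ∀ t ∈ T, g * t * g⁻¹ ∈ T) (hTc : ClosedG T)
    (hb : ∀ y : ℕ, ∃ Z : Finset ℕ, ∀ t : G, (t : Perm ℕ) ∈ T → (φ t : Perm ℕ) y ∈ Z)
    (z : ℕ) : {y | ∃ t ∈ T, t z = y}.Finite := by
  classical
  by_contra hinf
  obtain ⟨τ, hτ, hz⟩ := exists_tau hinf
  obtain ⟨c, g, z', hcT, hgG, hgz, hcomm, hne⟩ := LO.exists_blocks (ℕ ×ₗ ℤ) hGc hG hTG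
    hTn hTc τ hτ z hz (fun i => toLex (i, 0)) (fun i => toLex (i, 1))
    (fun i => by
      change toLex (i, (0 : ℤ)) < toLex (i, (1 : ℤ))
      rw [Prod.Lex.toLex_lt_toLex]
      right
      exact ⟨rfl, by norm_num⟩)
    (fun k i hki => by
      change toLex (k, (1 : ℤ)) < toLex (i, (0 : ℤ))
      rw [Prod.Lex.toLex_lt_toLex]
      left
      exact hki)
    LO.bl (fun i => by
      change toLex (i, if i = i then (0 : ℤ) + 1 else 0) = toLex (i, (1 : ℤ))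
      simp)
    (fun i k hk => by
      change toLex (k, if k = i then (0 : ℤ) + 1 else 0) = toLex (k, (0 : ℤ))
      rw [if_neg hk])
  have hS := TN_clI hDc φ hTn hb
  -- elements of `G`
  let tG : (ℕ → Bool) → ℕ → G := fun ε j => ⟨LO.tt c ε j, hTG (tt_mem hcT ε j)⟩
  let gG : ℕ → G := fun j => ⟨g j, hgG j⟩
  have htS : ∀ ε j, (φ (tG ε j) : Perm ℕ) ∈ clI φ T := fun ε j =>
    ⟨(φ (tG ε j)).2, fun Y => ⟨tG ε j, tt_mem hcT ε j, fun _ _ => rfl⟩⟩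
  have htg : ∀ ε i j k, i < j → j ≤ k → g i * (LO.tt c ε k * (LO.tt c ε j)⁻¹) =
      (LO.tt c ε k * (LO.tt c ε j)⁻¹) * g i := by
    intro ε i j k hij hjk
    induction hjk with
    | refl => rw [mul_inv_cancel, mul_one, one_mul]
    | step hjk ih =>
      rename_i k
      rw [Nat.succ_eq_add_one, LO.tt_succ]
      split_ifs with hε
      · have hik : i ≠ k := Nat.ne_of_lt (hij.trans_le hjk)
        rw [mul_assoc (c k), ← mul_assoc (g i), hcomm i k hik, mul_assoc (c k), ih, ← mul_assoc (c k)]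
      · rw [one_mul, ih]
  have hlim : ∀ ε, ∃ r : G, ∀ i j, i < j → g i * ((r : Perm ℕ) * (LO.tt c ε j)⁻¹) =
      ((r : Perm ℕ) * (LO.tt c ε j)⁻¹) * g i := by
    intro ε
    obtain ⟨s, hs, hlim⟩ := hS.exists_lim (fun j => (φ (tG ε j) : Perm ℕ)) (htS ε)
    refine ⟨φ.symm ⟨s, hs.1⟩, fun i j hij => ?_⟩
    have hφr : φ (φ.symm ⟨s, hs.1⟩) = ⟨s, hs.1⟩ := φ.apply_symm_apply _
    have key : gG i * (φ.symm ⟨s, hs.1⟩ * (tG ε j)⁻¹) = φ.symm ⟨s, hs.1⟩ * (tG ε j)⁻¹ * gG i := by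
      apply φ.injective
      rw [map_mul, map_mul, map_mul, map_mul, hφr]
      refine Subtype.ext (Equiv.ext fun y => ?_)
      rw [map_inv]
      change (φ (gG i) : Perm ℕ) (s ((φ (tG ε j) : Perm ℕ)⁻¹ y)) =
        s ((φ (tG ε j) : Perm ℕ)⁻¹ ((φ (gG i) : Perm ℕ) y))
      obtain ⟨k, ⟨hk1, hk2⟩, hk3⟩ := (((hlim ((φ (tG ε j) : Perm ℕ)⁻¹ y)).and
        (hlim ((φ (tG ε j) : Perm ℕ)⁻¹ ((φ (gG i) : Perm ℕ) y)))).and (UU_ge j)).exists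
      rw [← hk1, ← hk2]
      have e1 : gG i * (tG ε k * (tG ε j)⁻¹) = tG ε k * (tG ε j)⁻¹ * gG i :=
        Subtype.ext (htg ε i j k hij hk3)
      have e2 := congrArg (fun x : G => (φ x : Perm ℕ) y) e1
      simp only [map_mul, map_inv] at e2
      exact e2
    exact congrArg Subtype.val key
  choose r hr using hlim
  have htfix : ∀ ε i, g i * LO.tt c ε i = LO.tt c ε i * g i := by
    intro ε i
    have : ∀ n, n ≤ i → g i * LO.tt c ε n = LO.tt c ε n * g i := by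
      intro n
      induction n with
      | zero => intro _; rw [LO.tt_zero, mul_one, one_mul]
      | succ n ih =>
        intro hn
        rw [LO.tt_succ]
        split_ifs
        · rw [← mul_assoc, hcomm i n (Nat.ne_of_gt hn), mul_assoc, ih (Nat.le_of_succ_le hn),
            mul_assoc]
        · rw [one_mul, ih (Nat.le_of_succ_le hn)]
    exact this i le_rfl
  have hdist : ∀ (ε ε' : ℕ → Bool) (i : ℕ), (∀ k < i, ε k = ε' k) → ε i = false → ε' i = true →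
      (r ε : Perm ℕ) z' ≠ (r ε' : Perm ℕ) z' := by
    intro ε ε' i hlt h2 h3 heq
    have e1 := hr ε i (i + 1) (Nat.lt_succ_self i)
    have e2 := hr ε' i (i + 1) (Nat.lt_succ_self i)
    rw [LO.tt_succ, h2] at e1
    rw [LO.tt_succ, h3, ← tt_congr c hlt] at e2
    simp only [Bool.false_eq_true, if_false, if_true, one_mul] at e1 e2
    have hnei := hne ε i
    set t := LO.tt c ε i with ht
    have h4 : g i (t z') = t z' := by
      have := congrArg (fun x : Perm ℕ => x z') (htfix ε i)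
      simp only [Perm.mul_apply] at this
      rw [this, hgz i]
    set p := (r ε : Perm ℕ) * t⁻¹ with hp
    set q := (r ε' : Perm ℕ) * (c i * t)⁻¹ with hq
    have h5 : p (t z') = (r ε : Perm ℕ) z' := by rw [hp, Perm.mul_apply, ia]
    have h6 : q (c i (t z')) = (r ε' : Perm ℕ) z' := by
      rw [hq, Perm.mul_apply, ← Perm.mul_apply (c i) t, ia]
    have h7 : q (c i (t z')) = p (t z') := by rw [h5, h6, heq]
    apply hnei
    apply q.injective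
    have f1 := congrArg (fun x : Perm ℕ => x (c i (t z'))) e2
    simp only [Perm.mul_apply] at f1
    have f2 := congrArg (fun x : Perm ℕ => x (t z')) e1
    simp only [Perm.mul_apply] at f2
    rw [← f1, h7, f2, h4]
  -- uncountably many sequences
  have hninj := Function.cantor_injective
    (fun A : Set ℕ => (r (fun n => decide (n ∈ A)) : Perm ℕ) z')
  apply hninj
  intro A B hAB
  by_contra hne'
  have hex : ∃ n, decide (n ∈ A) ≠ decide (n ∈ B) := by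
    by_contra hcon
    push Not at hcon
    apply hne'
    ext n
    have := hcon n
    simpa using this
  obtain ⟨i, hspec, hlt⟩ : ∃ i, decide (i ∈ A) ≠ decide (i ∈ B) ∧
      ∀ k < i, decide (k ∈ A) = decide (k ∈ B) :=
    ⟨Nat.find hex, Nat.find_spec hex, fun k hk => by
      by_contra hk'
      exact Nat.find_min hex hk hk'⟩
  by_cases hA : i ∈ A
  · have hB : i ∉ B := fun h' => hspec (by simp [hA, h'])
    refine hdist (fun n => decide (n ∈ B)) (fun n => decide (n ∈ A)) i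
      (fun k hk => (hlt k hk).symm) (by simp [hB]) (by simp [hA]) hAB.symm
  · have hB : i ∈ B := by
      by_contra h'
      exact hspec (by simp [hA, h'])
    exact hdist (fun n => decide (n ∈ A)) (fun n => decide (n ∈ B)) i hlt (by simp [hA])
      (by simp [hB]) hAB

/-! ### compact kernel implies local finiteness -/

theorem locFin_of_KT (hGc : ClosedG G) (hDc : ClosedG D) (hD : Oligo D) (φ : G ≃* D)
    (hT : ∀ x, {y | ∃ t ∈ KT φ, t x = y}.Finite) : LocFin φ.toMonoidHom := by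
  classical
  have h1 : LocFin φ.symm.toMonoidHom := by
    intro x
    obtain ⟨Y, hY⟩ := open_lim hGc hDc φ {x}
    refine ⟨Y, (hT x).toFinset, fun d hd => ?_⟩
    rw [Set.Finite.mem_toFinset]
    obtain ⟨g, hg, hlim⟩ := hY d hd
    have hgx : (g : Perm ℕ) x = x := hg x (by simp)
    set g0 : G := φ.symm d with hg0
    have hφ0 : φ g0 = d := φ.apply_symm_apply d
    have hinv : LimP φ.toMonoidHom ((g⁻¹ : G) : Perm ℕ) ((d⁻¹ : D) : Perm ℕ) := by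
      intro E Y'
      obtain ⟨w, hw1, hw2⟩ := hlim (E.image ⇑(g : Perm ℕ)⁻¹) (Y'.image ⇑(d : Perm ℕ)⁻¹)
      refine ⟨w⁻¹, fun x hx => ?_, fun z hz => ?_⟩
      · change (w : Perm ℕ)⁻¹ x = (g : Perm ℕ)⁻¹ x
        rw [Perm.inv_eq_iff_eq, hw1 _ (Finset.mem_image_of_mem _ hx)]
        exact (ai _ _).symm
      · rw [map_inv]
        change (φ.toMonoidHom w : Perm ℕ)⁻¹ z = (d : Perm ℕ)⁻¹ z
        rw [Perm.inv_eq_iff_eq, hw2 _ (Finset.mem_image_of_mem _ hz)]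
        exact (ai _ _).symm
    have h3 := (LimP.of φ.toMonoidHom g0).mul hinv
    have e1 : ⇑((φ.toMonoidHom g0 : D) : Perm ℕ) ∘ ⇑((d⁻¹ : D) : Perm ℕ) = id := by
      funext y
      have : φ.toMonoidHom g0 = d := hφ0
      rw [this]
      exact ai _ _
    rw [e1] at h3
    have hmem : ((g0 * g⁻¹ : G) : Perm ℕ) ∈ KT φ := ⟨(g0 * g⁻¹).2, h3⟩
    refine ⟨_, hmem, ?_⟩
    change (g0 : Perm ℕ) ((g : Perm ℕ)⁻¹ x) = (φ.symm.toMonoidHom d : Perm ℕ) x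
    have h4 : (g : Perm ℕ)⁻¹ x = x := by
      rw [Perm.inv_eq_iff_eq]
      exact hgx.symm
    rw [h4]
    rfl
  exact locFin_symm hDc hD hGc φ.symm h1

/-! ### the kernel on a normal subgroup -/

/-- limits of images of elements of `K` tending to the identity -/
def KSK (φ : G ≃* D) (K : Subgroup (Perm ℕ)) (s : Perm ℕ) : Prop :=
  ∀ E Y : Finset ℕ, ∃ k : G, (k : Perm ℕ) ∈ K ∧ (∀ x ∈ E, (k : Perm ℕ) x = x) ∧
    ∀ y ∈ Y, (φ k : Perm ℕ) y = s y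

theorem KSK_mul {φ : G ≃* D} {a b : Perm ℕ} (ha : KSK φ K a) (hb : KSK φ K b) :
    KSK φ K (a * b) := by
  classical
  intro E Y
  obtain ⟨k', h1, h2, h3⟩ := hb E Y
  obtain ⟨k, h4, h5, h6⟩ := ha E (Y.image b)
  refine ⟨k * k', K.mul_mem h4 h1, fun x hx => ?_, fun y hy => ?_⟩
  · change (k : Perm ℕ) ((k' : Perm ℕ) x) = x
    rw [h2 x hx, h5 x hx]
  · rw [map_mul]
    change (φ k : Perm ℕ) ((φ k' : Perm ℕ) y) = a (b y)
    rw [h3 y hy, h6 _ (Finset.mem_image_of_mem _ hy)]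

theorem KSK_inv {φ : G ≃* D} {a : Perm ℕ} (ha : KSK φ K a) : KSK φ K a⁻¹ := by
  classical
  intro E Y
  obtain ⟨k, h4, h5, h6⟩ := ha E (Y.image ⇑a⁻¹)
  refine ⟨k⁻¹, K.inv_mem h4, fun x hx => ?_, fun y hy => ?_⟩
  · change (k : Perm ℕ)⁻¹ x = x
    rw [Perm.inv_eq_iff_eq]
    exact (h5 x hx).symm
  · rw [map_inv]
    change (φ k : Perm ℕ)⁻¹ y = a⁻¹ y
    rw [Perm.inv_eq_iff_eq, h6 _ (Finset.mem_image_of_mem _ hy), ai]

/-- the part of `K` mapped to limits -/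
def KTK (φ : G ≃* D) (K : Subgroup (Perm ℕ)) : Subgroup (Perm ℕ) where
  carrier := {t | ∃ t' : G, (t' : Perm ℕ) = t ∧ t ∈ K ∧ KSK φ K (φ t' : Perm ℕ)}
  one_mem' := ⟨1, rfl, K.one_mem, fun E Y => ⟨1, K.one_mem, fun _ _ => rfl, fun y _ => rfl⟩⟩
  mul_mem' := by
    rintro _ _ ⟨a, rfl, ha, ha'⟩ ⟨b, rfl, hb, hb'⟩
    refine ⟨a * b, rfl, K.mul_mem ha hb, ?_⟩
    rw [map_mul]
    exact KSK_mul ha' hb'
  inv_mem' := by
    rintro _ ⟨a, rfl, ha, ha'⟩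
    refine ⟨a⁻¹, rfl, K.inv_mem ha, ?_⟩
    rw [map_inv]
    exact KSK_inv ha'

theorem KTK_le {φ : G ≃* D} : KTK φ K ≤ K := by
  rintro _ ⟨a, rfl, ha, _⟩
  exact ha

theorem KTK_leG {φ : G ≃* D} : KTK φ K ≤ G := by
  rintro _ ⟨a, rfl, _, _⟩
  exact a.2

theorem KTK_nm {φ : G ≃* D} (hKn : ∀ g ∈ G, ∀ k ∈ K, g * k * g⁻¹ ∈ K) :
    ∀ g ∈ G, ∀ t ∈ KTK φ K, g * t * g⁻¹ ∈ KTK φ K := by
  classical
  rintro g hg _ ⟨a, rfl, ha, ha'⟩
  let g' : G := ⟨g, hg⟩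
  refine ⟨g' * a * g'⁻¹, rfl, hKn g hg _ ha, fun E Y => ?_⟩
  obtain ⟨k, h1, h2, h3⟩ := ha' (E.image ⇑g⁻¹) (Y.image ⇑(φ g' : Perm ℕ)⁻¹)
  refine ⟨g' * k * g'⁻¹, hKn g hg _ h1, fun x hx => ?_, fun y hy => ?_⟩
  · change g ((k : Perm ℕ) (g⁻¹ x)) = x
    rw [h2 _ (Finset.mem_image_of_mem _ hx), ai]
  · rw [map_mul, map_mul, map_mul, map_mul, map_inv]
    change (φ g' : Perm ℕ) ((φ k : Perm ℕ) ((φ g' : Perm ℕ)⁻¹ y)) =
      (φ g' : Perm ℕ) ((φ a : Perm ℕ) ((φ g' : Perm ℕ)⁻¹ y))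
    rw [h3 _ (Finset.mem_image_of_mem _ hy)]

theorem KTK_closed (hGc : ClosedG G) (hKc : ClosedG K) {φ : G ≃* D} : ClosedG (KTK φ K) := by
  classical
  intro t ht
  have htK : t ∈ K := hKc t (ht.mono KTK_le)
  have htG : t ∈ G := hGc t (ht.mono KTK_leG)
  let t' : G := ⟨t, htG⟩
  refine ⟨t', rfl, htK, fun E Y => ?_⟩
  obtain ⟨_, ⟨a, rfl, ha, ha'⟩, h1⟩ := ht E
  -- `a⁻¹ t` is the identity on `E`
  have e1 : ∀ x ∈ E, ((a⁻¹ * t' : G) : Perm ℕ) x = x := by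
    intro x hx
    change (a : Perm ℕ)⁻¹ (t x) = x
    rw [Perm.inv_eq_iff_eq]
    exact (h1 x hx).symm
  obtain ⟨k, h2, h3, h4⟩ := ha' E (Y.image ⇑(φ (a⁻¹ * t') : Perm ℕ))
  refine ⟨k * (a⁻¹ * t'), K.mul_mem h2 (K.mul_mem (K.inv_mem ha) htK), fun x hx => ?_,
    fun y hy => ?_⟩
  · change (k : Perm ℕ) (((a⁻¹ * t' : G) : Perm ℕ) x) = x
    rw [e1 x hx, h3 x hx]
  · rw [map_mul]
    change (φ k : Perm ℕ) ((φ (a⁻¹ * t') : Perm ℕ) y) = (φ t' : Perm ℕ) y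
    rw [h4 _ (Finset.mem_image_of_mem _ hy), map_mul, map_inv]
    change (φ a : Perm ℕ) ((φ a : Perm ℕ)⁻¹ ((φ t' : Perm ℕ) y)) = _
    rw [ai]

/-- commutators of limits with images of elements of `K` -/
theorem KSK_comm {φ : G ≃* D} (hKn : ∀ g ∈ G, ∀ k ∈ K, g * k * g⁻¹ ∈ K) {s : D}
    (hs : LimP φ.toMonoidHom id (s : Perm ℕ)) {k : G} (hk : (k : Perm ℕ) ∈ K) :
    KSK φ K ((s * φ k * s⁻¹ * (φ k)⁻¹ : D) : Perm ℕ) := by
  classical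
  intro E Y
  obtain ⟨g, h1, h2⟩ := hs (E ∪ E.image ⇑(k : Perm ℕ)⁻¹)
    (Y.image (fun y => (s : Perm ℕ)⁻¹ ((φ k : Perm ℕ)⁻¹ y)) ∪
      Y.image (fun y => (φ k : Perm ℕ) ((s : Perm ℕ)⁻¹ ((φ k : Perm ℕ)⁻¹ y))))
  refine ⟨g * k * g⁻¹ * k⁻¹, K.mul_mem (hKn _ g.2 _ hk) (K.inv_mem hk), fun x hx => ?_,
    fun y hy => ?_⟩
  · change (g : Perm ℕ) ((k : Perm ℕ) ((g : Perm ℕ)⁻¹ ((k : Perm ℕ)⁻¹ x))) = x
    have e1 : (g : Perm ℕ)⁻¹ ((k : Perm ℕ)⁻¹ x) = (k : Perm ℕ)⁻¹ x := by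
      rw [Perm.inv_eq_iff_eq]
      exact (h1 _ (Finset.mem_union_right _ (Finset.mem_image_of_mem _ hx))).symm
    rw [e1, ai]
    exact h1 x (Finset.mem_union_left _ hx)
  · rw [map_mul, map_mul, map_mul, map_inv, map_inv]
    change (φ g : Perm ℕ) ((φ k : Perm ℕ) ((φ g : Perm ℕ)⁻¹ ((φ k : Perm ℕ)⁻¹ y))) =
      (s : Perm ℕ) ((φ k : Perm ℕ) ((s : Perm ℕ)⁻¹ ((φ k : Perm ℕ)⁻¹ y)))
    have e1 := h2 _ (Finset.mem_union_left _
      (Finset.mem_image_of_mem (fun y => (s : Perm ℕ)⁻¹ ((φ k : Perm ℕ)⁻¹ y)) hy))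
    have e2 := h2 _ (Finset.mem_union_right _
      (Finset.mem_image_of_mem (fun y => (φ k : Perm ℕ) ((s : Perm ℕ)⁻¹ ((φ k : Perm ℕ)⁻¹ y))) hy))
    have e3 : (φ g : Perm ℕ)⁻¹ ((φ k : Perm ℕ)⁻¹ y) = (s : Perm ℕ)⁻¹ ((φ k : Perm ℕ)⁻¹ y) := by
      rw [Perm.inv_eq_iff_eq]
      have e4 : (φ g : Perm ℕ) ((s : Perm ℕ)⁻¹ ((φ k : Perm ℕ)⁻¹ y)) =
        (s : Perm ℕ) ((s : Perm ℕ)⁻¹ ((φ k : Perm ℕ)⁻¹ y)) := e1
      rw [e4, ai]
    rw [e3]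
    exact e2

/-- the kernel centralises `K` modulo a compact normal subgroup -/
theorem KT_comm {φ : G ≃* D} (hKn : ∀ g ∈ G, ∀ k ∈ K, g * k * g⁻¹ ∈ K) (hKG : K ≤ G)
    {t : Perm ℕ} (ht : t ∈ KT φ) {k : Perm ℕ} (hk : k ∈ K) : t * k * t⁻¹ * k⁻¹ ∈ KTK φ K := by
  obtain ⟨htG, htl⟩ := ht
  let t' : G := ⟨t, htG⟩
  let k' : G := ⟨k, hKG hk⟩
  refine ⟨t' * k' * t'⁻¹ * k'⁻¹, rfl, K.mul_mem (hKn _ htG _ hk) (K.inv_mem hk), ?_⟩
  have h1 : LimP φ.toMonoidHom id (φ t' : Perm ℕ) := limP_kernel' htl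
  have h2 := KSK_comm hKn h1 (k := k') hk
  rw [map_mul, map_mul, map_mul, map_inv, map_inv]
  exact h2

/-- the centraliser of `K` modulo every compact normal subgroup of `G` inside `K` is compact -/
def CC (G K : Subgroup (Perm ℕ)) : Prop := ∀ N : Subgroup (Perm ℕ), N ≤ K → ClosedG N →
  (∀ g ∈ G, ∀ n ∈ N, g * n * g⁻¹ ∈ N) → (∀ x, {y | ∃ n ∈ N, n x = y}.Finite) →
  ∀ x, {y | ∃ g ∈ G, (∀ k ∈ K, g * k * g⁻¹ * k⁻¹ ∈ N) ∧ g x = y}.Finite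

theorem locFin_of_CC (hGc : ClosedG G) (hG : Oligo G) (hKG : K ≤ G)
    (hKn : ∀ g ∈ G, ∀ k ∈ K, g * k * g⁻¹ ∈ K) (hKc : ClosedG K)
    (hDc : ClosedG D) (hD : Oligo D) (φ : G ≃* D) (hK : KFin K φ.toMonoidHom) (hC : CC G K) :
    LocFin φ.toMonoidHom := by
  classical
  have hb : ∀ y : ℕ, ∃ Z : Finset ℕ, ∀ t : G, (t : Perm ℕ) ∈ KTK φ K → (φ t : Perm ℕ) y ∈ Z := by
    intro y
    obtain ⟨F, Z, hZ⟩ := hK y
    refine ⟨Z, ?_⟩
    rintro t ⟨t', h1, _, h2⟩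
    have e : t' = t := Subtype.ext h1
    rw [e] at h2
    obtain ⟨k, h3, h4, h5⟩ := h2 F {y}
    rw [← h5 y (Finset.mem_singleton_self y)]
    exact hZ k ⟨h3, h4⟩
  have hN := orb_of_bounded hGc hG hDc φ KTK_leG (KTK_nm hKn) (KTK_closed hGc hKc) hb
  have hC' := hC (KTK φ K) KTK_le (KTK_closed hGc hKc) (KTK_nm hKn) hN
  refine locFin_of_KT hGc hDc hD φ fun x => (hC' x).subset ?_
  rintro _ ⟨t, ht, rfl⟩
  exact ⟨t, ht.1, fun k hk => KT_comm hKn hKG ht hk, rfl⟩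

/-- an oligomorphic normal subgroup has compact centralisers -/
theorem CC_of_oligo (hKn : ∀ g ∈ G, ∀ k ∈ K, g * k * g⁻¹ ∈ K) (hKG : K ≤ G) (hKo : Oligo K) :
    CC G K := by
  classical
  intro N hNK hNc hNn hNf x
  have hfin := finite_acl hKo {x}
  refine hfin.subset ?_
  rintro _ ⟨g, hg, hgk, rfl⟩
  refine ((hNf x).image g).subset ?_
  rintro _ ⟨v, hv, rfl⟩
  have h1 : v⁻¹ ∈ K := K.inv_mem hv.1
  have h2 := hgk _ h1
  -- v g x = g n x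
  have h3 : g⁻¹ * (g * v⁻¹ * g⁻¹ * v⁻¹⁻¹) * g ∈ N := by
    have := hNn g⁻¹ (G.inv_mem hg) _ h2
    rwa [inv_inv] at this
  have hvx : v⁻¹ x = x := by
    rw [Perm.inv_eq_iff_eq]
    exact (hv.2 x (by simp)).symm
  refine ⟨(v * (g⁻¹ * (g * v⁻¹ * g⁻¹ * v⁻¹⁻¹) * g) * v⁻¹) x,
    ⟨_, hNn v (hKG hv.1) _ h3, rfl⟩, ?_⟩
  have e : v * (g⁻¹ * (g * v⁻¹ * g⁻¹ * v⁻¹⁻¹) * g) * v⁻¹ = g⁻¹ * v * g * v⁻¹ := by group
  rw [e]
  change g (g⁻¹ (v (g (v⁻¹ x)))) = v (g x)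
  rw [hvx, ai]

end Pool.Agent.Olig
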