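import Pool.Agent.Olig.Uniq

/-!
# An iterated ultrapower along a linear order

`El P l w`: iterated quantifier over the coordinates in the list `l`, the first one outermost.
`DL I` is the filter of the sets which are large for all large finite sets of coordinates.
-/

open Equiv Filter

namespace Pool.Agent.Olig.LO

/-- index points -/
abbrev Jx (I : Type) : Type := I → ℕ

variable {I : Type} [LinearOrder I]

/-- iterated quantifier over the coordinates in a list, the first one outermost -/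
def El (P : Jx I → Prop) : List I → Jx I → Prop
  | [], w => P w
  | a :: l, w => ∀ᶠ k in (UU : Filter ℕ), El P l (Function.update w a k)

theorem El_nil {P : Jx I → Prop} {w : Jx I} : El P [] w ↔ P w := Iff.rfl

theorem El_cons {P : Jx I → Prop} {a : I} {l : List I} {w : Jx I} :
    El P (a :: l) w ↔ ∀ᶠ k in (UU : Filter ℕ), El P l (Function.update w a k) := Iff.rfl

theorem El.mono {P Q : Jx I → Prop} (h : ∀ w, P w → Q w) {l : List I} {w : Jx I}
    (hp : El P l w) : El Q l w := by
  induction l generalizing w with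
  | nil => exact h w hp
  | cons a l ih =>
    rw [El_cons] at hp ⊢
    exact hp.mono fun k hk => ih hk

theorem El.and {P Q : Jx I → Prop} {l : List I} {w : Jx I}
    (hp : El P l w) (hq : El Q l w) : El (fun w => P w ∧ Q w) l w := by
  induction l generalizing w with
  | nil => exact ⟨hp, hq⟩
  | cons a l ih =>
    rw [El_cons] at hp hq ⊢
    filter_upwards [hp, hq] with k h1 h2
    exact ih h1 h2

theorem El_not {P : Jx I → Prop} {l : List I} {w : Jx I} :
    El (fun w => ¬ P w) l w ↔ ¬ El P l w := by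
  induction l generalizing w with
  | nil => exact Iff.rfl
  | cons a l ih =>
    rw [El_cons, El_cons, ← Ultrafilter.eventually_not]
    exact Filter.eventually_congr (Eventually.of_forall fun k => ih)

theorem El_true {l : List I} {w : Jx I} : El (fun _ => True) l w := by
  induction l generalizing w with
  | nil => trivial
  | cons a l ih =>
    rw [El_cons]
    exact Eventually.of_forall fun k => ih

theorem El_false {l : List I} {w : Jx I} : ¬ El (fun _ => False) l w := by
  have h : El (fun _ => ¬ False) l w := El.mono (fun _ _ h => h) (El_true (l := l) (w := w))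
  exact El_not.1 h

/-- `f` does not depend on the coordinate `b` -/
def Ind {β : Type} (b : I) (f : Jx I → β) : Prop :=
  ∀ (w : Jx I) (k : ℕ), f (Function.update w b k) = f w

theorem El_update {P : Jx I → Prop} {b : I} (hP : Ind b P) {l : List I} {w : Jx I} {k : ℕ} :
    El P l (Function.update w b k) ↔ El P l w := by
  induction l generalizing w with
  | nil =>
    rw [El_nil, El_nil, hP w k]
  | cons a l ih =>
    rw [El_cons, El_cons]
    refine Filter.eventually_congr (Eventually.of_forall fun k' => ?_)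
    by_cases h : b = a
    · subst h
      rw [Function.update_idem]
    · rw [Function.update_comm h, ih]

theorem El_sub {P : Jx I → Prop} {l1 l2 : List I} (h : l1.Sublist l2) (hnd : l2.Nodup)
    (hP : ∀ b ∈ l2, b ∉ l1 → Ind b P) {w : Jx I} : El P l2 w ↔ El P l1 w := by
  induction h generalizing w with
  | slnil => exact Iff.rfl
  | cons a h ih =>
    rename_i l1 l2
    have ha : a ∉ l2 := (List.nodup_cons.1 hnd).1
    rw [El_cons]
    have h1 : Ind a P := hP a List.mem_cons_self (fun h' => ha (h.subset h'))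
    have h2 : ∀ k, El P l2 (Function.update w a k) ↔ El P l1 w := by
      intro k
      rw [ih (List.nodup_cons.1 hnd).2 (fun b hb hb' => hP b (List.mem_cons_of_mem _ hb) hb'),
        El_update h1]
    rw [Filter.eventually_congr (Eventually.of_forall h2)]
    exact Filter.eventually_const
  | cons_cons a h ih =>
    rename_i l1 l2
    have ha : a ∉ l2 := (List.nodup_cons.1 hnd).1
    rw [El_cons, El_cons]
    refine Filter.eventually_congr (Eventually.of_forall fun k => ?_)
    refine ih (List.nodup_cons.1 hnd).2 (fun b hb hb' => hP b (List.mem_cons_of_mem _ hb) ?_)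
    rw [List.mem_cons]
    rintro (rfl | h')
    · exact ha hb
    · exact hb' h'

theorem El_last {P : Jx I → Prop} {b : I}
    (hP : ∀ w, ∀ᶠ k in (UU : Filter ℕ), P (Function.update w b k)) (l : List I) {w : Jx I} :
    El P (l ++ [b]) w := by
  induction l generalizing w with
  | nil => exact hP w
  | cons a l ih =>
    rw [List.cons_append, El_cons]
    exact Eventually.of_forall fun k => ih

theorem El_map {P : Jx I → Prop} (α : I ≃o I) {l : List I} {w : Jx I} :
    El (fun w => P (fun j => w (α j))) (l.map α) w ↔ El P l (fun j => w (α j)) := by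
  induction l generalizing w with
  | nil => exact Iff.rfl
  | cons a l ih =>
    rw [List.map_cons, El_cons, El_cons]
    refine Filter.eventually_congr (Eventually.of_forall fun k => ?_)
    rw [ih]
    have : (fun j => Function.update w (α a) k (α j)) =
        Function.update (fun j => w (α j)) a k := by
      funext j
      by_cases h : j = a
      · subst h
        rw [Function.update_self, Function.update_self]
      · rw [Function.update_of_ne h, Function.update_of_ne]
        exact fun h' => h (α.injective h')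
    rw [this]

/-- `f` depends only on the coordinates in `s` -/
def Dp {β : Type} (f : Jx I → β) (s : Finset I) : Prop := ∀ b : I, b ∉ s → Ind b f

theorem Dp.mono {β : Type} {f : Jx I → β} {s t : Finset I} (h : Dp f s) (hst : s ⊆ t) : Dp f t :=
  fun b hb => h b fun h' => hb (hst h')

theorem Dp.comp1 {β γ : Type} {f : Jx I → β} {s : Finset I} (h : Dp f s) (F : β → γ) :
    Dp (fun w => F (f w)) s := by
  intro b hb w k
  change F (f (Function.update w b k)) = F (f w)
  rw [h b hb w k]

theorem Dp.comp2 {β γ δ : Type} {f : Jx I → β} {g : Jx I → γ} {s t : Finset I} (h : Dp f s)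
    (h' : Dp g t) (F : β → γ → δ) : Dp (fun w => F (f w) (g w)) (s ∪ t) := by
  intro b hb w k
  change F (f (Function.update w b k)) (g (Function.update w b k)) = F (f w) (g w)
  rw [h b (fun h' => hb (Finset.mem_union_left _ h')) w k,
    h' b (fun h' => hb (Finset.mem_union_right _ h')) w k]

theorem Dp.const {β : Type} (c : β) (s : Finset I) : Dp (fun _ : Jx I => c) s := fun _ _ _ _ => rfl

theorem Dp.coord (j : I) : Dp (fun w : Jx I => w j) {j} := by
  intro b hb w k
  refine Function.update_of_ne ?_ _ _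
  rintro rfl
  exact hb (Finset.mem_singleton_self _)

theorem Dp.iso {β : Type} {f : Jx I → β} {s : Finset I} (h : Dp f s) (α : I ≃o I) :
    Dp (fun w : Jx I => f (fun j => w (α j))) (s.map α.toEquiv.toEmbedding) := by
  intro b hb w k
  have e : (fun j => Function.update w b k (α j)) =
      Function.update (fun j => w (α j)) (α.symm b) k := by
    funext j
    by_cases h : j = α.symm b
    · subst h
      rw [α.apply_symm_apply, Function.update_self, Function.update_self]
    · rw [Function.update_of_ne h, Function.update_of_ne]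
      intro h'
      apply h
      rw [← h', α.symm_apply_apply]
  change f (fun j => Function.update w b k (α j)) = _
  rw [e]
  refine h _ (fun h' => hb ?_) _ _
  exact Finset.mem_map.2 ⟨_, h', α.apply_symm_apply b⟩

theorem sort_sub {s t : Finset I} (h : s ⊆ t) : s.sort.Sublist t.sort := by
  refine List.sublist_of_subperm_of_sortedLE ?_ (Finset.sortedLT_sort s).sortedLE
    (Finset.sortedLT_sort t).sortedLE
  exact List.subperm_of_subset (Finset.sort_nodup _ _) fun x hx =>
    (Finset.mem_sort _).2 (h ((Finset.mem_sort _).1 hx))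

theorem El_fin {P : Jx I → Prop} {s t : Finset I} (hP : Dp P s) (h : s ⊆ t) {w : Jx I} :
    El P t.sort w ↔ El P s.sort w :=
  El_sub (sort_sub h) (Finset.sort_nodup _ _) fun b _ hb' => hP b fun h' =>
    hb' ((Finset.mem_sort _).2 h')

/-- the filter of the large sets of index points -/
def DL (I : Type) [LinearOrder I] : Filter (Jx I) where
  sets := {P | ∃ s : Finset I, ∀ t : Finset I, s ⊆ t → El (fun w => w ∈ P) t.sort 0}
  univ_sets := ⟨∅, fun t _ => El.mono (fun _ _ => Set.mem_univ _) El_true⟩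
  sets_of_superset := by
    rintro P Q ⟨N, hN⟩ hPQ
    exact ⟨N, fun n hn => (hN n hn).mono fun w hw => hPQ hw⟩
  inter_sets := by
    rintro P Q ⟨N, hN⟩ ⟨M, hM⟩
    exact ⟨N ∪ M, fun n hn => (hN n (Finset.subset_union_left.trans hn)).and
      (hM n (Finset.subset_union_right.trans hn))⟩

theorem DL_iff {P : Jx I → Prop} :
    (∀ᶠ w in DL I, P w) ↔ ∃ s : Finset I, ∀ t : Finset I, s ⊆ t → El P t.sort 0 := Iff.rfl

theorem DL_dp {P : Jx I → Prop} {s : Finset I} (hP : Dp P s) :
    (∀ᶠ w in DL I, P w) ↔ El P s.sort 0 := by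
  rw [DL_iff]
  constructor
  · rintro ⟨t, ht⟩
    exact (El_fin hP Finset.subset_union_left).1 (ht (s ∪ t) Finset.subset_union_right)
  · intro h
    exact ⟨s, fun n hn => (El_fin hP hn).2 h⟩

instance DL_neBot : NeBot (DL I) := by
  rw [← Filter.eventually_false_iff_eq_bot.not.trans (Iff.rfl : ¬ DL I = ⊥ ↔ DL I ≠ ⊥) |>.trans
    Filter.neBot_iff.symm]
  intro h
  obtain ⟨N, hN⟩ := DL_iff.1 h
  exact El_false (hN N (Finset.Subset.refl N))

theorem DL_em {P : Jx I → Prop} {s : Finset I} (hP : Dp P s) (h : ¬ ∀ᶠ w in DL I, P w) :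
    ∀ᶠ w in DL I, ¬ P w := by
  rw [DL_dp hP] at h
  rw [DL_dp (hP.comp1 fun p => ¬ p)]
  exact El_not.2 h

theorem DL_last {P : Jx I → Prop} {s : Finset I} {b : I} (hb : ∀ a ∈ s, a < b)
    (hP : Dp P (insert b s))
    (h : ∀ w, ∀ᶠ k in (UU : Filter ℕ), P (Function.update w b k)) : ∀ᶠ w in DL I, P w := by
  rw [DL_dp hP]
  have hbs : b ∉ s := fun h' => lt_irrefl b (hb b h')
  have hnd : (s.sort ++ [b]).Nodup := by
    rw [List.nodup_append]
    refine ⟨Finset.sort_nodup _ _, List.nodup_singleton b, ?_⟩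
    intro x hx y hy
    rw [List.mem_singleton] at hy
    subst hy
    rintro rfl
    exact hbs ((Finset.mem_sort _).1 hx)
  have hpw : (s.sort ++ [b]).Pairwise (fun a b => a ≤ b) := by
    rw [List.pairwise_append]
    refine ⟨Finset.pairwise_sort _ _, List.pairwise_singleton _ _, ?_⟩
    intro x hx y hy
    rw [List.mem_singleton] at hy
    subst hy
    exact (hb x ((Finset.mem_sort _).1 hx)).le
  have e : (insert b s).sort = s.sort ++ [b] := by
    have h1 := (List.toFinset_sort (r := fun a b : I => a ≤ b) hnd).2 hpw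
    have h2 : (s.sort ++ [b]).toFinset = insert b s := by
      ext x
      simp [or_comm]
    rw [h2] at h1
    exact h1
  rw [e]
  exact El_last h _

theorem DL_iso (α : I ≃o I) {P : Jx I → Prop} {s : Finset I} (hP : Dp P s) :
    (∀ᶠ w in DL I, P (fun j => w (α j))) ↔ ∀ᶠ w in DL I, P w := by
  rw [DL_dp (hP.iso α), DL_dp hP]
  have e : (s.map α.toEquiv.toEmbedding).sort = (s.sort).map α := by
    have := Finset.map_sort α.toEquiv.toEmbedding s (fun a b => a ≤ b) (fun a b => a ≤ b)
      (fun a _ b _ => (α.le_iff_le (x := a) (y := b)).symm)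
    exact this.symm
  rw [e, El_map]
  exact Iff.rfl

/-- finite choice -/
theorem DL_fin {α : Type} (T : Finset α) {P : α → Jx I → Prop} {s : Finset I}
    (hP : ∀ t, Dp (P t) s) (h : ∀ᶠ w in DL I, ∃ t ∈ T, P t w) :
    ∃ t ∈ T, ∀ᶠ w in DL I, P t w := by
  by_contra hcon
  have h1 : ∀ t ∈ T, ∀ᶠ w in DL I, ¬ P t w := fun t ht => DL_em (hP t) (by
    intro h2
    exact hcon ⟨t, ht, h2⟩)
  have h2 := (Filter.eventually_all_finset T).2 h1
  obtain ⟨w, ⟨t, ht, hw⟩, hw2⟩ := (h.and h2).exists
  exact hw2 t ht hw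

/-! ### the model -/

/-- functions with finite support -/
abbrev FSF (I : Type) [LinearOrder I] : Type := {f : Jx I → ℕ // ∃ s, Dp f s}

instance fsSetoid (I : Type) [LinearOrder I] : Setoid (FSF I) where
  r f g := ∀ᶠ w in DL I, f.1 w = g.1 w
  iseqv :=
    { refl := fun _ => Eventually.of_forall fun _ => rfl
      symm := fun h => h.mono fun _ h => h.symm
      trans := fun h h' => (h.and h').mono fun _ h => h.1.trans h.2 }

/-- the iterated ultrapower of `ω` -/
abbrev Am (I : Type) [LinearOrder I] : Type := Quotient (fsSetoid I)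

theorem Am_eq {f g : FSF I} : (⟦f⟧ : Am I) = ⟦g⟧ ↔ ∀ᶠ w in DL I, f.1 w = g.1 w :=
  ⟨fun h => Quotient.exact h, fun h => Quotient.sound h⟩

/-- the constants -/
def cs (n : ℕ) : Am I := ⟦⟨fun _ => n, ∅, Dp.const n ∅⟩⟧

theorem cs_inj {n m : ℕ} (h : (cs n : Am I) = cs m) : n = m := by
  obtain ⟨w, hw⟩ := (Am_eq.1 h).exists
  exact hw

/-- constructor of permutations of the model -/
noncomputable def mkP (F : FSF I → FSF I)
    (h1 : ∀ f g : FSF I, (⟦F f⟧ : Am I) = ⟦F g⟧ ↔ (⟦f⟧ : Am I) = ⟦g⟧)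
    (h2 : ∀ g : FSF I, ∃ f : FSF I, (⟦F f⟧ : Am I) = ⟦g⟧) : Perm (Am I) :=
  Equiv.ofBijective (Quotient.lift (fun f : FSF I => (⟦F f⟧ : Am I))
    (fun f g h => (h1 f g).2 (Quotient.sound h))) (by
      constructor
      · intro x y
        induction x using Quotient.inductionOn with
        | h f =>
          induction y using Quotient.inductionOn with
          | h g =>
            intro h
            exact (h1 f g).1 h
      · intro y
        induction y using Quotient.inductionOn with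
        | h g =>
          obtain ⟨f, hf⟩ := h2 g
          exact ⟨⟦f⟧, hf⟩)

/-- functions with finite support with values in the permutations -/
abbrev FSP (I : Type) [LinearOrder I] : Type := {γ : Jx I → Perm ℕ // ∃ s, Dp γ s}

/-- action on functions -/
def av (γ : FSP I) (f : FSF I) : FSF I := ⟨fun w => γ.1 w (f.1 w), by
  obtain ⟨s, hs⟩ := γ.2
  obtain ⟨t, ht⟩ := f.2
  exact ⟨s ∪ t, hs.comp2 ht fun g n => g n⟩⟩

/-- the inverse -/
def iv (γ : FSP I) : FSP I := ⟨fun w => (γ.1 w)⁻¹, by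
  obtain ⟨s, hs⟩ := γ.2
  exact ⟨s, hs.comp1 fun g => g⁻¹⟩⟩

/-- the action of a function with values in the permutations -/
noncomputable def ac (γ : FSP I) : Perm (Am I) := mkP (av γ) (by
    intro f g
    rw [Am_eq, Am_eq]
    refine Filter.eventually_congr (Eventually.of_forall fun w => ?_)
    exact (γ.1 w).injective.eq_iff) (by
    intro g
    refine ⟨av (iv γ) g, Am_eq.2 (Eventually.of_forall fun w => ?_)⟩
    change γ.1 w ((γ.1 w)⁻¹ (g.1 w)) = g.1 w
    exact ai _ _)

theorem ac_mk (γ : FSP I) (f : FSF I) : ac γ ⟦f⟧ = ⟦av γ f⟧ := rfl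

/-- action of the automorphisms of the order on functions -/
def xf (α : I ≃o I) (f : FSF I) : FSF I := ⟨fun w => f.1 (fun j => w (α j)), by
  obtain ⟨s, hs⟩ := f.2
  exact ⟨_, hs.iso α⟩⟩

theorem xf_iff (α : I ≃o I) (f g : FSF I) :
    (⟦xf α f⟧ : Am I) = ⟦xf α g⟧ ↔ (⟦f⟧ : Am I) = ⟦g⟧ := by
  rw [Am_eq, Am_eq]
  obtain ⟨s, hs⟩ := f.2
  obtain ⟨t, ht⟩ := g.2
  exact DL_iso α (hs.comp2 ht fun a b => a = b)

/-- action of the automorphisms of the order -/
noncomputable def ix (α : I ≃o I) : Perm (Am I) := mkP (xf α) (xf_iff α) (by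
    intro g
    refine ⟨xf α.symm g, Am_eq.2 (Eventually.of_forall fun w => ?_)⟩
    change g.1 (fun j => w (α (α.symm j))) = g.1 w
    refine congrArg g.1 (funext fun j => ?_)
    rw [α.apply_symm_apply])

theorem ix_mk (α : I ≃o I) (f : FSF I) : ix α ⟦f⟧ = ⟦xf α f⟧ := rfl

theorem ix_cs (α : I ≃o I) (n : ℕ) : ix α (cs n) = cs n := rfl

/-- a coordinate put into a sequence of permutations -/
def cj' (j : I) (u : ℕ → Perm ℕ) : FSP I := ⟨fun w => u (w j), {j}, (Dp.coord j).comp1 u⟩

theorem ac_cs (γ : FSP I) (n : ℕ) : ac γ (cs n) = ⟦av γ ⟨fun _ => n, ∅, Dp.const n ∅⟩⟧ := rfl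

/-- product of functions with values in the permutations -/
def mv (γ δ : FSP I) : FSP I := ⟨fun w => γ.1 w * δ.1 w, by
  obtain ⟨s, hs⟩ := γ.2
  obtain ⟨t, ht⟩ := δ.2
  exact ⟨s ∪ t, hs.comp2 ht fun a b => a * b⟩⟩

/-- constant functions -/
def kv (g : Perm ℕ) : FSP I := ⟨fun _ => g, ∅, Dp.const g ∅⟩

theorem ac_mv (γ δ : FSP I) (x : Am I) : ac (mv γ δ) x = ac γ (ac δ x) := by
  induction x using Quotient.inductionOn with
  | h f => rfl

theorem ac_kv (g : Perm ℕ) (n : ℕ) : (ac (kv g) (cs n) : Am I) = cs (g n) := rfl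

theorem exists_ac {G : Subgroup (Perm ℕ)} (hG : Oligo G) (F : Finset (Am I)) :
    ∃ γ : FSP I, (∀ w, γ.1 w ∈ G) ∧ ∃ t : Am I → ℕ, ∀ x ∈ F, x = ac γ (cs (t x)) := by
  classical
  obtain ⟨T, hT⟩ := hG.fintype {x // x ∈ F}
  choose tt htt gg hgg h using hT
  let r : Am I → FSF I := fun x => x.out
  have hr : ∀ x, (⟦r x⟧ : Am I) = x := fun x => Quotient.out_eq x
  choose N hN using fun x : Am I => (r x).2
  let rr : Jx I → ({x // x ∈ F} → ℕ) := fun w x => (r x.1).1 w
  have hrr : Dp rr (F.biUnion N) := by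
    intro b hb w k
    funext x
    exact hN x.1 b (fun h' => hb (Finset.mem_biUnion.2 ⟨x.1, x.2, h'⟩)) w k
  obtain ⟨t₀, _, ht₀⟩ := DL_fin T (P := fun t w => tt (rr w) = t) (s := F.biUnion N)
    (fun t => hrr.comp1 fun z => tt z = t)
    (Eventually.of_forall fun w => ⟨tt (rr w), htt _, rfl⟩)
  refine ⟨⟨fun w => gg (rr w), F.biUnion N, hrr.comp1 gg⟩, fun w => hgg _,
    fun x => if hx : x ∈ F then t₀ ⟨x, hx⟩ else 0, fun x hx => ?_⟩
  simp only [dif_pos hx]
  rw [ac_cs]
  conv_lhs => rw [← hr x]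
  rw [Am_eq]
  filter_upwards [ht₀] with w hw
  have := h (rr w) ⟨x, hx⟩
  rw [hw] at this
  exact this.symm

theorem cmp_rep {G : Subgroup (Perm ℕ)} {γ γ' : FSP I} (hγ : ∀ w, γ.1 w ∈ G)
    (hγ' : ∀ w, γ'.1 w ∈ G) {ι : Type} (F : Finset ι) (a b : ι → ℕ)
    (h : ∀ i ∈ F, ac γ (cs (a i)) = ac γ' (cs (b i))) :
    ∃ δ ∈ G, ∀ i ∈ F, a i = δ (b i) := by
  classical
  have h3 : ∀ i ∈ F, ∀ᶠ w in DL I, γ.1 w (a i) = γ'.1 w (b i) := by
    intro i hi
    have h4 := h i hi
    rw [ac_cs, ac_cs, Am_eq] at h4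
    exact h4
  obtain ⟨w, hw⟩ := ((Filter.eventually_all_finset F).2 h3).exists
  refine ⟨(γ.1 w)⁻¹ * γ'.1 w, G.mul_mem (G.inv_mem (hγ w)) (hγ' w), fun i hi => ?_⟩
  rw [Perm.mul_apply, ← hw i hi, ia]

/-- elementary permutations of the model -/
def Elem (G : Subgroup (Perm ℕ)) (π : Perm (Am I)) : Prop :=
  ∀ F : Finset (Am I), ∃ γ γ' : FSP I, (∀ w, γ.1 w ∈ G) ∧ (∀ w, γ'.1 w ∈ G) ∧ ∃ t : Am I → ℕ,
    ∀ x ∈ F, x = ac γ (cs (t x)) ∧ π x = ac γ' (cs (t x))

/-- the group of the elementary permutations -/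
def ElemG {G : Subgroup (Perm ℕ)} (hG : Oligo G) : Subgroup (Perm (Am I)) where
  carrier := {π | Elem G π}
  one_mem' := by
    intro F
    obtain ⟨γ, hγ, t, ht⟩ := exists_ac hG F
    exact ⟨γ, γ, hγ, hγ, t, fun x hx => ⟨ht x hx, ht x hx⟩⟩
  mul_mem' := by
    classical
    intro π π' h h' F
    obtain ⟨γ, γ', hγ, hγ', t, ht⟩ := h' F
    obtain ⟨δ, δ', hδ, hδ', u, hu⟩ := h (F.image π')
    obtain ⟨ε, hε, he⟩ := cmp_rep hδ hγ' F (fun x => u (π' x)) t (by
      intro x hx
      rw [← (ht x hx).2]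
      exact ((hu _ (Finset.mem_image_of_mem _ hx)).1).symm)
    refine ⟨γ, mv δ' (kv ε), hγ, fun w => G.mul_mem (hδ' w) hε, t, fun x hx => ⟨(ht x hx).1, ?_⟩⟩
    rw [Perm.mul_apply, (hu _ (Finset.mem_image_of_mem _ hx)).2, ac_mv, ac_kv]
    have h3 : u (π' x) = ε (t x) := he x hx
    rw [h3]
  inv_mem' := by
    classical
    intro π h F
    obtain ⟨γ, γ', hγ, hγ', t, ht⟩ := h (F.image ⇑π⁻¹)
    refine ⟨γ', γ, hγ', hγ, fun x => t (π⁻¹ x), fun x hx => ?_⟩
    obtain ⟨h1, h2⟩ := ht _ (Finset.mem_image_of_mem _ hx)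
    refine ⟨?_, h1⟩
    rw [← h2]
    simp

theorem elem_ac {G : Subgroup (Perm ℕ)} (hG : Oligo G) {γ₀ : FSP I} (h0 : ∀ w, γ₀.1 w ∈ G) :
    Elem G (ac γ₀) := by
  intro F
  obtain ⟨γ, hγ, t, ht⟩ := exists_ac hG F
  refine ⟨γ, mv γ₀ γ, hγ, fun w => G.mul_mem (h0 w) (hγ w), t, fun x hx => ⟨ht x hx, ?_⟩⟩
  rw [ac_mv, ← ht x hx]

theorem elem_ix {G : Subgroup (Perm ℕ)} (hG : Oligo G) (α : I ≃o I) : Elem G (ix α) := by
  intro F
  obtain ⟨γ, hγ, t, ht⟩ := exists_ac hG F
  have h1 : ∃ s, Dp (fun w : Jx I => γ.1 (fun j => w (α j))) s := by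
    obtain ⟨s, hs⟩ := γ.2
    exact ⟨_, hs.iso α⟩
  refine ⟨γ, ⟨fun w => γ.1 (fun j => w (α j)), h1⟩, hγ, fun w => hγ _, t,
    fun x hx => ⟨ht x hx, ?_⟩⟩
  conv_lhs => rw [ht x hx]
  rfl

end Pool.Agent.Olig.LO
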