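import Pool.Agent.Olig.NecC

/-!
# The subgroup responsible for a discontinuity
-/

open Equiv Filter

namespace Pool.Agent.Olig

namespace ClIso

variable {G D : Subgroup (Perm ℕ)} {N : (ℕ → ℕ) → Prop} {P R : (ℕ → ℕ) → (ℕ → ℕ)}

theorem P_mul (h : ClIso G D N P R) {a b : Perm ℕ} (ha : a ∈ G) (hb : b ∈ G) (x : ℕ) :
    P ⇑(a * b) x = P ⇑a (P ⇑b x) :=
  congrFun (h.mulP ⇑a ⇑b (Cl.of_mem ha) (Cl.of_mem hb)) x

theorem P_one (h : ClIso G D N P R) (x : ℕ) : P ⇑(1 : Perm ℕ) x = x := by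
  have : (⇑(1 : Perm ℕ) : ℕ → ℕ) = id := rfl
  rw [this, h.idP]
  rfl

theorem P_inv (h : ClIso G D N P R) {a : Perm ℕ} (ha : a ∈ G) (x : ℕ) :
    P ⇑a⁻¹ (P ⇑a x) = x := by
  rw [← h.P_mul (G.inv_mem ha) ha, inv_mul_cancel, h.P_one]

theorem P_inv' (h : ClIso G D N P R) {a : Perm ℕ} (ha : a ∈ G) (x : ℕ) :
    P ⇑a (P ⇑a⁻¹ x) = x := by
  rw [← h.P_mul ha (G.inv_mem ha), mul_inv_cancel, h.P_one]

/-- the elements of `G` acting on `K` through `P` like an element of `SSg` -/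
def UK (h : ClIso G D N P R) (K : Finset ℕ) (hK : ∀ d ∈ h.SSg, ∀ z ∈ K, d z ∈ K) :
    Subgroup (Perm ℕ) where
  carrier := {g | g ∈ G ∧ ∃ σ ∈ h.SSg, ∀ z ∈ K, P ⇑g z = σ z}
  one_mem' := ⟨G.one_mem, 1, h.SSg.one_mem, fun z _ => h.P_one z⟩
  mul_mem' := by
    rintro a b ⟨ha, σ, hσ, h1⟩ ⟨hb, τ, hτ, h2⟩
    refine ⟨G.mul_mem ha hb, σ * τ, h.SSg.mul_mem hσ hτ, fun z hz => ?_⟩
    rw [h.P_mul ha hb, h2 z hz, h1 _ (hK τ hτ z hz)]
    rfl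
  inv_mem' := by
    rintro a ⟨ha, σ, hσ, h1⟩
    refine ⟨G.inv_mem ha, σ⁻¹, h.SSg.inv_mem hσ, fun z hz => ?_⟩
    have h2 := h1 _ (hK σ⁻¹ (h.SSg.inv_mem hσ) z hz)
    rw [ai] at h2
    conv_lhs => rw [← h2]
    exact h.P_inv ha _

/-- the elements of `G` fixing `K` pointwise through `P` -/
def HK (h : ClIso G D N P R) (K : Finset ℕ) : Subgroup (Perm ℕ) where
  carrier := {g | g ∈ G ∧ ∀ z ∈ K, P ⇑g z = z}
  one_mem' := ⟨G.one_mem, fun z _ => h.P_one z⟩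
  mul_mem' := by
    rintro a b ⟨ha, h1⟩ ⟨hb, h2⟩
    refine ⟨G.mul_mem ha hb, fun z hz => ?_⟩
    rw [h.P_mul ha hb, h2 z hz, h1 z hz]
  inv_mem' := by
    rintro a ⟨ha, h1⟩
    refine ⟨G.inv_mem ha, fun z hz => ?_⟩
    conv_lhs => rw [← h1 z hz]
    exact h.P_inv ha _

/-- If `SSg` is nontrivial there is an open subgroup with a non-open normal subgroup of finite
index, of a special kind. -/
theorem exists_disc (h : ClIso G D N P R) (hne : h.SSg ≠ ⊥) : ∃ U H : Subgroup (Perm ℕ),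
    OpenIn G U ∧ h.symm.SSg ≤ U ∧ H ≤ U ∧ (∀ u ∈ U, ∀ x ∈ H, u * x * u⁻¹ ∈ H) ∧
    (H.subgroupOf U).FiniteIndex ∧ ¬ OpenIn G H ∧
    (∀ u ∈ U, ∃ x ∈ H, ∃ t ∈ h.symm.SSg, u = x * t) ∧
    ∀ u ∈ U, ∀ n, Cl U n → ⇑u ∘ n = n → u ∈ H := by
  classical
  obtain ⟨s, hs, hs1⟩ : ∃ s ∈ h.SSg, s ≠ 1 := by
    by_contra hcon
    push Not at hcon
    exact hne ((Subgroup.eq_bot_iff_forall _).2 hcon)
  obtain ⟨y, hy⟩ : ∃ y, s y ≠ y := by
    by_contra hcon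
    push Not at hcon
    exact hs1 (Equiv.ext hcon)
  obtain ⟨K, hyK, hK⟩ := h.exists_inv {y}
  have hyK : y ∈ K := hyK (by simp)
  have hUopen : OpenIn G (h.UK K hK) := by
    obtain ⟨F, hF⟩ := h.cont_grp K
    exact ⟨fun g hg => hg.1, F, fun g hg hgF => ⟨hg, hF g ⟨hg, hgF⟩⟩⟩
  have hTU : h.symm.SSg ≤ h.UK K hK := by
    intro t ht
    have htG : t ∈ G := h.symm.SSg_le ht
    obtain ⟨d, hd, hPd⟩ := h.gP t htG
    exact ⟨htG, d, (h.mem_SS_iff htG hPd).1 ht, fun z _ => by rw [hPd]⟩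
  have hHU : h.HK K ≤ h.UK K hK := fun g hg => ⟨hg.1, 1, h.SSg.one_mem, fun z hz => hg.2 z hz⟩
  have hmapU : ∀ u ∈ h.UK K hK, ∀ z ∈ K, P ⇑u z ∈ K := by
    rintro u ⟨_, σ, hσ, h1⟩ z hz
    rw [h1 z hz]
    exact hK σ hσ z hz
  refine ⟨h.UK K hK, h.HK K, hUopen, hTU, hHU, ?_, ?_, ?_, ?_, ?_⟩
  · intro u hu x hx
    refine ⟨G.mul_mem (G.mul_mem hu.1 hx.1) (G.inv_mem hu.1), fun z hz => ?_⟩
    rw [h.P_mul (G.mul_mem hu.1 hx.1) (G.inv_mem hu.1), h.P_mul hu.1 hx.1,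
      hx.2 _ (hmapU _ ((h.UK K hK).inv_mem hu) z hz), h.P_inv' hu.1]
  · have hfin : Finite (h.UK K hK ⧸ (h.HK K).subgroupOf (h.UK K hK)) := by
      let f : h.UK K hK → ({z // z ∈ K} → {z // z ∈ K}) := fun u z =>
        ⟨P ⇑(u : Perm ℕ) z.1, hmapU u.1 u.2 z.1 z.2⟩
      have hf : ∀ a b : h.UK K hK, f a = f b → a⁻¹ * b ∈ (h.HK K).subgroupOf (h.UK K hK) := by
        intro a b hab
        rw [Subgroup.mem_subgroupOf]
        refine ⟨G.mul_mem (G.inv_mem a.2.1) b.2.1, fun z hz => ?_⟩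
        have h1 := congrArg Subtype.val (congrFun hab ⟨z, hz⟩)
        change P ⇑(a : Perm ℕ) z = P ⇑(b : Perm ℕ) z at h1
        change P ⇑((a : Perm ℕ)⁻¹ * (b : Perm ℕ)) z = z
        rw [h.P_mul (G.inv_mem a.2.1) b.2.1, ← h1, h.P_inv a.2.1]
      refine Finite.of_injective (fun x : h.UK K hK ⧸ (h.HK K).subgroupOf (h.UK K hK) =>
        f (Quotient.out x)) (fun x x' hxx => ?_)
      have h2 := hf _ _ hxx
      rw [← QuotientGroup.out_eq' x, ← QuotientGroup.out_eq' x']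
      exact QuotientGroup.eq.2 h2
    exact Subgroup.finiteIndex_of_finite_quotient
  · intro hop
    obtain ⟨F, hF⟩ := hop.op
    obtain ⟨g, hg, h1⟩ := hs.2 F {y}
    have h2 := (hF g hg.1 hg.2).2 y hyK
    rw [h1 y (by simp)] at h2
    exact hy h2
  · rintro u ⟨hu, σ, hσ, h1⟩
    obtain ⟨t, ht, hRt⟩ := h.dR σ (h.SSg_le hσ)
    have hPt : P ⇑t = ⇑σ := by rw [← hRt, h.PR _ (h.Nd (h.SSg_le hσ))]
    refine ⟨u * t⁻¹, ⟨G.mul_mem hu (G.inv_mem ht), fun z hz => ?_⟩, t,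
      (h.mem_SS_iff ht hPt).2 hσ, by group⟩
    rw [h.P_mul hu (G.inv_mem ht), h.invP ht (h.SSg_le hσ) hPt,
      h1 _ (hK _ (h.SSg.inv_mem hσ) z hz), ai]
  · intro u hu n hn hun
    have hnG : Cl G n := hn.mono hUopen.le
    obtain ⟨F, hF⟩ := h.cont_mod K
    obtain ⟨v, hv, hvn⟩ := hn F
    obtain ⟨σ, hσ, h1⟩ := hF ⇑v n (Cl.of_mem hv.1) hnG hvn
    have hmap : ∀ z ∈ K, P n z ∈ K := fun z hz => by
      rw [h1 z hz]
      exact hmapU v hv _ (hK σ hσ z hz)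
    have himg : K.image (P n) = K := by
      refine Finset.eq_of_subset_of_card_le (fun z hz => ?_) ?_
      · obtain ⟨z', hz', rfl⟩ := Finset.mem_image.1 hz
        exact hmap z' hz'
      · rw [Finset.card_image_of_injective _ (h.clP hnG).injective]
    refine ⟨hu.1, fun z hz => ?_⟩
    rw [← himg] at hz
    obtain ⟨z', _, rfl⟩ := Finset.mem_image.1 hz
    have h2 := h.mulP _ _ (Cl.of_mem hu.1) hnG
    rw [hun] at h2
    exact (congrFun h2 z').symm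

end ClIso

end Pool.Agent.Olig
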