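import Pool.Agent.Olig.NecD

/-!
# Lascar distances in the closure of an oligomorphic group

`exists_rich2`: a joint version of `exists_rich`.
-/

open Equiv Filter

namespace Pool.Agent.Olig

theorem exists_rich2 {G : Subgroup (Perm ℕ)} (hc : ClosedG G) (hG : Oligo G)
    (Sq : Set (ℕ → Perm ℕ)) (hSq : Sq.Countable) (hSqG : ∀ γ ∈ Sq, ∀ k, γ k ∈ G) :
    ∃ (s : ℕ → ℕ) (ht : (ℕ → Perm ℕ) → Perm ℕ), Cl G s ∧ (∀ γ ∈ Sq, ht γ ∈ G) ∧
      ∀ (F : Finset ℕ) (S0 : Finset (ℕ → Perm ℕ)), (∀ γ ∈ S0, γ ∈ Sq) →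
        ∀ᶠ k in (UU : Filter ℕ), ∃ θ ∈ G, (∀ x ∈ F, s x = θ x) ∧
          ∀ γ ∈ S0, ∀ p ∈ F, ht γ p = θ (γ k (θ⁻¹ p)) := by
  classical
  choose Θ hΘG tt htt using exists_act hG
  have hmv : ∀ x : Om, ∃ m : ℕ → Perm ℕ, (∀ k, m k ∈ G) ∧
      ((∀ n, x ≠ cst n) → (∀ n, act m (cst n) = cst n) ∧ act m x ≠ x) := by
    intro x
    by_cases hx : ∀ n, x ≠ cst n
    · obtain ⟨m, h1, h2, h3⟩ := exists_mover hG x hx
      exact ⟨m, h1, fun _ => ⟨h2, h3⟩⟩
    · exact ⟨1, fun _ => G.one_mem, fun h => absurd h hx⟩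
  choose mv hmvG hmv using hmv
  obtain ⟨H, hHc, hB0, hΘ⟩ := exists_countable_subgroup (α := ℕ → Perm ℕ)
    (fun γ n => act γ (cst n)) Sq hSq
    (fun F => {Θ F} ∪ mv '' (F : Set Om))
    (fun F => (Set.countable_singleton _).union (F.finite_toSet.image _).countable)
  -- replace `H` by the elements with all values in `G`
  let HG : Subgroup (ℕ → Perm ℕ) :=
    { carrier := {γ | γ ∈ H ∧ ∀ k, γ k ∈ G}
      one_mem' := ⟨H.one_mem, fun _ => G.one_mem⟩
      mul_mem' := fun h h' => ⟨H.mul_mem h.1 h'.1, fun k => G.mul_mem (h.2 k) (h'.2 k)⟩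
      inv_mem' := fun h => ⟨H.inv_mem h.1, fun k => G.inv_mem (h.2 k)⟩ }
  have hHG : ∀ γ, γ ∈ HG ↔ γ ∈ H ∧ ∀ k, γ k ∈ G := fun γ => Iff.rfl
  have hHGc : (HG : Set (ℕ → Perm ℕ)).Countable := hHc.mono fun γ hγ => hγ.1
  -- the countable elementary substructure
  let Om' : Set Om := {x | ∃ h ∈ HG, ∃ n, x = act h (cst n)}
  have hOmc : Om'.Countable := by
    have : Om' ⊆ Set.image2 (fun γ n => act γ (cst n)) HG Set.univ := by
      rintro x ⟨h, hh, n, rfl⟩
      exact ⟨h, hh, n, Set.mem_univ _, rfl⟩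
    exact (hHGc.image2 Set.countable_univ _).mono this
  have hOmact : ∀ h ∈ HG, ∀ x ∈ Om', act h x ∈ Om' := by
    rintro h hh x ⟨h', hh', n, rfl⟩
    exact ⟨h * h', HG.mul_mem hh hh', n, by rw [act_mul]⟩
  have hcstm : ∀ n, cst n ∈ Om' := fun n => ⟨1, HG.one_mem, n, by rw [act_one]⟩
  have : Countable Om' := hOmc.to_subtype
  have : Nonempty Om' := ⟨⟨cst 0, hcstm 0⟩⟩
  let Q : List (Om' × ℕ) → Prop := fun l => ∃ γ : ℕ → Perm ℕ, (∀ k, γ k ∈ G) ∧
    ∀ p ∈ l, (p.1 : Om) = act γ (cst p.2)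
  -- comparison of two representations
  have hcmp : ∀ (l : List (Om' × ℕ)) (γ γ' : ℕ → Perm ℕ) (t' : Om → ℕ), (∀ k, γ k ∈ G) →
      (∀ k, γ' k ∈ G) → (∀ p ∈ l, (p.1 : Om) = act γ (cst p.2)) →
      (∀ p ∈ l, (p.1 : Om) = act γ' (cst (t' p.1))) →
      ∃ δ ∈ G, ∀ p ∈ l, p.2 = δ (t' p.1) := by
    intro l γ γ' t' hγ hγ' h1 h2
    have h3 : ∀ p ∈ l.toFinset, ∀ᶠ k in (UU : Filter ℕ), γ k p.2 = γ' k (t' p.1) := by
      intro p hp
      have h4 := (h1 p (List.mem_toFinset.1 hp)).symm.trans (h2 p (List.mem_toFinset.1 hp))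
      rw [act_cst, act_cst, Germ.coe_eq] at h4
      exact h4
    have h5 := (Filter.eventually_all_finset l.toFinset).2 h3
    obtain ⟨k, hk⟩ := h5.exists
    refine ⟨(γ k)⁻¹ * γ' k, G.mul_mem (G.inv_mem (hγ k)) (hγ' k), fun p hp => ?_⟩
    rw [Perm.mul_apply, ← hk p (List.mem_toFinset.2 hp), ia]
  have hshift : ∀ (γ' : ℕ → Perm ℕ) (δ : Perm ℕ) (n : ℕ),
      act (fun k => γ' k * δ⁻¹) (cst n) = act γ' (cst (δ⁻¹ n)) := fun _ _ _ => rfl
  obtain ⟨e, he⟩ := back_and_forth Q ⟨1, fun _ => G.one_mem, by simp⟩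
    (by
      rintro l ⟨γ, hγ, hl⟩ x
      let F : Finset Om := insert x.1 (l.map (fun p => (p.1 : Om))).toFinset
      have hF := htt F
      obtain ⟨δ, hδ, hδl⟩ := hcmp l γ (Θ F) (tt F) hγ (hΘG F) hl (fun p hp =>
        hF _ (Finset.mem_insert_of_mem (List.mem_toFinset.2 (List.mem_map.2 ⟨p, hp, rfl⟩))))
      refine ⟨δ (tt F x.1), fun k => Θ F k * δ⁻¹, fun k => G.mul_mem (hΘG F k) (G.inv_mem hδ), ?_⟩
      intro p hp
      rcases List.mem_cons.1 hp with rfl | hp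
      · rw [hshift]
        simp only
        rw [ia]
        exact hF _ (Finset.mem_insert_self _ _)
      · rw [hshift, hδl p hp, ia]
        exact hF _ (Finset.mem_insert_of_mem (List.mem_toFinset.2 (List.mem_map.2 ⟨p, hp, rfl⟩))))
    (by
      rintro l ⟨γ, hγ, hl⟩ n
      let F : Finset Om := (l.map (fun p => (p.1 : Om))).toFinset
      have hF := htt F
      have hΘH : Θ F ∈ HG := by
        rw [hHG]
        refine ⟨hΘ F (fun x hx => ?_) (Or.inl rfl), hΘG F⟩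
        obtain ⟨p, _, rfl⟩ := List.mem_map.1 (List.mem_toFinset.1 hx)
        obtain ⟨h, hh, n, hn⟩ := p.1.2
        exact ⟨h, hh.1, n, hn⟩
      obtain ⟨δ, hδ, hδl⟩ := hcmp l γ (Θ F) (tt F) hγ (hΘG F) hl (fun p hp =>
        hF _ (List.mem_toFinset.2 (List.mem_map.2 ⟨p, hp, rfl⟩)))
      refine ⟨⟨act (Θ F) (cst (δ⁻¹ n)), ⟨Θ F, hΘH, δ⁻¹ n, rfl⟩⟩, fun k => Θ F k * δ⁻¹,
        fun k => G.mul_mem (hΘG F k) (G.inv_mem hδ), ?_⟩
      intro p hp
      rcases List.mem_cons.1 hp with rfl | hp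
      · rw [hshift]
      · rw [hshift, hδl p hp, ia]
        exact hF _ (List.mem_toFinset.2 (List.mem_map.2 ⟨p, hp, rfl⟩)))
    (by
      rintro l ⟨γ, hγ, hl⟩ p hp q hq
      constructor
      · intro h
        have h1 := (hl p hp).symm.trans ((congrArg Subtype.val h).trans (hl q hq))
        rw [act_cst, act_cst, Germ.coe_eq] at h1
        obtain ⟨k, hk⟩ := h1.exists
        exact (γ k).injective hk
      · intro h
        exact Subtype.ext (by rw [hl p hp, hl q hq, h]))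
  -- approximation property of `e`
  have happ : ∀ F : Finset Om', ∃ γ : ℕ → Perm ℕ, (∀ k, γ k ∈ G) ∧
      ∀ x ∈ F, (x : Om) = act γ (cst (e x)) := by
    intro F
    obtain ⟨l, ⟨γ, hγ, hl⟩, h⟩ := he F
    exact ⟨γ, hγ, fun x hx => hl _ (h x hx)⟩
  let s : ℕ → ℕ := fun n => e ⟨cst n, hcstm n⟩
  -- the permutations induced by `HG`
  let eq' : ∀ h ∈ HG, Om' ≃ Om' := fun h hh =>
    ⟨fun x => ⟨act h x, hOmact h hh x x.2⟩, fun x => ⟨act h⁻¹ x, hOmact _ (HG.inv_mem hh) x x.2⟩,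
      fun x => Subtype.ext (by
        change act h⁻¹ (act h x.1) = x.1
        rw [← act_mul, inv_mul_cancel, act_one]),
      fun x => Subtype.ext (by
        change act h (act h⁻¹ x.1) = x.1
        rw [← act_mul, mul_inv_cancel, act_one])⟩
  let hat : ∀ h ∈ HG, Perm ℕ := fun h hh => (e.symm.trans (eq' h hh)).trans e
  have hhat : ∀ h (hh : h ∈ HG) (x : Om'), hat h hh (e x) = e (eq' h hh x) := by
    intro h hh x
    simp only [hat, Equiv.trans_apply, Equiv.symm_apply_apply]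
  have hhatG : ∀ h (hh : h ∈ HG), hat h hh ∈ G := by
    intro h hh
    refine hc _ (fun F => ?_)
    obtain ⟨γ, hγ, hl⟩ := happ (F.image e.symm ∪ (F.image e.symm).image (eq' h hh))
    have h3 : ∀ n ∈ F, ∀ᶠ k in (UU : Filter ℕ), h k (γ k n) = γ k (hat h hh n) := by
      intro n hn
      have h4 := hl (e.symm n) (Finset.mem_union_left _ (Finset.mem_image_of_mem _ hn))
      have h5 := hl (eq' h hh (e.symm n))
        (Finset.mem_union_right _ (Finset.mem_image_of_mem _ (Finset.mem_image_of_mem _ hn)))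
      rw [e.apply_symm_apply] at h4
      have h6 : ((eq' h hh (e.symm n) : Om') : Om) = act h (e.symm n : Om') := rfl
      rw [h6, h4, ← hhat h hh (e.symm n), e.apply_symm_apply, ← act_mul, act_cst, act_cst,
        Germ.coe_eq] at h5
      exact h5
    obtain ⟨k, hk⟩ := ((Filter.eventually_all_finset F).2 h3).exists
    refine ⟨(γ k)⁻¹ * (h k * γ k), G.mul_mem (G.inv_mem (hγ k)) (G.mul_mem (hh.2 k) (hγ k)),
      fun n hn => ?_⟩
    rw [Perm.mul_apply, Perm.mul_apply, hk n hn, ia]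
  have hmem : ∀ γ ∈ Sq, γ ∈ HG := fun γ hγ => ⟨hB0 hγ, hSqG _ hγ⟩
  refine ⟨s, fun γ => if h : γ ∈ HG then hat γ h else 1, fun F => ?_, fun γ hγ => ?_,
    fun F S0 hS0 => ?_⟩
  · obtain ⟨γ, hγ, hl⟩ := happ (F.image (fun n => (⟨cst n, hcstm n⟩ : Om')))
    have h3 : ∀ n ∈ F, ∀ᶠ k in (UU : Filter ℕ), n = γ k (s n) := by
      intro n hn
      have h4 := hl ⟨cst n, hcstm n⟩ (Finset.mem_image_of_mem _ hn)
      rw [act_cst] at h4
      change ((fun _ => n : ℕ → ℕ) : Om) = _ at h4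
      rw [Germ.coe_eq] at h4
      exact h4
    obtain ⟨k, hk⟩ := ((Filter.eventually_all_finset F).2 h3).exists
    refine ⟨(γ k)⁻¹, G.inv_mem (hγ k), fun n hn => ?_⟩
    rw [Perm.inv_eq_iff_eq]
    exact hk n hn
  · have e0 : (if h : γ ∈ HG then hat γ h else 1) = hat γ (hmem γ hγ) := dif_pos (hmem γ hγ)
    change (if h : γ ∈ HG then hat γ h else 1) ∈ G
    rw [e0]
    exact hhatG γ (hmem γ hγ)
  · -- points: constants, points of `F`, their images
    let eqT : (ℕ → Perm ℕ) → Om' → Om' := fun γ x => if h : γ ∈ HG then eq' γ h x else x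
    obtain ⟨θ, hθ, hl⟩ := happ (F.image (fun n => (⟨cst n, hcstm n⟩ : Om')) ∪
      F.image e.symm ∪ S0.biUnion (fun γ => (F.image e.symm).image (eqT γ)))
    have h1 : ∀ n ∈ F, ∀ᶠ k in (UU : Filter ℕ), n = θ k (s n) := by
      intro n hn
      have h4 := hl ⟨cst n, hcstm n⟩ (Finset.mem_union_left _ (Finset.mem_union_left _
        (Finset.mem_image_of_mem _ hn)))
      rw [act_cst] at h4
      change ((fun _ => n : ℕ → ℕ) : Om) = _ at h4
      rw [Germ.coe_eq] at h4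
      exact h4
    have h2 : ∀ γ ∈ S0, ∀ p ∈ F, ∀ᶠ k in (UU : Filter ℕ),
        γ k (θ k p) = θ k ((if h : γ ∈ HG then hat γ h else 1) p) := by
      intro γ hγ p hp
      have hγ' := hmem γ (hS0 γ hγ)
      rw [dif_pos hγ']
      have h4 := hl (e.symm p) (Finset.mem_union_left _ (Finset.mem_union_right _
        (Finset.mem_image_of_mem _ hp)))
      have h5 := hl (eqT γ (e.symm p)) (Finset.mem_union_right _ (Finset.mem_biUnion.2
        ⟨γ, hγ, Finset.mem_image_of_mem _ (Finset.mem_image_of_mem _ hp)⟩))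
      have e1 : eqT γ (e.symm p) = eq' γ hγ' (e.symm p) := dif_pos hγ'
      rw [e1] at h5
      rw [e.apply_symm_apply] at h4
      have h6 : ((eq' γ hγ' (e.symm p) : Om') : Om) = act γ (e.symm p : Om') := rfl
      rw [h6, h4, ← hhat γ hγ' (e.symm p), e.apply_symm_apply, ← act_mul, act_cst, act_cst,
        Germ.coe_eq] at h5
      exact h5
    filter_upwards [(Filter.eventually_all_finset F).2 h1,
      (Filter.eventually_all_finset S0).2 fun γ hγ => (Filter.eventually_all_finset F).2 (h2 γ hγ)]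
      with k hk1 hk2
    refine ⟨(θ k)⁻¹, G.inv_mem (hθ k), fun x hx => ?_, fun γ hγ p hp => ?_⟩
    · symm
      rw [Perm.inv_eq_iff_eq]
      exact hk1 x hx
    · symm
      rw [Perm.inv_eq_iff_eq, inv_inv]
      exact hk2 γ hγ p hp


end Pool.Agent.Olig
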