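import Pool.Agent.Olig.NecE

/-!
# Lascar distances in the closure of an oligomorphic group
-/

open Equiv Filter

namespace Pool.Agent.Olig

/-- `α ∈ W` fixes the range of an element of the closure of `W` -/
def D1 (W : Subgroup (Perm ℕ)) (α : Perm ℕ) : Prop := α ∈ W ∧ ∃ n, Cl W n ∧ ⇑α ∘ n = n

/-- the Lascar distance of `g` and `1` is at most `k` -/
def Lk (W : Subgroup (Perm ℕ)) (k : ℕ) (g : Perm ℕ) : Prop :=
  ∃ m, Cl W m ∧ ∃ α : Fin k → Perm ℕ, (∀ j, D1 W (α j)) ∧ m ∘ ⇑g = ⇑(List.ofFn α).prod ∘ m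

theorem D1.one (W : Subgroup (Perm ℕ)) : D1 W 1 := ⟨W.one_mem, id, Cl.id' W, rfl⟩

theorem D1.conj {W : Subgroup (Perm ℕ)} {α : Perm ℕ} (h : D1 W α) {g : Perm ℕ}
    (hg : ∀ w, w ∈ W ↔ g * w * g⁻¹ ∈ W) : D1 W (g * α * g⁻¹) := by
  classical
  obtain ⟨hα, n, hn, e⟩ := h
  refine ⟨(hg α).1 hα, ⇑g ∘ n ∘ ⇑g⁻¹, ?_, ?_⟩
  · intro F
    obtain ⟨w, hw, h1⟩ := hn (F.image ⇑g⁻¹)
    refine ⟨g * w * g⁻¹, (hg w).1 hw, fun x hx => ?_⟩
    rw [Perm.mul_apply, Perm.mul_apply, h1 _ (Finset.mem_image_of_mem _ hx)]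
    rfl
  · funext x
    have h1 := congrFun e (g⁻¹ x)
    simp only [Function.comp_apply] at h1 ⊢
    rw [Perm.mul_apply, Perm.mul_apply, ia, h1]

theorem D1.conj_mem {W : Subgroup (Perm ℕ)} {α : Perm ℕ} (h : D1 W α) {g : Perm ℕ}
    (hg : g ∈ W) : D1 W (g * α * g⁻¹) := by
  refine h.conj fun w => ⟨fun hw => W.mul_mem (W.mul_mem hg hw) (W.inv_mem hg), fun hw => ?_⟩
  have h1 := W.mul_mem (W.mul_mem (W.inv_mem hg) hw) hg
  have e : g⁻¹ * (g * w * g⁻¹) * g = w := by group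
  rwa [e] at h1

/-- the subgroup generated by the elements fixing the range of an element of the closure -/
def Lam (W : Subgroup (Perm ℕ)) : Subgroup (Perm ℕ) := Subgroup.closure {α | D1 W α}

theorem Lam_le (W : Subgroup (Perm ℕ)) : Lam W ≤ W := by
  rw [Lam, Subgroup.closure_le]
  exact fun α hα => hα.1

theorem Lam_normal {W : Subgroup (Perm ℕ)} {g l : Perm ℕ} (hg : g ∈ W) (hl : l ∈ Lam W) :
    g * l * g⁻¹ ∈ Lam W := by
  rw [Lam] at hl
  induction hl using Subgroup.closure_induction with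
  | mem x hx => exact Subgroup.subset_closure (D1.conj_mem hx hg)
  | one =>
    rw [mul_one, mul_inv_cancel]
    exact (Lam W).one_mem
  | mul a b _ _ ha hb =>
    have e : g * (a * b) * g⁻¹ = g * a * g⁻¹ * (g * b * g⁻¹) := by group
    rw [e]
    exact (Lam W).mul_mem ha hb
  | inv a _ ha =>
    have e : g * a⁻¹ * g⁻¹ = (g * a * g⁻¹)⁻¹ := by group
    rw [e]
    exact (Lam W).inv_mem ha

theorem D1.mem_Res {W : Subgroup (Perm ℕ)} {α : Perm ℕ} (h : D1 W α) : α ∈ Res W := by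
  rw [Olig.mem_Res]
  intro V hV
  obtain ⟨hα, n, hn, e⟩ := h
  obtain ⟨g, hg⟩ := Co.exists hn hV.toOpenIn
  have h1 : Co W n V (α * g) := by
    refine ⟨W.mul_mem hα hg.1, fun F => ?_⟩
    obtain ⟨w, hw, h2⟩ := hg.2 F
    refine ⟨w, hw, fun x hx => ?_⟩
    rw [Perm.mul_apply, h2 x hx]
    exact congrFun e x
  have h2 := hg.div hV.toOpenIn h1
  have h3 := hV.nm g hg.1 _ h2
  have e2 : g * (g⁻¹ * (α * g)) * g⁻¹ = α := by group
  rwa [e2] at h3

theorem Lam_le_Res (W : Subgroup (Perm ℕ)) : Lam W ≤ Res W := by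
  rw [Lam, Subgroup.closure_le]
  exact fun α hα => D1.mem_Res hα

/-- the range of every element of the closure of `W` meets all `Lam W`-classes of tuples -/
theorem exists_Lam {W : Subgroup (Perm ℕ)} (hc : ClosedG W) (hW : Oligo W) {n : ℕ → ℕ}
    (hn : Cl W n) (F : Finset ℕ) : ∃ w ∈ W, ∃ l ∈ Lam W, ∀ x ∈ F, l x = n (w x) := by
  classical
  choose g hg hgn using fun i : ℕ => hn (Finset.range i)
  choose g' hg' hgn' using fun i : ℕ => hn (Finset.range i ∪ F.image ⇑(g i)⁻¹)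
  let γ : ℕ → Perm ℕ := fun i => g' i * (g i)⁻¹
  have hγ : ∀ i, γ i ∈ W := fun i => W.mul_mem (hg' i) (W.inv_mem (hg i))
  obtain ⟨s, hs, hext, _⟩ := exists_rich hc hW {γ} (Set.countable_singleton _) (by
    intro γ' h' k
    rw [Set.mem_singleton_iff.1 h']
    exact hγ k)
  obtain ⟨a, ha, hlim⟩ := hext γ rfl
  -- `a` fixes the range of `s ∘ n`
  have hD1 : D1 W a := by
    refine ⟨ha, s ∘ n, hs.comp hn, ?_⟩
    funext j
    obtain ⟨i, ⟨h, hh, h1⟩, hi⟩ := ((hlim {n j}).and (UU_ge (j + 1))).exists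
    obtain ⟨h2, h3⟩ := h1 (n j) (Finset.mem_singleton_self _)
    have h4 : γ i (n j) = n j := by
      have hj : j ∈ Finset.range i := Finset.mem_range.2 hi
      have e1 : (g i)⁻¹ (n j) = j := by
        rw [Perm.inv_eq_iff_eq]
        exact (hgn i j hj).symm
      change g' i ((g i)⁻¹ (n j)) = n j
      rw [e1]
      exact hgn' i j (Finset.mem_union_left _ hj)
    simp only [Function.comp_apply]
    rw [h3, h4, h2]
  obtain ⟨i, h, hh, h1⟩ := (hlim F).exists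
  refine ⟨(g i)⁻¹, W.inv_mem (hg i), h⁻¹ * a * h, ?_, fun x hx => ?_⟩
  · have h2 := D1.conj_mem hD1 (W.inv_mem hh)
    rw [inv_inv] at h2
    exact Subgroup.subset_closure h2
  · obtain ⟨h2, h3⟩ := h1 x hx
    rw [Perm.mul_apply, Perm.mul_apply, ← h2, h3, ia]
    change g' i ((g i)⁻¹ x) = _
    exact hgn' i _ (Finset.mem_union_right _ (Finset.mem_image_of_mem _ hx))

/-- finitely many classes -/
theorem exists_bound {W : Subgroup (Perm ℕ)} (hc : ClosedG W) (hW : Oligo W) (F : Finset ℕ) :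
    ∃ N : ℕ, ∀ v ∈ W, ∃ w ∈ W, (∀ x ∈ F, w x < N) ∧ ∃ l ∈ Lam W, ∀ x ∈ F, l x = v (w x) := by
  classical
  by_contra hcon
  push Not at hcon
  choose v hv hvn using hcon
  obtain ⟨t, ht⟩ := exists_lim ((stb_open W F).oligo hW) (fun n j => v n j)
  have htc : Cl W t := by
    intro S
    obtain ⟨n, g, hg, h3⟩ := (ht (S.sup id + 1)).exists
    exact ⟨g * v n, W.mul_mem hg.1 (hv n), fun x hx =>
      (h3 x (Nat.lt_succ_of_le (Finset.le_sup (f := id) hx))).symm⟩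
  obtain ⟨w, hw, l, hl, h1⟩ := exists_Lam hc hW htc F
  obtain ⟨n, ⟨g, hg, h3⟩, hn⟩ := ((ht ((F.image ⇑w).sup id + 1)).and
    (UU_ge ((F.image ⇑w).sup id + 1))).exists
  have hlt : ∀ x ∈ F, w x < (F.image ⇑w).sup id + 1 := fun x hx =>
    Nat.lt_succ_of_le (Finset.le_sup (f := id) (Finset.mem_image_of_mem _ hx))
  have hgW := hg.1
  obtain ⟨x, hx, hne⟩ := hvn n w hw (fun x hx => lt_of_lt_of_le (hlt x hx) hn) (g⁻¹ * l * g) (by
    have := Lam_normal (W.inv_mem hgW) hl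
    rwa [inv_inv] at this)
  apply hne
  rw [Perm.mul_apply, Perm.mul_apply, hg.2 x hx, h1 x hx, h3 _ (hlt x hx), ia]

/-- `Lam W` is dense in the residual of `W` -/
theorem cl_Lam {W : Subgroup (Perm ℕ)} (hc : ClosedG W) (hW : Oligo W) {v : Perm ℕ}
    (hv : v ∈ Res W) : Cl (Lam W) ⇑v := by
  classical
  intro F
  obtain ⟨N, hN⟩ := exists_bound hc hW F
  -- representatives of the tuples below `N`
  let rep : ({x // x ∈ F} → ℕ) → Perm ℕ := fun τ =>
    if h : ∃ w ∈ W, ∀ x : {x // x ∈ F}, w x.1 = τ x then h.choose else 1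
  have hrep : ∀ w ∈ W, ∀ x ∈ F, rep (fun x => w x.1) x = w x := by
    intro w hw x hx
    have h : ∃ w' ∈ W, ∀ x : {x // x ∈ F}, w' x.1 = (fun x : {x // x ∈ F} => w x.1) x :=
      ⟨w, hw, fun _ => rfl⟩
    have e : rep (fun x => w x.1) = h.choose := dif_pos h
    rw [e]
    exact h.choose_spec.2 ⟨x, hx⟩
  have hrepW : ∀ τ, rep τ ∈ W := by
    intro τ
    simp only [rep]
    split_ifs with h
    · exact h.choose_spec.1
    · exact W.one_mem
  let TT : Finset ({x // x ∈ F} → ℕ) := Fintype.piFinset fun _ => Finset.range N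
  -- the normal subgroup
  let V : Subgroup (Perm ℕ) :=
    { carrier := {w | w ∈ W ∧ ∀ g ∈ W, ∃ l ∈ Lam W, ∀ x ∈ F, l x = (g * w * g⁻¹) x}
      one_mem' := ⟨W.one_mem, fun g _ => ⟨1, (Lam W).one_mem, fun x _ => by
        rw [mul_one, mul_inv_cancel]⟩⟩
      mul_mem' := by
        rintro a b ⟨ha, ha'⟩ ⟨hb, hb'⟩
        refine ⟨W.mul_mem ha hb, fun g hg => ?_⟩
        obtain ⟨l, hl, h1⟩ := ha' g hg
        obtain ⟨l', hl', h2⟩ := hb' g hg
        have hA : g * a * g⁻¹ ∈ W := W.mul_mem (W.mul_mem hg ha) (W.inv_mem hg)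
        have e : g * (a * b) * g⁻¹ = g * a * g⁻¹ * (g * b * g⁻¹) := by group
        rw [e]
        set A := g * a * g⁻¹
        refine ⟨A * l' * A⁻¹ * l, (Lam W).mul_mem (Lam_normal hA hl') hl, fun x hx => ?_⟩
        change A (l' (A⁻¹ (l x))) = A ((g * b * g⁻¹) x)
        rw [h1 x hx, ia, h2 x hx]
      inv_mem' := by
        rintro a ⟨ha, ha'⟩
        refine ⟨W.inv_mem ha, fun g hg => ?_⟩
        obtain ⟨l, hl, h1⟩ := ha' g hg
        have hb : g * a * g⁻¹ ∈ W := W.mul_mem (W.mul_mem hg ha) (W.inv_mem hg)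
        have e : g * a⁻¹ * g⁻¹ = (g * a * g⁻¹)⁻¹ := by group
        rw [e]
        set b := g * a * g⁻¹
        have h3 := Lam_normal (W.inv_mem hb) ((Lam W).inv_mem hl)
        rw [inv_inv] at h3
        -- `b = l σ` on everything with `σ` fixing `F`
        refine ⟨(l⁻¹ * b)⁻¹ * l⁻¹ * (l⁻¹ * b), ?_, fun x hx => ?_⟩
        · have h4 := Lam_normal (W.inv_mem (W.mul_mem (W.inv_mem (Lam_le W hl)) hb))
            ((Lam W).inv_mem hl)
          rwa [inv_inv] at h4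
        · have h5 : (l⁻¹ * b) x = x := by
            rw [Perm.mul_apply, Perm.inv_eq_iff_eq]
            exact (h1 x hx).symm
          change (l⁻¹ * b)⁻¹ (l⁻¹ ((l⁻¹ * b) x)) = b⁻¹ x
          rw [h5, Perm.inv_eq_iff_eq, Perm.mul_apply, ai] }
  have hV : ON W V := by
    refine ⟨⟨fun w hw => hw.1, TT.biUnion fun τ => F.image ⇑(rep τ), fun w hw h => ⟨hw, fun g hg => ?_⟩⟩,
      fun g hg w hw => ⟨W.mul_mem (W.mul_mem hg hw.1) (W.inv_mem hg), fun g' hg' => ?_⟩⟩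
    · obtain ⟨u, hu, huN, l, hl, h1⟩ := hN g hg
      have hτ : (fun x : {x // x ∈ F} => u x.1) ∈ TT := by
        rw [Fintype.mem_piFinset]
        exact fun x => Finset.mem_range.2 (huN x.1 x.2)
      -- `w` fixes `u F`
      have hfix : ∀ x ∈ F, w (u x) = u x := by
        intro x hx
        refine h _ (Finset.mem_biUnion.2 ⟨_, hτ, Finset.mem_image.2 ⟨x, hx, ?_⟩⟩)
        exact hrep u hu x hx
      -- `g u = l` on `F`
      have hρ : l⁻¹ * (g * w * g⁻¹) * l ∈ W := W.mul_mem (W.mul_mem (W.inv_mem (Lam_le W hl))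
        (W.mul_mem (W.mul_mem hg hw) (W.inv_mem hg))) (Lam_le W hl)
      have hρx : ∀ x ∈ F, (l⁻¹ * (g * w * g⁻¹) * l) x = x := by
        intro x hx
        change l⁻¹ (g (w (g⁻¹ (l x)))) = x
        rw [h1 x hx, ia, hfix x hx, Perm.inv_eq_iff_eq]
        exact (h1 x hx).symm
      set ρ := l⁻¹ * (g * w * g⁻¹) * l with hρdef
      refine ⟨l * (ρ * l⁻¹ * ρ⁻¹), (Lam W).mul_mem hl (Lam_normal hρ ((Lam W).inv_mem hl)),
        fun x hx => ?_⟩
      have h5 : ρ⁻¹ x = x := by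
        rw [Perm.inv_eq_iff_eq]
        exact (hρx x hx).symm
      change l (ρ (l⁻¹ (ρ⁻¹ x))) = (g * w * g⁻¹) x
      rw [h5]
      have e : l * ρ * l⁻¹ = g * w * g⁻¹ := by
        rw [hρdef]
        group
      rw [← e]
      rfl
    · obtain ⟨l, hl, h1⟩ := hw.2 (g' * g) (W.mul_mem hg' hg)
      refine ⟨l, hl, fun x hx => ?_⟩
      have e : g' * (g * w * g⁻¹) * g'⁻¹ = g' * g * w * (g' * g)⁻¹ := by group
      rw [e]
      exact h1 x hx
  obtain ⟨l, hl, h1⟩ := (mem_Res.1 hv V hV).2 1 W.one_mem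
  refine ⟨l, hl, fun x hx => ?_⟩
  rw [h1 x hx, one_mul, inv_one, mul_one]

end Pool.Agent.Olig
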