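import Pool.Agent.Olig.NecF

/-!
# G-compact groups: isomorphisms of the closures are controlled by residuals
-/

open Equiv Filter

namespace Pool.Agent.Olig

theorem prod_approx (ht : (ℕ → Perm ℕ) → Perm ℕ) (l : List (ℕ → Perm ℕ)) (p : ℕ) :
    ∃ F : Finset ℕ, ∀ (θ : Perm ℕ) (i : ℕ), (∀ γ ∈ l, ∀ q ∈ F, ht γ q = θ (γ i (θ⁻¹ q))) →
      (l.map ht).prod p = θ ((l.map fun γ => γ i).prod (θ⁻¹ p)) := by
  classical
  induction l with
  | nil =>
    refine ⟨∅, fun θ i _ => ?_⟩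
    simp
  | cons γ l ih =>
    obtain ⟨F, hF⟩ := ih
    refine ⟨insert ((l.map ht).prod p) F, fun θ i h => ?_⟩
    have h1 := hF θ i (fun γ' hγ' q hq => h γ' (List.mem_cons_of_mem _ hγ') q
      (Finset.mem_insert_of_mem hq))
    rw [List.map_cons, List.prod_cons, Perm.mul_apply, List.map_cons, List.prod_cons,
      Perm.mul_apply, h γ List.mem_cons_self _ (Finset.mem_insert_self _ _), h1, ia]

/-- limits of elements at bounded Lascar distance -/
theorem Lk_lim {W : Subgroup (Perm ℕ)} (hc : ClosedG W) (hW : Oligo W) {k : ℕ} {v : Perm ℕ}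
    (hlim : ∀ F : Finset ℕ, ∃ g : Perm ℕ, (∀ x ∈ F, g x = v x) ∧ Lk W k g) : Lk W k v := by
  classical
  choose g hgv hg using fun i : ℕ => hlim (Finset.range i)
  choose m hm α hα e using hg
  choose n hn en using fun i j => (hα i j).2
  choose μ hμ hμm using fun i => hm i (Finset.range i)
  choose ν hν hνn using fun i j => hn i j (Finset.range i)
  let A : Fin k → ℕ → Perm ℕ := fun j i => α i j
  let B : Fin k → ℕ → Perm ℕ := fun j i => ν i j
  obtain ⟨s, ht, hs, htW, happ⟩ := exists_rich2 hc hW ({μ} ∪ (Set.range A ∪ Set.range B))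
    ((Set.countable_singleton _).union ((Set.countable_range _).union (Set.countable_range _))) (by
      rintro γ (h | ⟨j, rfl⟩ | ⟨j, rfl⟩) i
      · rw [Set.mem_singleton_iff.1 h]
        exact hμ i
      · exact (hα i j).1
      · exact hν i j)
  have hA : ∀ j, A j ∈ ({μ} ∪ (Set.range A ∪ Set.range B) : Set (ℕ → Perm ℕ)) :=
    fun j => Or.inr (Or.inl ⟨j, rfl⟩)
  have hB : ∀ j, B j ∈ ({μ} ∪ (Set.range A ∪ Set.range B) : Set (ℕ → Perm ℕ)) :=
    fun j => Or.inr (Or.inr ⟨j, rfl⟩)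
  have hμS : μ ∈ ({μ} ∪ (Set.range A ∪ Set.range B) : Set (ℕ → Perm ℕ)) := Or.inl rfl
  refine ⟨⇑(ht μ) ∘ s, hs.mul_left (htW μ hμS), fun j => ht (A j), fun j => ?_, ?_⟩
  · refine ⟨htW _ (hA j), ⇑(ht (B j)) ∘ s, hs.mul_left (htW _ (hB j)), ?_⟩
    funext x
    obtain ⟨i, ⟨θ, _, h1, h2⟩, hi⟩ := ((happ {x, s x, ht (B j) (s x)} {A j, B j} (by
      intro γ hγ
      rcases Finset.mem_insert.1 hγ with rfl | hγ
      · exact hA j
      · rw [Finset.mem_singleton.1 hγ]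
        exact hB j)).and (UU_ge (x + 1))).exists
    have hxi : x ∈ Finset.range i := Finset.mem_range.2 hi
    have e1 : s x = θ x := h1 x (by simp)
    have e2 := h2 (B j) (by simp) (s x) (by simp)
    have e3 := h2 (A j) (by simp) (ht (B j) (s x)) (by simp)
    have e4 : θ⁻¹ (s x) = x := by rw [e1, ia]
    rw [e4] at e2
    have e5 : B j i x = n i j x := hνn i j x hxi
    rw [e5] at e2
    have e6 : θ⁻¹ (ht (B j) (s x)) = n i j x := by rw [e2, ia]
    rw [e6] at e3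
    have e7 : A j i (n i j x) = n i j x := congrFun (en i j) x
    rw [e7, ← e2] at e3
    exact e3
  · funext x
    obtain ⟨F1, hF1⟩ := prod_approx ht (List.ofFn A) (ht μ (s x))
    obtain ⟨i, ⟨θ, _, h1, h2⟩, hi⟩ := ((happ (F1 ∪ {x, v x, s x, s (v x)})
      (insert μ (Finset.univ.image A)) (by
        intro γ hγ
        rcases Finset.mem_insert.1 hγ with rfl | hγ
        · exact hμS
        · obtain ⟨j, _, rfl⟩ := Finset.mem_image.1 hγ
          exact hA j)).and (UU_ge (max (x + 1) (v x + 1)))).exists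
    have hxi : x ∈ Finset.range i := Finset.mem_range.2 ((le_max_left _ _).trans hi)
    have hvi : v x ∈ Finset.range i := Finset.mem_range.2 ((le_max_right _ _).trans hi)
    have e1 : s x = θ x := h1 x (by simp)
    have e2 : s (v x) = θ (v x) := h1 (v x) (by simp)
    have e3 := h2 μ (by simp) (s x) (by simp)
    have e4 := h2 μ (by simp) (s (v x)) (by simp)
    have e5 : θ⁻¹ (s x) = x := by rw [e1, ia]
    have e6 : θ⁻¹ (s (v x)) = v x := by rw [e2, ia]
    rw [e5, hμm i x hxi] at e3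
    rw [e6, hμm i (v x) hvi] at e4
    have e4' : ht μ (s (v x)) = θ (m i (g i x)) := by rw [e4, hgv i x hxi]
    have e7 := hF1 θ i (fun γ hγ q hq => h2 γ (by
      obtain ⟨j, rfl⟩ := (List.mem_ofFn' A γ).1 hγ
      exact Finset.mem_insert_of_mem (Finset.mem_image_of_mem _ (Finset.mem_univ j))) q
        (Finset.mem_union_left _ hq))
    have e8 : θ⁻¹ (ht μ (s x)) = m i x := by rw [e3, ia]
    rw [e8, List.map_ofFn, List.map_ofFn] at e7
    have e9 := congrFun (e i) x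
    simp only [Function.comp_apply] at e9 ⊢
    rw [e4', e9]
    exact e7.symm

/-- an element of the closure of `D` fixing `Y` is in the closure of the stabiliser -/
theorem cl_stb {D : Subgroup (Perm ℕ)} {f : ℕ → ℕ} (hf : Cl D f) {Y : Finset ℕ}
    (hY : ∀ y ∈ Y, f y = y) : Cl (stb D Y) f := by
  classical
  intro S
  obtain ⟨g, hg, h1⟩ := hf (S ∪ Y)
  exact ⟨g, ⟨hg, fun x hx => by rw [h1 x (Finset.mem_union_right _ hx), hY x hx]⟩,
    fun x hx => h1 x (Finset.mem_union_left _ hx)⟩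

theorem fx_of_cl_stb {G : Subgroup (Perm ℕ)} {f : ℕ → ℕ} {F : Finset ℕ} (hf : Cl (stb G F) f) :
    Fx F f := by
  intro x hx
  obtain ⟨u, hu, h2⟩ := hf {x}
  rw [← h2 x (by simp)]
  exact hu.2 x hx

namespace ClIso

variable {G D : Subgroup (Perm ℕ)} {N : (ℕ → ℕ) → Prop} {P R : (ℕ → ℕ) → (ℕ → ℕ)}

theorem fix_D1 (h : ClIso G D N P R) {K F : Finset ℕ} (hKF : SupS G P K F) {α : Perm ℕ}
    (hα : D1 (stb G F) α) {z : ℕ} (hz : z ∈ K) : P ⇑α z = z := by
  obtain ⟨hαF, n, hn, e⟩ := hα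
  have hnG : Cl G n := hn.mono (stb_open G F).le
  obtain ⟨z', _, rfl⟩ := hKF.surj hnG (fx_of_cl_stb hn) hz
  have h1 := h.mulP _ _ (Cl.of_mem hαF.1) hnG
  rw [e] at h1
  exact (congrFun h1 z').symm

theorem fix_list (h : ClIso G D N P R) {K F : Finset ℕ} (hKF : SupS G P K F)
    (l : List (Perm ℕ)) (hl : ∀ α ∈ l, D1 (stb G F) α) :
    l.prod ∈ stb G F ∧ ∀ z ∈ K, P ⇑l.prod z = z := by
  induction l with
  | nil =>
    rw [List.prod_nil]
    exact ⟨(stb G F).one_mem, fun z _ => h.P_one z⟩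
  | cons α l ih =>
    obtain ⟨h1, h2⟩ := ih fun α' hα' => hl α' (List.mem_cons_of_mem _ hα')
    have h3 := hl α List.mem_cons_self
    rw [List.prod_cons]
    refine ⟨(stb G F).mul_mem h3.1 h1, fun z hz => ?_⟩
    rw [h.P_mul h3.1.1 h1.1, h2 z hz, h.fix_D1 hKF h3 hz]

theorem fix_Lk (h : ClIso G D N P R) {K F : Finset ℕ} (hKF : SupS G P K F) {k : ℕ}
    {g : Perm ℕ} (hg : g ∈ G) (hL : Lk (stb G F) k g) {z : ℕ} (hz : z ∈ K) : P ⇑g z = z := by
  obtain ⟨m, hm, α, hα, e⟩ := hL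
  have hmG : Cl G m := hm.mono (stb_open G F).le
  obtain ⟨h1, h2⟩ := h.fix_list hKF (List.ofFn α) (fun α' hα' => by
    obtain ⟨j, rfl⟩ := (List.mem_ofFn' α α').1 hα'
    exact hα j)
  have h3 := congrArg P e
  rw [h.mulP _ _ hmG (Cl.of_mem hg), h.mulP _ _ (Cl.of_mem h1.1) hmG] at h3
  have h4 := congrFun h3 z
  simp only [Function.comp_apply] at h4
  rw [h2 _ (hKF.mem_map hmG (fx_of_cl_stb hm) hz)] at h4
  exact (h.clP hmG).injective h4

/-- transfer of `D1` and of the Lascar distance -/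
theorem transfer (h : ClIso G D N P R) (Y : Finset ℕ) (hY : ∀ d ∈ h.SSg, ∀ z ∈ Y, d z ∈ Y) :
    ∃ F0 : Finset ℕ, ∀ F, F0 ⊆ F →
      (∀ g d : Perm ℕ, d ∈ D → P ⇑g = ⇑d → D1 (stb G F) g → D1 (stb D Y) d) ∧
      ∀ (k : ℕ) (g d : Perm ℕ), g ∈ G → d ∈ D → P ⇑g = ⇑d → Lk (stb G F) k g →
        Lk (stb D Y) k d := by
  classical
  obtain ⟨K, F1, hYK, hKF⟩ := h.exists_supS Y
  obtain ⟨F2, hF2⟩ := h.cont_one Y
  refine ⟨F1 ∪ F2, fun F hF => ?_⟩
  have hKF' : SupS G P K F := hKF.mono fun x hx => hF (Finset.mem_union_left _ hx)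
  have hcont : ∀ n, Cl (stb G F) n → ∃ σ ∈ h.SSg, ∀ y ∈ Y, P n y = σ y := fun n hn =>
    hF2 n (hn.mono (stb_open G F).le) fun x hx =>
      fx_of_cl_stb hn x (hF (Finset.mem_union_right _ hx))
  have hD1 : ∀ g d : Perm ℕ, d ∈ D → P ⇑g = ⇑d → D1 (stb G F) g → D1 (stb D Y) d := by
    intro g d hd hgd hg
    refine ⟨⟨hd, fun y hy => ?_⟩, ?_⟩
    · rw [← hgd]
      exact h.fix_D1 hKF' hg (hYK hy)
    · obtain ⟨hgF, n, hn, e⟩ := hg
      obtain ⟨σ, hσ, h1⟩ := hcont n hn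
      have hnG : Cl G n := hn.mono (stb_open G F).le
      have hσD := h.SSg_le hσ
      refine ⟨P n ∘ ⇑σ⁻¹, cl_stb ((h.clP hnG).mul_right (D.inv_mem hσD)) (fun y hy => ?_), ?_⟩
      · rw [Function.comp_apply, h1 _ (hY _ (h.SSg.inv_mem hσ) y hy), ai]
      · have h2 := h.mulP _ _ (Cl.of_mem hgF.1) hnG
        rw [e, hgd] at h2
        funext y
        have h3 := congrFun h2 (σ⁻¹ y)
        simp only [Function.comp_apply] at h3 ⊢
        exact h3.symm
  refine ⟨hD1, fun k g d hg hd hgd hL => ?_⟩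
  obtain ⟨m, hm, α, hα, e⟩ := hL
  have hmG : Cl G m := hm.mono (stb_open G F).le
  choose δ hδ hPδ using fun j => h.gP (α j) (hα j).1.1
  obtain ⟨σ, hσ, h1⟩ := hcont m hm
  have hσD := h.SSg_le hσ
  -- image of a product
  have hprod : ∀ l : List (Fin k), (l.map α).prod ∈ G ∧
      P ⇑(l.map α).prod = ⇑(l.map δ).prod := by
    intro l
    induction l with
    | nil =>
      refine ⟨G.one_mem, ?_⟩
      funext y
      simp only [List.map_nil, List.prod_nil]
      exact h.P_one y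
    | cons j l ih =>
      obtain ⟨h2, h3⟩ := ih
      refine ⟨?_, ?_⟩
      · rw [List.map_cons, List.prod_cons]
        exact G.mul_mem (hα j).1.1 h2
      · funext y
        rw [List.map_cons, List.prod_cons, h.P_mul (hα j).1.1 h2, h3, hPδ, List.map_cons,
          List.prod_cons, Perm.mul_apply]
  have hconj : ∀ l : List (Fin k), (l.map fun j => σ⁻¹ * δ j * (σ⁻¹)⁻¹).prod =
      σ⁻¹ * (l.map δ).prod * (σ⁻¹)⁻¹ := by
    intro l
    induction l with
    | nil => simp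
    | cons j l ih =>
      rw [List.map_cons, List.prod_cons, ih, List.map_cons, List.prod_cons]
      group
  have hnorm : ∀ w, w ∈ stb D Y ↔ σ⁻¹ * w * (σ⁻¹)⁻¹ ∈ stb D Y := by
    intro w
    constructor
    · intro hw
      refine ⟨D.mul_mem (D.mul_mem (D.inv_mem hσD) hw.1) (D.inv_mem (D.inv_mem hσD)),
        fun y hy => ?_⟩
      rw [inv_inv, Perm.mul_apply, Perm.mul_apply, hw.2 _ (hY _ hσ y hy), ia]
    · intro hw
      have hwD : w ∈ D := by
        have h2 := D.mul_mem (D.mul_mem hσD hw.1) (D.inv_mem hσD)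
        have e2 : σ * (σ⁻¹ * w * (σ⁻¹)⁻¹) * σ⁻¹ = w := by group
        rwa [e2] at h2
      refine ⟨hwD, fun y hy => ?_⟩
      have h2 := hw.2 _ (hY _ (h.SSg.inv_mem hσ) y hy)
      rw [inv_inv, Perm.mul_apply, Perm.mul_apply, ai] at h2
      exact σ⁻¹.injective h2
  refine ⟨⇑σ⁻¹ ∘ P m, cl_stb ((h.clP hmG).mul_left (D.inv_mem hσD)) (fun y hy => ?_),
    fun j => σ⁻¹ * δ j * (σ⁻¹)⁻¹, fun j => (hD1 _ _ (hδ j) (hPδ j) (hα j)).conj hnorm, ?_⟩
  · rw [Function.comp_apply, h1 y hy, ia]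
  · have e0 : ∀ f : Fin k → Perm ℕ, (List.ofFn f).prod = ((List.finRange k).map f).prod := by
      intro f
      rw [List.ofFn_eq_map]
    have h3 := congrArg P e
    rw [e0 α] at h3
    obtain ⟨h4, h5⟩ := hprod (List.finRange k)
    rw [h.mulP _ _ hmG (Cl.of_mem hg), h.mulP _ _ (Cl.of_mem h4) hmG, h5, hgd] at h3
    rw [e0, hconj]
    funext y
    have h6 := congrFun h3 y
    simp only [Function.comp_apply] at h6 ⊢
    rw [h6, Perm.mul_apply, Perm.mul_apply, inv_inv, ai]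

/-- control by residuals in the G-compact case -/
theorem ctrlP (h : ClIso G D N P R)
    (hgc : ∀ F : Finset ℕ, ∃ k, ∀ g ∈ Res (stb G F), Lk (stb G F) k g) (y : ℕ) :
    ∃ F : Finset ℕ, ∀ g ∈ Res (stb G F), P ⇑g y = y := by
  obtain ⟨K, F, hyK, hKF⟩ := h.exists_supS {y}
  obtain ⟨k, hk⟩ := hgc F
  exact ⟨F, fun g hg => h.fix_Lk hKF (Res_le _ hg).1 (hk g hg) (hyK (by simp))⟩

theorem ctrlR (h : ClIso G D N P R)
    (hgc : ∀ F : Finset ℕ, ∃ k, ∀ g ∈ Res (stb G F), Lk (stb G F) k g) (x : ℕ) :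
    ∃ Y : Finset ℕ, ∀ d ∈ Res (stb D Y), R ⇑d x = x := by
  classical
  obtain ⟨K', Y0, hxK, hKY⟩ := h.symm.exists_supS {x}
  obtain ⟨Y, hY0, hYinv⟩ := h.exists_inv Y0
  obtain ⟨F0, hF0⟩ := h.transfer Y hYinv
  obtain ⟨F, hF0F, hFinv⟩ := h.symm.exists_inv F0
  obtain ⟨k, hk⟩ := hgc F
  obtain ⟨Y1, hY1⟩ := h.symm.transfer F hFinv
  have hV : OpenIn D (stb D (Y ∪ Y1)) := stb_open D _
  have hVY : OpenIn D (stb D Y) := stb_open D Y
  -- elements of `Lam` are mapped to elements of `Lam`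
  have hLam : ∀ l ∈ Lam (stb D (Y ∪ Y1)), ∀ g : Perm ℕ, R ⇑l = ⇑g → g ∈ Lam (stb G F) := by
    intro l hl
    rw [Lam] at hl
    induction hl using Subgroup.closure_induction with
    | mem l hl =>
      intro g hg
      obtain ⟨g', hg', e⟩ := h.dR l hl.1.1
      have hgg : g = g' := DFunLike.coe_injective (hg.symm.trans e)
      subst hgg
      exact Subgroup.subset_closure ((hY1 _ Finset.subset_union_right).1 l g hg' hg hl)
    | one =>
      intro g hg
      have h1 : g = 1 := by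
        apply DFunLike.coe_injective
        rw [← hg]
        exact h.idR
      rw [h1]
      exact (Lam _).one_mem
    | mul a b ha hb iha ihb =>
      intro g hg
      have haD : a ∈ D := (Lam_le _ ha).1
      have hbD : b ∈ D := (Lam_le _ hb).1
      obtain ⟨ga, hga, ea⟩ := h.dR a haD
      obtain ⟨gb, hgb, eb⟩ := h.dR b hbD
      have h1 : g = ga * gb := by
        apply DFunLike.coe_injective
        rw [← hg]
        have h2 : (⇑(a * b) : ℕ → ℕ) = ⇑a ∘ ⇑b := rfl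
        rw [h2, h.mulR _ _ (h.Nd haD) (h.Nd hbD), ea, eb]
        rfl
      rw [h1]
      exact (Lam _).mul_mem (iha ga ea) (ihb gb eb)
    | inv a ha iha =>
      intro g hg
      have haD : a ∈ D := (Lam_le _ ha).1
      obtain ⟨ga, hga, ea⟩ := h.dR a haD
      have h1 := h.symm.invP haD hga ea
      have h2 : g = ga⁻¹ := DFunLike.coe_injective (hg.symm.trans h1)
      rw [h2]
      exact (Lam _).inv_mem (iha ga ea)
  refine ⟨Y ∪ Y1, fun v hv => ?_⟩
  have hvY : v ∈ stb D Y := ⟨(Res_le _ hv).1, fun y hy =>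
    (Res_le _ hv).2 y (Finset.mem_union_left _ hy)⟩
  have hLk : Lk (stb D Y) k v := by
    refine Lk_lim (hVY.closedG h.cD) (hVY.oligo h.oD) (fun F'' => ?_)
    obtain ⟨l, hl, h1⟩ := cl_Lam (hV.closedG h.cD) (hV.oligo h.oD) hv F''
    have hlD : l ∈ D := (Lam_le _ hl).1
    obtain ⟨g, hg, e⟩ := h.dR l hlD
    have h2 := hk g (Lam_le_Res _ (hLam l hl g e))
    have h3 : P ⇑g = ⇑l := by rw [← e, h.PR _ (h.Nd hlD)]
    exact ⟨l, h1, (hF0 F hF0F).2 k g l hg hlD h3 h2⟩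
  exact h.symm.fix_Lk (hKY.mono hY0) hvY.1 hLk (hxK (by simp))

end ClIso

end Pool.Agent.Olig
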