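import Pool.Agent.Olig.NecB

/-!
# The residual of an oligomorphic group
-/

open Equiv Filter

namespace Pool.Agent.Olig

theorem Res_normal {G : Subgroup (Perm ℕ)} {g k : Perm ℕ} (hg : g ∈ G) (hk : k ∈ Res G) :
    g * k * g⁻¹ ∈ Res G := by
  rw [mem_Res] at hk ⊢
  exact fun V hV => hV.nm g hg k (hk V hV)

theorem OpenIn.closedIn {G V : Subgroup (Perm ℕ)} (hV : OpenIn G V) {g : Perm ℕ} (hg : g ∈ G)
    (hcl : Cl V ⇑g) : g ∈ V := by
  obtain ⟨A, hA⟩ := hV.op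
  obtain ⟨u, hu, h⟩ := hcl A
  have h1 : u⁻¹ * g ∈ V := hA _ (G.mul_mem (G.inv_mem (hV.le hu)) hg) (fun x hx => by
    rw [Perm.mul_apply, Perm.inv_eq_iff_eq]; exact (h x hx).symm)
  have := V.mul_mem hu h1
  rwa [mul_inv_cancel_left] at this

theorem closedG_Res {G : Subgroup (Perm ℕ)} (hc : ClosedG G) : ClosedG (Res G) := by
  intro g hg
  rw [mem_Res]
  intro V hV
  have hle : Res G ≤ V := fun k hk => mem_Res.1 hk V hV
  exact hV.toOpenIn.closedIn (hc g (hg.mono (Res_le G))) (hg.mono hle)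

/-- for a finite set `F` there is an open normal subgroup which moves `F` as the residual -/
theorem exists_ON_Res {G : Subgroup (Perm ℕ)} (hc : ClosedG G) (hG : Oligo G) (F : Finset ℕ) :
    ∃ V, ON G V ∧ ∀ v ∈ V, ∃ k ∈ Res G, ∀ x ∈ F, k x = v x := by
  classical
  obtain ⟨V, hV, hmin⟩ := exists_min hG F
  refine ⟨V, hV, fun v hv => ?_⟩
  have hP : PP G id (F.toList.map (fun x => (x, v x))) := by
    intro W hW
    obtain ⟨w, hw, h⟩ := hmin v hv W hW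
    refine ⟨w, ⟨hW.le hw, fun F' => ⟨w⁻¹, W.inv_mem hw, fun x _ => ai _ _⟩⟩, fun p hp => ?_⟩
    obtain ⟨x, hx, rfl⟩ := List.mem_map.1 hp
    exact h x (Finset.mem_toList.1 hx)
  obtain ⟨k, _, h1, h2⟩ := hP.exists_perm hc hG
  exact ⟨k, mem_Res_of_co h1, fun x hx =>
    h2 (x, v x) (List.mem_map.2 ⟨x, Finset.mem_toList.2 hx, rfl⟩)⟩

/-- open normal subgroups have finite index -/
theorem ON.finite_cosets {G V : Subgroup (Perm ℕ)} (hG : Oligo G) (hV : ON G V) :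
    ∃ T : Finset (Perm ℕ), (∀ t ∈ T, t ∈ G) ∧ ∀ g ∈ G, ∃ t ∈ T, t⁻¹ * g ∈ V := by
  classical
  obtain ⟨A, hA⟩ := hV.op
  obtain ⟨T, hT⟩ := hG.fintype ({x // x ∈ A} ⊕ {x // x ∈ A})
  let pr : Perm ℕ → ({x // x ∈ A} ⊕ {x // x ∈ A} → ℕ) := fun g =>
    Sum.elim (fun x => x.1) (fun x => g x.1)
  let Q : ({x // x ∈ A} ⊕ {x // x ∈ A} → ℕ) → Perm ℕ → Prop := fun t g =>
    g ∈ G ∧ ∃ h ∈ G, ∀ i, h (t i) = pr g i
  refine ⟨T.image (fun t => if h : ∃ g, Q t g then h.choose else 1), ?_, ?_⟩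
  · intro t ht
    obtain ⟨s, _, rfl⟩ := Finset.mem_image.1 ht
    split_ifs with h
    · exact h.choose_spec.1
    · exact G.one_mem
  · intro g hg
    obtain ⟨t, ht, h, hh, e⟩ := hT (pr g)
    have hQ : ∃ g, Q t g := ⟨g, hg, h, hh, e⟩
    refine ⟨_, Finset.mem_image_of_mem _ ht, ?_⟩
    rw [dif_pos hQ]
    obtain ⟨hg', h', hh', e'⟩ := hQ.choose_spec
    set g' := hQ.choose with hg'def
    -- `κ = h * h'⁻¹` fixes `A` and maps `g' a` to `g a`
    have hκ : h * h'⁻¹ ∈ G := G.mul_mem hh (G.inv_mem hh')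
    have hκe : ∀ i, (h * h'⁻¹) (pr g' i) = pr g i := by
      intro i
      rw [Perm.mul_apply, ← e' i, ia, e i]
    have hκA : h * h'⁻¹ ∈ V := hA _ hκ (fun x hx => hκe (Sum.inl ⟨x, hx⟩))
    have h1 : g⁻¹ * ((h * h'⁻¹) * g') ∈ V := by
      refine hA _ (G.mul_mem (G.inv_mem hg) (G.mul_mem hκ hg')) (fun x hx => ?_)
      rw [Perm.mul_apply, Perm.inv_eq_iff_eq]
      exact hκe (Sum.inr ⟨x, hx⟩)
    have h2 : g'⁻¹ * (h * h'⁻¹) * g' ∈ V := by
      have := hV.nm g'⁻¹ (G.inv_mem hg') _ hκA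
      rwa [inv_inv] at this
    have h3 := V.mul_mem h2 (V.inv_mem h1)
    have h4 : g'⁻¹ * (h * h'⁻¹) * g' * (g⁻¹ * ((h * h'⁻¹) * g'))⁻¹ = g'⁻¹ * g := by group
    rwa [h4] at h3

theorem ON.top_inf {G : Subgroup (Perm ℕ)} {ι : Type} (S : Finset ι) (V : ι → Subgroup (Perm ℕ))
    (hV : ∀ i ∈ S, ON G (V i)) : ∃ W, ON G W ∧ ∀ i ∈ S, W ≤ V i := by
  classical
  induction S using Finset.induction_on with
  | empty => exact ⟨G, ON.self G, fun i hi => absurd hi (Finset.notMem_empty i)⟩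
  | insert a S _ ih =>
    obtain ⟨W, hW, h⟩ := ih fun i hi => hV i (Finset.mem_insert_of_mem hi)
    refine ⟨V a ⊓ W, (hV a (Finset.mem_insert_self _ _)).inf hW, fun i hi => ?_⟩
    rcases Finset.mem_insert.1 hi with rfl | hi
    · exact inf_le_left
    · exact inf_le_right.trans (h i hi)

/-- the residual of an oligomorphic group is oligomorphic -/
theorem oligo_Res {G : Subgroup (Perm ℕ)} (hc : ClosedG G) (hG : Oligo G) : Oligo (Res G) := by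
  classical
  intro k
  obtain ⟨T, hT⟩ := hG k
  choose V hV hVr using fun t : Fin k → ℕ => exists_ON_Res hc hG (Finset.univ.image t)
  obtain ⟨W, hW, hWV⟩ := ON.top_inf T V (fun t _ => hV t)
  obtain ⟨S, hSG, hS⟩ := hW.finite_cosets hG
  refine ⟨(S ×ˢ T).image (fun p i => p.1 (p.2 i)), fun x => ?_⟩
  obtain ⟨t, ht, g, hg, e⟩ := hT x
  obtain ⟨s, hs, hsg⟩ := hS g hg
  obtain ⟨n, hn, hnv⟩ := hVr t _ (hWV t ht hsg)
  refine ⟨_, Finset.mem_image_of_mem _ (Finset.mk_mem_product hs ht), s * n * s⁻¹,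
    Res_normal (hSG s hs) hn, fun i => ?_⟩
  simp only
  rw [Perm.mul_apply, Perm.mul_apply, ia, hnv _ (Finset.mem_image_of_mem _ (Finset.mem_univ i)),
    Perm.mul_apply, ai, e i]

/-- an oligomorphic normal subgroup is dense in a subgroup containing the residual -/
theorem Res_le_cl {D L : Subgroup (Perm ℕ)} (hLD : L ≤ D) (hL : Oligo L)
    (hn : ∀ d ∈ D, ∀ l ∈ L, d * l * d⁻¹ ∈ L) {r : Perm ℕ} (hr : r ∈ Res D) : Cl L ⇑r := by
  classical
  intro F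
  obtain ⟨T, hT⟩ := hL.fintype {x // x ∈ F}
  -- the kernel of the action on the classes
  let V : Subgroup (Perm ℕ) :=
    { carrier := {d | d ∈ D ∧ ∀ t : {x // x ∈ F} → ℕ, ∃ l ∈ L, ∀ i, l (t i) = d (t i)}
      one_mem' := ⟨D.one_mem, fun t => ⟨1, L.one_mem, fun i => rfl⟩⟩
      mul_mem' := by
        rintro a b ⟨ha, ha'⟩ ⟨hb, hb'⟩
        refine ⟨D.mul_mem ha hb, fun t => ?_⟩
        obtain ⟨l, hl, h1⟩ := hb' t
        obtain ⟨l', hl', h2⟩ := ha' fun i => b (t i)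
        exact ⟨l' * l, L.mul_mem hl' hl, fun i => by rw [Perm.mul_apply, h1, h2]; rfl⟩
      inv_mem' := by
        rintro a ⟨ha, ha'⟩
        refine ⟨D.inv_mem ha, fun t => ?_⟩
        obtain ⟨l, hl, h1⟩ := ha' fun i => a⁻¹ (t i)
        refine ⟨l⁻¹, L.inv_mem hl, fun i => ?_⟩
        rw [Perm.inv_eq_iff_eq, h1, ai] }
  have hV : ON D V := by
    refine ⟨⟨fun d hd => hd.1, T.biUnion fun t => Finset.univ.image t, fun d hd h => ⟨hd, fun t => ?_⟩⟩,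
      fun d hd v hv => ⟨D.mul_mem (D.mul_mem hd hv.1) (D.inv_mem hd), fun t => ?_⟩⟩
    · obtain ⟨t', ht', l, hl, e⟩ := hT t
      refine ⟨d * l * d⁻¹ * l⁻¹, L.mul_mem (hn d hd l hl) (L.inv_mem hl), fun i => ?_⟩
      have h1 : d⁻¹ (t' i) = t' i := by
        rw [Perm.inv_eq_iff_eq]
        exact (h _ (Finset.mem_biUnion.2 ⟨t', ht', Finset.mem_image_of_mem _ (Finset.mem_univ i)⟩)).symm
      rw [Perm.mul_apply, Perm.mul_apply, Perm.mul_apply, ← e i, ia, h1]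
    · obtain ⟨l, hl, h1⟩ := hv.2 fun i => d⁻¹ (t i)
      refine ⟨d * l * d⁻¹, hn d hd l hl, fun i => ?_⟩
      rw [Perm.mul_apply, Perm.mul_apply, Perm.mul_apply, Perm.mul_apply, h1]
  obtain ⟨l, hl, h⟩ := (mem_Res.1 hr V hV).2 fun i => i.1
  exact ⟨l, hl, fun x hx => h ⟨x, hx⟩⟩

end Pool.Agent.Olig
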