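import Pool.Agent.Olig.Uniq

/-!
# Rich embeddings, compactness and limits of products

`exists_rich`: for countably many sequences `γ` of elements of `G` there is an `s` in the closure
of `G` along which every `γ` has a limit `g ∈ G` in the ultrapower sense.
-/

open Equiv Filter

namespace Pool.Agent.Olig

theorem exists_rich {G : Subgroup (Perm ℕ)} (hc : ClosedG G) (hG : Oligo G)
    (Sq : Set (ℕ → Perm ℕ)) (hSq : Sq.Countable) (hSqG : ∀ γ ∈ Sq, ∀ k, γ k ∈ G) :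
    ∃ s : ℕ → ℕ, Cl G s ∧
      (∀ γ ∈ Sq, ∃ g ∈ G, ∀ F : Finset ℕ, ∀ᶠ k in (UU : Filter ℕ), ∃ h ∈ G, ∀ x ∈ F,
        s x = h x ∧ g (s x) = h (γ k x)) ∧
      ∀ x, (∀ y, s y ≠ x) → ∃ γ ∈ G, ⇑γ ∘ s = s ∧ γ x ≠ x := by
  classical
  choose Θ hΘG tt htt using exists_act hG
  have hmv : ∀ x : Om, ∃ m : ℕ → Perm ℕ, (∀ k, m k ∈ G) ∧
      ((∀ n, x ≠ cst n) → (∀ n, act m (cst n) = cst n) ∧ act m x ≠ x) := by
    intro x
    by_cases hx : ∀ n, x ≠ cst n
    · obtain ⟨m, h1, h2, h3⟩ := exists_mover hG x hx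
      exact ⟨m, h1, fun _ => ⟨h2, h3⟩⟩
    · exact ⟨1, fun _ => G.one_mem, fun h => absurd h hx⟩
  choose mv hmvG hmv using hmv
  obtain ⟨H, hHc, hB0, hΘ⟩ := exists_countable_subgroup (α := ℕ → Perm ℕ)
    (fun γ n => act γ (cst n)) Sq hSq
    (fun F => {Θ F} ∪ mv '' (F : Set Om))
    (fun F => (Set.countable_singleton _).union (F.finite_toSet.image _).countable)
  -- replace `H` by the elements with all values in `G`
  let HG : Subgroup (ℕ → Perm ℕ) :=
    { carrier := {γ | γ ∈ H ∧ ∀ k, γ k ∈ G}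
      one_mem' := ⟨H.one_mem, fun _ => G.one_mem⟩
      mul_mem' := fun h h' => ⟨H.mul_mem h.1 h'.1, fun k => G.mul_mem (h.2 k) (h'.2 k)⟩
      inv_mem' := fun h => ⟨H.inv_mem h.1, fun k => G.inv_mem (h.2 k)⟩ }
  have hHG : ∀ γ, γ ∈ HG ↔ γ ∈ H ∧ ∀ k, γ k ∈ G := fun γ => Iff.rfl
  have hHGc : (HG : Set (ℕ → Perm ℕ)).Countable := hHc.mono fun γ hγ => hγ.1
  -- the countable elementary substructure
  let Om' : Set Om := {x | ∃ h ∈ HG, ∃ n, x = act h (cst n)}
  have hOmc : Om'.Countable := by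
    have : Om' ⊆ Set.image2 (fun γ n => act γ (cst n)) HG Set.univ := by
      rintro x ⟨h, hh, n, rfl⟩
      exact ⟨h, hh, n, Set.mem_univ _, rfl⟩
    exact (hHGc.image2 Set.countable_univ _).mono this
  have hOmact : ∀ h ∈ HG, ∀ x ∈ Om', act h x ∈ Om' := by
    rintro h hh x ⟨h', hh', n, rfl⟩
    exact ⟨h * h', HG.mul_mem hh hh', n, by rw [act_mul]⟩
  have hcstm : ∀ n, cst n ∈ Om' := fun n => ⟨1, HG.one_mem, n, by rw [act_one]⟩
  have : Countable Om' := hOmc.to_subtype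
  have : Nonempty Om' := ⟨⟨cst 0, hcstm 0⟩⟩
  let Q : List (Om' × ℕ) → Prop := fun l => ∃ γ : ℕ → Perm ℕ, (∀ k, γ k ∈ G) ∧
    ∀ p ∈ l, (p.1 : Om) = act γ (cst p.2)
  -- comparison of two representations
  have hcmp : ∀ (l : List (Om' × ℕ)) (γ γ' : ℕ → Perm ℕ) (t' : Om → ℕ), (∀ k, γ k ∈ G) →
      (∀ k, γ' k ∈ G) → (∀ p ∈ l, (p.1 : Om) = act γ (cst p.2)) →
      (∀ p ∈ l, (p.1 : Om) = act γ' (cst (t' p.1))) →
      ∃ δ ∈ G, ∀ p ∈ l, p.2 = δ (t' p.1) := by
    intro l γ γ' t' hγ hγ' h1 h2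
    have h3 : ∀ p ∈ l.toFinset, ∀ᶠ k in (UU : Filter ℕ), γ k p.2 = γ' k (t' p.1) := by
      intro p hp
      have h4 := (h1 p (List.mem_toFinset.1 hp)).symm.trans (h2 p (List.mem_toFinset.1 hp))
      rw [act_cst, act_cst, Germ.coe_eq] at h4
      exact h4
    have h5 := (Filter.eventually_all_finset l.toFinset).2 h3
    obtain ⟨k, hk⟩ := h5.exists
    refine ⟨(γ k)⁻¹ * γ' k, G.mul_mem (G.inv_mem (hγ k)) (hγ' k), fun p hp => ?_⟩
    rw [Perm.mul_apply, ← hk p (List.mem_toFinset.2 hp), ia]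
  have hshift : ∀ (γ' : ℕ → Perm ℕ) (δ : Perm ℕ) (n : ℕ),
      act (fun k => γ' k * δ⁻¹) (cst n) = act γ' (cst (δ⁻¹ n)) := fun _ _ _ => rfl
  obtain ⟨e, he⟩ := back_and_forth Q ⟨1, fun _ => G.one_mem, by simp⟩
    (by
      rintro l ⟨γ, hγ, hl⟩ x
      let F : Finset Om := insert x.1 (l.map (fun p => (p.1 : Om))).toFinset
      have hF := htt F
      obtain ⟨δ, hδ, hδl⟩ := hcmp l γ (Θ F) (tt F) hγ (hΘG F) hl (fun p hp =>
        hF _ (Finset.mem_insert_of_mem (List.mem_toFinset.2 (List.mem_map.2 ⟨p, hp, rfl⟩))))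
      refine ⟨δ (tt F x.1), fun k => Θ F k * δ⁻¹, fun k => G.mul_mem (hΘG F k) (G.inv_mem hδ), ?_⟩
      intro p hp
      rcases List.mem_cons.1 hp with rfl | hp
      · rw [hshift]
        simp only
        rw [ia]
        exact hF _ (Finset.mem_insert_self _ _)
      · rw [hshift, hδl p hp, ia]
        exact hF _ (Finset.mem_insert_of_mem (List.mem_toFinset.2 (List.mem_map.2 ⟨p, hp, rfl⟩))))
    (by
      rintro l ⟨γ, hγ, hl⟩ n
      let F : Finset Om := (l.map (fun p => (p.1 : Om))).toFinset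
      have hF := htt F
      have hΘH : Θ F ∈ HG := by
        rw [hHG]
        refine ⟨hΘ F (fun x hx => ?_) (Or.inl rfl), hΘG F⟩
        obtain ⟨p, _, rfl⟩ := List.mem_map.1 (List.mem_toFinset.1 hx)
        obtain ⟨h, hh, n, hn⟩ := p.1.2
        exact ⟨h, hh.1, n, hn⟩
      obtain ⟨δ, hδ, hδl⟩ := hcmp l γ (Θ F) (tt F) hγ (hΘG F) hl (fun p hp =>
        hF _ (List.mem_toFinset.2 (List.mem_map.2 ⟨p, hp, rfl⟩)))
      refine ⟨⟨act (Θ F) (cst (δ⁻¹ n)), ⟨Θ F, hΘH, δ⁻¹ n, rfl⟩⟩, fun k => Θ F k * δ⁻¹,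
        fun k => G.mul_mem (hΘG F k) (G.inv_mem hδ), ?_⟩
      intro p hp
      rcases List.mem_cons.1 hp with rfl | hp
      · rw [hshift]
      · rw [hshift, hδl p hp, ia]
        exact hF _ (List.mem_toFinset.2 (List.mem_map.2 ⟨p, hp, rfl⟩)))
    (by
      rintro l ⟨γ, hγ, hl⟩ p hp q hq
      constructor
      · intro h
        have h1 := (hl p hp).symm.trans ((congrArg Subtype.val h).trans (hl q hq))
        rw [act_cst, act_cst, Germ.coe_eq] at h1
        obtain ⟨k, hk⟩ := h1.exists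
        exact (γ k).injective hk
      · intro h
        exact Subtype.ext (by rw [hl p hp, hl q hq, h]))
  -- approximation property of `e`
  have happ : ∀ F : Finset Om', ∃ γ : ℕ → Perm ℕ, (∀ k, γ k ∈ G) ∧
      ∀ x ∈ F, (x : Om) = act γ (cst (e x)) := by
    intro F
    obtain ⟨l, ⟨γ, hγ, hl⟩, h⟩ := he F
    exact ⟨γ, hγ, fun x hx => hl _ (h x hx)⟩
  let s : ℕ → ℕ := fun n => e ⟨cst n, hcstm n⟩
  -- the permutations induced by `HG`
  let eq' : ∀ h ∈ HG, Om' ≃ Om' := fun h hh =>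
    ⟨fun x => ⟨act h x, hOmact h hh x x.2⟩, fun x => ⟨act h⁻¹ x, hOmact _ (HG.inv_mem hh) x x.2⟩,
      fun x => Subtype.ext (by
        change act h⁻¹ (act h x.1) = x.1
        rw [← act_mul, inv_mul_cancel, act_one]),
      fun x => Subtype.ext (by
        change act h (act h⁻¹ x.1) = x.1
        rw [← act_mul, mul_inv_cancel, act_one])⟩
  let hat : ∀ h ∈ HG, Perm ℕ := fun h hh => (e.symm.trans (eq' h hh)).trans e
  have hhat : ∀ h (hh : h ∈ HG) (x : Om'), hat h hh (e x) = e (eq' h hh x) := by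
    intro h hh x
    simp only [hat, Equiv.trans_apply, Equiv.symm_apply_apply]
  have hhatG : ∀ h (hh : h ∈ HG), hat h hh ∈ G := by
    intro h hh
    refine hc _ (fun F => ?_)
    obtain ⟨γ, hγ, hl⟩ := happ (F.image e.symm ∪ (F.image e.symm).image (eq' h hh))
    have h3 : ∀ n ∈ F, ∀ᶠ k in (UU : Filter ℕ), h k (γ k n) = γ k (hat h hh n) := by
      intro n hn
      have h4 := hl (e.symm n) (Finset.mem_union_left _ (Finset.mem_image_of_mem _ hn))
      have h5 := hl (eq' h hh (e.symm n))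
        (Finset.mem_union_right _ (Finset.mem_image_of_mem _ (Finset.mem_image_of_mem _ hn)))
      rw [e.apply_symm_apply] at h4
      have h6 : ((eq' h hh (e.symm n) : Om') : Om) = act h (e.symm n : Om') := rfl
      rw [h6, h4, ← hhat h hh (e.symm n), e.apply_symm_apply, ← act_mul, act_cst, act_cst,
        Germ.coe_eq] at h5
      exact h5
    obtain ⟨k, hk⟩ := ((Filter.eventually_all_finset F).2 h3).exists
    refine ⟨(γ k)⁻¹ * (h k * γ k), G.mul_mem (G.inv_mem (hγ k)) (G.mul_mem (hh.2 k) (hγ k)),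
      fun n hn => ?_⟩
    rw [Perm.mul_apply, Perm.mul_apply, hk n hn, ia]
  refine ⟨s, fun F => ?_, fun γ0 hγ0 => ?_, fun x hx => ?_⟩
  · obtain ⟨γ, hγ, hl⟩ := happ (F.image (fun n => (⟨cst n, hcstm n⟩ : Om')))
    have h3 : ∀ n ∈ F, ∀ᶠ k in (UU : Filter ℕ), n = γ k (s n) := by
      intro n hn
      have h4 := hl ⟨cst n, hcstm n⟩ (Finset.mem_image_of_mem _ hn)
      rw [act_cst] at h4
      change ((fun _ => n : ℕ → ℕ) : Om) = _ at h4
      rw [Germ.coe_eq] at h4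
      exact h4
    obtain ⟨k, hk⟩ := ((Filter.eventually_all_finset F).2 h3).exists
    refine ⟨(γ k)⁻¹, G.inv_mem (hγ k), fun n hn => ?_⟩
    rw [Perm.inv_eq_iff_eq]
    exact hk n hn
  · have hh : γ0 ∈ HG := ⟨hB0 hγ0, hSqG _ hγ0⟩
    refine ⟨hat _ hh, hhatG _ hh, fun F => ?_⟩
    obtain ⟨θ, hθ, hl⟩ := happ (F.image (fun n => (⟨cst n, hcstm n⟩ : Om')) ∪
      F.image (fun n => eq' _ hh (⟨cst n, hcstm n⟩ : Om')))
    have h1 : ∀ n ∈ F, ∀ᶠ k in (UU : Filter ℕ), n = θ k (s n) := by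
      intro n hn
      have h4 := hl ⟨cst n, hcstm n⟩ (Finset.mem_union_left _ (Finset.mem_image_of_mem _ hn))
      rw [act_cst] at h4
      change ((fun _ => n : ℕ → ℕ) : Om) = _ at h4
      rw [Germ.coe_eq] at h4
      exact h4
    have h2 : ∀ n ∈ F, ∀ᶠ k in (UU : Filter ℕ), γ0 k n = θ k (hat _ hh (s n)) := by
      intro n hn
      have h4 := hl (eq' _ hh (⟨cst n, hcstm n⟩ : Om'))
        (Finset.mem_union_right _ (Finset.mem_image_of_mem _ hn))
      rw [← hhat _ hh, act_cst] at h4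
      change act γ0 (cst n) = _ at h4
      rw [act_cst, Germ.coe_eq] at h4
      exact h4
    filter_upwards [(Filter.eventually_all_finset F).2 h1, (Filter.eventually_all_finset F).2 h2]
      with k hk1 hk2
    refine ⟨(θ k)⁻¹, G.inv_mem (hθ k), fun x hx => ⟨?_, ?_⟩⟩
    · symm
      rw [Perm.inv_eq_iff_eq]
      exact hk1 x hx
    · symm
      rw [Perm.inv_eq_iff_eq]
      exact hk2 x hx
  · obtain ⟨z, rfl⟩ := e.surjective x
    have hz : ∀ n, (z : Om) ≠ cst n := by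
      intro n hn
      exact hx n (congrArg e (Subtype.ext hn.symm))
    have hh : mv z ∈ HG := by
      rw [hHG]
      refine ⟨hΘ {(z : Om)} (fun x hx => ?_) (Or.inr ⟨z, by simp, rfl⟩), hmvG z⟩
      rw [Finset.mem_singleton] at hx
      subst hx
      obtain ⟨h, hh, n, hn⟩ := z.2
      exact ⟨h, hh.1, n, hn⟩
    refine ⟨hat _ hh, hhatG _ hh, ?_, ?_⟩
    · funext n
      change hat _ hh (e ⟨cst n, hcstm n⟩) = e ⟨cst n, hcstm n⟩
      rw [hhat _ hh]
      congr 1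
      exact Subtype.ext ((hmv z hz).1 n)
    · rw [hhat _ hh]
      intro h
      have h1 := congrArg Subtype.val (e.injective h)
      exact (hmv z hz).2 h1



/-- compactness: a sequence of functions has a limit up to the action of `G` -/
theorem exists_lim {G : Subgroup (Perm ℕ)} (hG : Oligo G) (v : ℕ → ℕ → ℕ) :
    ∃ t : ℕ → ℕ, ∀ m, ∀ᶠ n in (UU : Filter ℕ), ∃ g ∈ G, ∀ j < m, t j = g (v n j) := by
  classical
  -- good prefixes
  let P : ℕ → (ℕ → ℕ) → Prop := fun m l => ∀ᶠ n in (UU : Filter ℕ), ∃ g ∈ G, ∀ j < m, l j = g (v n j)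
  have hstep : ∀ m l, P m l → ∃ a, P (m + 1) (Function.update l m a) := by
    intro m l hl
    obtain ⟨T, hT⟩ := hG (m + 1)
    choose tt htt g hg h using fun n : ℕ => hT (fun j => v n j)
    obtain ⟨t₀, _, ht₀⟩ : ∃ t₀ ∈ (T : Set (Fin (m + 1) → ℕ)), ∀ᶠ k in (UU : Filter ℕ), tt k = t₀ := by
      rw [← Ultrafilter.eventually_exists_mem_iff T.finite_toSet]
      exact Eventually.of_forall fun k => ⟨tt k, htt k, rfl⟩
    obtain ⟨n0, hn0, g0, hg0, hn0'⟩ := (ht₀.and hl).exists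
    refine ⟨g0 (g n0 (t₀ (Fin.last m))), ?_⟩
    filter_upwards [ht₀] with n hn
    refine ⟨g0 * g n0 * (g n)⁻¹, G.mul_mem (G.mul_mem hg0 (hg n0)) (G.inv_mem (hg n)), fun j hj => ?_⟩
    have e1 : (g n)⁻¹ (v n j) = t₀ ⟨j, hj⟩ := by
      rw [Perm.inv_eq_iff_eq, ← hn]
      exact (h n ⟨j, hj⟩).symm
    rw [Perm.mul_apply, Perm.mul_apply, e1]
    rcases Nat.lt_succ_iff_lt_or_eq.1 hj with hj' | rfl
    · rw [Function.update_of_ne (ne_of_lt hj'), hn0' j hj', ← hn0]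
      congr 1
      exact (h n0 ⟨j, hj⟩).symm
    · rw [Function.update_self]
      rfl
  choose! a ha using hstep
  let L : ℕ → ℕ → ℕ := fun m => Nat.rec (fun _ => 0) (fun m l => Function.update l m (a m l)) m
  have hLs : ∀ m, L (m + 1) = Function.update (L m) m (a m (L m)) := fun m => rfl
  have hL : ∀ m, P m (L m) := by
    intro m
    induction m with
    | zero => exact Eventually.of_forall fun n => ⟨1, G.one_mem, fun j hj => absurd hj (Nat.not_lt_zero _)⟩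
    | succ m ih => rw [hLs]; exact ha m _ ih
  have hst : ∀ j m, j < m → L m j = L (j + 1) j := by
    intro j m hjm
    induction m with
    | zero => exact absurd hjm (Nat.not_lt_zero _)
    | succ m ih =>
      rcases Nat.lt_succ_iff_lt_or_eq.1 hjm with h | rfl
      · rw [hLs, Function.update_of_ne (ne_of_lt h), ih h]
      · rfl
  refine ⟨fun j => L (j + 1) j, fun m => ?_⟩
  filter_upwards [hL m] with n hn
  obtain ⟨g, hg, h⟩ := hn
  exact ⟨g, hg, fun j hj => by rw [← hst j m hj]; exact h j hj⟩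

theorem Cl.id' (G : Subgroup (Perm ℕ)) : Cl G id := fun _ => ⟨1, G.one_mem, fun _ _ => rfl⟩

/-- limits of products in the closure of `G` -/
theorem exists_seq_lim {G : Subgroup (Perm ℕ)} (Q : ℕ → (ℕ → ℕ) → Prop)
    (hQ : ∀ n u r, Cl G u → Cl G r → Q n u → Q n (u ∘ r))
    (step : ∀ n u, Cl G u → ∃ t, Cl G t ∧ (∀ k ≤ n, t k = k) ∧ Q n (u ∘ t)) :
    ∃ u, Cl G u ∧ ∀ n, Q n u := by
  classical
  choose! t ht1 ht2 ht3 using step
  let U : ℕ → ℕ → ℕ := fun n => Nat.rec id (fun n u => u ∘ t n u) n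
  have hUs : ∀ n, U (n + 1) = U n ∘ t n (U n) := fun n => rfl
  have hUc : ∀ n, Cl G (U n) := by
    intro n
    induction n with
    | zero => exact Cl.id' G
    | succ n ih => rw [hUs]; exact ih.comp (ht1 n _ ih)
  have hfac : ∀ n m, n ≤ m → ∃ R, Cl G R ∧ U m = U n ∘ R := by
    intro n m hnm
    induction hnm with
    | refl => exact ⟨id, Cl.id' G, rfl⟩
    | step _ ih =>
      rename_i m _
      obtain ⟨R, hR, h⟩ := ih
      exact ⟨R ∘ t m (U m), hR.comp (ht1 m _ (hUc m)), by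
        have h2 : U n ∘ (R ∘ t m (U m)) = (U n ∘ R) ∘ t m (U m) := rfl
        rw [Nat.succ_eq_add_one, hUs, h2, ← h]⟩
  have hstab : ∀ k m, k ≤ m → U m k = U k k := by
    intro k m hkm
    induction hkm with
    | refl => rfl
    | step h ih =>
      rename_i m
      rw [Nat.succ_eq_add_one, hUs, Function.comp_apply, ht2 m _ (hUc m) k h, ih]
  let u : ℕ → ℕ := fun k => U k k
  have hu : ∀ F : Finset ℕ, ∀ n, ∃ m, n ≤ m ∧ ∀ x ∈ F, u x = U m x := by
    intro F n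
    refine ⟨max n (F.sup id), le_max_left _ _, fun x hx => ?_⟩
    exact (hstab x _ ((Finset.le_sup (f := id) hx).trans (le_max_right _ _))).symm
  have huc : Cl G u := by
    intro F
    obtain ⟨m, _, hm⟩ := hu F 0
    obtain ⟨g, hg, h⟩ := hUc m F
    exact ⟨g, hg, fun x hx => by rw [h x hx, hm x hx]⟩
  refine ⟨u, huc, fun n => ?_⟩
  have hr : ∀ k, ∃ r, U (n + 1) r = u k := by
    intro k
    obtain ⟨m, hm, h⟩ := hu {k} (n + 1)
    obtain ⟨R, _, hR⟩ := hfac _ _ hm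
    exact ⟨R k, by rw [h k (by simp), hR]; rfl⟩
  choose r hr using hr
  have hrc : Cl G r := by
    intro F
    obtain ⟨m, hm, h⟩ := hu F (n + 1)
    obtain ⟨R, hRc, hR⟩ := hfac _ _ hm
    obtain ⟨g, hg, h'⟩ := hRc F
    refine ⟨g, hg, fun x hx => ?_⟩
    rw [h' x hx]
    apply (hUc (n + 1)).injective
    rw [hr x, h x hx, hR]
    rfl
  have hur : u = U (n + 1) ∘ r := funext fun k => (hr k).symm
  rw [hur]
  refine hQ n _ _ (hUc (n + 1)) hrc ?_
  exact ht3 n _ (hUc n)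

/-- agreement on a finite set -/
theorem Cl.agree {G : Subgroup (Perm ℕ)} {f : ℕ → ℕ} (hf : Cl G f) (F : Finset ℕ) :
    ∃ g ∈ G, ∀ x ∈ F, g x = f x := hf F

theorem Cl.mul_left {G : Subgroup (Perm ℕ)} {f : ℕ → ℕ} (hf : Cl G f) {g : Perm ℕ} (hg : g ∈ G) :
    Cl G (⇑g ∘ f) := (Cl.of_mem hg).comp hf

theorem Cl.mul_right {G : Subgroup (Perm ℕ)} {f : ℕ → ℕ} (hf : Cl G f) {g : Perm ℕ} (hg : g ∈ G) :
    Cl G (f ∘ ⇑g) := hf.comp (Cl.of_mem hg)

end Pool.Agent.Olig
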