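import Pool.Agent.Olig.Rich

/-!
# Actions of the closure of an oligomorphic group by injective maps

Main result `InjAct.good`: if all cores of a countable injective action of the closure of `G` are
finite then every point lies in a core.
-/

open Equiv Filter

namespace Pool.Agent.Olig

/-- an action of the closure of `G` by injective maps -/
structure InjAct (G : Subgroup (Perm ℕ)) (X : Type) (A : (ℕ → ℕ) → X → X) : Prop where
  one : ∀ x, A id x = x
  mul : ∀ f f', Cl G f → Cl G f' → ∀ x, A (f ∘ f') x = A f (A f' x)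
  inj : ∀ f, Cl G f → Function.Injective (A f)

/-- `f` fixes `F` pointwise -/
def Fx (F : Finset ℕ) (f : ℕ → ℕ) : Prop := ∀ x ∈ F, f x = x

/-- the core of `F` -/
def KK (G : Subgroup (Perm ℕ)) {X : Type} (A : (ℕ → ℕ) → X → X) (F : Finset ℕ) : Set X :=
  {y | ∀ s, Cl G s → Fx F s → y ∈ Set.range (A s)}

/-- the point `y` lies in a core -/
def GoodPt (G : Subgroup (Perm ℕ)) {X : Type} (A : (ℕ → ℕ) → X → X) (y : X) : Prop :=
  ∃ F : Finset ℕ, y ∈ KK G A F

open Classical in
/-- the finite set `K` is supported by `F` -/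
def SupS (G : Subgroup (Perm ℕ)) {X : Type} (A : (ℕ → ℕ) → X → X) (K : Finset X) (F : Finset ℕ) :
    Prop := ∀ s, Cl G s → Fx F s → K.image (A s) = K

variable {G : Subgroup (Perm ℕ)} {X : Type} {A : (ℕ → ℕ) → X → X}

theorem InjAct.inv_apply (h : InjAct G X A) {g : Perm ℕ} (hg : g ∈ G) (x : X) :
    A ⇑g⁻¹ (A ⇑g x) = x := by
  rw [← h.mul _ _ (Cl.of_mem (G.inv_mem hg)) (Cl.of_mem hg)]
  have : (⇑g⁻¹ ∘ ⇑g : ℕ → ℕ) = id := by funext x; exact ia g x
  rw [this, h.one]

theorem InjAct.apply_inv (h : InjAct G X A) {g : Perm ℕ} (hg : g ∈ G) (x : X) :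
    A ⇑g (A ⇑g⁻¹ x) = x := by
  rw [← h.mul _ _ (Cl.of_mem hg) (Cl.of_mem (G.inv_mem hg))]
  have : (⇑g ∘ ⇑g⁻¹ : ℕ → ℕ) = id := by funext x; exact ai g x
  rw [this, h.one]

/-- a finite core is mapped onto itself -/
theorem InjAct.supS_core (h : InjAct G X A) {F : Finset ℕ} (hF : (KK G A F).Finite) :
    SupS G A hF.toFinset F := by
  classical
  intro n hn hnF
  have hsub : hF.toFinset ⊆ hF.toFinset.image (A n) := by
    intro y hy
    rw [Set.Finite.mem_toFinset] at hy
    obtain ⟨z, hz⟩ := hy n hn hnF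
    refine Finset.mem_image.2 ⟨z, ?_, hz⟩
    rw [Set.Finite.mem_toFinset]
    intro m hm hmF
    obtain ⟨a, ha⟩ := hy (n ∘ m) (hn.comp hm) (fun x hx => by
      rw [Function.comp_apply, hmF x hx, hnF x hx])
    rw [h.mul n m hn hm, ← hz] at ha
    exact ⟨a, h.inj n hn ha⟩
  exact (Finset.eq_of_subset_of_card_le hsub Finset.card_image_le).symm

theorem SupS.mono {K : Finset X} {F F' : Finset ℕ} (h : SupS G A K F) (hF : F ⊆ F') :
    SupS G A K F' := fun s hs hsF => h s hs fun x hx => hsF x (hF hx)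

open Classical in
theorem SupS.agree (hA : InjAct G X A) {K : Finset X} {F : Finset ℕ} (h : SupS G A K F)
    {f f' : ℕ → ℕ} (hf : Cl G f) (hf' : Cl G f') (hff : ∀ x ∈ F, f x = f' x) :
    K.image (A f) = K.image (A f') := by
  obtain ⟨g, hg, hgf⟩ := hf F
  have key : ∀ f : ℕ → ℕ, Cl G f → (∀ x ∈ F, g x = f x) → K.image (A f) = K.image (A ⇑g) := by
    intro f hf hgf
    have h1 := h (⇑g⁻¹ ∘ f) (hf.mul_left (G.inv_mem hg)) (fun x hx => by
      rw [Function.comp_apply, ← hgf x hx, ia])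
    conv_rhs => rw [← h1, Finset.image_image]
    refine Finset.image_congr (fun x _ => ?_)
    rw [Function.comp_apply, hA.mul _ _ (Cl.of_mem (G.inv_mem hg)) hf, hA.apply_inv hg]
  rw [key f hf hgf, key f' hf' (fun x hx => by rw [hgf x hx, hff x hx])]

open Classical in
theorem image_comp (hA : InjAct G X A) {K : Finset X} {f f' : ℕ → ℕ} (hf : Cl G f)
    (hf' : Cl G f') : K.image (A (f ∘ f')) = (K.image (A f')).image (A f) := by
  rw [Finset.image_image]
  exact Finset.image_congr fun x _ => hA.mul f f' hf hf' x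

open Classical in
theorem SupS.tr (hA : InjAct G X A) {K : Finset X} {F : Finset ℕ} (h : SupS G A K F)
    {m : ℕ → ℕ} (hm : Cl G m) : SupS G A (K.image (A m)) (F.image m) := by
  intro s hs hsF
  rw [← image_comp hA hs hm]
  refine h.agree hA (hs.comp hm) hm (fun x hx => ?_)
  exact hsF _ (Finset.mem_image_of_mem _ hx)

open Classical in
theorem SupS.inter (hA : InjAct G X A) {K K' : Finset X} {F F' : Finset ℕ} (h : SupS G A K F)
    (h' : SupS G A K' F') : SupS G A (K ∩ K') (F ∪ F') := by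
  intro s hs hsF
  rw [Finset.image_inter _ _ (hA.inj s hs), h s hs fun x hx => hsF x (Finset.mem_union_left _ hx),
    h' s hs fun x hx => hsF x (Finset.mem_union_right _ hx)]

theorem SupS.goodPt {K : Finset X} {F : Finset ℕ} (h : SupS G A K F) {y : X} (hy : y ∈ K) :
    GoodPt G A y := by
  classical
  refine ⟨F, fun s hs hsF => ?_⟩
  rw [← h s hs hsF] at hy
  obtain ⟨z, _, hz⟩ := Finset.mem_image.1 hy
  exact ⟨z, hz⟩

theorem InjAct.goodPt_iff (hA : InjAct G X A) (hfin : ∀ F, (KK G A F).Finite) {y : X} :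
    GoodPt G A y ↔ ∃ K F, SupS G A K F ∧ y ∈ K := by
  constructor
  · rintro ⟨F, hF⟩
    exact ⟨_, F, hA.supS_core (hfin F), (Set.Finite.mem_toFinset _).2 hF⟩
  · rintro ⟨K, F, h, hy⟩
    exact h.goodPt hy

theorem InjAct.goodPt_map (hA : InjAct G X A) (hfin : ∀ F, (KK G A F).Finite) {y : X}
    (hy : GoodPt G A y) {u : ℕ → ℕ} (hu : Cl G u) : GoodPt G A (A u y) := by
  classical
  obtain ⟨K, F, h, hK⟩ := (hA.goodPt_iff hfin).1 hy
  exact (h.tr hA hu).goodPt (Finset.mem_image_of_mem _ hK)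

/-- an element mapping everything to good points -/
theorem InjAct.exists_allGood [Countable X] (hA : InjAct G X A) (hfin : ∀ F, (KK G A F).Finite) :
    ∃ u, Cl G u ∧ ∀ y, GoodPt G A (A u y) := by
  classical
  by_cases hX : Nonempty X
  swap
  · exact ⟨id, Cl.id' G, fun y => absurd ⟨y⟩ hX⟩
  obtain ⟨en, hen⟩ := exists_surjective_nat X
  obtain ⟨u, hu, h⟩ := exists_seq_lim (G := G)
    (fun n u => ¬ GoodPt G A (en n) → en n ∉ Set.range (A u)) (by
      intro n u r hu hr h hb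
      rintro ⟨a, ha⟩
      rw [hA.mul u r hu hr] at ha
      exact h hb ⟨_, ha⟩) (by
      intro n u hu
      by_cases hb : ¬ GoodPt G A (en n) ∧ en n ∈ Set.range (A u)
      · obtain ⟨hb, z, hz⟩ := hb
        have hzb : ¬ GoodPt G A z := fun hz' => hb (hz ▸ hA.goodPt_map hfin hz' hu)
        have h1 : z ∉ KK G A (Finset.range (n + 1)) := fun h => hzb ⟨_, h⟩
        simp only [KK, Set.mem_ofPred_eq, not_forall] at h1
        obtain ⟨s, hs, hsF, h2⟩ := h1
        refine ⟨s, hs, fun k hk => hsF k (Finset.mem_range.2 (Nat.lt_succ_of_le hk)), fun _ => ?_⟩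
        rintro ⟨a, ha⟩
        rw [hA.mul u s hu hs, ← hz] at ha
        exact h2 ⟨a, hA.inj u hu ha⟩
      · refine ⟨id, Cl.id' G, fun k _ => rfl, fun hb' => ?_⟩
        intro h3
        exact hb ⟨hb', h3⟩)
  refine ⟨u, hu, fun y => ?_⟩
  by_contra hcon
  obtain ⟨n, hn⟩ := hen (A u y)
  refine h n ?_ ?_
  · rw [hn]; exact hcon
  · rw [hn]; exact ⟨y, rfl⟩

/-- every point is good -/
theorem InjAct.good [Countable X] (hc : ClosedG G) (hG : Oligo G) (hA : InjAct G X A)
    (hfin : ∀ F, (KK G A F).Finite) (b : X) : GoodPt G A b := by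
  classical
  by_contra hb
  obtain ⟨u0, hu0, hall⟩ := hA.exists_allGood hfin
  -- minimal size of a supported set containing an image of `A u0 b`
  let P : ℕ → Prop := fun c => ∃ n K F, Cl G n ∧ SupS G A K F ∧ A n (A u0 b) ∈ K ∧ K.card = c
  have hP : ∃ c, P c := by
    obtain ⟨K, F, h, hK⟩ := (hA.goodPt_iff hfin).1 (hall b)
    exact ⟨K.card, id, K, F, Cl.id' G, h, by rw [hA.one]; exact hK, rfl⟩
  obtain ⟨n, K, F, hn, hKF, hyK, hcard⟩ := Nat.find_spec hP
  have hmin : ∀ m K' F', Cl G m → SupS G A K' F' → A m (A u0 b) ∈ K' → K.card ≤ K'.card := by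
    intro m K' F' hm h' hy'
    rw [hcard]
    exact Nat.find_min' hP ⟨m, K', F', hm, h', hy', rfl⟩
  let u : ℕ → ℕ := n ∘ u0
  have hu : Cl G u := hn.comp hu0
  have hy : A n (A u0 b) = A u b := (hA.mul n u0 hn hu0 b).symm
  rw [hy] at hyK
  -- elements fixing `A (m u) b` fix the set `A m K`
  have claim1 : ∀ m α, Cl G m → α ∈ G → A ⇑α (A m (A u b)) = A m (A u b) →
      (K.image (A m)).image (A ⇑α) = K.image (A m) := by
    intro m α hm hα hfix
    have h1 : SupS G A (K.image (A m)) (F.image m) := hKF.tr hA hm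
    have h2 : SupS G A ((K.image (A m)).image (A ⇑α)) ((F.image m).image α) :=
      h1.tr hA (Cl.of_mem hα)
    have h3 := h1.inter hA h2
    have hmem : A m (A u b) ∈ K.image (A m) := Finset.mem_image_of_mem _ hyK
    have hmem2 : A m (A u b) ∈ (K.image (A m)).image (A ⇑α) :=
      Finset.mem_image.2 ⟨_, hmem, hfix⟩
    have h4 := hmin (m ∘ n) _ _ (hm.comp hn) h3 (by
      rw [hA.mul m n hm hn, hy]
      exact Finset.mem_inter.2 ⟨hmem, hmem2⟩)
    have hc1 : (K.image (A m)).card = K.card := Finset.card_image_of_injective _ (hA.inj m hm)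
    have hc2 : ((K.image (A m)).image (A ⇑α)).card = K.card := by
      rw [Finset.card_image_of_injective _ (hA.inj _ (Cl.of_mem hα)), hc1]
    have e1 : K.image (A m) ∩ (K.image (A m)).image (A ⇑α) = K.image (A m) :=
      Finset.eq_of_subset_of_card_le Finset.inter_subset_left (by rw [hc1]; exact h4)
    have e2 : K.image (A m) ∩ (K.image (A m)).image (A ⇑α) = (K.image (A m)).image (A ⇑α) :=
      Finset.eq_of_subset_of_card_le Finset.inter_subset_right (by rw [hc2]; exact h4)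
    rw [← e2]
    exact e1
  -- `K` is supported by a finite part of the range of `u`
  have claim2 : ∃ k : ℕ, ∀ γ ∈ G, (∀ j ≤ k, γ (u j) = u j) → K.image (A ⇑γ) = K := by
    by_contra hcon
    push Not at hcon
    choose γ hγ hfix hne using hcon
    obtain ⟨s, hs, hlim, _⟩ := exists_rich hc hG {γ} (Set.countable_singleton _) (by
      intro γ' hγ' k
      rw [Set.mem_singleton_iff.1 hγ']
      exact hγ k)
    obtain ⟨g, hg, hlim⟩ := hlim γ rfl
    have e1 : ⇑g ∘ (s ∘ u) = s ∘ u := by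
      funext j
      obtain ⟨k, ⟨h, hh, h1⟩, hjk⟩ := ((hlim {u j}).and (UU_ge j)).exists
      obtain ⟨h2, h3⟩ := h1 (u j) (by simp)
      simp only [Function.comp_apply]
      rw [h3, hfix k j hjk, ← h2]
    have e2 : A ⇑g (A s (A u b)) = A s (A u b) := by
      rw [← hA.mul s u hs hu, ← hA.mul _ _ (Cl.of_mem hg) (hs.comp hu), e1]
    have e3 := claim1 s g hs hg e2
    obtain ⟨k, h, hh, h1⟩ := (hlim F).exists
    have e4 : K.image (A s) = K.image (A ⇑h) :=
      hKF.agree hA hs (Cl.of_mem hh) (fun x hx => (h1 x hx).1)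
    have e5 : K.image (A (⇑g ∘ s)) = K.image (A (⇑h ∘ ⇑(γ k))) :=
      hKF.agree hA (hs.mul_left hg) ((Cl.of_mem hh).comp (Cl.of_mem (hγ k)))
        (fun x hx => (h1 x hx).2)
    rw [image_comp hA (Cl.of_mem hg) hs, e3, e4, image_comp hA (Cl.of_mem hh) (Cl.of_mem (hγ k))]
      at e5
    exact hne k (Finset.image_injective (hA.inj _ (Cl.of_mem hh)) e5).symm
  obtain ⟨k, hk⟩ := claim2
  -- pull back
  obtain ⟨g, hg, hgu⟩ := hu (Finset.range (k + 1) )
  let K' := K.image (A ⇑g⁻¹)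
  have hK' : SupS G A K' (F.image ⇑g⁻¹) := hKF.tr hA (Cl.of_mem (G.inv_mem hg))
  have hgK' : K'.image (A ⇑g) = K := by
    rw [Finset.image_image]
    have : A ⇑g ∘ A ⇑g⁻¹ = id := funext fun x => hA.apply_inv hg x
    rw [this, Finset.image_id]
  have hinv : ∀ γ ∈ G, (∀ j ≤ k, γ j = j) → K'.image (A ⇑γ) = K' := by
    intro γ hγ hfix
    have hδ : g * γ * g⁻¹ ∈ G := G.mul_mem (G.mul_mem hg hγ) (G.inv_mem hg)
    have h1 := hk (g * γ * g⁻¹) hδ (by
      intro j hj
      rw [← hgu j (Finset.mem_range.2 (Nat.lt_succ_of_le hj)), Perm.mul_apply, Perm.mul_apply, ia,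
        hfix j hj])
    have e0 : (⇑(g * γ * g⁻¹) : ℕ → ℕ) = ⇑g ∘ (⇑γ ∘ ⇑g⁻¹) := rfl
    rw [e0, image_comp hA (Cl.of_mem hg) ((Cl.of_mem hγ).comp (Cl.of_mem (G.inv_mem hg))),
      image_comp hA (Cl.of_mem hγ) (Cl.of_mem (G.inv_mem hg))] at h1
    conv_rhs at h1 => rw [← hgK']
    exact Finset.image_injective (hA.inj _ (Cl.of_mem hg)) h1
  have hsup : SupS G A K' (Finset.range (k + 1)) := by
    intro s hs hsF
    obtain ⟨γ, hγ, hγs⟩ := hs (F.image ⇑g⁻¹ ∪ Finset.range (k + 1))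
    rw [hK'.agree hA hs (Cl.of_mem hγ) (fun x hx => (hγs x (Finset.mem_union_left _ hx)).symm)]
    refine hinv γ hγ (fun j hj => ?_)
    have hj' : j ∈ Finset.range (k + 1) := Finset.mem_range.2 (Nat.lt_succ_of_le hj)
    rw [hγs j (Finset.mem_union_right _ hj'), hsF j hj']
  have huK : K'.image (A u) = K := by
    rw [← hgK']
    exact hsup.agree hA hu (Cl.of_mem hg) (fun x hx => (hgu x hx).symm)
  rw [← huK] at hyK
  obtain ⟨b', hb', e⟩ := Finset.mem_image.1 hyK
  rw [hA.inj u hu e] at hb'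
  exact hb (hsup.goodPt hb')

end Pool.Agent.Olig
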