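import Pool.Agent.Olig.Basic

/-!
# Rich embeddings

For a closed oligomorphic group `G` and countably many elements `f` of its closure there is an
element `s` of the closure of `G` such that all these `f` extend along `s` to elements of `G`,
and such that every point outside the range of `s` is moved by an element of `G` which fixes the
range of `s` pointwise (`exists_s`). The construction uses an ultrapower.
-/

open Equiv Filter

namespace Pool.Agent.Olig

/-- closing under countably many operations -/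
theorem exists_countable_subgroup {α Ω : Type} [Group α] (a : α → ℕ → Ω) (B0 : Set α)
    (hB0 : B0.Countable) (Θ : Finset Ω → Set α) (hΘ : ∀ F, (Θ F).Countable) :
    ∃ H : Subgroup α, (H : Set α).Countable ∧ B0 ⊆ H ∧
      ∀ F : Finset Ω, (∀ x ∈ F, ∃ h ∈ H, ∃ n, x = a h n) → Θ F ⊆ H := by
  classical
  let C : Set α → Set Ω := fun S => Set.image2 a S Set.univ
  let K : Set α → Set α := fun S => S ∪ {1} ∪ Set.image2 (· * ·) S S ∪ (fun x => x⁻¹) '' S ∪
    ⋃ F ∈ {F : Finset Ω | (F : Set Ω) ⊆ C S}, Θ F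
  have hKc : ∀ S : Set α, S.Countable → (K S).Countable := by
    intro S hS
    have hC : (C S).Countable := hS.image2 Set.countable_univ _
    have hFc : {F : Finset Ω | (F : Set Ω) ⊆ C S}.Countable := by
      have : Countable (C S) := hC.to_subtype
      have : {F : Finset Ω | (F : Set Ω) ⊆ C S} ⊆
          Set.range (fun F : Finset (C S) => F.map ⟨Subtype.val, Subtype.val_injective⟩) := by
        intro F hF
        refine ⟨F.subtype (· ∈ C S), ?_⟩
        ext x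
        simp only [Finset.mem_map, Finset.mem_subtype, Function.Embedding.coeFn_mk]
        constructor
        · rintro ⟨y, hy, rfl⟩
          exact hy
        · intro hx
          exact ⟨⟨x, hF hx⟩, hx, rfl⟩
      exact (Set.countable_range _).mono this
    refine ((((hS.union (Set.countable_singleton 1)).union (hS.image2 hS _)).union
      (hS.image _)).union (hFc.biUnion fun F _ => hΘ F))
  let S : ℕ → Set α := fun n => Nat.rec B0 (fun _ S => K S) n
  have hS0 : S 0 = B0 := rfl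
  have hSs : ∀ n, S (n + 1) = K (S n) := fun n => rfl
  have hSc : ∀ n, (S n).Countable := by
    intro n
    induction n with
    | zero => exact hB0
    | succ n ih => rw [hSs]; exact hKc _ ih
  have hmono1 : ∀ n, S n ⊆ S (n + 1) := fun n x hx => by
    rw [hSs]
    exact Or.inl (Or.inl (Or.inl (Or.inl hx)))
  have hmono : Monotone S := monotone_nat_of_le_succ hmono1
  let H : Subgroup α :=
    { carrier := ⋃ n, S n
      one_mem' := Set.mem_iUnion.2 ⟨0 + 1, by
        rw [hSs]; exact Or.inl (Or.inl (Or.inl (Or.inr rfl)))⟩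
      mul_mem' := by
        intro x y hx hy
        obtain ⟨n, hn⟩ := Set.mem_iUnion.1 hx
        obtain ⟨m, hm⟩ := Set.mem_iUnion.1 hy
        refine Set.mem_iUnion.2 ⟨max n m + 1, ?_⟩
        rw [hSs]
        exact Or.inl (Or.inl (Or.inr ⟨x, hmono (le_max_left _ _) hn, y,
          hmono (le_max_right _ _) hm, rfl⟩))
      inv_mem' := by
        intro x hx
        obtain ⟨n, hn⟩ := Set.mem_iUnion.1 hx
        refine Set.mem_iUnion.2 ⟨n + 1, ?_⟩
        rw [hSs]
        exact Or.inl (Or.inr ⟨x, hn, rfl⟩) }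
  have hmemH : ∀ x, x ∈ H ↔ ∃ n, x ∈ S n := fun x => Set.mem_iUnion
  refine ⟨H, Set.countable_iUnion hSc, fun x hx => (hmemH x).2 ⟨0, hx⟩, fun F hF x hx => ?_⟩
  choose! hh hhH nn hnn using hF
  have hN : ∀ y ∈ F, ∃ n, hh y ∈ S n := fun y hy => (hmemH _).1 (hhH y hy)
  choose! N hN using hN
  refine (hmemH x).2 ⟨F.sup N + 1, ?_⟩
  rw [hSs]
  refine Or.inr (Set.mem_iUnion₂.2 ⟨F, fun y hy => ?_, hx⟩)
  exact ⟨hh y, hmono (Finset.le_sup hy) (hN y hy), nn y, Set.mem_univ _, (hnn y hy).symm⟩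

/-- general back and forth -/
theorem back_and_forth {A : Type} [Countable A] [Nonempty A] (Q : List (A × ℕ) → Prop)
    (h0 : Q []) (forth : ∀ l, Q l → ∀ x, ∃ n, Q ((x, n) :: l))
    (back : ∀ l, Q l → ∀ n, ∃ x, Q ((x, n) :: l))
    (fn : ∀ l, Q l → ∀ p ∈ l, ∀ q ∈ l, (p.1 = q.1 ↔ p.2 = q.2)) :
    ∃ e : A ≃ ℕ, ∀ F : Finset A, ∃ l, Q l ∧ ∀ x ∈ F, (x, e x) ∈ l := by
  classical
  obtain ⟨en, hen⟩ := exists_surjective_nat A
  have hstep : ∀ (n : ℕ) (l : {l : List (A × ℕ) // Q l}),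
      ∃ l' : {l : List (A × ℕ) // Q l}, (∀ p ∈ l.1, p ∈ l'.1) ∧ (∃ y, (en n, y) ∈ l'.1) ∧
        ∃ x, (x, n) ∈ l'.1 := by
    intro n l
    obtain ⟨y, hy⟩ := forth l.1 l.2 (en n)
    obtain ⟨x, hx⟩ := back _ hy n
    refine ⟨⟨_, hx⟩, fun p hp => ?_, ⟨y, ?_⟩, ⟨x, ?_⟩⟩
    · exact List.mem_cons_of_mem _ (List.mem_cons_of_mem _ hp)
    · exact List.mem_cons_of_mem _ List.mem_cons_self
    · exact List.mem_cons_self
  choose st hst1 hst2 hst3 using hstep
  let L : ℕ → {l : List (A × ℕ) // Q l} := fun n => Nat.rec ⟨[], h0⟩ (fun n l => st n l) n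
  have hLs : ∀ n, L (n + 1) = st n (L n) := fun n => rfl
  have hmono : ∀ n m, n ≤ m → ∀ p ∈ (L n).1, p ∈ (L m).1 := by
    intro n m hnm
    induction hnm with
    | refl => exact fun p hp => hp
    | step _ ih =>
      intro p hp
      rw [Nat.succ_eq_add_one, hLs]
      exact hst1 _ _ p (ih p hp)
  let R : A → ℕ → Prop := fun a b => ∃ n, (a, b) ∈ (L n).1
  have htot : ∀ a, ∃ b, R a b := fun a => by
    obtain ⟨n, rfl⟩ := hen a
    obtain ⟨b, hb⟩ := hst2 n (L n)
    exact ⟨b, n + 1, by rw [hLs]; exact hb⟩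
  have hsur : ∀ b, ∃ a, R a b := fun b => by
    obtain ⟨a, ha⟩ := hst3 b (L b)
    exact ⟨a, b + 1, by rw [hLs]; exact ha⟩
  have hpair : ∀ a b a' b', R a b → R a' b' → (a = a' ↔ b = b') := by
    rintro a b a' b' ⟨n, hn⟩ ⟨m, hm⟩
    exact fn _ (L (max n m)).2 (a, b) (hmono n _ (le_max_left _ _) _ hn) (a', b')
      (hmono m _ (le_max_right _ _) _ hm)
  choose fw hfw using htot
  choose bw hbw using hsur
  let e : A ≃ ℕ := ⟨fw, bw, fun a => (hpair _ _ _ _ (hbw (fw a)) (hfw a)).2 rfl,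
    fun b => (hpair _ _ _ _ (hfw (bw b)) (hbw b)).1 rfl⟩
  have he : ∀ a, R a (e a) := hfw
  refine ⟨e, fun F => ?_⟩
  choose N hN using he
  refine ⟨(L (F.sup N)).1, (L (F.sup N)).2, fun x hx => ?_⟩
  exact hmono (N x) _ (Finset.le_sup hx) _ (hN x)

/-- the ultrafilter -/
noncomputable def UU : Ultrafilter ℕ := hyperfilter ℕ

/-- the ultrapower of `ω` -/
abbrev Om : Type := Germ (UU : Filter ℕ) ℕ

/-- the constant `n` -/
noncomputable def cst (n : ℕ) : Om := ((fun _ => n : ℕ → ℕ) : Om)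

/-- action of a sequence of permutations -/
noncomputable def act (γ : ℕ → Perm ℕ) (x : Om) : Om :=
  Germ.map₂ (fun (g : Perm ℕ) (n : ℕ) => g n) (γ : Germ (UU : Filter ℕ) (Perm ℕ)) x

theorem act_coe (γ : ℕ → Perm ℕ) (x : ℕ → ℕ) :
    act γ (x : Om) = ((fun k => γ k (x k) : ℕ → ℕ) : Om) := rfl

theorem act_cst (γ : ℕ → Perm ℕ) (n : ℕ) :
    act γ (cst n) = ((fun k => γ k n : ℕ → ℕ) : Om) := rfl

theorem act_one (x : Om) : act 1 x = x := by
  refine Germ.inductionOn x (fun x => ?_)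
  rfl

theorem act_mul (γ δ : ℕ → Perm ℕ) (x : Om) : act (γ * δ) x = act γ (act δ x) := by
  refine Germ.inductionOn x (fun x => ?_)
  rfl

theorem cst_inj {n m : ℕ} (h : cst n = cst m) : n = m := by
  unfold cst at h
  rw [Germ.coe_eq] at h
  exact const_eventuallyEq.1 h

theorem act_const (g : Perm ℕ) (n : ℕ) : act (fun _ => g) (cst n) = cst (g n) := rfl

/-- every finite subset of the ultrapower is moved into `ω` -/
theorem exists_act {G : Subgroup (Perm ℕ)} (hG : Oligo G) (F : Finset Om) :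
    ∃ γ : ℕ → Perm ℕ, (∀ k, γ k ∈ G) ∧ ∃ t : Om → ℕ, ∀ x ∈ F, x = act γ (cst (t x)) := by
  classical
  obtain ⟨T, hT⟩ := hG.fintype {x // x ∈ F}
  have hr : ∀ x : Om, ∃ r : ℕ → ℕ, x = (r : Om) := fun x =>
    Germ.inductionOn x (fun r => ⟨r, rfl⟩)
  choose r hr using hr
  choose t ht g hg h using fun k : ℕ => hT (fun x => r x.1 k)
  -- the ultrafilter chooses one `t₀ ∈ T`
  obtain ⟨t₀, _, ht₀⟩ : ∃ t₀ ∈ (T : Set ({x // x ∈ F} → ℕ)), ∀ᶠ k in (UU : Filter ℕ), t k = t₀ := by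
    rw [← Ultrafilter.eventually_exists_mem_iff T.finite_toSet]
    exact Eventually.of_forall fun k => ⟨t k, ht k, rfl⟩
  refine ⟨g, hg, fun x => if hx : x ∈ F then t₀ ⟨x, hx⟩ else 0, fun x hx => ?_⟩
  simp only [dif_pos hx]
  rw [act_cst]
  conv_lhs => rw [hr x]
  rw [Germ.coe_eq]
  filter_upwards [ht₀] with k hk
  have := h k ⟨x, hx⟩
  rw [hk] at this
  exact this.symm

theorem UU_ge (n : ℕ) : ∀ᶠ k in (UU : Filter ℕ), n ≤ k := by
  have h : (UU : Filter ℕ) ≤ atTop := by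
    rw [← Nat.cofinite_eq_atTop]
    exact hyperfilter_le_cofinite
  exact h (eventually_ge_atTop n)

/-- nonstandard points are moved by sequences fixing `ω` -/
theorem exists_mover {G : Subgroup (Perm ℕ)} (hG : Oligo G) (x : Om) (hx : ∀ n, x ≠ cst n) :
    ∃ m : ℕ → Perm ℕ, (∀ k, m k ∈ G) ∧ (∀ n, act m (cst n) = cst n) ∧ act m x ≠ x := by
  classical
  obtain ⟨r, rfl⟩ : ∃ r : ℕ → ℕ, x = (r : Om) := Germ.inductionOn x (fun r => ⟨r, rfl⟩)
  let D : ℕ → Set ℕ := fun j => {z | ∀ g ∈ G, (∀ i ≤ j, g i = i) → g z = z}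
  have hDmono : ∀ i j, i ≤ j → D i ⊆ D j := fun i j hij z hz g hg h =>
    hz g hg fun a ha => h a (ha.trans hij)
  have hDfin : ∀ j, (D j).Finite := by
    intro j
    obtain ⟨T, hT⟩ := hG.fintype (Option (Fin (j + 1)))
    choose t ht g hg h using hT
    let F : ℕ → (Option (Fin (j + 1)) → ℕ) := fun z o => o.elim z (fun i => i.1)
    refine Set.Finite.of_finite_image (f := fun z => t (F z))
      (T.finite_toSet.subset ?_) ?_
    · rintro _ ⟨z, _, rfl⟩
      exact ht _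
    · intro z hz z' hz' he
      simp only at he
      -- `g (F z') * (g (F z))⁻¹` fixes `0..j` and maps `z` to `z'`
      have key : ∀ o, (g (F z') * (g (F z))⁻¹) (F z o) = F z' o := by
        intro o
        rw [Perm.mul_apply, ← h (F z) o, ia, he, h (F z') o]
      have hk : g (F z') * (g (F z))⁻¹ ∈ G := G.mul_mem (hg _) (G.inv_mem (hg _))
      have h1 := hz _ hk (fun i hi => key (some ⟨i, Nat.lt_succ_of_le hi⟩))
      have h2 := key none
      change _ = z at h1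
      change (g (F z') * (g (F z))⁻¹) z = z' at h2
      rw [← h1, h2]
  have hev : ∀ j, ∀ᶠ k in (UU : Filter ℕ), r k ∉ D j := by
    intro j
    rw [← Ultrafilter.frequently_iff_eventually]
    intro hc
    have hc' : ∀ᶠ k in (UU : Filter ℕ), ∃ z ∈ D j, r k = z := by
      filter_upwards [hc] with k hk
      push Not at hk
      exact ⟨r k, hk, rfl⟩
    rw [Ultrafilter.eventually_exists_mem_iff (hDfin j)] at hc'
    obtain ⟨z, _, hz⟩ := hc'
    exact hx z (Germ.coe_eq.2 hz)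
  let J : ℕ → ℕ := fun k => Nat.findGreatest (fun j => r k ∉ D j) k
  have hm : ∀ k, ∃ m : Perm ℕ, m ∈ G ∧ (r k ∉ D 0 → (∀ i ≤ J k, m i = i) ∧ m (r k) ≠ r k) := by
    intro k
    by_cases h0 : r k ∉ D 0
    · have h1 : r k ∉ D (J k) := Nat.findGreatest_spec (P := fun j => r k ∉ D j) (Nat.zero_le k) h0
      have h2 : ∃ g ∈ G, (∀ i ≤ J k, g i = i) ∧ g (r k) ≠ r k := by
        by_contra hcon
        push Not at hcon
        exact h1 hcon
      obtain ⟨g, hg, h3, h4⟩ := h2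
      exact ⟨g, hg, fun _ => ⟨h3, h4⟩⟩
    · exact ⟨1, G.one_mem, fun h => absurd h h0⟩
  choose m hmG hm using hm
  refine ⟨m, hmG, fun n => ?_, fun hc => ?_⟩
  · rw [act_cst, cst, Germ.coe_eq]
    filter_upwards [hev 0, hev n, UU_ge n] with k h0 hn hk
    exact (hm k h0).1 n (Nat.le_findGreatest hk hn)
  · rw [act_coe, Germ.coe_eq] at hc
    have hfalse : ∀ᶠ k in (UU : Filter ℕ), False := by
      filter_upwards [hc, hev 0] with k h1 h2
      exact (hm k h2).2 h1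
    exact (Filter.eventually_false_iff_eq_bot.1 hfalse) |> UU.neBot.ne

theorem exists_s {G : Subgroup (Perm ℕ)} (hc : ClosedG G) (hG : Oligo G) (D : Set (ℕ → ℕ))
    (hD : D.Countable) (hDcl : ∀ f ∈ D, Cl G f) :
    ∃ s : ℕ → ℕ, Cl G s ∧ (∀ f ∈ D, ∃ g ∈ G, s ∘ f = ⇑g ∘ s) ∧
      ∀ x, (∀ y, s y ≠ x) → ∃ γ ∈ G, ⇑γ ∘ s = s ∧ γ x ≠ x := by
  classical
  -- sequences representing the elements of `D`
  have hseq : ∀ f : ℕ → ℕ, ∃ γ : ℕ → Perm ℕ, (∀ k, γ k ∈ G) ∧
      (Cl G f → ∀ n, act γ (cst n) = cst (f n)) := by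
    intro f
    by_cases hf : Cl G f
    · choose γ hγ h using fun k : ℕ => hf (Finset.range (k + 1))
      refine ⟨γ, hγ, fun _ n => ?_⟩
      rw [act_cst, cst, Germ.coe_eq]
      filter_upwards [UU_ge n] with k hk
      exact h k n (Finset.mem_range.2 (Nat.lt_succ_of_le hk))
    · exact ⟨1, fun _ => G.one_mem, fun h => absurd h hf⟩
  choose sq hsqG hsq using hseq
  choose Θ hΘG tt htt using exists_act hG
  have hmv : ∀ x : Om, ∃ m : ℕ → Perm ℕ, (∀ k, m k ∈ G) ∧
      ((∀ n, x ≠ cst n) → (∀ n, act m (cst n) = cst n) ∧ act m x ≠ x) := by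
    intro x
    by_cases hx : ∀ n, x ≠ cst n
    · obtain ⟨m, h1, h2, h3⟩ := exists_mover hG x hx
      exact ⟨m, h1, fun _ => ⟨h2, h3⟩⟩
    · exact ⟨1, fun _ => G.one_mem, fun h => absurd h hx⟩
  choose mv hmvG hmv using hmv
  obtain ⟨H, hHc, hB0, hΘ⟩ := exists_countable_subgroup (α := ℕ → Perm ℕ)
    (fun γ n => act γ (cst n)) (sq '' D) (hD.image _)
    (fun F => {Θ F} ∪ mv '' (F : Set Om))
    (fun F => (Set.countable_singleton _).union (F.finite_toSet.image _).countable)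
  -- replace `H` by the elements with all values in `G`
  let HG : Subgroup (ℕ → Perm ℕ) :=
    { carrier := {γ | γ ∈ H ∧ ∀ k, γ k ∈ G}
      one_mem' := ⟨H.one_mem, fun _ => G.one_mem⟩
      mul_mem' := fun h h' => ⟨H.mul_mem h.1 h'.1, fun k => G.mul_mem (h.2 k) (h'.2 k)⟩
      inv_mem' := fun h => ⟨H.inv_mem h.1, fun k => G.inv_mem (h.2 k)⟩ }
  have hHG : ∀ γ, γ ∈ HG ↔ γ ∈ H ∧ ∀ k, γ k ∈ G := fun γ => Iff.rfl
  have hHGc : (HG : Set (ℕ → Perm ℕ)).Countable := hHc.mono fun γ hγ => hγ.1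
  -- the countable elementary substructure
  let Om' : Set Om := {x | ∃ h ∈ HG, ∃ n, x = act h (cst n)}
  have hOmc : Om'.Countable := by
    have : Om' ⊆ Set.image2 (fun γ n => act γ (cst n)) HG Set.univ := by
      rintro x ⟨h, hh, n, rfl⟩
      exact ⟨h, hh, n, Set.mem_univ _, rfl⟩
    exact (hHGc.image2 Set.countable_univ _).mono this
  have hOmact : ∀ h ∈ HG, ∀ x ∈ Om', act h x ∈ Om' := by
    rintro h hh x ⟨h', hh', n, rfl⟩
    exact ⟨h * h', HG.mul_mem hh hh', n, by rw [act_mul]⟩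
  have hcstm : ∀ n, cst n ∈ Om' := fun n => ⟨1, HG.one_mem, n, by rw [act_one]⟩
  have : Countable Om' := hOmc.to_subtype
  have : Nonempty Om' := ⟨⟨cst 0, hcstm 0⟩⟩
  let Q : List (Om' × ℕ) → Prop := fun l => ∃ γ : ℕ → Perm ℕ, (∀ k, γ k ∈ G) ∧
    ∀ p ∈ l, (p.1 : Om) = act γ (cst p.2)
  -- comparison of two representations
  have hcmp : ∀ (l : List (Om' × ℕ)) (γ γ' : ℕ → Perm ℕ) (t' : Om → ℕ), (∀ k, γ k ∈ G) →
      (∀ k, γ' k ∈ G) → (∀ p ∈ l, (p.1 : Om) = act γ (cst p.2)) →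
      (∀ p ∈ l, (p.1 : Om) = act γ' (cst (t' p.1))) →
      ∃ δ ∈ G, ∀ p ∈ l, p.2 = δ (t' p.1) := by
    intro l γ γ' t' hγ hγ' h1 h2
    have h3 : ∀ p ∈ l.toFinset, ∀ᶠ k in (UU : Filter ℕ), γ k p.2 = γ' k (t' p.1) := by
      intro p hp
      have h4 := (h1 p (List.mem_toFinset.1 hp)).symm.trans (h2 p (List.mem_toFinset.1 hp))
      rw [act_cst, act_cst, Germ.coe_eq] at h4
      exact h4
    have h5 := (Filter.eventually_all_finset l.toFinset).2 h3
    obtain ⟨k, hk⟩ := h5.exists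
    refine ⟨(γ k)⁻¹ * γ' k, G.mul_mem (G.inv_mem (hγ k)) (hγ' k), fun p hp => ?_⟩
    rw [Perm.mul_apply, ← hk p (List.mem_toFinset.2 hp), ia]
  have hshift : ∀ (γ' : ℕ → Perm ℕ) (δ : Perm ℕ) (n : ℕ),
      act (fun k => γ' k * δ⁻¹) (cst n) = act γ' (cst (δ⁻¹ n)) := fun _ _ _ => rfl
  obtain ⟨e, he⟩ := back_and_forth Q ⟨1, fun _ => G.one_mem, by simp⟩
    (by
      rintro l ⟨γ, hγ, hl⟩ x
      let F : Finset Om := insert x.1 (l.map (fun p => (p.1 : Om))).toFinset
      have hF := htt F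
      obtain ⟨δ, hδ, hδl⟩ := hcmp l γ (Θ F) (tt F) hγ (hΘG F) hl (fun p hp =>
        hF _ (Finset.mem_insert_of_mem (List.mem_toFinset.2 (List.mem_map.2 ⟨p, hp, rfl⟩))))
      refine ⟨δ (tt F x.1), fun k => Θ F k * δ⁻¹, fun k => G.mul_mem (hΘG F k) (G.inv_mem hδ), ?_⟩
      intro p hp
      rcases List.mem_cons.1 hp with rfl | hp
      · rw [hshift]
        simp only
        rw [ia]
        exact hF _ (Finset.mem_insert_self _ _)
      · rw [hshift, hδl p hp, ia]
        exact hF _ (Finset.mem_insert_of_mem (List.mem_toFinset.2 (List.mem_map.2 ⟨p, hp, rfl⟩))))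
    (by
      rintro l ⟨γ, hγ, hl⟩ n
      let F : Finset Om := (l.map (fun p => (p.1 : Om))).toFinset
      have hF := htt F
      have hΘH : Θ F ∈ HG := by
        rw [hHG]
        refine ⟨hΘ F (fun x hx => ?_) (Or.inl rfl), hΘG F⟩
        obtain ⟨p, _, rfl⟩ := List.mem_map.1 (List.mem_toFinset.1 hx)
        obtain ⟨h, hh, n, hn⟩ := p.1.2
        exact ⟨h, hh.1, n, hn⟩
      obtain ⟨δ, hδ, hδl⟩ := hcmp l γ (Θ F) (tt F) hγ (hΘG F) hl (fun p hp =>
        hF _ (List.mem_toFinset.2 (List.mem_map.2 ⟨p, hp, rfl⟩)))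
      refine ⟨⟨act (Θ F) (cst (δ⁻¹ n)), ⟨Θ F, hΘH, δ⁻¹ n, rfl⟩⟩, fun k => Θ F k * δ⁻¹,
        fun k => G.mul_mem (hΘG F k) (G.inv_mem hδ), ?_⟩
      intro p hp
      rcases List.mem_cons.1 hp with rfl | hp
      · rw [hshift]
      · rw [hshift, hδl p hp, ia]
        exact hF _ (List.mem_toFinset.2 (List.mem_map.2 ⟨p, hp, rfl⟩)))
    (by
      rintro l ⟨γ, hγ, hl⟩ p hp q hq
      constructor
      · intro h
        have h1 := (hl p hp).symm.trans ((congrArg Subtype.val h).trans (hl q hq))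
        rw [act_cst, act_cst, Germ.coe_eq] at h1
        obtain ⟨k, hk⟩ := h1.exists
        exact (γ k).injective hk
      · intro h
        exact Subtype.ext (by rw [hl p hp, hl q hq, h]))
  -- approximation property of `e`
  have happ : ∀ F : Finset Om', ∃ γ : ℕ → Perm ℕ, (∀ k, γ k ∈ G) ∧
      ∀ x ∈ F, (x : Om) = act γ (cst (e x)) := by
    intro F
    obtain ⟨l, ⟨γ, hγ, hl⟩, h⟩ := he F
    exact ⟨γ, hγ, fun x hx => hl _ (h x hx)⟩
  let s : ℕ → ℕ := fun n => e ⟨cst n, hcstm n⟩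
  -- the permutations induced by `HG`
  let eq' : ∀ h ∈ HG, Om' ≃ Om' := fun h hh =>
    ⟨fun x => ⟨act h x, hOmact h hh x x.2⟩, fun x => ⟨act h⁻¹ x, hOmact _ (HG.inv_mem hh) x x.2⟩,
      fun x => Subtype.ext (by
        change act h⁻¹ (act h x.1) = x.1
        rw [← act_mul, inv_mul_cancel, act_one]),
      fun x => Subtype.ext (by
        change act h (act h⁻¹ x.1) = x.1
        rw [← act_mul, mul_inv_cancel, act_one])⟩
  let hat : ∀ h ∈ HG, Perm ℕ := fun h hh => (e.symm.trans (eq' h hh)).trans e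
  have hhat : ∀ h (hh : h ∈ HG) (x : Om'), hat h hh (e x) = e (eq' h hh x) := by
    intro h hh x
    simp only [hat, Equiv.trans_apply, Equiv.symm_apply_apply]
  have hhatG : ∀ h (hh : h ∈ HG), hat h hh ∈ G := by
    intro h hh
    refine hc _ (fun F => ?_)
    obtain ⟨γ, hγ, hl⟩ := happ (F.image e.symm ∪ (F.image e.symm).image (eq' h hh))
    have h3 : ∀ n ∈ F, ∀ᶠ k in (UU : Filter ℕ), h k (γ k n) = γ k (hat h hh n) := by
      intro n hn
      have h4 := hl (e.symm n) (Finset.mem_union_left _ (Finset.mem_image_of_mem _ hn))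
      have h5 := hl (eq' h hh (e.symm n))
        (Finset.mem_union_right _ (Finset.mem_image_of_mem _ (Finset.mem_image_of_mem _ hn)))
      rw [e.apply_symm_apply] at h4
      have h6 : ((eq' h hh (e.symm n) : Om') : Om) = act h (e.symm n : Om') := rfl
      rw [h6, h4, ← hhat h hh (e.symm n), e.apply_symm_apply, ← act_mul, act_cst, act_cst,
        Germ.coe_eq] at h5
      exact h5
    obtain ⟨k, hk⟩ := ((Filter.eventually_all_finset F).2 h3).exists
    refine ⟨(γ k)⁻¹ * (h k * γ k), G.mul_mem (G.inv_mem (hγ k)) (G.mul_mem (hh.2 k) (hγ k)),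
      fun n hn => ?_⟩
    rw [Perm.mul_apply, Perm.mul_apply, hk n hn, ia]
  refine ⟨s, fun F => ?_, fun f hf => ?_, fun x hx => ?_⟩
  · obtain ⟨γ, hγ, hl⟩ := happ (F.image (fun n => (⟨cst n, hcstm n⟩ : Om')))
    have h3 : ∀ n ∈ F, ∀ᶠ k in (UU : Filter ℕ), n = γ k (s n) := by
      intro n hn
      have h4 := hl ⟨cst n, hcstm n⟩ (Finset.mem_image_of_mem _ hn)
      rw [act_cst] at h4
      change ((fun _ => n : ℕ → ℕ) : Om) = _ at h4
      rw [Germ.coe_eq] at h4
      exact h4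
    obtain ⟨k, hk⟩ := ((Filter.eventually_all_finset F).2 h3).exists
    refine ⟨(γ k)⁻¹, G.inv_mem (hγ k), fun n hn => ?_⟩
    rw [Perm.inv_eq_iff_eq]
    exact hk n hn
  · have hh : sq f ∈ HG := ⟨hB0 (Set.mem_image_of_mem _ hf), hsqG f⟩
    refine ⟨hat _ hh, hhatG _ hh, ?_⟩
    funext n
    change e ⟨cst (f n), hcstm (f n)⟩ = hat _ hh (e ⟨cst n, hcstm n⟩)
    rw [hhat _ hh]
    congr 1
    exact Subtype.ext (hsq f (hDcl f hf) n).symm
  · obtain ⟨z, rfl⟩ := e.surjective x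
    have hz : ∀ n, (z : Om) ≠ cst n := by
      intro n hn
      exact hx n (congrArg e (Subtype.ext hn.symm))
    have hh : mv z ∈ HG := by
      rw [hHG]
      refine ⟨hΘ {(z : Om)} (fun x hx => ?_) (Or.inr ⟨z, by simp, rfl⟩), hmvG z⟩
      rw [Finset.mem_singleton] at hx
      subst hx
      obtain ⟨h, hh, n, hn⟩ := z.2
      exact ⟨h, hh.1, n, hn⟩
    refine ⟨hat _ hh, hhatG _ hh, ?_, ?_⟩
    · funext n
      change hat _ hh (e ⟨cst n, hcstm n⟩) = e ⟨cst n, hcstm n⟩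
      rw [hhat _ hh]
      congr 1
      exact Subtype.ext ((hmv z hz).1 n)
    · rw [hhat _ hh]
      intro h
      have h1 := congrArg Subtype.val (e.injective h)
      exact (hmv z hz).2 h1

end Pool.Agent.Olig
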