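import Pool.Agent.Olig.Ext
import Pool.Agent.Olig.Ultra

/-!
# The only endomorphism of the closure of `G` which fixes `G` pointwise is the identity
-/

open Equiv

namespace Pool.Agent.Olig

/-- a countable dense subset -/
theorem exists_dense (G : Subgroup (Perm ℕ)) :
    ∃ D0 : Set (Perm ℕ), D0.Countable ∧ (∀ d ∈ D0, d ∈ G) ∧
      ∀ g ∈ G, ∀ F : Finset ℕ, ∃ d ∈ D0, ∀ x ∈ F, d x = g x := by
  classical
  have h : ∀ l : List (ℕ × ℕ), ∃ d ∈ G, (∃ g ∈ G, ∀ p ∈ l, g p.1 = p.2) → ∀ p ∈ l, d p.1 = p.2 := by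
    intro l
    by_cases hl : ∃ g ∈ G, ∀ p ∈ l, g p.1 = p.2
    · obtain ⟨g, hg, h⟩ := hl
      exact ⟨g, hg, fun _ => h⟩
    · exact ⟨1, G.one_mem, fun h => absurd h hl⟩
  choose d hd h using h
  refine ⟨Set.range d, Set.countable_range d, ?_, fun g hg F => ?_⟩
  · rintro _ ⟨l, rfl⟩
    exact hd l
  · refine ⟨d (F.toList.map fun x => (x, g x)), Set.mem_range_self _, fun x hx => ?_⟩
    refine h _ ⟨g, hg, ?_⟩ (x, g x) (List.mem_map.2 ⟨x, Finset.mem_toList.2 hx, rfl⟩)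
    intro p hp
    obtain ⟨y, _, rfl⟩ := List.mem_map.1 hp
    rfl

theorem endo_eq {G : Subgroup (Perm ℕ)} (hc : ClosedG G) (hG : Oligo G)
    (E : (ℕ → ℕ) → (ℕ → ℕ)) (hcl : ∀ f, Cl G f → Cl G (E f))
    (hmul : ∀ f f', Cl G f → Cl G f' → E (f ∘ f') = E f ∘ E f')
    (hid : ∀ g ∈ G, E ⇑g = ⇑g) {f : ℕ → ℕ} (hf : Cl G f) : E f = f := by
  classical
  obtain ⟨D0, hD0, hD0G, hdense⟩ := exists_dense G
  obtain ⟨s, hs, hext, hmove⟩ := exists_s hc hG ((fun g : Perm ℕ => (⇑g : ℕ → ℕ)) '' D0 ∪ {f})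
    ((hD0.image _).union (Set.countable_singleton _)) (by
      rintro _ (⟨d, hd, rfl⟩ | h)
      · exact Cl.of_mem (hD0G d hd)
      · rw [Set.mem_singleton_iff.1 h]; exact hf)
  -- `E s` has its values in the range of `s`
  have ht : ∀ y, ∃ z, s z = E s y := by
    intro y
    by_contra hcon
    push Not at hcon
    obtain ⟨γ, hγ, h1, h2⟩ := hmove _ hcon
    have h3 := hmul γ s (Cl.of_mem hγ) hs
    rw [h1, hid γ hγ] at h3
    exact h2 (congrFun h3 y).symm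
  choose t ht using ht
  have hst : s ∘ t = E s := funext ht
  have hinj : Function.Injective (s ∘ t) := hst ▸ (hcl s hs).injective
  -- `t` commutes with `D0`
  have hcomm0 : ∀ d ∈ D0, t ∘ ⇑d = ⇑d ∘ t := by
    intro d hd
    obtain ⟨g, hg, h1⟩ := hext d (Or.inl ⟨d, hd, rfl⟩)
    have h2 := hmul s d hs (Cl.of_mem (hD0G d hd))
    rw [h1, hmul g s (Cl.of_mem hg) hs, hid g hg, hid d (hD0G d hd), ← hst] at h2
    -- `g ∘ s ∘ t = s ∘ t ∘ d`
    funext x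
    have h3 := congrFun h2 x
    have h4 := congrFun h1 (t x)
    simp only [Function.comp_apply] at h3 h4 ⊢
    exact hs.injective (by rw [← h3, ← h4])
  have hcomm : ∀ g ∈ G, ∀ x, t (g x) = g (t x) := by
    intro g hg x
    obtain ⟨d, hd, h⟩ := hdense g hg {x, t x}
    rw [← h x (by simp), ← h (t x) (by simp)]
    exact congrFun (hcomm0 d hd) x
  have hcommf : ∀ x, t (f x) = f (t x) := by
    intro x
    obtain ⟨g, hg, h⟩ := hf {x, t x}
    rw [← h x (by simp), ← h (t x) (by simp)]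
    exact hcomm g hg x
  obtain ⟨g, hg, h1⟩ := hext f (Or.inr rfl)
  have h2 := hmul s f hs hf
  rw [h1, hmul g s (Cl.of_mem hg) hs, hid g hg, ← hst] at h2
  funext x
  have h3 := congrFun h2 x
  have h4 := congrFun h1 (t x)
  simp only [Function.comp_apply] at h3 h4
  apply hinj
  simp only [Function.comp_apply]
  rw [← h3, ← h4, hcommf]

/-- the isomorphism of the closures -/
theorem exists_iso {G D : Subgroup (Perm ℕ)} (hGc : ClosedG G) (hG : Oligo G) (hDc : ClosedG D)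
    (hD : Oligo D) (φ : G ≃* D) (h1 : Ctrl φ.toMonoidHom) (h2 : Ctrl φ.symm.toMonoidHom) :
    ∃ E E' : (ℕ → ℕ) → (ℕ → ℕ), (∀ f, Cl G f → Cl D (E f)) ∧ (∀ f, Cl D f → Cl G (E' f)) ∧
      (∀ f f', Cl G f → Cl G f' → E (f ∘ f') = E f ∘ E f') ∧
      (∀ f, Cl G f → E' (E f) = f) ∧ (∀ f, Cl D f → E (E' f) = f) ∧
      (∀ g : G, E (g : Perm ℕ) = (φ g : Perm ℕ)) := by
  obtain ⟨E, hE1, hE2, hE3⟩ := exists_ext hGc hG φ.toMonoidHom h1
  obtain ⟨E', hE1', hE2', hE3'⟩ := exists_ext hDc hD φ.symm.toMonoidHom h2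
  refine ⟨E, E', hE1, hE1', hE2, fun f hf => ?_, fun f hf => ?_, hE3⟩
  · refine endo_eq hGc hG (fun f => E' (E f)) (fun f hf => hE1' _ (hE1 _ hf)) ?_ ?_ hf
    · intro f f' hf hf'
      rw [hE2 f f' hf hf', hE2' _ _ (hE1 _ hf) (hE1 _ hf')]
    · intro g hg
      have e1 := hE3 ⟨g, hg⟩
      have e2 := hE3' (φ ⟨g, hg⟩)
      simp only [MulEquiv.toMonoidHom_eq_coe, MonoidHom.coe_coe] at e1 e2
      rw [e1, e2, φ.symm_apply_apply]
  · refine endo_eq hDc hD (fun f => E (E' f)) (fun f hf => hE1 _ (hE1' _ hf)) ?_ ?_ hf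
    · intro f f' hf hf'
      rw [hE2' f f' hf hf', hE2 _ _ (hE1' _ hf) (hE1' _ hf')]
    · intro g hg
      have e1 := hE3' ⟨g, hg⟩
      have e2 := hE3 (φ.symm ⟨g, hg⟩)
      simp only [MulEquiv.toMonoidHom_eq_coe, MonoidHom.coe_coe] at e1 e2
      rw [e1, e2, φ.apply_symm_apply]

end Pool.Agent.Olig
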